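import Pool.Agent.Helper893_SD.Ray

/-!
Approximate recognition: sets `E` which are respected, up to any given length of test words, by
configurations that can be reached with a given value, and minimal such sets.
-/

namespace Pool.Agent.Helper893SD

open DPDA

variable {α Q Γ G : Type*} [Group G]

/-- While a word `w` is read, at most `C * (|w| + 1)` stack letters are used up. -/
def LinearPop (M : DPDA α Q Γ) (C : ℕ) : Prop :=
  ∀ (q : Q) (T : List Γ) (w : List α) (q' : Q), M.Run (q, T) w (q', []) →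
    T.length ≤ C * (w.length + 1)

/-- Started in the state `v.1` with the stack `[v.2]`, the automaton can read every word and never
uses up its stack. -/
def Total (M : DPDA α Q Γ) (v : Q × Γ) : Prop :=
  (∀ u, ∃ c', M.Run (v.1, [v.2]) u c') ∧ ∀ u q', ¬ M.Run (v.1, [v.2]) u (q', [])

/-- The configuration `c` is reached from `v` by a word of value `g`, and accepts a nonempty word
of length at most `N` only if its value, translated by `g`, is in `E`. -/
def Appr (M : DPDA α Q Γ) (ev : α → G) (v : Q × Γ) (E : Set G) (g : G) (N : ℕ)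
    (c : Q × List Γ) : Prop :=
  (∃ u, val ev u = g ∧ M.Run (v.1, [v.2]) u c) ∧
    ∀ w, w ≠ [] → w.length ≤ N → M.Accepts c w → g * val ev w ∈ E

/-- `E` can be respected up to any length. -/
def Good (M : DPDA α Q Γ) (ev : α → G) (v : Q × Γ) (E : Set G) : Prop :=
  ∀ N, ∃ c, Appr M ev v E 1 N c

/-- Every element of `E` is the value of a short accepted word, uniformly. -/
def UnifAcc (M : DPDA α Q Γ) (ev : α → G) (v : Q × Γ) (E : Set G) : Prop :=
  ∀ (g : G), ∀ x ∈ E, ∃ N, ∀ c, Appr M ev v E g N c →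
    ∃ w, w ≠ [] ∧ w.length ≤ N ∧ g * val ev w = x ∧ M.Accepts c w

variable {M : DPDA α Q Γ} {ev : α → G} {v : Q × Γ} {E : Set G}

theorem Appr.mono {g : G} {N N' : ℕ} {c : Q × List Γ} (h : Appr M ev v E g N c) (hN : N' ≤ N) :
    Appr M ev v E g N' c :=
  ⟨h.1, fun w h1 h2 => h.2 w h1 (le_trans h2 hN)⟩

theorem Appr.step {g : G} {N : ℕ} {c c1 : Q × List Γ} {u : List α} (h : Appr M ev v E g N c)
    (hr : M.Run c u c1) : Appr M ev v E (g * val ev u) (N - u.length) c1 := by
  obtain ⟨⟨u0, hu0, hr0⟩, h2⟩ := h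
  refine ⟨⟨u0 ++ u, by rw [val_append, hu0], hr0.trans hr⟩, fun w hw hl hacc => ?_⟩
  have hw1 : 1 ≤ w.length := List.length_pos_iff.mpr hw
  have h3 := h2 (u ++ w) (by simp [hw]) (by rw [List.length_append]; omega)
    ((accepts_append_iff hr hw).mpr hacc)
  rwa [val_append, ← mul_assoc] at h3

theorem Total.run (hv : Total M v) {u : List α} {c : Q × List Γ}
    (h : M.Run (v.1, [v.2]) u c) (w : List α) : ∃ c', M.Run c w c' := by
  rcases eq_or_ne w [] with rfl | hw
  · exact ⟨c, Run.refl _⟩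
  · obtain ⟨c', hc'⟩ := hv.1 (u ++ w)
    rcases h.det hc' with h1 | ⟨h1, _⟩
    · exact ⟨c', h1⟩
    · exact absurd h1 hw

theorem Appr.run (hv : Total M v) {g : G} {N : ℕ} {c : Q × List Γ} (h : Appr M ev v E g N c)
    (w : List α) : ∃ c', M.Run c w c' := by
  obtain ⟨⟨u, _, hr⟩, _⟩ := h
  exact hv.run hr w

theorem Appr.not_nil (hv : Total M v) {g : G} {N : ℕ} {c : Q × List Γ}
    (h : Appr M ev v E g N c) : c.2 ≠ [] := by
  obtain ⟨⟨u, _, hr⟩, _⟩ := h
  intro h0
  obtain ⟨q, S⟩ := c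
  simp only at h0
  subst h0
  exact hv.2 _ _ hr

theorem Good.at (hs : ∀ g : G, ∃ w, w ≠ [] ∧ val ev w = g) (hv : Total M v)
    (h : Good M ev v E) (g : G) (N : ℕ) : ∃ c, Appr M ev v E g N c := by
  obtain ⟨u, _, hu⟩ := hs g
  obtain ⟨c, hc⟩ := h (N + u.length)
  obtain ⟨c1, hc1⟩ := hc.run hv u
  refine ⟨c1, ?_⟩
  have := hc.step hc1
  rw [one_mul, hu] at this
  exact this.mono (by omega)

theorem exists_minE [Finite α] (hs : ∀ g : G, ∃ w, w ≠ [] ∧ val ev w = g) (hv : Total M v) :
    ∃ E, Good M ev v E ∧ UnifAcc M ev v E := by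
  classical
  obtain ⟨E, hE⟩ := zorn_superset {E : Set G | Good M ev v E} (by
    intro 𝒞 h𝒞 hchain
    refine ⟨⋂₀ 𝒞, ?_, fun s hs => Set.sInter_subset_of_mem hs⟩
    intro N
    rcases 𝒞.eq_empty_or_nonempty with rfl | ⟨E0, hE0⟩
    · refine ⟨(v.1, [v.2]), ⟨[], rfl, Run.refl _⟩, fun w _ _ _ => ?_⟩
      simp
    · have hfin : {w : List α | w.length ≤ N}.Finite := List.finite_length_le α N
      have key : ∀ W : Set (List α), W.Finite → ∃ E1 ∈ 𝒞, ∀ w ∈ W, val ev w ∈ E1 →
          val ev w ∈ ⋂₀ 𝒞 := by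
        intro W hW
        induction W, hW using Set.Finite.induction_on with
        | empty => exact ⟨E0, hE0, fun w hw => absurd hw (Set.notMem_empty w)⟩
        | @insert w W _ _ ih =>
            obtain ⟨E1, hE1, h1⟩ := ih
            by_cases hw : val ev w ∈ ⋂₀ 𝒞
            · refine ⟨E1, hE1, fun w' hw' => ?_⟩
              rcases hw' with rfl | hw'
              · exact fun _ => hw
              · exact h1 w' hw'
            · rw [Set.mem_sInter] at hw
              push Not at hw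
              obtain ⟨E2, hE2, h2⟩ := hw
              rcases hchain.total hE1 hE2 with h3 | h3
              · refine ⟨E1, hE1, fun w' hw' => ?_⟩
                rcases hw' with rfl | hw'
                · exact fun h4 => absurd (h3 h4) h2
                · exact h1 w' hw'
              · refine ⟨E2, hE2, fun w' hw' => ?_⟩
                rcases hw' with rfl | hw'
                · exact fun h4 => absurd h4 h2
                · exact fun h4 => h1 w' hw' (h3 h4)
      obtain ⟨E1, hE1, h1⟩ := key _ hfin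
      obtain ⟨c, hc1, hc2⟩ := h𝒞 hE1 N
      refine ⟨c, hc1, fun w hw hl hacc => ?_⟩
      have h2 := hc2 w hw hl hacc
      rw [one_mul] at h2 ⊢
      exact h1 w hl h2)
  have hgood : Good M ev v E := hE.prop
  refine ⟨E, hgood, ?_⟩
  intro g x hx
  by_contra hcon
  push Not at hcon
  obtain ⟨u', hu'n, hu'⟩ := hs g⁻¹
  have hsmall : Good M ev v (E \ {x}) := by
    intro N
    obtain ⟨c, hc, hrej⟩ := hcon (N + u'.length)
    obtain ⟨c1, hc1⟩ := hc.run hv u'
    have hstep := hc.step hc1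
    rw [hu', mul_inv_cancel] at hstep
    have hstep' := hstep.mono (N' := N) (by omega)
    refine ⟨c1, hstep'.1, fun w hw hl hacc => ⟨hstep'.2 w hw hl hacc, ?_⟩⟩
    intro hwx
    rw [one_mul, Set.mem_singleton_iff] at hwx
    apply hrej (u' ++ w) (by simp [hw]) (by rw [List.length_append]; omega)
    · rw [val_append, hu', mul_inv_cancel_left, hwx]
    · exact (accepts_append_iff hc1 hw).mpr hacc
  have := hE.le_of_le hsmall Set.diff_subset hx
  exact this.2 rfl

/-- A state with a known top part of the stack, above unknown stacks `R N`. -/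
def At (M : DPDA α Q Γ) (ev : α → G) (v : Q × Γ) (E : Set G) (h : G) (q : Q) (T : List Γ)
    (R : ℕ → List Γ) : Prop :=
  ∃ s, ∀ N, Appr M ev v E h (N - s) (q, T ++ R N)

theorem At.step {h : G} {q q' : Q} {T T' : List Γ} {R : ℕ → List Γ} {w : List α}
    (H : At M ev v E h q T R) (hr : M.Run (q, T) w (q', T')) :
    At M ev v E (h * val ev w) q' T' R := by
  obtain ⟨s, hs⟩ := H
  refine ⟨s + w.length, fun N => ?_⟩
  have := (hs N).step (hr.append (R N))
  rwa [Nat.sub_sub] at this

theorem At.assoc {h : G} {q : Q} {T T' : List Γ} {R : ℕ → List Γ}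
    (H : At M ev v E h q (T ++ T') R) : At M ev v E h q T (fun N => T' ++ R N) := by
  obtain ⟨s, hs⟩ := H
  refine ⟨s, fun N => ?_⟩
  have := hs N
  rwa [List.append_assoc] at this

theorem At.assoc' {h : G} {q : Q} {T T' : List Γ} {R : ℕ → List Γ}
    (H : At M ev v E h q T (fun N => T' ++ R N)) : At M ev v E h q (T ++ T') R := by
  obtain ⟨s, hs⟩ := H
  refine ⟨s, fun N => ?_⟩
  rw [List.append_assoc]
  exact hs N

/-- Either the top part is used up along the word or the word can be read above it. -/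
theorem At.split (hv : Total M v) {h : G} {q : Q} {T : List Γ} {R : ℕ → List Γ}
    (H : At M ev v E h q T R) (w : List α) :
    (∃ q' T', M.Run (q, T) w (q', T')) ∨
      ∃ w1 w2 q1, w = w1 ++ w2 ∧ M.Run (q, T) w1 (q1, []) := by
  obtain ⟨s, hs⟩ := H
  obtain ⟨c', hc'⟩ := (hs 0).run hv w
  rcases hc'.split with ⟨T', _, h2⟩ | ⟨w1, w2, q1, h1, h2, _⟩
  · exact Or.inl ⟨_, _, h2⟩
  · exact Or.inr ⟨w1, w2, q1, h1, h2⟩

theorem At.subset (hU : UnifAcc M ev v E) {h1 h2 : G} {q1 q2 : Q} {T1 T2 : ℕ → List Γ}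
    {R : ℕ → List Γ} (H1 : ∀ t, At M ev v E h1 q1 (T1 t) R)
    (H2 : ∀ t, At M ev v E h2 q2 (T2 t) R)
    (H : ∀ n, ∃ t, ∀ w : List α, w ≠ [] → w.length ≤ n → ∀ S,
      M.Accepts (q1, T1 t ++ S) w → M.Accepts (q2, T2 t ++ S) w) :
    tr h1 E ⊆ tr h2 E := by
  intro y hy
  rw [mem_tr] at hy ⊢
  obtain ⟨N, hN⟩ := hU h1 _ hy
  obtain ⟨t, ht⟩ := H N
  obtain ⟨s1, hs1⟩ := H1 t
  obtain ⟨s2, hs2⟩ := H2 t
  obtain ⟨w, hw, hl, hval, hacc⟩ := hN _ ((hs1 (N + s1 + s2)).mono (by omega))
  have hy' : val ev w = y := mul_left_cancel hval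
  have := (hs2 (N + s1 + s2)).2 w hw (by omega) (ht w hw hl _ hacc)
  rwa [hy'] at this

theorem At.unique (hU : UnifAcc M ev v E) {h1 h2 : G} {q : Q} {T : List Γ}
    {R : ℕ → List Γ} (H1 : At M ev v E h1 q T R) (H2 : At M ev v E h2 q T R) :
    tr h1 E = tr h2 E := by
  apply Set.Subset.antisymm
  · exact At.subset hU (T1 := fun _ => T) (T2 := fun _ => T) (fun _ => H1) (fun _ => H2)
      (fun _ => ⟨0, fun _ _ _ _ h => h⟩)
  · exact At.subset hU (T1 := fun _ => T) (T2 := fun _ => T) (fun _ => H2) (fun _ => H1)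
      (fun _ => ⟨0, fun _ _ _ _ h => h⟩)

/-- Configurations of any precision with a common state and a common top part. -/
theorem exists_top [Finite Q] [Finite Γ] {g : G} (h : ∀ N, ∃ c, Appr M ev v E g N c) (L : ℕ) :
    ∃ (q : Q) (T : List Γ) (R : ℕ → List Γ), (∀ N, Appr M ev v E g N (q, T ++ R N)) ∧
      (T.length = L ∨ ∀ N, R N = []) := by
  classical
  choose c hc using h
  have : Finite {l : List Γ // l.length ≤ L} := (List.finite_length_le Γ L).to_subtype
  let f : ℕ → Q × {l : List Γ // l.length ≤ L} := fun N =>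
    ((c N).1, ⟨(c N).2.take L, by simp⟩)
  obtain ⟨⟨q, T⟩, hT⟩ := Finite.exists_infinite_fiber f
  have hT' := Set.infinite_coe_iff.mp hT
  have hN : ∀ N, ∃ N', N < N' ∧ f N' = (q, T) := by
    intro N
    obtain ⟨N', h1, h2⟩ := hT'.exists_gt N
    exact ⟨N', h2, h1⟩
  choose n hn1 hn2 using hN
  have e1 : ∀ N, (c (n N)).1 = q := fun N => congrArg Prod.fst (hn2 N)
  have e2 : ∀ N, (c (n N)).2.take L = T.1 := fun N =>
    congrArg Subtype.val (congrArg Prod.snd (hn2 N))
  refine ⟨q, T.1, fun N => (c (n N)).2.drop L, fun N => ?_, ?_⟩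
  · have e3 : (q, T.1 ++ (c (n N)).2.drop L) = c (n N) := by
      rw [← e1 N, ← e2 N, List.take_append_drop]
    rw [e3]
    exact (hc (n N)).mono (le_of_lt (hn1 N))
  · rcases Nat.lt_or_ge T.1.length L with h1 | h1
    · right
      intro N
      rw [← e2 N, List.length_take] at h1
      apply List.drop_eq_nil_of_le
      omega
    · left
      exact le_antisymm T.2 h1

end Pool.Agent.Helper893SD
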