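import Pool.Agent.Helper893_SD.Trans

/-!
Finite-index subgroups of the core group contain copies of the core group.
-/

namespace Pool.Agent.Helper893SD

open Equiv

theorem shift_pow_in {a b : Fin 3} (h : a ≠ b) (D i : ℕ) :
    ((shift a b h) ^ D) (a, i + D) = (a, i) := by
  induction D generalizing i with
  | zero => simp
  | succ D ih =>
      rw [pow_succ, Perm.mul_apply, ← add_assoc, shift_succ, ih]

theorem shift_pow_cross {a b : Fin 3} (h : a ≠ b) (r s : ℕ) :
    ((shift a b h) ^ (s + 1 + r)) (a, r) = (b, s) := by
  rw [pow_add, Perm.mul_apply]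
  have h1 := shift_pow_in h r 0
  rw [zero_add] at h1
  rw [h1, pow_succ, Perm.mul_apply, shift_zero, shift_pow_out, zero_add]

/-- orientation of a block on ray `c` -/
def ori (k : ℕ) (c : Fin 3) (r : Fin k) : Fin k := if c = 1 then r else r.rev

theorem ori_ori (k : ℕ) (c : Fin 3) (r : Fin k) : ori k c (ori k c r) = r := by
  unfold ori
  split_ifs <;> simp

/-- the points of a ray in blocks of `k` -/
def blk (k : ℕ) (hk : 0 < k) : Om × Fin k ≃ Om where
  toFun x := (x.1.1, k * x.1.2 + (ori k x.1.1 x.2).val)
  invFun y := ((y.1, y.2 / k), ori k y.1 ⟨y.2 % k, Nat.mod_lt _ hk⟩)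
  left_inv := by
    rintro ⟨⟨c, i⟩, r⟩
    have h1 : (k * i + (ori k c r).val) / k = i := by
      rw [Nat.mul_add_div hk, Nat.div_eq_of_lt (ori k c r).2, add_zero]
    have h2 : (k * i + (ori k c r).val) % k = (ori k c r).val := by
      rw [Nat.mul_add_mod, Nat.mod_eq_of_lt (ori k c r).2]
    simp only [h1, h2, Fin.eta, ori_ori]
  right_inv := by
    rintro ⟨c, n⟩
    simp only [ori_ori, Prod.mk.injEq, true_and]
    exact Nat.div_add_mod n k

/-- acting on blocks -/
def beta (k : ℕ) (hk : 0 < k) : Perm Om →* Perm Om where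
  toFun g := (blk k hk).symm.trans ((g.prodCongr (Equiv.refl (Fin k))).trans (blk k hk))
  map_one' := by
    ext1 x
    simp
  map_mul' g g' := by
    ext1 x
    simp only [Equiv.trans_apply, Perm.mul_apply, Equiv.symm_apply_apply]
    rfl

theorem beta_apply (k : ℕ) (hk : 0 < k) (g : Perm Om) (x : Om) (r : Fin k) :
    beta k hk g (blk k hk (x, r)) = blk k hk (g x, r) := by
  simp [beta]

theorem beta_injective (k : ℕ) (hk : 0 < k) : Function.Injective (beta k hk) := by
  intro g g' h
  ext1 x
  have h1 := congrFun (congrArg DFunLike.coe h) (blk k hk (x, ⟨0, hk⟩))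
  rw [beta_apply, beta_apply] at h1
  have h2 := (blk k hk).injective h1
  exact (Prod.mk.inj h2).1

theorem beta_ext (k : ℕ) (hk : 0 < k) {g g' : Perm Om}
    (h : ∀ x r, beta k hk g (blk k hk (x, r)) = g' (blk k hk (x, r))) : beta k hk g = g' := by
  ext1 y
  obtain ⟨⟨x, r⟩, rfl⟩ := (blk k hk).surjective y
  exact h x r

theorem beta_shift01 (k : ℕ) (hk : 0 < k) :
    beta k hk (shift 0 1 (by decide)) = (shift 0 1 (by decide)) ^ k := by
  apply beta_ext
  rintro ⟨c, i⟩ r
  rw [beta_apply]
  have hr := r.2
  fin_cases c
  · rcases i with _ | i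
    · show blk k hk (shift 0 1 (by decide) (0, 0), r) = _
      rw [shift_zero]
      simp only [blk, Equiv.coe_fn_mk, ori, Fin.zero_eta, if_true, Fin.isValue, mul_zero,
        zero_add, zero_ne_one, if_false, Fin.val_rev]
      have h := shift_pow_cross (a := 0) (b := 1) (by decide) (k - (r.val + 1)) r.val
      rw [show r.val + 1 + (k - (r.val + 1)) = k by omega] at h
      exact h.symm
    · show blk k hk (shift 0 1 (by decide) (0, i + 1), r) = _
      rw [shift_succ]
      simp only [blk, Equiv.coe_fn_mk, ori, Fin.zero_eta, Fin.isValue,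
        zero_ne_one, if_false, Fin.val_rev]
      have h := shift_pow_in (a := 0) (b := 1) (by decide) k (k * i + (k - (r.val + 1)))
      rw [show k * i + (k - (r.val + 1)) + k = k * (i + 1) + (k - (r.val + 1)) by ring] at h
      exact h.symm
  · show blk k hk (shift 0 1 (by decide) (1, i), r) = _
    rw [shift_out]
    simp only [blk, Equiv.coe_fn_mk, ori, Fin.mk_one, if_true, Fin.isValue]
    have h := shift_pow_out (a := 0) (b := 1) (by decide) k (k * i + r.val)
    rw [show k * i + r.val + k = k * (i + 1) + r.val by ring] at h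
    exact h.symm
  · show blk k hk (shift 0 1 (by decide) (2, i), r) = _
    rw [shift_other (by decide) (by decide) (by decide)]
    exact (shift_pow_other (a := 0) (b := 1) (c := 2) (by decide) (by decide) (by decide) k _).symm

theorem beta_shift12 (k : ℕ) (hk : 0 < k) :
    beta k hk (shift 1 2 (by decide)) = (shift 1 2 (by decide)) ^ k := by
  apply beta_ext
  rintro ⟨c, i⟩ r
  rw [beta_apply]
  have hr := r.2
  fin_cases c
  · show blk k hk (shift 1 2 (by decide) (0, i), r) = _
    rw [shift_other (by decide) (by decide) (by decide)]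
    exact (shift_pow_other (a := 1) (b := 2) (c := 0) (by decide) (by decide) (by decide) k _).symm
  · rcases i with _ | i
    · show blk k hk (shift 1 2 (by decide) (1, 0), r) = _
      rw [shift_zero]
      simp only [blk, Equiv.coe_fn_mk, ori, Fin.mk_one, if_true, Fin.isValue, mul_zero,
        zero_add]
      rw [if_neg (by decide)]
      have h := shift_pow_cross (a := 1) (b := 2) (by decide) r.val (k - (r.val + 1))
      rw [show k - (r.val + 1) + 1 + r.val = k by omega] at h
      rw [h]
      simp
    · show blk k hk (shift 1 2 (by decide) (1, i + 1), r) = _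
      rw [shift_succ]
      simp only [blk, Equiv.coe_fn_mk, ori, Fin.mk_one, Fin.isValue, if_true]
      have h := shift_pow_in (a := 1) (b := 2) (by decide) k (k * i + r.val)
      rw [show k * i + r.val + k = k * (i + 1) + r.val by ring] at h
      exact h.symm
  · show blk k hk (shift 1 2 (by decide) (2, i), r) = _
    rw [shift_out]
    simp only [blk, Equiv.coe_fn_mk, ori, Fin.reduceFinMk, Fin.isValue]
    rw [if_neg (by decide)]
    have h := shift_pow_out (a := 1) (b := 2) (by decide) k (k * i + r.rev.val)
    rw [show k * i + r.rev.val + k = k * (i + 1) + r.rev.val by ring] at h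
    exact h.symm

end Pool.Agent.Helper893SD
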