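import Pool.Agent.Helper893_SD.Blocks

/-!
Kernels of homomorphisms from the core group to finite groups contain copies of the core group.
-/

namespace Pool.Agent.Helper893SD

open Equiv

theorem finitary_mem_core {g : Perm Om} (h : {x | g x ≠ x}.Finite) : g ∈ Core := by
  have h1 : g ∈ Subgroup.closure {σ : Perm Om | σ.IsSwap} := by
    rw [mem_closure_isSwap']
    have e : (MulAction.fixedBy Om g)ᶜ = {x | g x ≠ x} := by
      ext x
      simp [MulAction.mem_fixedBy]
    rw [e]
    exact h
  refine (Subgroup.closure_le _).mpr ?_ h1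
  rintro s ⟨x, y, _, rfl⟩
  exact swap_mem x y

theorem beta_mem (k : ℕ) (hk : 0 < k) {g : Perm Om} (hg : g ∈ Core) : beta k hk g ∈ Core := by
  have h : Core ≤ Core.comap (beta k hk) := by
    conv_lhs => rw [Core]
    rw [Subgroup.closure_le]
    intro s hs
    simp only [Set.mem_insert_iff, Set.mem_singleton_iff] at hs
    rcases hs with rfl | rfl | rfl
    · show beta k hk _ ∈ Core
      rw [beta_shift01]
      exact Core.pow_mem shift01_mem _
    · show beta k hk _ ∈ Core
      rw [beta_shift12]
      exact Core.pow_mem shift12_mem _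
    · show beta k hk _ ∈ Core
      apply finitary_mem_core
      apply Set.Finite.subset (s := blk k hk '' (({(0, 0), (1, 0)} : Set Om) ×ˢ Set.univ))
      · exact Set.Finite.image _ (Set.Finite.prod (Set.toFinite _) Set.finite_univ)
      · intro y hy
        obtain ⟨⟨x, r⟩, rfl⟩ := (blk k hk).surjective y
        refine ⟨(x, r), ⟨?_, Set.mem_univ _⟩, rfl⟩
        by_contra hx
        simp only [Set.mem_insert_iff, Set.mem_singleton_iff, not_or] at hx
        apply hy
        show beta k hk _ _ = _
        rw [beta_apply, swap_apply_of_ne_of_ne hx.1 hx.2]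
  exact h hg

/-- acting on blocks, inside the core group -/
def betaC (k : ℕ) (hk : 0 < k) : Core →* Core :=
  ((beta k hk).comp Core.subtype).codRestrict Core (fun x => beta_mem k hk x.2)

theorem betaC_coe (k : ℕ) (hk : 0 < k) (x : Core) : (betaC k hk x).1 = beta k hk x.1 := rfl

theorem betaC_injective (k : ℕ) (hk : 0 < k) : Function.Injective (betaC k hk) := by
  intro x y h
  apply Subtype.ext
  apply beta_injective k hk
  exact congrArg Subtype.val h

theorem beta_swap {a b : Om} :
    beta 2 (by norm_num) (swap a b) =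
      swap (blk 2 (by norm_num) (a, 0)) (blk 2 (by norm_num) (b, 0)) *
      swap (blk 2 (by norm_num) (a, 1)) (blk 2 (by norm_num) (b, 1)) := by
  apply beta_ext
  intro x r
  rw [beta_apply, Perm.mul_apply]
  have inj := (blk 2 (by norm_num)).injective
  fin_cases r
  · simp only [Fin.zero_eta, Fin.isValue]
    rw [swap_apply_of_ne_of_ne (x := blk 2 _ (x, 0)) (by
      intro h; have := inj h; simp at this) (by intro h; have := inj h; simp at this)]
    by_cases h1 : x = a
    · subst h1
      rw [swap_apply_left, swap_apply_left]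
    by_cases h2 : x = b
    · subst h2
      rw [swap_apply_right, swap_apply_right]
    rw [swap_apply_of_ne_of_ne h1 h2, swap_apply_of_ne_of_ne]
    · intro h; have := inj h; simp only [Prod.mk.injEq] at this; exact h1 this.1
    · intro h; have := inj h; simp only [Prod.mk.injEq] at this; exact h2 this.1
  · simp only [Fin.mk_one, Fin.isValue]
    by_cases h1 : x = a
    · subst h1
      rw [swap_apply_left, swap_apply_left, swap_apply_of_ne_of_ne]
      · intro h; have := inj h; simp at this
      · intro h; have := inj h; simp at this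
    by_cases h2 : x = b
    · subst h2
      rw [swap_apply_right, swap_apply_right, swap_apply_of_ne_of_ne]
      · intro h; have := inj h; simp at this
      · intro h; have := inj h; simp at this
    rw [swap_apply_of_ne_of_ne h1 h2,
      swap_apply_of_ne_of_ne (x := blk 2 _ (x, 1)) (a := blk 2 _ (a, 1)) (by
        intro h; have := inj h; simp only [Prod.mk.injEq] at this; exact h1 this.1) (by
        intro h; have := inj h; simp only [Prod.mk.injEq] at this; exact h2 this.1),
      swap_apply_of_ne_of_ne (by intro h; have := inj h; simp at this) (by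
        intro h; have := inj h; simp at this)]

/-- homomorphisms to finite groups kill three-cycles -/
theorem c3_ker {F : Type*} [Group F] [Finite F] (π : Core →* F) {x y z : Om} (hxy : x ≠ y)
    (hxz : x ≠ z) (hyz : y ≠ z) : π ⟨c3 x y z, c3_mem _ _ _⟩ = 1 := by
  classical
  set K : Subgroup (Perm Om) := π.ker.map Core.subtype with hK
  have hKm : ∀ g (hg : g ∈ Core), g ∈ K ↔ π ⟨g, hg⟩ = 1 := by
    intro g hg
    rw [hK, Subgroup.mem_map]
    constructor
    · rintro ⟨⟨g', hg'⟩, h1, h2⟩
      simp only [Subgroup.coe_subtype] at h2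
      subst h2
      exact h1
    · intro h
      exact ⟨⟨g, hg⟩, h, rfl⟩
  have hnorm : ∀ g (hg : g ∈ Core), ∀ k ∈ K, g * k * g⁻¹ ∈ K := by
    rintro g hg k hk
    rw [hK, Subgroup.mem_map] at hk
    obtain ⟨k', hk', rfl⟩ := hk
    have hkk : π k' = 1 := hk'
    have hm : g * k'.1 * g⁻¹ ∈ Core := Core.mul_mem (Core.mul_mem hg k'.2) (Core.inv_mem hg)
    show g * k'.1 * g⁻¹ ∈ K
    rw [hKm _ hm]
    have : (⟨g * k'.1 * g⁻¹, hm⟩ : Core) = ⟨g, hg⟩ * k' * (⟨g, hg⟩)⁻¹ := rfl
    rw [this, map_mul, map_mul, hkk, mul_one, map_inv, mul_inv_cancel]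
  have hall := Tri.all (K := K) (by
    intro d e hde
    obtain ⟨i, j, hij, hπ⟩ := Finite.exists_ne_map_eq_of_infinite
      (fun i : ℕ => π ⟨swap e (0, d.2 + e.2 + 1 + i), swap_mem _ _⟩)
    set f1 : Om := (0, d.2 + e.2 + 1 + i) with hf1
    set f2 : Om := (0, d.2 + e.2 + 1 + j) with hf2
    have n1 : f1 ≠ d := by rintro h; have := congrArg Prod.snd h; simp [hf1] at this; omega
    have n2 : f1 ≠ e := by rintro h; have := congrArg Prod.snd h; simp [hf1] at this; omega
    have n3 : f2 ≠ d := by rintro h; have := congrArg Prod.snd h; simp [hf2] at this; omega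
    have n4 : f2 ≠ e := by rintro h; have := congrArg Prod.snd h; simp [hf2] at this; omega
    have n5 : f1 ≠ f2 := by
      intro h; have := congrArg Prod.snd h; simp [hf1, hf2] at this; exact hij this
    have h1 : c3 f1 e f2 ∈ K := by
      rw [hKm _ (c3_mem _ _ _)]
      have : (⟨c3 f1 e f2, c3_mem _ _ _⟩ : Core) =
          ⟨swap e f1, swap_mem _ _⟩ * ⟨swap e f2, swap_mem _ _⟩ := by
        apply Subtype.ext
        simp [c3, swap_comm f1 e]
      rw [this, map_mul, hπ, ← map_mul]
      have e2 : (⟨swap e f2, swap_mem _ _⟩ : Core) * ⟨swap e f2, swap_mem _ _⟩ = 1 := by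
        apply Subtype.ext
        simp
      rw [e2, map_one]
    refine ⟨f2, n3, n4, ?_⟩
    have h2 := hnorm (swap d f1) (swap_mem _ _) _ h1
    rw [conj_c3, swap_apply_right, swap_apply_of_ne_of_ne hde.symm n2.symm,
      swap_apply_of_ne_of_ne n3 n5.symm] at h2
    exact h2)
  have := hall x y z hxy hxz hyz
  exact (hKm _ (c3_mem _ _ _)).mp this

/-- the kernel of a homomorphism to a finite group contains a copy of the core group -/
theorem exists_copy {F : Type*} [Group F] [Finite F] (π : Core →* F) :
    ∃ γ : Core →* Core, Function.Injective γ ∧ ∀ x, π (γ x) = 1 := by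
  classical
  have hm : 0 < Nat.card F := Nat.card_pos
  set γ1 := betaC (Nat.card F) hm with hγ1
  set γ2 := betaC 2 (by norm_num) with hγ2
  refine ⟨γ1.comp γ2, ?_, ?_⟩
  · rw [MonoidHom.coe_comp]
    exact (betaC_injective _ _).comp (betaC_injective _ _)
  · set π1 := π.comp γ1 with hπ1
    have s01 : π1 ⟨shift 0 1 (by decide), shift01_mem⟩ = 1 := by
      have : γ1 ⟨shift 0 1 (by decide), shift01_mem⟩ =
          (⟨shift 0 1 (by decide), shift01_mem⟩ : Core) ^ (Nat.card F) := by
        apply Subtype.ext
        rw [hγ1, betaC_coe, beta_shift01]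
        rfl
      rw [hπ1, MonoidHom.comp_apply, this, map_pow, pow_card_eq_one']
    have s12 : π1 ⟨shift 1 2 (by decide), shift12_mem⟩ = 1 := by
      have : γ1 ⟨shift 1 2 (by decide), shift12_mem⟩ =
          (⟨shift 1 2 (by decide), shift12_mem⟩ : Core) ^ (Nat.card F) := by
        apply Subtype.ext
        rw [hγ1, betaC_coe, beta_shift12]
        rfl
      rw [hπ1, MonoidHom.comp_apply, this, map_pow, pow_card_eq_one']
    have t0 : π1 (γ2 ⟨swap (0, 0) (1, 0), swap0_mem⟩) = 1 := by
      set K : Subgroup (Perm Om) := π1.ker.map Core.subtype with hK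
      have hKc : ∀ x y z, x ≠ ((2, 0) : Om) → y ≠ (2, 0) → z ≠ (2, 0) → x ≠ y → x ≠ z →
          y ≠ z → c3 x y z ∈ K := by
        intro x y z _ _ _ hxy hxz hyz
        rw [hK, Subgroup.mem_map]
        exact ⟨⟨c3 x y z, c3_mem _ _ _⟩, c3_ker π1 hxy hxz hyz, rfl⟩
      have h1 := two_swaps hKc (x := blk 2 (by norm_num) ((0, 0), 0))
        (y := blk 2 (by norm_num) ((1, 0), 0)) (u := blk 2 (by norm_num) ((0, 0), 1))
        (v := blk 2 (by norm_num) ((1, 0), 1)) (by simp [blk]) (by simp [blk]) (by simp [blk])
        (by simp [blk]) (by simp [blk]) (by simp [blk])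
      rw [← beta_swap, hK, Subgroup.mem_map] at h1
      obtain ⟨k, hk, hke⟩ := h1
      have : γ2 ⟨swap (0, 0) (1, 0), swap0_mem⟩ = k := by
        apply Subtype.ext
        rw [hγ2, betaC_coe]
        exact hke.symm
      rw [this]
      exact hk
    have key : ∀ g (hg : g ∈ Core), π1 (γ2 ⟨g, hg⟩) = 1 := by
      intro g hg
      induction hg using Subgroup.closure_induction with
      | mem x hx =>
          simp only [Set.mem_insert_iff, Set.mem_singleton_iff] at hx
          rcases hx with rfl | rfl | rfl
          · have : γ2 ⟨shift 0 1 (by decide), shift01_mem⟩ =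
                (⟨shift 0 1 (by decide), shift01_mem⟩ : Core) ^ 2 := by
              apply Subtype.ext
              rw [hγ2, betaC_coe, beta_shift01]
              rfl
            rw [this, map_pow, s01, one_pow]
          · have : γ2 ⟨shift 1 2 (by decide), shift12_mem⟩ =
                (⟨shift 1 2 (by decide), shift12_mem⟩ : Core) ^ 2 := by
              apply Subtype.ext
              rw [hγ2, betaC_coe, beta_shift12]
              rfl
            rw [this, map_pow, s12, one_pow]
          · exact t0
      | one =>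
          have : (⟨1, Core.one_mem⟩ : Core) = 1 := rfl
          rw [this, map_one, map_one]
      | mul x y hx hy ihx ihy =>
          have : (⟨x * y, Core.mul_mem hx hy⟩ : Core) = ⟨x, hx⟩ * ⟨y, hy⟩ := rfl
          rw [this, map_mul, map_mul, ihx, ihy, one_mul]
      | inv x hx ih =>
          have : (⟨x⁻¹, Core.inv_mem hx⟩ : Core) = (⟨x, hx⟩)⁻¹ := rfl
          rw [this, map_inv, map_inv, ih, inv_one]
    rintro ⟨g, hg⟩
    exact key g hg

end Pool.Agent.Helper893SD
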