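import Mathlib

/-!
Deterministic pushdown automata with silent moves, and a pumping lemma for erasing runs.
-/

namespace Pool.Agent.Helper893SD

/-- A deterministic pushdown automaton with input letters `α`, states `Q` and stack letters `Γ`.
For each state and top stack letter there is either one silent move (`Sum.inl`), or, for each
input letter, at most one reading move (`Sum.inr`). A move replaces the top stack letter by a word
(whose head is the new top). With an empty stack there is no move. -/
structure DPDA (α Q Γ : Type*) where
  /-- the transition table -/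
  move : Q → Γ → (Q × List Γ) ⊕ (α → Option (Q × List Γ))
  /-- the accepting states -/
  final : Set Q

namespace DPDA

variable {α Q Γ : Type*} (M : DPDA α Q Γ)

/-- `M.Run c w c'`: reading exactly the word `w`, the automaton can pass from the configuration
`c` (a state and a stack, top first) to the configuration `c'`. -/
inductive Run : Q × List Γ → List α → Q × List Γ → Prop
  | refl (c : Q × List Γ) : Run c [] c
  | silent {q : Q} {Z : Γ} {S : List Γ} {q' : Q} {T : List Γ} {w : List α} {c : Q × List Γ} :
      M.move q Z = Sum.inl (q', T) → Run (q', T ++ S) w c → Run (q, Z :: S) w c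
  | read {q : Q} {Z : Γ} {S : List Γ} {f : α → Option (Q × List Γ)} {a : α} {q' : Q}
      {T : List Γ} {w : List α} {c : Q × List Γ} :
      M.move q Z = Sum.inr f → f a = some (q', T) → Run (q', T ++ S) w c →
        Run (q, Z :: S) (a :: w) c

/-- Acceptance by final state: after reading all of `w` the automaton can be in a configuration
whose state is accepting. -/
def Accepts (c : Q × List Γ) (w : List α) : Prop :=
  ∃ c', M.Run c w c' ∧ c'.1 ∈ M.final

variable {M}

theorem Run.trans {c c1 c2 : Q × List Γ} {u v : List α} (h : M.Run c u c1) (h' : M.Run c1 v c2) :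
    M.Run c (u ++ v) c2 := by
  induction h with
  | refl c => simpa using h'
  | silent hm _ ih => exact Run.silent hm (ih h')
  | read hm hf _ ih => exact Run.read hm hf (ih h')

/-- appending a stack at the bottom -/
theorem Run.append {c c1 : Q × List Γ} {u : List α} (h : M.Run c u c1) (R : List Γ) :
    M.Run (c.1, c.2 ++ R) u (c1.1, c1.2 ++ R) := by
  induction h with
  | refl c => exact Run.refl _
  | @silent q Z S q' T w c hm _ ih =>
      simp only [List.cons_append]
      refine Run.silent hm ?_
      simpa [List.append_assoc] using ih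
  | @read q Z S f a q' T w c hm hf _ ih =>
      simp only [List.cons_append]
      refine Run.read hm hf ?_
      simpa [List.append_assoc] using ih

theorem Run.nil_stack {q : Q} {w : List α} {c : Q × List Γ} (h : M.Run (q, []) w c) :
    w = [] ∧ c = (q, []) := by
  cases h with
  | refl => exact ⟨rfl, rfl⟩

/-- Determinism. -/
theorem Run.det {c c1 c2 : Q × List Γ} {u v : List α} (h1 : M.Run c u c1)
    (h2 : M.Run c (u ++ v) c2) : M.Run c1 v c2 ∨ (v = [] ∧ M.Run c2 [] c1) := by
  induction h1 with
  | refl c => left; simpa using h2
  | @silent q Z S q' T w c hm hr ih =>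
      generalize hw : w ++ v = wv at h2
      cases h2 with
      | refl =>
          have hw' : w = [] ∧ v = [] := by simpa using hw
          right
          refine ⟨hw'.2, ?_⟩
          rw [hw'.1] at hr
          exact Run.silent hm hr
      | silent hm' hr' =>
          rw [hm] at hm'
          simp only [Sum.inl.injEq, Prod.mk.injEq] at hm'
          obtain ⟨h1, h2⟩ := hm'
          subst h1 h2 hw
          exact ih hr'
      | read hm' hf' hr' =>
          rw [hm] at hm'
          cases hm'
  | @read q Z S f a q' T w c hm hf hr ih =>
      simp only [List.cons_append] at h2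
      cases h2 with
      | silent hm' hr' =>
          rw [hm] at hm'
          cases hm'
      | read hm' hf' hr' =>
          rw [hm] at hm'
          simp only [Sum.inr.injEq] at hm'
          subst hm'
          rw [hf] at hf'
          simp only [Option.some.injEq, Prod.mk.injEq] at hf'
          obtain ⟨h1, h2⟩ := hf'
          subst h1 h2
          exact ih hr'

theorem Run.exists_mid {c c2 : Q × List Γ} {u v : List α} (h : M.Run c (u ++ v) c2) :
    ∃ c1, M.Run c u c1 ∧ M.Run c1 v c2 := by
  generalize hw : u ++ v = w at h
  induction h generalizing u with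
  | refl c =>
      have : u = [] ∧ v = [] := by simpa using hw
      obtain ⟨rfl, rfl⟩ := this
      exact ⟨c, Run.refl _, Run.refl _⟩
  | silent hm hr ih =>
      obtain ⟨c1, h1, h2⟩ := ih hw
      exact ⟨c1, Run.silent hm h1, h2⟩
  | @read q Z S f a q' T w c hm hf hr ih =>
      cases u with
      | nil =>
          simp only [List.nil_append] at hw
          subst hw
          exact ⟨_, Run.refl _, Run.read hm hf hr⟩
      | cons b u =>
          simp only [List.cons_append, List.cons.injEq] at hw
          obtain ⟨rfl, hw⟩ := hw
          obtain ⟨c1, h1, h2⟩ := ih hw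
          exact ⟨c1, Run.read hm hf h1, h2⟩

/-- Reading a nonempty continuation from an intermediate configuration. -/
theorem accepts_append_iff {c c1 : Q × List Γ} {u v : List α} (h : M.Run c u c1) (hv : v ≠ []) :
    M.Accepts c (u ++ v) ↔ M.Accepts c1 v := by
  constructor
  · rintro ⟨c2, h2, hf⟩
    rcases h.det h2 with h3 | ⟨h3, _⟩
    · exact ⟨c2, h3, hf⟩
    · exact absurd h3 hv
  · rintro ⟨c2, h2, hf⟩
    exact ⟨c2, h.trans h2, hf⟩

/-- Splitting a run according to whether the top part `T` of the stack is used up. -/
theorem Run.split {q : Q} {T R : List Γ} {w : List α} {c : Q × List Γ}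
    (h : M.Run (q, T ++ R) w c) :
    (∃ T', c.2 = T' ++ R ∧ M.Run (q, T) w (c.1, T')) ∨
      (∃ w1 w2 q1, w = w1 ++ w2 ∧ M.Run (q, T) w1 (q1, []) ∧ M.Run (q1, R) w2 c) := by
  generalize hc : (q, T ++ R) = c0 at h
  induction h generalizing q T with
  | refl c =>
      left
      subst hc
      exact ⟨T, rfl, Run.refl _⟩
  | @silent q0 Z S q' T' w c hm hr ih =>
      cases T with
      | nil =>
          right
          simp only [List.nil_append, Prod.mk.injEq] at hc
          obtain ⟨rfl, rfl⟩ := hc
          exact ⟨[], w, q, rfl, Run.refl _, Run.silent hm hr⟩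
      | cons Z0 T0 =>
          simp only [List.cons_append, Prod.mk.injEq, List.cons.injEq] at hc
          obtain ⟨rfl, rfl, rfl⟩ := hc
          rcases ih (q := q') (T := T' ++ T0) (by simp) with ⟨T1, h1, h2⟩ | ⟨w1, w2, q1, h1, h2, h3⟩
          · left
            exact ⟨T1, h1, Run.silent hm h2⟩
          · right
            exact ⟨w1, w2, q1, h1, Run.silent hm h2, h3⟩
  | @read q0 Z S f a q' T' w c hm hf hr ih =>
      cases T with
      | nil =>
          right
          simp only [List.nil_append, Prod.mk.injEq] at hc
          obtain ⟨rfl, rfl⟩ := hc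
          exact ⟨[], a :: w, q, rfl, Run.refl _, Run.read hm hf hr⟩
      | cons Z0 T0 =>
          simp only [List.cons_append, Prod.mk.injEq, List.cons.injEq] at hc
          obtain ⟨rfl, rfl, rfl⟩ := hc
          rcases ih (q := q') (T := T' ++ T0) (by simp) with ⟨T1, h1, h2⟩ | ⟨w1, w2, q1, h1, h2, h3⟩
          · left
            exact ⟨T1, h1, Run.read hm hf h2⟩
          · right
            refine ⟨a :: w1, w2, q1, by simp [h1], Run.read hm hf h2, h3⟩

/-- Two emptying runs on the same word end in the same state. -/
theorem Run.empty_unique {c : Q × List Γ} {w : List α} {q1 q2 : Q}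
    (h1 : M.Run c w (q1, [])) (h2 : M.Run c w (q2, [])) : q1 = q2 := by
  have h2' : M.Run c (w ++ []) (q2, []) := by simpa using h2
  rcases h1.det h2' with h | ⟨_, h⟩
  · have := h.nil_stack.2
    simp only [Prod.mk.injEq, and_true] at this
    exact this.symm
  · have := h.nil_stack.2
    simp only [Prod.mk.injEq, and_true] at this
    exact this

/-- `rep U j` is the word `U` repeated `j` times. -/
def rep (U : List Γ) : ℕ → List Γ
  | 0 => []
  | j + 1 => U ++ rep U j

theorem rep_zero (U : List Γ) : rep U 0 = [] := rfl

theorem rep_add (U : List Γ) (i j : ℕ) : rep U (i + j) = rep U i ++ rep U j := by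
  induction i with
  | zero => simp [rep]
  | succ i ih =>
      rw [Nat.succ_add, rep, rep, ih, List.append_assoc]

/-- A silent loop can be repeated. -/
theorem Run.silent_loop {t : Q} {U : List Γ} {d : ℕ} (h : M.Run (t, rep U d) [] (t, [])) (n : ℕ) :
    M.Run (t, rep U (d * n)) [] (t, []) := by
  induction n with
  | zero => simpa [rep] using Run.refl (M := M) (t, ([] : List Γ))
  | succ n ih =>
      have e : d * (n + 1) = d + d * n := by ring
      rw [e, rep_add]
      have h1 := h.append (rep U (d * n))
      simp only [List.nil_append] at h1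
      simpa using h1.trans ih

/-- Splitting an emptying run. -/
theorem Run.split_empty {q q' : Q} {T R : List Γ} {w : List α}
    (h : M.Run (q, T ++ R) w (q', [])) :
    ∃ w1 w2 q1, w = w1 ++ w2 ∧ M.Run (q, T) w1 (q1, []) ∧ M.Run (q1, R) w2 (q', []) := by
  rcases h.split with ⟨T', h1, h2⟩ | h
  · have h1' : T' = [] ∧ R = [] := by
      have := h1.symm
      simpa using this
    obtain ⟨rfl, rfl⟩ := h1'
    exact ⟨w, [], q', by simp, h2, Run.refl _⟩
  · exact h

theorem silent_pump [Fintype Q] {s s' : Q} {U : List Γ} {n : ℕ} (hn : Fintype.card Q ≤ n)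
    (h : M.Run (s, rep U n) [] (s', [])) :
    M.Run (s, rep U (n + (Fintype.card Q).factorial)) [] (s', []) := by
  classical
  -- boundary states
  have hb : ∀ i : Fin (Fintype.card Q + 1), ∃ t : Q,
      M.Run (s, rep U i) [] (t, []) ∧ M.Run (t, rep U (n - i)) [] (s', []) := by
    intro i
    have hi : (i : ℕ) ≤ n := by have := i.2; omega
    have e : n = i + (n - i) := by omega
    rw [e, rep_add] at h
    obtain ⟨w1, w2, q1, hw, h1, h2⟩ := h.split_empty
    have hw' : w1 = [] ∧ w2 = [] := by simpa using hw.symm
    obtain ⟨rfl, rfl⟩ := hw'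
    exact ⟨q1, h1, h2⟩
  choose t ht1 ht2 using hb
  obtain ⟨i, j, hij, htij⟩ := Fintype.exists_ne_map_eq_of_card_lt t (by simp)
  -- wlog i < j
  have key : ∀ i j : Fin (Fintype.card Q + 1), i < j → t i = t j →
      M.Run (s, rep U (n + (Fintype.card Q).factorial)) [] (s', []) := by
    intro i j hlt he
    have hd : (j : ℕ) - i ≤ Fintype.card Q := by have := j.2; omega
    have hd0 : 0 < (j : ℕ) - i := by
      have : (i : ℕ) < j := hlt
      omega
    -- loop at t i
    have hloop : M.Run (t i, rep U ((j : ℕ) - i)) [] (t i, []) := by
      have h1 := ht1 j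
      have e : (j : ℕ) = i + (j - i) := by
        have : (i : ℕ) < j := hlt
        omega
      rw [e, rep_add] at h1
      obtain ⟨w1, w2, q1, hw, h1, h2⟩ := h1.split_empty
      have hw' : w1 = [] ∧ w2 = [] := by simpa using hw.symm
      obtain ⟨rfl, rfl⟩ := hw'
      have : q1 = t i := h1.empty_unique (ht1 i)
      rw [this] at h2
      rwa [← he] at h2
    obtain ⟨m, hm⟩ : ((j : ℕ) - i) ∣ (Fintype.card Q).factorial :=
      Nat.dvd_factorial hd0 hd
    have hl := hloop.silent_loop m
    rw [← hm] at hl
    have hi : (i : ℕ) ≤ n := by have := i.2; omega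
    have e : n + (Fintype.card Q).factorial = i + ((Fintype.card Q).factorial + (n - i)) := by
      omega
    rw [e, rep_add, rep_add]
    have a1 := (ht1 i).append (rep U (Fintype.card Q).factorial ++ rep U (n - i))
    have a2 := hl.append (rep U (n - i))
    simp only [List.nil_append] at a1 a2
    have := (a1.trans a2).trans (ht2 i)
    simpa using this
  rcases lt_or_gt_of_ne hij with h1 | h1
  · exact key i j h1 htij
  · exact key j i h1 htij.symm

theorem pump_rep [Fintype Q] (U : List Γ) (m : ℕ) :
    ∀ (p : List α), p.length ≤ m → ∀ (j : ℕ), (m + 1) * (Fintype.card Q) ≤ j →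
      ∀ s s' : Q, M.Run (s, rep U j) p (s', []) →
        M.Run (s, rep U (j + (Fintype.card Q).factorial)) p (s', []) := by
  induction m with
  | zero =>
      intro p hp j hj s s' h
      have : p = [] := List.length_eq_zero_iff.mp (by omega)
      subst this
      exact silent_pump (by simpa using hj) h
  | succ m ih =>
      intro p hp j hj s s' h
      set N := Fintype.card Q with hN
      have hj' : N ≤ j := by nlinarith [Nat.zero_le ((m+1) * N)]
      have e : j = N + (j - N) := by omega
      rw [e, rep_add] at h
      obtain ⟨w1, w2, q1, hw, h1, h2⟩ := h.split_empty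
      rcases Nat.eq_zero_or_pos w1.length with h0 | h0
      · have hw1 : w1 = [] := List.length_eq_zero_iff.mp h0
        subst hw1
        have h3 := silent_pump (M := M) (le_refl _) h1
        have h4 := (h3.append (rep U (j - N)))
        simp only [List.nil_append] at h4
        have h5 := h4.trans h2
        rw [← rep_add] at h5
        have e2 : N + N.factorial + (j - N) = j + N.factorial := by omega
        rw [← hN, e2] at h5
        simpa [hw] using h5
      · have hlen : w2.length ≤ m := by
          have : p.length = w1.length + w2.length := by rw [hw, List.length_append]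
          omega
        have h3 := ih w2 hlen (j - N) (by
          have : (m + 1 + 1) * N = (m + 1) * N + N := by ring
          omega) q1 s' h2
        have h4 := (h1.append (rep U (j - N + N.factorial)))
        simp only [List.nil_append] at h4
        have h5 := h4.trans h3
        rw [← rep_add] at h5
        have e2 : N + (j - N + N.factorial) = j + N.factorial := by omega
        rw [e2] at h5
        simpa [hw] using h5

/-- Pumping an emptying run. -/
theorem pump [Fintype Q] (T U : List Γ) {p : List α} {j : ℕ}
    (hj : (p.length + 1) * (Fintype.card Q) ≤ j) {s s' : Q}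
    (h : M.Run (s, T ++ rep U j) p (s', [])) :
    M.Run (s, T ++ rep U (j + (Fintype.card Q).factorial)) p (s', []) := by
  obtain ⟨w1, w2, q1, hw, h1, h2⟩ := h.split_empty
  have hlen : w2.length ≤ p.length := by rw [hw, List.length_append]; omega
  have h3 := pump_rep U p.length w2 hlen j hj q1 s' h2
  have h4 := (h1.append (rep U (j + (Fintype.card Q).factorial)))
  simp only [List.nil_append] at h4
  have h5 := h4.trans h3
  rwa [← hw] at h5

/-- Acceptance when the top part of the stack is never used up along the word. -/
theorem accepts_iff_of_not_empty {q : Q} {T : List Γ} {w : List α}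
    (h : ¬ ∃ w1 w2 q1, w = w1 ++ w2 ∧ M.Run (q, T) w1 (q1, [])) (R : List Γ) :
    M.Accepts (q, T ++ R) w ↔ M.Accepts (q, T) w := by
  constructor
  · rintro ⟨c, hc, hf⟩
    rcases hc.split with ⟨T', h1, h2⟩ | ⟨w1, w2, q1, h1, h2, h3⟩
    · exact ⟨_, h2, hf⟩
    · exact absurd ⟨w1, w2, q1, h1, h2⟩ h
  · rintro ⟨c, hc, hf⟩
    exact ⟨_, hc.append R, hf⟩

/-- The main pumping statement: for one of two test words, acceptance does not notice that the
number of blocks `U` is changed by `|Q|!`. -/
theorem accepts_pump [Fintype Q] (q : Q) (T U : List Γ) (y z : List α) (hz : z ≠ []) {j : ℕ}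
    (hj : (y.length + z.length + 1) * (Fintype.card Q) ≤ j) :
    ∃ y', (y' = y ++ z ∨ y' = y ++ z ++ z) ∧ ∀ R : List Γ,
      (M.Accepts (q, T ++ rep U j ++ R) y' ↔
        M.Accepts (q, T ++ rep U (j + (Fintype.card Q).factorial) ++ R) y') := by
  by_cases h : ∃ w1 w2 q1, y ++ z = w1 ++ w2 ∧ M.Run (q, T ++ rep U j) w1 (q1, [])
  · obtain ⟨w1, w2, q1, hw, h1⟩ := h
    refine ⟨y ++ z ++ z, Or.inr rfl, fun R => ?_⟩
    have hlen : w1.length ≤ y.length + z.length := by
      have := congrArg List.length hw
      simp only [List.length_append] at this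
      omega
    have h2 := pump T U (le_trans (Nat.mul_le_mul_right _ (by omega)) hj) h1
    have e : y ++ z ++ z = w1 ++ (w2 ++ z) := by rw [hw, List.append_assoc]
    have hne : w2 ++ z ≠ [] := by
      intro h0
      exact hz (List.append_eq_nil_iff.mp h0).2
    have a1 := h1.append R
    have a2 := h2.append R
    simp only [List.nil_append] at a1 a2
    rw [e, accepts_append_iff a1 hne, accepts_append_iff a2 hne]
  · refine ⟨y ++ z, Or.inl rfl, fun R => ?_⟩
    rw [accepts_iff_of_not_empty h R, rep_add, ← List.append_assoc, List.append_assoc,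
      accepts_iff_of_not_empty h]

end DPDA

end Pool.Agent.Helper893SD
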