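import Pool.Agent.Helper893_SD.Approx

/-!
One configuration with a deep stack: two words reach the same lower part of the stack in the same
state although their values are in conflict.
-/

namespace Pool.Agent.Helper893SD

open DPDA

variable {α Q Γ G : Type*} [Group G]

/-- the word `w` uses up exactly the stack above the last `l` letters of `S`, ending in state `t` -/
def Cross (M : DPDA α Q Γ) (q : Q) (S : List Γ) (l : ℕ) (w : List α) (t : Q) : Prop :=
  M.Run (q, S.take (S.length - l)) w (t, [])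

/-- some initial part of `w` uses up exactly the stack above the last `l` letters -/
def Reaches (M : DPDA α Q Γ) (q : Q) (S : List Γ) (l : ℕ) (w : List α) : Prop :=
  ∃ w1 w2 t, w = w1 ++ w2 ∧ Cross M q S l w1 t

variable {M : DPDA α Q Γ} {q : Q} {S : List Γ}

theorem Reaches.append {l : ℕ} {w : List α} (h : Reaches M q S l w) (w' : List α) :
    Reaches M q S l (w ++ w') := by
  obtain ⟨w1, w2, t, h1, h2⟩ := h
  exact ⟨w1, w2 ++ w', t, by rw [h1, List.append_assoc], h2⟩

theorem take_split {l l' : ℕ} (h : l ≤ l') :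
    S.take (S.length - l) = S.take (S.length - l') ++ (S.take (S.length - l)).drop (S.length - l') := by
  conv_lhs => rw [← List.take_append_drop (S.length - l') (S.take (S.length - l))]
  rw [List.take_take]
  congr 2
  omega

theorem Reaches.mono {l l' : ℕ} {w : List α} (h : Reaches M q S l w) (hl : l ≤ l') :
    Reaches M q S l' w := by
  obtain ⟨w1, w2, t, h1, h2⟩ := h
  unfold Cross at h2
  rw [take_split hl] at h2
  obtain ⟨u1, u2, t', h3, h4, _⟩ := h2.split_empty
  exact ⟨u1, u2 ++ w2, t', by rw [h1, h3, List.append_assoc], h4⟩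

theorem reaches_length (w : List α) : Reaches M q S S.length w := by
  refine ⟨[], w, q, rfl, ?_⟩
  unfold Cross
  rw [Nat.sub_self, List.take_zero]
  exact Run.refl _

open Classical in
/-- the lowest stack height reached -/
noncomputable def low (M : DPDA α Q Γ) (q : Q) (S : List Γ) (w : List α) : ℕ :=
  Nat.find (⟨S.length, reaches_length w⟩ : ∃ l, Reaches M q S l w)

theorem low_spec (w : List α) : Reaches M q S (low M q S w) w := by
  classical
  exact Nat.find_spec (⟨S.length, reaches_length w⟩ : ∃ l, Reaches M q S l w)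

theorem low_le {l : ℕ} {w : List α} (h : Reaches M q S l w) : low M q S w ≤ l := by
  classical
  exact Nat.find_min' (⟨S.length, reaches_length w⟩ : ∃ l, Reaches M q S l w) h

theorem low_append (w w' : List α) : low M q S (w ++ w') ≤ low M q S w :=
  low_le ((low_spec w).append w')

/-- If `w` reaches `l` but its initial part `u` does not, the reaching part extends `u`. -/
theorem Reaches.extends {l : ℕ} {u v : List α} (h : Reaches M q S l (u ++ v))
    (hu : ¬ Reaches M q S l u) : ∃ p r t, v = p ++ r ∧ Cross M q S l (u ++ p) t := by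
  obtain ⟨w1, w2, t, h1, h2⟩ := h
  rcases List.append_eq_append_iff.mp h1 with ⟨as, h3, h4⟩ | ⟨bs, h3, h4⟩
  · exact ⟨as, w2, t, h4, by rw [← h3]; exact h2⟩
  · exact absurd ⟨w1, bs, t, h3, h2⟩ hu

/-- conflicting values -/
def Conf (ev : α → G) (A : G) {n : ℕ} (F : Fin (n + 1) → G) (x y : List α) : Prop :=
  (∃ (i j : Fin (n + 1)) (m m' : ℕ), i ≠ j ∧ val ev x = A ^ m * F i ∧ val ev y = A ^ m' * F j) ∨
    ∃ (z : G) (m m' : ℕ), m ≠ m' ∧ val ev x = A ^ m * z ∧ val ev y = A ^ m' * z

/-- Some power of `a` shows what happens above one letter. -/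
theorem exists_bound_above [Finite α] [Finite Q] [Finite Γ] (M : DPDA α Q Γ) (a : α) (B : ℕ) :
    ∃ n2 : ℕ, ∀ (t : Q) (Z : Γ) (w2 : List α), w2.length ≤ B → ∃ n ≤ n2,
      (∃ p r q', w2 ++ List.replicate n a = p ++ r ∧ M.Run (t, [Z]) p (q', [])) ∨
      (∃ (v0 : Q × Γ) (W : List Γ),
        M.Run (t, [Z]) (w2 ++ List.replicate n a) (v0.1, v0.2 :: W) ∧ Live M a v0) ∨
      ¬ ∃ c', M.Run (t, [Z]) (w2 ++ List.replicate n a) c' := by
  classical
  have hone : ∀ (t : Q) (Z : Γ) (w2 : List α), ∃ n,
      (∃ p r q', w2 ++ List.replicate n a = p ++ r ∧ M.Run (t, [Z]) p (q', [])) ∨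
      (∃ (v0 : Q × Γ) (W : List Γ),
        M.Run (t, [Z]) (w2 ++ List.replicate n a) (v0.1, v0.2 :: W) ∧ Live M a v0) ∨
      ¬ ∃ c', M.Run (t, [Z]) (w2 ++ List.replicate n a) c' := by
    intro t Z w2
    by_contra hcon
    push Not at hcon
    obtain ⟨c0, hc0⟩ := (hcon 0).2.2
    rw [List.replicate_zero, List.append_nil] at hc0
    have h1 : ∀ n, ∃ c', M.Run c0 (List.replicate n a) c' := by
      intro n
      obtain ⟨c', hc'⟩ := (hcon n).2.2
      rcases hc0.det hc' with h2 | ⟨h2, _⟩
      · exact ⟨_, h2⟩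
      · rw [h2]
        exact ⟨_, Run.refl _⟩
    have h2 : ∀ n q', ¬ M.Run c0 (List.replicate n a) (q', []) := fun n q' h =>
      (hcon n).1 _ [] q' (by rw [List.append_nil]) (hc0.trans h)
    obtain ⟨v1, W, n, _, hr, hl⟩ := exists_live h1 h2 0
    exact (hcon n).2.1 v1 W (hc0.trans hr) hl
  choose f hf using hone
  have : Finite {l : List α // l.length ≤ B} := (List.finite_length_le α B).to_subtype
  have := Fintype.ofFinite (Q × Γ × {l : List α // l.length ≤ B})
  refine ⟨∑ x : Q × Γ × {l : List α // l.length ≤ B}, f x.1 x.2.1 x.2.2.1, ?_⟩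
  intro t Z w2 hw2
  refine ⟨f t Z w2, ?_, hf t Z w2⟩
  exact Finset.single_le_sum
    (f := fun x : Q × Γ × {l : List α // l.length ≤ B} => f x.1 x.2.1 x.2.2.1)
    (fun _ _ => Nat.zero_le _) (Finset.mem_univ (t, Z, ⟨w2, hw2⟩))

end Pool.Agent.Helper893SD
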