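import Pool.Agent.Helper893_SD.Deep

/-!
Deep stacks: finding a conflict.
-/

namespace Pool.Agent.Helper893SD

open DPDA

variable {α Q Γ G : Type*} [Group G] {M : DPDA α Q Γ} {ev : α → G} {q : Q} {S : List Γ}

/-- If `w a^N1` does not reach `l`, then some `w a^n k` does not reach `l`, or there is a conflict. -/
theorem dive [Fintype Q] {n : ℕ} (F : Fin (n + 1) → G) (a : α) {L0 N1 B l : ℕ}
    (hN1 : Fintype.card Q * (L0 + 1) < N1) {w : List α} {k : List α} (hk : k.length ≤ L0)
    (hw : w.length + N1 + L0 ≤ B) (hl : ¬ Reaches M q S l (w ++ List.replicate N1 a))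
    {z : G} {e : ℕ} (hv : val ev w = ev a ^ e * z) (hz : Commute (ev a) z)
    (hcf : ∀ l x y t, x.length ≤ B → y.length ≤ B → Cross M q S l x t → Cross M q S l y t →
      ¬ Conf ev (ev a) F x y) :
    ∃ m, 1 ≤ m ∧ m ≤ N1 ∧ ¬ Reaches M q S l (w ++ List.replicate m a ++ k) := by
  classical
  by_contra hcon
  push Not at hcon
  have hna : ∀ m ≤ N1, ¬ Reaches M q S l (w ++ List.replicate m a) := by
    intro m hm h
    apply hl
    have := h.append (List.replicate (N1 - m) a)
    rwa [List.append_assoc, ← List.replicate_add, Nat.add_sub_cancel' hm] at this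
  have hex : ∀ m : Fin N1, ∃ p r t, k = p ++ r ∧
      Cross M q S l (w ++ List.replicate (m.1 + 1) a ++ p) t := by
    intro m
    exact (hcon (m.1 + 1) (by omega) (by omega)).extends (hna _ (by omega))
  choose p r t hp hc using hex
  have hlen : ∀ m, (p m).length < L0 + 1 := by
    intro m
    have := congrArg List.length (hp m)
    rw [List.length_append] at this
    omega
  let f : Fin N1 → Q × Fin (L0 + 1) := fun m => (t m, ⟨(p m).length, hlen m⟩)
  obtain ⟨m, m', hmm, hf⟩ := Fintype.exists_ne_map_eq_of_card_lt f (by simpa using hN1)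
  simp only [f, Prod.mk.injEq, Fin.mk.injEq] at hf
  have hpp : p m = p m' := by
    have h1 := hp m
    rw [hp m'] at h1
    exact (List.append_inj_left h1 hf.2.symm).symm
  have hval : ∀ m : Fin N1, val ev (w ++ List.replicate (m.1 + 1) a ++ p m) =
      ev a ^ (e + (m.1 + 1)) * (z * val ev (p m)) := by
    intro m
    rw [val_append, val_append, val_replicate, hv, pow_add (ev a) e, mul_assoc (ev a ^ e) z,
      ← (hz.pow_left (m.1 + 1)).eq]
    simp only [mul_assoc]
  have hl' : ∀ m : Fin N1, (w ++ List.replicate (m.1 + 1) a ++ p m).length ≤ B := by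
    intro m
    rw [List.length_append, List.length_append, List.length_replicate]
    have := hlen m
    have := m.2
    omega
  refine hcf l _ _ (t m) (hl' m) (hl' m') (hc m) (hf.1 ▸ hc m') (Or.inr ⟨z * val ev (p m), _, _,
    ?_, hval m, by rw [hval m', hpp]⟩)
  intro h
  apply hmm
  apply Fin.ext
  omega

/-- The step: a new base word whose `a`-continuations stay strictly higher. -/
theorem deep_step [Fintype Q] {n : ℕ} (hn : Fintype.card Q ≤ n) (F : Fin (n + 1) → G) (a : α)
    (hF : ∀ i, Commute (ev a) (F i)) {k : Fin (n + 1) → Fin (n + 1) → List α}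
    (hkv : ∀ i j, val ev (k i j) = (F i)⁻¹ * F j) {L0 N1 B B1 n2 : ℕ}
    (hk : ∀ i j, (k i j).length ≤ L0) (hN1 : Fintype.card Q * (L0 + 1) < N1)
    (hn2 : ∀ (t : Q) (Z : Γ) (w2 : List α), w2.length ≤ B1 → ∃ m ≤ n2,
      (∃ p r q', w2 ++ List.replicate m a = p ++ r ∧ M.Run (t, [Z]) p (q', [])) ∨
      (∃ (v0 : Q × Γ) (W : List Γ),
        M.Run (t, [Z]) (w2 ++ List.replicate m a) (v0.1, v0.2 :: W) ∧ Live M a v0) ∨
      ¬ ∃ c', M.Run (t, [Z]) (w2 ++ List.replicate m a) c')
    (hB : B1 + N1 + n2 ≤ B)
    (htot : ∀ w, ∃ c', M.Run (q, S) w c') (hne : ∀ w q', ¬ M.Run (q, S) w (q', []))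
    (hlive : ∀ w : List α, w.length ≤ B → (∃ (i : Fin (n + 1)) (m : ℕ), val ev w = ev a ^ m * F i) →
      ∀ (v0 : Q × Γ) R', M.Run (q, S) w (v0.1, v0.2 :: R') → ¬ Live M a v0)
    (hcf : ∀ l x y t, x.length ≤ B → y.length ≤ B → Cross M q S l x t → Cross M q S l y t →
      ¬ Conf ev (ev a) F x y)
    {w : List α} (hw : w.length + N1 + L0 + N1 ≤ B1) {i : Fin (n + 1)} {e : ℕ}
    (hv : val ev w = ev a ^ e * F i) :
    ∃ (z : List α) (e' : ℕ) (i' : Fin (n + 1)), z.length ≤ N1 + L0 ∧ e < e' ∧
      val ev (w ++ z) = ev a ^ e' * F i' ∧
      low M q S (w ++ List.replicate N1 a) < low M q S (w ++ z ++ List.replicate N1 a) := by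
  classical
  set A := ev a with hA
  -- the level just below the lowest one reached by `w a^N1`
  have hlow0 : 0 < low M q S (w ++ List.replicate N1 a) := by
    by_contra h
    have h0 : low M q S (w ++ List.replicate N1 a) = 0 := by omega
    obtain ⟨w1, w2, t, _, h2⟩ := h0 ▸ low_spec (M := M) (q := q) (S := S) (w ++ List.replicate N1 a)
    unfold Cross at h2
    rw [Nat.sub_zero, List.take_length] at h2
    exact hne _ _ h2
  obtain ⟨l, hl⟩ : ∃ l, low M q S (w ++ List.replicate N1 a) = l + 1 :=
    ⟨_, (Nat.succ_pred_eq_of_pos hlow0).symm⟩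
  have hlS : l + 1 ≤ S.length := by
    rw [← hl]
    exact low_le (reaches_length _)
  have hnl : ¬ Reaches M q S l (w ++ List.replicate N1 a) := by
    intro h
    have := low_le h
    omega
  choose m hm1 hm2 hm3 using fun j => dive (M := M) (q := q) (S := S) F a hN1 (hk i j)
    (by omega : w.length + N1 + L0 ≤ B) hnl hv (hF i) hcf
  have hvj : ∀ j, val ev (w ++ List.replicate (m j) a ++ k i j) = A ^ (e + m j) * F j := by
    intro j
    rw [val_append, val_append, val_replicate, hv, hkv, ← hA, pow_add, mul_assoc (A ^ e),
      ← ((hF i).pow_left (m j)).eq, mul_assoc, mul_assoc (A ^ m j), mul_inv_cancel_left,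
      ← mul_assoc]
  by_cases hall : ∀ j, Reaches M q S l
      (w ++ List.replicate (m j) a ++ k i j ++ List.replicate (N1 + n2) a)
  · exfalso
    choose p r t hp hc using fun j => (hall j).extends (hm3 j)
    obtain ⟨j, j', hjj, ht⟩ := Fintype.exists_ne_map_eq_of_card_lt t
      (by rw [Fintype.card_fin]; omega)
    have hpj : ∀ j, p j = List.replicate (p j).length a ∧ (p j).length ≤ N1 + n2 := by
      intro j
      obtain ⟨h1, _, h3⟩ := prefix_replicate (hp j)
      exact ⟨h1, by omega⟩
    have hval : ∀ j, val ev (w ++ List.replicate (m j) a ++ k i j ++ p j) =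
        A ^ (e + m j + (p j).length) * F j := by
      intro j
      rw [val_append, hvj, (hpj j).1, val_replicate, List.length_replicate, ← hA, mul_assoc,
        ← ((hF j).pow_left _).eq, ← mul_assoc, ← pow_add]
    have hlen : ∀ j, (w ++ List.replicate (m j) a ++ k i j ++ p j).length ≤ B := by
      intro j
      simp only [List.length_append, List.length_replicate]
      have := hk i j
      have := (hpj j).2
      have := hm2 j
      omega
    exact hcf l _ _ (t j) (hlen j) (hlen j') (hc j) (ht ▸ hc j')
      (Or.inl ⟨j, j', _, _, hjj, hval j, hval j'⟩)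
  · push Not at hall
    obtain ⟨j, hj⟩ := hall
    refine ⟨List.replicate (m j) a ++ k i j, e + m j, j, ?_, ?_, ?_, ?_⟩
    · rw [List.length_append, List.length_replicate]
      have := hk i j
      have := hm2 j
      omega
    · have := hm1 j
      omega
    · rw [← List.append_assoc]
      exact hvj j
    · rw [← List.append_assoc, hl]
      by_contra hcon
      have hreach : Reaches M q S (l + 1)
          (w ++ List.replicate (m j) a ++ k i j ++ List.replicate N1 a) :=
        (low_spec _).mono (by omega)
      obtain ⟨w1, w2, t, h1, h2⟩ := hreach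
      unfold Cross at h2
      -- the stack is split at this level
      obtain ⟨Z, R'', hZ, hR''⟩ : ∃ Z R'', S = S.take (S.length - (l + 1)) ++ Z :: R'' ∧
          R''.length = l := by
        have hd : (S.drop (S.length - (l + 1))).length = l + 1 := by
          rw [List.length_drop]
          omega
        cases hdd : S.drop (S.length - (l + 1)) with
        | nil => rw [hdd] at hd; simp at hd
        | cons Z R'' =>
            refine ⟨Z, R'', ?_, ?_⟩
            · rw [← hdd, List.take_append_drop]
            · rw [hdd] at hd
              simpa using hd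
      have htk : S.take (S.length - l) = S.take (S.length - (l + 1)) ++ [Z] := by
        have e0 : ∀ T : List Γ, S = T ++ Z :: R'' → S.take (T.length + 1) = T ++ [Z] := by
          intro T hT
          rw [hT, List.take_length_add_append]
          rfl
        have e1 : S.length - l = (S.take (S.length - (l + 1))).length + 1 := by
          rw [List.length_take]
          omega
        rw [e1]
        exact e0 _ hZ
      have hw2 : w2.length ≤ B1 := by
        have := congrArg List.length h1
        simp only [List.length_append, List.length_replicate] at this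
        have := hk i j
        have := hm2 j
        omega
      obtain ⟨n', hn', hor⟩ := hn2 t Z w2 hw2
      have hrun1 : M.Run (q, S) w1 (t, Z :: R'') := by
        have := h2.append (Z :: R'')
        simp only [List.nil_append] at this
        rwa [← hZ] at this
      -- emptying is impossible
      have hnoemp : ¬ ∃ p r q', w2 ++ List.replicate n' a = p ++ r ∧
          M.Run (t, [Z]) p (q', []) := by
        rintro ⟨p, r, q', h3, h4⟩
        apply hj
        have h5 : Cross M q S l (w1 ++ p) q' := by
          unfold Cross
          rw [htk]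
          have h6 := h2.append [Z]
          simp only [List.nil_append] at h6
          exact h6.trans h4
        have h6 : Reaches M q S l (w1 ++ (w2 ++ List.replicate n' a)) :=
          ⟨w1 ++ p, r, q', by rw [h3, List.append_assoc], h5⟩
        have h7 := h6.append (List.replicate (n2 - n') a)
        have e2 : w1 ++ (w2 ++ List.replicate n' a) ++ List.replicate (n2 - n') a =
            w ++ List.replicate (m j) a ++ k i j ++ List.replicate (N1 + n2) a := by
          rw [← List.append_assoc w1, ← h1, List.append_assoc _ (List.replicate n' a),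
            ← List.replicate_add, Nat.add_sub_cancel' hn', List.append_assoc _ (List.replicate N1 a),
            ← List.replicate_add]
        rwa [e2] at h7
      rcases hor with h3 | ⟨v0, W, h3, h4⟩ | h3
      · exact hnoemp h3
      · -- a live configuration
        have h5 := h3.append R''
        simp only [List.cons_append, List.nil_append] at h5
        have h6 := hrun1.trans h5
        rw [← List.append_assoc, ← h1, List.append_assoc _ (List.replicate N1 a),
          ← List.replicate_add] at h6
        refine hlive _ ?_ ⟨j, e + m j + (N1 + n'), ?_⟩ v0 _ h6 h4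
        · simp only [List.length_append, List.length_replicate]
          have := hk i j
          have := hm2 j
          omega
        · rw [val_append, hvj, val_replicate, ← hA, mul_assoc, ← ((hF j).pow_left _).eq,
            ← mul_assoc, ← pow_add]
      · -- there is always a run
        obtain ⟨c', hc'⟩ := htot (w1 ++ (w2 ++ List.replicate n' a))
        rcases hrun1.det hc' with h4 | ⟨h4, _⟩
        · have h4' : M.Run (t, [Z] ++ R'') (w2 ++ List.replicate n' a) c' := by simpa using h4
          rcases h4'.split with ⟨T', _, h6⟩ | ⟨u1, u2, q1, h6, h7, _⟩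
          · exact h3 ⟨_, h6⟩
          · exact hnoemp ⟨u1, u2, q1, h6, h7⟩
        · rw [h4] at h3
          exact h3 ⟨_, Run.refl _⟩

end Pool.Agent.Helper893SD
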