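import Pool.Agent.Helper893_SD.Deep2

/-!
Deep stacks: a conflict always exists.
-/

namespace Pool.Agent.Helper893SD

open DPDA

variable {α Q Γ G : Type*} [Group G]

theorem exists_conflict [Finite α] [Fintype Q] [Finite Γ] (M : DPDA α Q Γ) (ev : α → G)
    (hs : ∀ g : G, ∃ w, w ≠ [] ∧ val ev w = g) {n : ℕ} (hn : Fintype.card Q ≤ n)
    (F : Fin (n + 1) → G) (a : α) (hF : ∀ i, Commute (ev a) (F i)) :
    ∃ B : ℕ, ∀ (q : Q) (S : List Γ), (∀ w, ∃ c', M.Run (q, S) w c') →
      (∀ w q', ¬ M.Run (q, S) w (q', [])) →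
      (∀ w : List α, w.length ≤ B → (∃ (i : Fin (n + 1)) (m : ℕ), val ev w = ev a ^ m * F i) →
        ∀ (v0 : Q × Γ) R', M.Run (q, S) w (v0.1, v0.2 :: R') → ¬ Live M a v0) →
      ∃ l x y t, x.length ≤ B ∧ y.length ≤ B ∧ Cross M q S l x t ∧ Cross M q S l y t ∧
        Conf ev (ev a) F x y := by
  classical
  choose k _ hkv using fun i j => hs ((F i)⁻¹ * F j)
  obtain ⟨w0, _, hw0⟩ := hs (F 0)
  set L0 := ∑ i, ∑ j, (k i j).length with hL0
  have hk : ∀ i j, (k i j).length ≤ L0 := by
    intro i j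
    have h1 : (k i j).length ≤ ∑ j, (k i j).length :=
      Finset.single_le_sum (f := fun j => (k i j).length) (fun _ _ => Nat.zero_le _)
        (Finset.mem_univ j)
    have h2 : ∑ j, (k i j).length ≤ L0 :=
      Finset.single_le_sum (f := fun i => ∑ j, (k i j).length) (fun _ _ => Nat.zero_le _)
        (Finset.mem_univ i)
    exact le_trans h1 h2
  set N1 := Fintype.card Q * (L0 + 1) + 1 with hN1
  set J := Fintype.card Q * (N1 + 1) + 1 with hJ
  set b := N1 + L0 with hb
  set B1 := w0.length + J * b + N1 + L0 + N1 with hB1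
  obtain ⟨n2, hn2⟩ := exists_bound_above M a B1
  refine ⟨B1 + N1 + n2, ?_⟩
  intro q S htot hne hlive
  by_contra hcon
  have hcf : ∀ l x y t, x.length ≤ B1 + N1 + n2 → y.length ≤ B1 + N1 + n2 →
      Cross M q S l x t → Cross M q S l y t → ¬ Conf ev (ev a) F x y := by
    intro l x y t h1 h2 h3 h4 h5
    exact hcon ⟨l, x, y, t, h1, h2, h3, h4, h5⟩
  let V : List α × ℕ × Fin (n + 1) → Prop := fun x =>
    x.1.length + N1 + L0 + N1 ≤ B1 ∧ val ev x.1 = ev a ^ x.2.1 * F x.2.2
  have hex : ∀ x : List α × ℕ × Fin (n + 1), ∃ y : List α × ℕ × Fin (n + 1), V x →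
      (∃ z : List α, y.1 = x.1 ++ z ∧ z.length ≤ b) ∧ x.2.1 < y.2.1 ∧
      val ev y.1 = ev a ^ y.2.1 * F y.2.2 ∧
      low M q S (x.1 ++ List.replicate N1 a) < low M q S (y.1 ++ List.replicate N1 a) := by
    intro x
    by_cases hx : V x
    · obtain ⟨z, e', i', h1, h2, h3, h4⟩ := deep_step (M := M) (q := q) (S := S) hn F a hF hkv hk
        (by omega) hn2 (le_refl _) htot hne hlive hcf hx.1 hx.2
      exact ⟨(x.1 ++ z, e', i'), fun _ => ⟨⟨z, rfl, h1⟩, h2, h3, h4⟩⟩
    · exact ⟨x, fun h => absurd h hx⟩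
  choose nxt hnxt using hex
  let s : ℕ → List α × ℕ × Fin (n + 1) := fun j => nxt^[j] (w0, 0, 0)
  have hsucc : ∀ j, s (j + 1) = nxt (s j) := fun j => Function.iterate_succ_apply' nxt j _
  have hVs : ∀ j, (s j).1.length ≤ w0.length + j * b →
      val ev (s j).1 = ev a ^ (s j).2.1 * F (s j).2.2 → j ≤ J → V (s j) := by
    intro j h1 h2 hj
    refine ⟨?_, h2⟩
    have : j * b ≤ J * b := Nat.mul_le_mul_right _ hj
    omega
  have hbase : ∀ j, j ≤ J → (s j).1.length ≤ w0.length + j * b ∧
      val ev (s j).1 = ev a ^ (s j).2.1 * F (s j).2.2 := by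
    intro j
    induction j with
    | zero =>
        intro _
        refine ⟨by simp [s], ?_⟩
        simp [s, hw0]
    | succ j ih =>
        intro hj
        obtain ⟨h1, h2⟩ := ih (by omega)
        obtain ⟨⟨z, h3, h4⟩, _, h5, _⟩ := hnxt (s j) (hVs j h1 h2 (by omega))
        rw [hsucc]
        refine ⟨?_, h5⟩
        rw [h3, List.length_append, Nat.succ_mul]
        omega
  have hmono : ∀ d i, i + d ≤ J → (∃ z, (s (i + d)).1 = (s i).1 ++ z) ∧
      (s i).2.1 + d ≤ (s (i + d)).2.1 ∧
      low M q S ((s i).1 ++ List.replicate N1 a) + d ≤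
        low M q S ((s (i + d)).1 ++ List.replicate N1 a) := by
    intro d
    induction d with
    | zero => intro i _; exact ⟨⟨[], by simp⟩, le_refl _, le_refl _⟩
    | succ d ih =>
        intro i hi
        obtain ⟨⟨z, h1⟩, h2, h3⟩ := ih i (by omega)
        obtain ⟨b1, b2⟩ := hbase (i + d) (by omega)
        obtain ⟨⟨z', h4, _⟩, h5, _, h6⟩ := hnxt (s (i + d)) (hVs _ b1 b2 (by omega))
        rw [← hsucc] at h4 h5 h6
        rw [← Nat.add_assoc]
        refine ⟨⟨z ++ z', by rw [h4, h1, List.append_assoc]⟩, by omega, by omega⟩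
  -- the level just below the lowest one reached by the last word
  have hlowJ : 0 < low M q S (s J).1 := by
    by_contra h
    have h0 : low M q S (s J).1 = 0 := by omega
    obtain ⟨w1, w2, t, _, h2⟩ := h0 ▸ low_spec (M := M) (q := q) (S := S) (s J).1
    unfold Cross at h2
    rw [Nat.sub_zero, List.take_length] at h2
    exact hne _ _ h2
  set l := low M q S (s J).1 - 1 with hl
  have hnJ : ¬ Reaches M q S l (s J).1 := by
    intro h
    have := low_le h
    omega
  have hcr : ∀ j : Fin J, ∃ p r t, List.replicate N1 a = p ++ r ∧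
      Cross M q S l ((s j).1 ++ p) t := by
    intro j
    obtain ⟨⟨z, h1⟩, _, h3⟩ := hmono (J - j) j (by omega)
    have ej : (j : ℕ) + (J - j) = J := by have := j.2; omega
    rw [ej] at h1 h3
    have h4 : Reaches M q S l ((s j).1 ++ List.replicate N1 a) := by
      apply (low_spec _).mono
      have h5 := low_append (M := M) (q := q) (S := S) (s J).1 (List.replicate N1 a)
      have := j.2
      omega
    have h5 : ¬ Reaches M q S l (s j).1 := by
      intro h
      apply hnJ
      rw [h1]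
      exact h.append z
    exact h4.extends h5
  choose p r t hp hc using hcr
  have hpj : ∀ j, p j = List.replicate (p j).length a ∧ (p j).length ≤ N1 := by
    intro j
    obtain ⟨h1, _, h3⟩ := prefix_replicate (hp j)
    exact ⟨h1, by omega⟩
  let f : Fin J → Q × Fin (N1 + 1) := fun j => (t j, ⟨(p j).length, by have := (hpj j).2; omega⟩)
  obtain ⟨j, j', hjj, hf⟩ := Fintype.exists_ne_map_eq_of_card_lt f (by
    rw [Fintype.card_prod, Fintype.card_fin, Fintype.card_fin]
    omega)
  simp only [f, Prod.mk.injEq, Fin.mk.injEq] at hf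
  have hval : ∀ j : Fin J, val ev ((s j).1 ++ p j) =
      ev a ^ ((s j).2.1 + (p j).length) * F (s j).2.2 := by
    intro j
    obtain ⟨_, b2⟩ := hbase j (by have := j.2; omega)
    rw [val_append, b2, (hpj j).1, val_replicate, List.length_replicate, mul_assoc,
      ← ((hF _).pow_left _).eq, ← mul_assoc, ← pow_add]
  have hlen : ∀ j : Fin J, ((s j).1 ++ p j).length ≤ B1 + N1 + n2 := by
    intro j
    obtain ⟨b1, _⟩ := hbase j (by have := j.2; omega)
    have h2 : (j : ℕ) * b ≤ J * b := Nat.mul_le_mul_right _ (by have := j.2; omega)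
    have h3 := (hpj j).2
    rw [List.length_append]
    omega
  have hee : (s j).2.1 ≠ (s j').2.1 := by
    have hne' : (j : ℕ) ≠ j' := fun h => hjj (Fin.ext h)
    rcases lt_or_gt_of_ne hne' with h | h
    · obtain ⟨_, h2, _⟩ := hmono (j' - j) j (by have := j'.2; omega)
      have e1 : (j : ℕ) + (j' - j) = j' := by omega
      rw [e1] at h2
      omega
    · obtain ⟨_, h2, _⟩ := hmono (j - j') j' (by have := j.2; omega)
      have e1 : (j' : ℕ) + (j - j') = j := by omega
      rw [e1] at h2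
      omega
  refine hcf l _ _ (t j) (hlen j) (hlen j') (hc j) (hf.1 ▸ hc j') ?_
  by_cases hi : (s j).2.2 = (s j').2.2
  · right
    refine ⟨F (s j).2.2, _, _, ?_, hval j, by rw [hi]; exact hval j'⟩
    omega
  · left
    exact ⟨_, _, _, _, hi, hval j, hval j'⟩

end Pool.Agent.Helper893SD
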