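import Pool.Agent.Helper893_SD.Trans

/-!
Finitely many sets with large stabilisers do not separate a suitable three-cycle from `1`.
-/

namespace Pool.Agent.Helper893SD

open Equiv

/-- left stabiliser in the core group -/
def stab (B : Set (Perm Om)) : Subgroup (Perm Om) where
  carrier := {k | k ∈ Core ∧ ∀ y ∈ Core, (k * y ∈ B ↔ y ∈ B)}
  one_mem' := ⟨Core.one_mem, fun y _ => by rw [one_mul]⟩
  mul_mem' := by
    rintro k k' ⟨h1, h2⟩ ⟨h3, h4⟩
    refine ⟨Core.mul_mem h1 h3, fun y hy => ?_⟩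
    rw [mul_assoc, h2 _ (Core.mul_mem h3 hy), h4 y hy]
  inv_mem' := by
    rintro k ⟨h1, h2⟩
    refine ⟨Core.inv_mem h1, fun y hy => ?_⟩
    rw [← h2 _ (Core.mul_mem (Core.inv_mem h1) hy), mul_inv_cancel_left]

theorem mem_stab {B : Set (Perm Om)} {k : Perm Om} :
    k ∈ stab B ↔ k ∈ Core ∧ ∀ y ∈ Core, (k * y ∈ B ↔ y ∈ B) := Iff.rfl

/-- the hypothesis on a subgroup: one direction -/
def Hyp (K : Subgroup (Perm Om)) (D : ℕ) : Prop :=
  ∀ g ∈ Core,
    (g * (shift 0 1 (by decide)) ^ D * g⁻¹ ∈ K ∨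
      ∀ i j k : ℕ, i ≠ j → i ≠ k → j ≠ k → g * c3 (2, i) (2, j) (2, k) * g⁻¹ ∈ K) ∧
    (g * (shift 1 2 (by decide)) ^ D * g⁻¹ ∈ K ∨
      ∀ i j k : ℕ, i ≠ j → i ≠ k → j ≠ k → g * c3 (0, i) (0, j) (0, k) * g⁻¹ ∈ K)

/-- a subgroup with a distinguished token `p` -/
structure Pointed (K : Subgroup (Perm Om)) (p : Om) : Prop where
  tri : ∀ x y z, x ≠ p → y ≠ p → z ≠ p → x ≠ y → x ≠ z → y ≠ z → Tri K x y z
  notall : ¬ (∀ x y z, x ≠ y → x ≠ z → y ≠ z → Tri K x y z)

theorem Pointed.not_moved {K : Subgroup (Perm Om)} {p : Om} (h : Pointed K p) {g : Perm Om}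
    {c : Fin 3} {i : ℕ} (hg : g (c, i) = p)
    (hQ : ∀ i j k : ℕ, i ≠ j → i ≠ k → j ≠ k → g * c3 (c, i) (c, j) (c, k) * g⁻¹ ∈ K) : False := by
  have h1 := hQ i (i + 1) (i + 2) (by omega) (by omega) (by omega)
  rw [conj_c3, hg] at h1
  have hne : ∀ j k : ℕ, j ≠ k → g (c, j) ≠ g (c, k) := by
    intro j k hjk he
    have := g.injective he
    simp only [Prod.mk.injEq, true_and] at this
    exact hjk this
  apply h.notall
  have := Tri.extend (K := K) (fun x => x ≠ p) (p := p) (by simp)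
    (fun x y z hx hy hz => h.tri x y z hx hy hz) (a := g (c, i + 1)) (b := g (c, i + 2))
    (hne _ _ (by omega)) (by rw [← hg]; exact hne _ _ (by omega))
    (by rw [← hg]; exact hne _ _ (by omega)) h1
  intro x y z
  exact this x y z (em' _ |>.imp id id |>.elim Or.inl Or.inr)
    (em' _ |>.imp id id |>.elim Or.inl Or.inr) (em' _ |>.imp id id |>.elim Or.inl Or.inr)

theorem Pointed.theta {K : Subgroup (Perm Om)} {D : ℕ} (hK : Hyp K D) {p : Om}
    (h : Pointed K p) {g : Perm Om} (hg : g ∈ Core) (hgp : g (1, 0) = p) :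
    g * (swap (1, 0) (2, 0) * (shift 0 1 (by decide)) ^ D * (swap (1, 0) (2, 0))⁻¹) * g⁻¹ ∈ K ∧
    g * (swap (1, 0) (0, 0) * (shift 1 2 (by decide)) ^ D * (swap (1, 0) (0, 0))⁻¹) * g⁻¹ ∈ K := by
  constructor
  · have h1 : g * swap (1, 0) (2, 0) ∈ Core := Core.mul_mem hg (swap_mem _ _)
    have h2 : (g * swap ((1, 0) : Om) (2, 0) : Perm Om) (2, 0) = p := by
      rw [Perm.mul_apply, swap_apply_right, hgp]
    rcases (hK _ h1).1 with h3 | h3
    · convert h3 using 1
      group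
    · exact (h.not_moved h2 h3).elim
  · have h1 : g * swap (1, 0) (0, 0) ∈ Core := Core.mul_mem hg (swap_mem _ _)
    have h2 : (g * swap ((1, 0) : Om) (0, 0) : Perm Om) (0, 0) = p := by
      rw [Perm.mul_apply, swap_apply_right, hgp]
    rcases (hK _ h1).2 with h3 | h3
    · convert h3 using 1
      group
    · exact (h.not_moved h2 h3).elim

theorem conj_zpow_mem {K : Subgroup (Perm Om)} {g t : Perm Om} (h : g * t * g⁻¹ ∈ K) (n : ℤ) :
    g * t ^ n * g⁻¹ ∈ K := by
  rw [← conj_zpow]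
  exact K.zpow_mem h n

/-- finitely many cosets over the token `p` -/
theorem Pointed.finite_cosets {K : Subgroup (Perm Om)} {D : ℕ} (hD : 1 ≤ D) (hK : Hyp K D)
    {p : Om} (h : Pointed K p) :
    ∃ R : Finset (Perm Om), (∀ r ∈ R, r ∈ Core ∧ r (1, 0) = p) ∧
      ∀ g ∈ Core, g (1, 0) = p → ∃ r ∈ R, g * r⁻¹ ∈ K := by
  classical
  set θ2 : Perm Om := swap (1, 0) (2, 0) * (shift 0 1 (by decide)) ^ D *
    (swap (1, 0) (2, 0))⁻¹ with hθ2
  set θ0 : Perm Om := swap (1, 0) (0, 0) * (shift 1 2 (by decide)) ^ D *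
    (swap (1, 0) (0, 0))⁻¹ with hθ0
  have m2 : θ2 ∈ Core := Core.mul_mem (Core.mul_mem (swap_mem _ _) (Core.pow_mem shift01_mem _))
    (Core.inv_mem (swap_mem _ _))
  have m0 : θ0 ∈ Core := Core.mul_mem (Core.mul_mem (swap_mem _ _) (Core.pow_mem shift12_mem _))
    (Core.inv_mem (swap_mem _ _))
  have f2 : θ2 (1, 0) = (1, 0) := by
    rw [hθ2, Perm.mul_apply, Perm.mul_apply, swap_inv, swap_apply_left,
      shift_pow_other (c := 2) (by decide) (by decide) (by decide), swap_apply_right]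
  have f0 : θ0 (1, 0) = (1, 0) := by
    rw [hθ0, Perm.mul_apply, Perm.mul_apply, swap_inv, swap_apply_left,
      shift_pow_other (c := 0) (by decide) (by decide) (by decide), swap_apply_right]
  have e2 : ET θ2 (tau 0 D) := by
    have h1 := ((ET.swap (1, 0) (2, 0)).mul (ET_shift01.pow D)).mul (ET.swap (1, 0) (2, 0)).inv
    rw [neg_zero, zero_add, add_zero] at h1
    convert h1 using 2 <;> simp
  have e0 : ET θ0 (tau D 0) := by
    have h1 := ((ET.swap (1, 0) (0, 0)).mul (ET_shift12.pow D)).mul (ET.swap (1, 0) (0, 0)).inv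
    rw [neg_zero, zero_add, add_zero] at h1
    convert h1 using 2 <;> simp
  have fz : ∀ (t : Perm Om), t (1, 0) = (1, 0) → ∀ n : ℤ, (t ^ n) (1, 0) = (1, 0) := by
    intro t ht n
    exact Equiv.Perm.zpow_apply_eq_self_of_apply_eq_self ht n
  -- representatives
  have hrep : ∀ xy : Fin D × Fin D, ∃ c : Perm Om, c ∈ Core ∧ c (1, 0) = p ∧
      ((∃ c' ∈ Core, c' (1, 0) = p ∧ ET c' (tau (xy.1 : ℕ) (xy.2 : ℕ))) →
        ET c (tau (xy.1 : ℕ) (xy.2 : ℕ))) := by
    intro xy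
    by_cases hc : ∃ c' ∈ Core, c' (1, 0) = p ∧ ET c' (tau (xy.1 : ℕ) (xy.2 : ℕ))
    · obtain ⟨c', h1, h2, h3⟩ := hc
      exact ⟨c', h1, h2, fun _ => h3⟩
    · refine ⟨swap (1, 0) p, swap_mem _ _, swap_apply_left _ _, fun h' => absurd h' hc⟩
  choose c hc1 hc2 hc3 using hrep
  have hs : swap ((1, 1) : Om) (1, 2) (1, 0) = (1, 0) := by
    apply swap_apply_of_ne_of_ne <;> decide
  refine ⟨(Finset.univ.image c) ∪ (Finset.univ.image (fun xy => c xy * swap (1, 1) (1, 2))),
    ?_, ?_⟩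
  · intro r hr
    simp only [Finset.mem_union, Finset.mem_image, Finset.mem_univ, true_and] at hr
    rcases hr with ⟨xy, rfl⟩ | ⟨xy, rfl⟩
    · exact ⟨hc1 xy, hc2 xy⟩
    · exact ⟨Core.mul_mem (hc1 xy) (swap_mem _ _), by rw [Perm.mul_apply, hs, hc2]⟩
  · intro g hg hgp
    obtain ⟨x, y, hxy⟩ := core_ET hg
    set g1 := g * θ0 ^ (-(x / D)) with hg1
    set g2 := g1 * θ2 ^ (-(y / D)) with hg2
    have hg1C : g1 ∈ Core := Core.mul_mem hg (Core.zpow_mem m0 _)
    have hg1p : g1 (1, 0) = p := by rw [hg1, Perm.mul_apply, fz θ0 f0, hgp]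
    have hg2C : g2 ∈ Core := Core.mul_mem hg1C (Core.zpow_mem m2 _)
    have hg2p : g2 (1, 0) = p := by rw [hg2, Perm.mul_apply, fz θ2 f2, hg1p]
    have k1 : g1 * g⁻¹ ∈ K := conj_zpow_mem (h.theta hK hg hgp).2 _
    have k2 : g2 * g1⁻¹ ∈ K := conj_zpow_mem (h.theta hK hg1C hg1p).1 _
    have k3 : g * g2⁻¹ ∈ K := by
      have := K.inv_mem (K.mul_mem k2 k1)
      convert this using 1
      group
    have hET : ET g2 (tau (x % D) (y % D)) := by
      have h1 := (hxy.mul (e0.zpow (-(x / D)))).mul (e2.zpow (-(y / D)))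
      rw [tau_add, tau_add] at h1
      convert h1 using 2
      · have := Int.emod_add_mul_ediv x D
        linarith
      · have := Int.emod_add_mul_ediv y D
        linarith
    have hDpos : (0 : ℤ) < D := by exact_mod_cast hD
    have hx0 := Int.emod_nonneg x hDpos.ne'
    have hx1 := Int.emod_lt_of_pos x hDpos
    have hy0 := Int.emod_nonneg y hDpos.ne'
    have hy1 := Int.emod_lt_of_pos y hDpos
    obtain ⟨u, hu⟩ := Int.eq_ofNat_of_zero_le hx0
    obtain ⟨w, hw⟩ := Int.eq_ofNat_of_zero_le hy0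
    have hu' : u < D := by rw [hu] at hx1; exact_mod_cast hx1
    have hw' : w < D := by rw [hw] at hy1; exact_mod_cast hy1
    rw [hu, hw] at hET
    set xy : Fin D × Fin D := (⟨u, hu'⟩, ⟨w, hw'⟩) with hxydef
    have hcE : ET (c xy) (tau u w) := hc3 xy ⟨g2, hg2C, hg2p, hET⟩
    set f := (c xy)⁻¹ * g2 with hf
    have hfE : ET f 0 := by
      have := hcE.inv.mul hET
      rw [neg_add_cancel] at this
      exact this
    have hff : f (1, 0) = (1, 0) := by
      rw [hf, Perm.mul_apply, hg2p, Perm.inv_eq_iff_eq, hc2]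
    have hmem := finitary_mem_closure hfE.finite hff
    set K0 : Subgroup (Perm Om) := K.comap (MulAut.conj (c xy)).toMonoidHom with hK0
    have hK0m : ∀ k, k ∈ K0 ↔ c xy * k * (c xy)⁻¹ ∈ K := fun k => Iff.rfl
    have hK0t : ∀ x y z, x ≠ (1, 0) → y ≠ (1, 0) → z ≠ (1, 0) → x ≠ y → x ≠ z → y ≠ z →
        c3 x y z ∈ K0 := by
      intro x y z hx hy hz hxy' hxz hyz
      rw [hK0m, conj_c3]
      have inj := (c xy).injective
      apply h.tri
      · rw [← hc2 xy]; exact fun h' => hx (inj h')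
      · rw [← hc2 xy]; exact fun h' => hy (inj h')
      · rw [← hc2 xy]; exact fun h' => hz (inj h')
      · exact fun h' => hxy' (inj h')
      · exact fun h' => hxz (inj h')
      · exact fun h' => hyz (inj h')
    rcases closure_swaps_cases hK0t (s1 := (1, 1)) (s2 := (1, 2)) (by decide) (by decide)
      (by decide) hmem with h5 | h5
    · refine ⟨c xy, ?_, ?_⟩
      · simp
      · rw [hK0m] at h5
        have e : g * (c xy)⁻¹ = (g * g2⁻¹) * (c xy * f * (c xy)⁻¹) := by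
          rw [hf]; group
        rw [e]
        exact K.mul_mem k3 h5
    · refine ⟨c xy * swap (1, 1) (1, 2), ?_, ?_⟩
      · simp
      · rw [hK0m] at h5
        have e : g * (c xy * swap (1, 1) (1, 2))⁻¹ = (g * g2⁻¹) *
            (c xy * (f * swap (1, 1) (1, 2)) * (c xy)⁻¹) := by
          rw [hf, mul_inv_rev, swap_inv]; group
        rw [e]
        exact K.mul_mem k3 h5

theorem swap_c3_swap {a b c w : Om} (hab : a ≠ b) (hac : a ≠ c) (hbc : b ≠ c) (ha : a ≠ w)
    (hb : b ≠ w) (hc : c ≠ w) : swap b w * c3 a b c = c3 a b c * swap a w := by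
  rw [← mul_inv_eq_iff_eq_mul, swap_inv]
  ext1 x
  rw [Perm.mul_apply, Perm.mul_apply]
  by_cases h1 : x = w
  · subst h1
    rw [swap_apply_right, c3_apply_1 hab hac, swap_apply_left, c3_apply_4 ha.symm hb.symm hc.symm]
  by_cases h2 : x = a
  · subst h2
    rw [swap_apply_left, c3_apply_4 ha.symm hb.symm hc.symm, swap_apply_right, c3_apply_1 hab hac]
  rw [swap_apply_of_ne_of_ne h2 h1]
  by_cases h3 : x = b
  · subst h3
    rw [c3_apply_2 hac hbc, swap_apply_of_ne_of_ne hbc.symm hc]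
  by_cases h4 : x = c
  · subst h4
    rw [c3_apply_3, swap_apply_of_ne_of_ne hab ha]
  rw [c3_apply_4 h2 h3 h4, swap_apply_of_ne_of_ne h3 h1]

theorem equalize {V : Type*} [Finite V] (B : V → Set (Perm Om)) (D : ℕ) (hD : 1 ≤ D)
    (h : ∀ v, Hyp (stab (B v)) D) :
    ∃ x y z : Om, x ≠ y ∧ x ≠ z ∧ y ≠ z ∧
      ∀ v, ∀ g ∈ Core, (g * c3 x y z ∈ B v ↔ g ∈ B v) := by
  classical
  -- data for each v
  have hdat : ∀ v, (∀ x y z, x ≠ y → x ≠ z → y ≠ z → Tri (stab (B v)) x y z) ∨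
      ∃ p, Pointed (stab (B v)) p := by
    intro v
    rcases token_lemma (stab (B v)) (a := 0) (b := 1) (c := 2) (by decide) (by decide)
      (by decide) D hD (fun g hg => (h v g hg).1) with h1 | ⟨p, h1, h2⟩
    · exact Or.inl h1
    · exact Or.inr ⟨p, h1, h2⟩
  have hR : ∀ v, ∃ R : Finset (Perm Om),
      (∀ x y z, x ≠ y → x ≠ z → y ≠ z → Tri (stab (B v)) x y z) ∨
      ∃ p, Pointed (stab (B v)) p ∧ (∀ r ∈ R, r ∈ Core ∧ r (1, 0) = p) ∧
      ∀ g ∈ Core, g (1, 0) = p → ∃ r ∈ R, g * r⁻¹ ∈ stab (B v) := by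
    intro v
    rcases hdat v with h1 | ⟨p, hp⟩
    · exact ⟨∅, Or.inl h1⟩
    · obtain ⟨R, hR1, hR2⟩ := hp.finite_cosets hD (h v)
      exact ⟨R, Or.inr ⟨p, hp, hR1, hR2⟩⟩
  choose R hR using hR
  -- colours
  let color : {w : Om // w ≠ (1, 0)} → ((Σ v, {r // r ∈ R v}) → Prop) :=
    fun w vr => vr.2.1 * swap w.1 (1, 0) ∈ B vr.1
  have : Infinite {w : Om // w ≠ (1, 0)} := by
    apply Infinite.of_injective (fun n : ℕ => (⟨(0, n), by simp⟩ : {w : Om // w ≠ (1, 0)}))
    intro m n hmn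
    simpa using hmn
  obtain ⟨col, hcol⟩ := Finite.exists_infinite_fiber color
  have := hcol
  let e := Infinite.natEmbedding (color ⁻¹' {col})
  have he : ∀ n, color (e n).1 = col := fun n => (e n).2
  have hne : ∀ m n, m ≠ n → (e m).1.1 ≠ (e n).1.1 := by
    intro m n hmn h'
    apply hmn
    apply e.injective
    exact Subtype.ext (Subtype.ext h')
  refine ⟨(e 0).1.1, (e 1).1.1, (e 2).1.1, hne 0 1 (by decide), hne 0 2 (by decide),
    hne 1 2 (by decide), ?_⟩
  -- main equivalence for a token sent to `p`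
  have key : ∀ v, ∀ p, Pointed (stab (B v)) p → (∀ r ∈ R v, r ∈ Core ∧ r (1, 0) = p) →
      (∀ g ∈ Core, g (1, 0) = p → ∃ r ∈ R v, g * r⁻¹ ∈ stab (B v)) →
      ∀ i j k : ℕ, i ≠ j → i ≠ k → j ≠ k → ∀ g ∈ Core, g (e j).1.1 = p →
      (g * c3 (e i).1.1 (e j).1.1 (e k).1.1 ∈ B v ↔ g ∈ B v) := by
    intro v p hp hR1 hR2 i j k hij hik hjk g hg hgp
    have g' : g * swap (e j).1.1 (1, 0) ∈ Core := Core.mul_mem hg (swap_mem _ _)
    have g'p : (g * swap (e j).1.1 (1, 0)) (1, 0) = p := by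
      rw [Perm.mul_apply, swap_apply_right, hgp]
    obtain ⟨r, hr, hrk⟩ := hR2 _ g' g'p
    obtain ⟨hrC, hrp⟩ := hR1 r hr
    set a := (e i).1.1 with ha
    set b := (e j).1.1 with hb
    set c := (e k).1.1 with hc
    have haw : a ≠ (1, 0) := (e i).1.2
    have hbw : b ≠ (1, 0) := (e j).1.2
    have hcw : c ≠ (1, 0) := (e k).1.2
    have hab : a ≠ b := hne i j hij
    have hac : a ≠ c := hne i k hik
    have hbc : b ≠ c := hne j k hjk
    -- colour equality
    have hc1 : (r * swap a (1, 0) ∈ B v ↔ r * swap b (1, 0) ∈ B v) := by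
      have h1 := congrFun (he i) ⟨v, ⟨r, hr⟩⟩
      have h2 := congrFun (he j) ⟨v, ⟨r, hr⟩⟩
      simp only [color] at h1 h2
      rw [h1, h2]
    -- g
    have hg1 : g ∈ B v ↔ r * swap b (1, 0) ∈ B v := by
      have := (mem_stab.mp hrk).2 (r * swap b (1, 0)) (Core.mul_mem hrC (swap_mem _ _))
      rw [← this]
      have e1 : g * swap b (1, 0) * r⁻¹ * (r * swap b (1, 0)) = g := by
        rw [mul_assoc, inv_mul_cancel_left, mul_assoc, swap_mul_self, mul_one]
      rw [e1]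
    have hg2 : g * c3 a b c ∈ B v ↔ r * swap a (1, 0) ∈ B v := by
      have inj := r.injective
      have hr3 : r * c3 a b c * r⁻¹ ∈ stab (B v) := by
        rw [conj_c3]
        apply hp.tri
        · rw [← hrp]; exact fun h' => haw (inj h')
        · rw [← hrp]; exact fun h' => hbw (inj h')
        · rw [← hrp]; exact fun h' => hcw (inj h')
        · exact fun h' => hab (inj h')
        · exact fun h' => hac (inj h')
        · exact fun h' => hbc (inj h')
      have := (mem_stab.mp ((stab (B v)).mul_mem hrk hr3)).2 (r * swap a (1, 0))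
        (Core.mul_mem hrC (swap_mem _ _))
      rw [← this]
      have e1 : g * swap b (1, 0) * r⁻¹ * (r * c3 a b c * r⁻¹) * (r * swap a (1, 0)) =
          g * c3 a b c := by
        have e2 : g * swap b (1, 0) * r⁻¹ * (r * c3 a b c * r⁻¹) * (r * swap a (1, 0)) =
          g * (swap b (1, 0) * c3 a b c) * swap a (1, 0) := by group
        rw [e2, swap_c3_swap hab hac hbc haw hbw hcw]
        rw [mul_assoc, mul_assoc, swap_mul_self, mul_one]
      rw [e1]
    rw [hg1, hg2, hc1]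
  intro v g hg
  have inj := g.injective
  set a := (e 0).1.1 with ha
  set b := (e 1).1.1 with hb
  set c := (e 2).1.1 with hc
  have hab : a ≠ b := hne 0 1 (by decide)
  have hac : a ≠ c := hne 0 2 (by decide)
  have hbc : b ≠ c := hne 1 2 (by decide)
  have hgab : g a ≠ g b := fun h' => hab (inj h')
  have hgac : g a ≠ g c := fun h' => hac (inj h')
  have hgbc : g b ≠ g c := fun h' => hbc (inj h')
  have hconj : ∀ k : Perm Om, g * k * g⁻¹ ∈ stab (B v) → (g * k ∈ B v ↔ g ∈ B v) := by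
    intro k hk
    have := (mem_stab.mp hk).2 g hg
    rw [← this, inv_mul_cancel_right]
  rcases hR v with h1 | ⟨p, hp, hR1, hR2⟩
  · apply hconj
    rw [conj_c3]
    exact h1 _ _ _ hgab hgac hgbc
  · by_cases hpa : g a = p
    · have := key v p hp hR1 hR2 2 0 1 (by decide) (by decide) (by decide) g hg hpa
      rwa [c3_rot hac.symm hbc.symm hab] at this
    by_cases hpb : g b = p
    · exact key v p hp hR1 hR2 0 1 2 (by decide) (by decide) (by decide) g hg hpb
    by_cases hpc : g c = p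
    · have := key v p hp hR1 hR2 1 2 0 (by decide) (by decide) (by decide) g hg hpc
      rwa [← c3_rot hab hac hbc] at this
    · apply hconj
      rw [conj_c3]
      exact hp.tri _ _ _ hpa hpb hpc hgab hgac hgbc

end Pool.Agent.Helper893SD
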