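import Pool.Agent.Helper893_SD.Equalize

/-!
The equalising three-cycle under the weaker hypothesis with unbounded periods.
-/

namespace Pool.Agent.Helper893SD

open Equiv

/-- the weak hypothesis on a subgroup -/
def HypW (K : Subgroup (Perm Om)) : Prop :=
  ∀ g ∈ Core,
    ((∃ D : ℕ, 1 ≤ D ∧ g * (shift 0 1 (by decide)) ^ D * g⁻¹ ∈ K) ∨
      ∀ i j k : ℕ, i ≠ j → i ≠ k → j ≠ k → g * c3 (2, i) (2, j) (2, k) * g⁻¹ ∈ K) ∧
    ((∃ D : ℕ, 1 ≤ D ∧ g * (shift 1 2 (by decide)) ^ D * g⁻¹ ∈ K) ∨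
      ∀ i j k : ℕ, i ≠ j → i ≠ k → j ≠ k → g * c3 (0, i) (0, j) (0, k) * g⁻¹ ∈ K)

/-- if every pair of points with `P` lies in a three-cycle of `K` then `K` has all of them -/
theorem Tri.allP {K : Subgroup (Perm Om)} (P : Om → Prop) {a b : Om} (hab : a ≠ b) (ha : P a)
    (hb : P b) (h : ∀ d e : Om, P d → P e → d ≠ e → ∃ f, P f ∧ f ≠ d ∧ f ≠ e ∧ Tri K d e f) :
    ∀ x y z, P x → P y → P z → x ≠ y → x ≠ z → y ≠ z → Tri K x y z := by
  obtain ⟨c, _, hca, hcb, h0⟩ := h a b ha hb hab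
  have h1 : ∀ d, P d → d ≠ a → d ≠ b → Tri K a b d := by
    intro d hd hda hdb
    by_cases hdc : d = c
    · subst hdc; exact h0
    obtain ⟨f, _, hfa, hfd, hf⟩ := h a d ha hd (Ne.symm hda)
    by_cases hfb : f = b
    · subst hfb
      exact hf.flip (Ne.symm hda) hab hdb
    by_cases hfc : f = c
    · subst hfc
      have g1 : Tri K a f b := h0.flip hab (Ne.symm hca) (Ne.symm hcb)
      have g2 : Tri K a f d := hf.flip (Ne.symm hda) (Ne.symm hca) hdc
      exact (Tri.four (Ne.symm hca) hab (Ne.symm hda) hcb (Ne.symm hdc) (Ne.symm hdb) g1 g2).2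
    exact Tri.five hab (Ne.symm hca) (Ne.symm hda) (Ne.symm hfa) (Ne.symm hcb) (Ne.symm hdb)
      (Ne.symm hfb) (Ne.symm hdc) (Ne.symm hfc) (Ne.symm hfd) h0 hf
  have h2 : ∀ d e, P d → P e → d ≠ a → e ≠ a → d ≠ e → Tri K a d e := by
    intro d e hd he hda hea hde
    by_cases hdb : d = b
    · subst hdb; exact h1 e he hea (Ne.symm hde)
    by_cases heb : e = b
    · subst heb; exact (h1 d hd hda hdb).flip hab (Ne.symm hda) (Ne.symm hdb)
    exact (Tri.four hab (Ne.symm hda) (Ne.symm hea) (Ne.symm hdb) (Ne.symm heb) hde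
      (h1 d hd hda hdb) (h1 e he hea heb)).2
  intro x y z px py pz hxy hxz hyz
  by_cases hx : x = a
  · subst hx; exact h2 y z py pz (Ne.symm hxy) (Ne.symm hxz) hyz
  by_cases hy : y = a
  · subst hy
    exact ((h2 z x pz px (Ne.symm hyz) hx (Ne.symm hxz)).rot hyz hxy.symm (Ne.symm hxz)).rot
      (Ne.symm hxz) (Ne.symm hyz) hxy
  by_cases hz : z = a
  · subst hz
    exact (h2 x y px py hx hy hxy).rot (Ne.symm hx) (Ne.symm hy) hxy
  exact (Tri.four (Ne.symm hx) (Ne.symm hy) (Ne.symm hz) hxy hxz hyz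
    (h2 x y px py hx hy hxy) (h2 x z px pz hx hz hxz)).1

theorem token_lemma2 (K : Subgroup (Perm Om)) {a b c : Fin 3} (hab : a ≠ b) (hcb : c ≠ b)
    (hca : c ≠ a)
    (h : ∀ g ∈ Core, (∃ D : ℕ, 1 ≤ D ∧ g * (shift a b hab) ^ D * g⁻¹ ∈ K) ∨
      ∀ i j k : ℕ, i ≠ j → i ≠ k → j ≠ k → g * c3 (c, i) (c, j) (c, k) * g⁻¹ ∈ K) :
    (∀ x y z, x ≠ y → x ≠ z → y ≠ z → Tri K x y z) ∨
      ∃ p, (∀ x y z, x ≠ p → y ≠ p → z ≠ p → x ≠ y → x ≠ z → y ≠ z → Tri K x y z) ∧
        ¬ (∀ x y z, x ≠ y → x ≠ z → y ≠ z → Tri K x y z) := by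
  have hstar : ∀ x y d e : Om, [x, y, d, e].Nodup →
      (∀ f, f ≠ d → f ≠ e → ¬ Tri K d e f) →
      ∃ z, z ≠ x ∧ z ≠ y ∧ z ≠ d ∧ z ≠ e ∧ Tri K x y z := by
    intro x y d e hnd hde
    have hnd0 : [((b, 0) : Om), (c, 0), (c, 1), (c, 2)].Nodup := by
      simp [hcb.symm]
    obtain ⟨g, hg, hgm, _⟩ := exists_map_list Set.univ _ _ hnd0 hnd rfl (fun _ _ => trivial)
      (fun _ _ => trivial)
    simp only [List.map_cons, List.map_nil, List.cons.injEq, and_true] at hgm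
    obtain ⟨g1, g3, g4, g5⟩ := hgm
    set ρ : Perm Om := swap (b, 0) (c, 0) with hρ
    have hgρ : g * ρ ∈ Core := Core.mul_mem hg (swap_mem _ _)
    have r1 : ρ (c, 1) = (c, 1) := by
      apply swap_apply_of_ne_of_ne <;> simp [hcb]
    have r2 : ρ (c, 2) = (c, 2) := by
      apply swap_apply_of_ne_of_ne <;> simp [hcb]
    simp only [List.nodup_cons, List.mem_cons, List.not_mem_nil, or_false, not_or,
      List.nodup_nil, and_true, not_false_eq_true] at hnd
    obtain ⟨⟨n2, n3, n4⟩, ⟨n8, n9⟩, n10⟩ := hnd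
    rcases h g hg with ⟨D1, hD1, hP⟩ | hQ
    swap
    · exfalso
      have := hQ 1 2 0 (by decide) (by decide) (by decide)
      rw [conj_c3, g3, g4, g5] at this
      exact hde y n8 n9 this
    rcases h (g * ρ) hgρ with ⟨D2, hD2, hP'⟩ | hQ
    swap
    · exfalso
      have := hQ 1 2 0 (by decide) (by decide) (by decide)
      rw [conj_c3, Perm.mul_apply, Perm.mul_apply, Perm.mul_apply, r1, r2, g4, g5,
        hρ, swap_apply_right, g1] at this
      exact hde x n3 n4 this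
    set s := shift a b hab with hs
    have hP1 : g * s ^ (D1 * D2) * g⁻¹ ∈ K := by
      rw [pow_mul, ← conj_pow]
      exact K.pow_mem hP D2
    have hP2 : g * ρ * s ^ (D1 * D2) * (g * ρ)⁻¹ ∈ K := by
      rw [mul_comm D1 D2, pow_mul, ← conj_pow]
      exact K.pow_mem hP' D1
    have hD : 1 ≤ D1 * D2 := Nat.mul_pos hD1 hD2
    generalize D1 * D2 = D at hP1 hP2 hD
    have hm := K.mul_mem hP1 (K.inv_mem hP2)
    have e1 : (g * s ^ D * g⁻¹) * (g * ρ * s ^ D * (g * ρ)⁻¹)⁻¹ =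
        g * ((s ^ D * ρ * (s ^ D)⁻¹) * ρ⁻¹) * g⁻¹ := by
      group
    rw [e1, hρ, ← swap_apply_apply] at hm
    have e2 : (s ^ D) (b, 0) = (b, D) := by
      rw [hs, shift_pow_out, zero_add]
    have e3 : (s ^ D) (c, 0) = (c, 0) := by
      rw [hs, shift_pow_other hab hca hcb]
    rw [e2, e3, swap_inv, swap_comm (b, 0)] at hm
    have hm' : g * c3 (b, D) (c, 0) (b, 0) * g⁻¹ ∈ K := hm
    rw [conj_c3, g1, g3] at hm'
    have hz : ∀ u : Om, (b, D) ≠ u → g (b, D) ≠ g u := fun u hu h' => hu (g.injective h')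
    have z1 : g (b, D) ≠ x := by
      rw [← g1]
      exact hz _ (by simp; omega)
    have z2 : g (b, D) ≠ y := by
      rw [← g3]
      exact hz _ (by simp [hcb.symm])
    have z3 : g (b, D) ≠ d := by
      rw [← g4]
      exact hz _ (by simp [hcb.symm])
    have z4 : g (b, D) ≠ e := by
      rw [← g5]
      exact hz _ (by simp [hcb.symm])
    refine ⟨g (b, D), z1, z2, z3, z4, ?_⟩
    have h1 : Tri K (g (b, D)) y x := hm'
    have h2 : Tri K y x (g (b, D)) := h1.rot z2 z1 (Ne.symm n2)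
    have h3 : Tri K x (g (b, D)) y := h2.rot (Ne.symm n2) (Ne.symm z2) (Ne.symm z1)
    exact h3.flip (Ne.symm z1) n2 z2
  by_cases hall : ∀ d e : Om, d ≠ e → ∃ f, f ≠ d ∧ f ≠ e ∧ Tri K d e f
  · exact Or.inl (Tri.all hall)
  push Not at hall
  obtain ⟨d, e, hde, hno⟩ := hall
  right
  have hnotall : ¬ (∀ x y z, x ≠ y → x ≠ z → y ≠ z → Tri K x y z) := by
    intro hh
    obtain ⟨f, hf⟩ := exists_fresh [d, e]
    simp only [List.mem_cons, List.not_mem_nil, or_false, not_or] at hf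
    exact hno f hf.1 hf.2 (hh d e f hde (Ne.symm hf.1) (Ne.symm hf.2))
  have H1 : ∀ x y z, (x ≠ d ∧ x ≠ e) → (y ≠ d ∧ y ≠ e) → (z ≠ d ∧ z ≠ e) →
      x ≠ y → x ≠ z → y ≠ z → Tri K x y z := by
    obtain ⟨u, hu⟩ := exists_fresh [d, e]
    obtain ⟨w, hw⟩ := exists_fresh [d, e, u]
    simp only [List.mem_cons, List.not_mem_nil, or_false, not_or] at hu hw
    refine Tri.allP (fun x => x ≠ d ∧ x ≠ e) (a := u) (b := w) (Ne.symm hw.2.2) hu
      ⟨hw.1, hw.2.1⟩ ?_
    intro x y hx hy hxy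
    obtain ⟨z, h1, h2, h3, h4, h5⟩ := hstar x y d e (by
      simp only [List.nodup_cons, List.mem_cons, List.not_mem_nil, or_false, not_or,
        List.nodup_nil, and_true, not_false_eq_true]
      exact ⟨⟨hxy, hx.1, hx.2⟩, ⟨hy.1, hy.2⟩, hde⟩) hno
    exact ⟨z, ⟨h3, h4⟩, h1, h2, h5⟩
  by_cases he : ∃ a', a' ≠ d ∧ a' ≠ e ∧ ∀ f, f ≠ e → f ≠ a' → ¬ Tri K e a' f
  · obtain ⟨a', ha1, ha2, ha3⟩ := he
    refine ⟨e, ?_, hnotall⟩
    obtain ⟨s, hs⟩ := exists_fresh [d, e, a']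
    simp only [List.mem_cons, List.not_mem_nil, or_false, not_or] at hs
    obtain ⟨t, t1, t2, t3, t4, h1⟩ := hstar d s e a' (by
      simp only [List.nodup_cons, List.mem_cons, List.not_mem_nil, or_false, not_or,
        List.nodup_nil, and_true, not_false_eq_true]
      exact ⟨⟨Ne.symm hs.1, hde, Ne.symm ha1⟩, ⟨hs.2.1, hs.2.2⟩, Ne.symm ha2⟩) ha3
    have h2 := Tri.extend (fun x => x ≠ d ∧ x ≠ e) (p := d) (by simp) H1
      (a := s) (b := t) (Ne.symm t2) ⟨hs.1, hs.2.1⟩ ⟨t1, t3⟩ h1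
    intro x y z hx hy hz
    apply h2
    · by_cases hh : x = d
      · exact Or.inr hh
      · exact Or.inl ⟨hh, hx⟩
    · by_cases hh : y = d
      · exact Or.inr hh
      · exact Or.inl ⟨hh, hy⟩
    · by_cases hh : z = d
      · exact Or.inr hh
      · exact Or.inl ⟨hh, hz⟩
  · push Not at he
    refine ⟨d, ?_, hnotall⟩
    obtain ⟨a', ha'⟩ := exists_fresh [d, e]
    simp only [List.mem_cons, List.not_mem_nil, or_false, not_or] at ha'
    obtain ⟨f, hf1, hf2, hf3⟩ := he a' ha'.1 ha'.2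
    have hfd : f ≠ d := by
      rintro rfl
      -- Tri K e a' d
      have := (hf3.rot (Ne.symm ha'.2) (Ne.symm hf1) ha'.1).rot ha'.1 ha'.2 hde
      exact hno a' ha'.1 ha'.2 this
    have h2 := Tri.extend (fun x => x ≠ d ∧ x ≠ e) (p := e) (by simp) H1
      (a := a') (b := f) (Ne.symm hf2) ⟨ha'.1, ha'.2⟩ ⟨hfd, hf1⟩ hf3
    intro x y z hx hy hz
    apply h2
    · by_cases hh : x = e
      · exact Or.inr hh
      · exact Or.inl ⟨hx, hh⟩
    · by_cases hh : y = e
      · exact Or.inr hh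
      · exact Or.inl ⟨hy, hh⟩
    · by_cases hh : z = e
      · exact Or.inr hh
      · exact Or.inl ⟨hz, hh⟩

/-- finitely many cosets over the token `p` -/
theorem Pointed.finite_cosets2 {K : Subgroup (Perm Om)} (hK : HypW K)
    {p : Om} (h : Pointed K p) :
    ∃ R : Finset (Perm Om), (∀ r ∈ R, r ∈ Core ∧ r (1, 0) = p) ∧
      ∀ g ∈ Core, g (1, 0) = p → ∃ r ∈ R, g * r⁻¹ ∈ K := by
  classical
  set gs : Perm Om := swap (1, 0) p with hgs
  have hgsC : gs ∈ Core := swap_mem _ _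
  have hgsp : gs (1, 0) = p := swap_apply_left _ _
  have hgsp' : gs p = (1, 0) := swap_apply_right _ _
  -- two elements of `K` fixing `p`
  obtain ⟨D2, hD2, hψ2⟩ : ∃ D : ℕ, 1 ≤ D ∧
      gs * (swap (1, 0) (2, 0) * (shift 0 1 (by decide)) ^ D * (swap (1, 0) (2, 0))⁻¹) * gs⁻¹ ∈
        K := by
    have h1 : gs * swap (1, 0) (2, 0) ∈ Core := Core.mul_mem hgsC (swap_mem _ _)
    have h2 : (gs * swap ((1, 0) : Om) (2, 0) : Perm Om) (2, 0) = p := by
      rw [Perm.mul_apply, swap_apply_right, hgsp]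
    rcases (hK _ h1).1 with ⟨D, hD, h3⟩ | h3
    · refine ⟨D, hD, ?_⟩
      convert h3 using 1
      group
    · exact (h.not_moved h2 h3).elim
  obtain ⟨D0, hD0, hψ0⟩ : ∃ D : ℕ, 1 ≤ D ∧
      gs * (swap (1, 0) (0, 0) * (shift 1 2 (by decide)) ^ D * (swap (1, 0) (0, 0))⁻¹) * gs⁻¹ ∈
        K := by
    have h1 : gs * swap (1, 0) (0, 0) ∈ Core := Core.mul_mem hgsC (swap_mem _ _)
    have h2 : (gs * swap ((1, 0) : Om) (0, 0) : Perm Om) (0, 0) = p := by
      rw [Perm.mul_apply, swap_apply_right, hgsp]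
    rcases (hK _ h1).2 with ⟨D, hD, h3⟩ | h3
    · refine ⟨D, hD, ?_⟩
      convert h3 using 1
      group
    · exact (h.not_moved h2 h3).elim
  set θ2 : Perm Om := swap (1, 0) (2, 0) * (shift 0 1 (by decide)) ^ D2 *
    (swap (1, 0) (2, 0))⁻¹ with hθ2
  set θ0 : Perm Om := swap (1, 0) (0, 0) * (shift 1 2 (by decide)) ^ D0 *
    (swap (1, 0) (0, 0))⁻¹ with hθ0
  set ψ2 : Perm Om := gs * θ2 * gs⁻¹ with hψ2'
  set ψ0 : Perm Om := gs * θ0 * gs⁻¹ with hψ0'
  have m2 : ψ2 ∈ Core := Core.mul_mem (Core.mul_mem hgsC (Core.mul_mem (Core.mul_mem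
    (swap_mem _ _) (Core.pow_mem shift01_mem _)) (Core.inv_mem (swap_mem _ _)))) (Core.inv_mem hgsC)
  have m0 : ψ0 ∈ Core := Core.mul_mem (Core.mul_mem hgsC (Core.mul_mem (Core.mul_mem
    (swap_mem _ _) (Core.pow_mem shift12_mem _)) (Core.inv_mem (swap_mem _ _)))) (Core.inv_mem hgsC)
  have f2 : θ2 (1, 0) = (1, 0) := by
    rw [hθ2, Perm.mul_apply, Perm.mul_apply, swap_inv, swap_apply_left,
      shift_pow_other (c := 2) (by decide) (by decide) (by decide), swap_apply_right]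
  have f0 : θ0 (1, 0) = (1, 0) := by
    rw [hθ0, Perm.mul_apply, Perm.mul_apply, swap_inv, swap_apply_left,
      shift_pow_other (c := 0) (by decide) (by decide) (by decide), swap_apply_right]
  have hinv : gs⁻¹ p = (1, 0) := by rw [Perm.inv_eq_iff_eq, hgsp]
  have fp2 : ψ2 p = p := by
    rw [hψ2', Perm.mul_apply, Perm.mul_apply, hinv, f2, hgsp]
  have fp0 : ψ0 p = p := by
    rw [hψ0', Perm.mul_apply, Perm.mul_apply, hinv, f0, hgsp]
  have e2 : ET ψ2 (tau 0 D2) := by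
    have h1 := ((ET.swap (1, 0) (2, 0)).mul (ET_shift01.pow D2)).mul (ET.swap (1, 0) (2, 0)).inv
    have h2 := ((ET.swap (1, 0) p).mul h1).mul (ET.swap (1, 0) p).inv
    rw [neg_zero, zero_add, add_zero, zero_add, add_zero] at h2
    convert h2 using 2 <;> simp
  have e0 : ET ψ0 (tau D0 0) := by
    have h1 := ((ET.swap (1, 0) (0, 0)).mul (ET_shift12.pow D0)).mul (ET.swap (1, 0) (0, 0)).inv
    have h2 := ((ET.swap (1, 0) p).mul h1).mul (ET.swap (1, 0) p).inv
    rw [neg_zero, zero_add, add_zero, zero_add, add_zero] at h2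
    convert h2 using 2 <;> simp
  have fz : ∀ (t : Perm Om), t p = p → ∀ n : ℤ, (t ^ n) p = p := by
    intro t ht n
    exact Equiv.Perm.zpow_apply_eq_self_of_apply_eq_self ht n
  -- representatives
  have hrep : ∀ xy : Fin D0 × Fin D2, ∃ c : Perm Om, c ∈ Core ∧ c (1, 0) = p ∧
      ((∃ c' ∈ Core, c' (1, 0) = p ∧ ET c' (tau (xy.1 : ℕ) (xy.2 : ℕ))) →
        ET c (tau (xy.1 : ℕ) (xy.2 : ℕ))) := by
    intro xy
    by_cases hc : ∃ c' ∈ Core, c' (1, 0) = p ∧ ET c' (tau (xy.1 : ℕ) (xy.2 : ℕ))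
    · obtain ⟨c', h1, h2, h3⟩ := hc
      exact ⟨c', h1, h2, fun _ => h3⟩
    · refine ⟨swap (1, 0) p, swap_mem _ _, swap_apply_left _ _, fun h' => absurd h' hc⟩
  choose c hc1 hc2 hc3 using hrep
  have hs : swap ((1, 1) : Om) (1, 2) (1, 0) = (1, 0) := by
    apply swap_apply_of_ne_of_ne <;> decide
  refine ⟨(Finset.univ.image c) ∪ (Finset.univ.image (fun xy => c xy * swap (1, 1) (1, 2))),
    ?_, ?_⟩
  · intro r hr
    simp only [Finset.mem_union, Finset.mem_image, Finset.mem_univ, true_and] at hr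
    rcases hr with ⟨xy, rfl⟩ | ⟨xy, rfl⟩
    · exact ⟨hc1 xy, hc2 xy⟩
    · exact ⟨Core.mul_mem (hc1 xy) (swap_mem _ _), by rw [Perm.mul_apply, hs, hc2]⟩
  · intro g hg hgp
    obtain ⟨x, y, hxy⟩ := core_ET hg
    set g1 := ψ0 ^ (-(x / D0)) * g with hg1
    set g2 := ψ2 ^ (-(y / D2)) * g1 with hg2
    have hg1C : g1 ∈ Core := Core.mul_mem (Core.zpow_mem m0 _) hg
    have hg1p : g1 (1, 0) = p := by rw [hg1, Perm.mul_apply, hgp, fz ψ0 fp0]
    have hg2C : g2 ∈ Core := Core.mul_mem (Core.zpow_mem m2 _) hg1C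
    have hg2p : g2 (1, 0) = p := by rw [hg2, Perm.mul_apply, hg1p, fz ψ2 fp2]
    have k3 : g * g2⁻¹ ∈ K := by
      have := K.mul_mem (K.inv_mem (K.zpow_mem hψ0 (-(x / D0))))
        (K.inv_mem (K.zpow_mem hψ2 (-(y / D2))))
      convert this using 1
      rw [hg2, hg1]
      group
    have hET : ET g2 (tau (x % D0) (y % D2)) := by
      have h1 := (e2.zpow (-(y / D2))).mul ((e0.zpow (-(x / D0))).mul hxy)
      rw [tau_add, tau_add] at h1
      convert h1 using 2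
      · have := Int.emod_add_mul_ediv x D0
        linarith
      · have := Int.emod_add_mul_ediv y D2
        linarith
    have hDpos0 : (0 : ℤ) < D0 := by exact_mod_cast hD0
    have hDpos2 : (0 : ℤ) < D2 := by exact_mod_cast hD2
    have hx0 := Int.emod_nonneg x hDpos0.ne'
    have hx1 := Int.emod_lt_of_pos x hDpos0
    have hy0 := Int.emod_nonneg y hDpos2.ne'
    have hy1 := Int.emod_lt_of_pos y hDpos2
    obtain ⟨u, hu⟩ := Int.eq_ofNat_of_zero_le hx0
    obtain ⟨w, hw⟩ := Int.eq_ofNat_of_zero_le hy0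
    have hu' : u < D0 := by rw [hu] at hx1; exact_mod_cast hx1
    have hw' : w < D2 := by rw [hw] at hy1; exact_mod_cast hy1
    rw [hu, hw] at hET
    set xy : Fin D0 × Fin D2 := (⟨u, hu'⟩, ⟨w, hw'⟩) with hxydef
    have hcE : ET (c xy) (tau u w) := hc3 xy ⟨g2, hg2C, hg2p, hET⟩
    set f := (c xy)⁻¹ * g2 with hf
    have hfE : ET f 0 := by
      have := hcE.inv.mul hET
      rw [neg_add_cancel] at this
      exact this
    have hff : f (1, 0) = (1, 0) := by
      rw [hf, Perm.mul_apply, hg2p, Perm.inv_eq_iff_eq, hc2]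
    have hmem := finitary_mem_closure hfE.finite hff
    set K0 : Subgroup (Perm Om) := K.comap (MulAut.conj (c xy)).toMonoidHom with hK0
    have hK0m : ∀ k, k ∈ K0 ↔ c xy * k * (c xy)⁻¹ ∈ K := fun k => Iff.rfl
    have hK0t : ∀ x y z, x ≠ (1, 0) → y ≠ (1, 0) → z ≠ (1, 0) → x ≠ y → x ≠ z → y ≠ z →
        c3 x y z ∈ K0 := by
      intro x y z hx hy hz hxy' hxz hyz
      rw [hK0m, conj_c3]
      have inj := (c xy).injective
      apply h.tri
      · rw [← hc2 xy]; exact fun h' => hx (inj h')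
      · rw [← hc2 xy]; exact fun h' => hy (inj h')
      · rw [← hc2 xy]; exact fun h' => hz (inj h')
      · exact fun h' => hxy' (inj h')
      · exact fun h' => hxz (inj h')
      · exact fun h' => hyz (inj h')
    rcases closure_swaps_cases hK0t (s1 := (1, 1)) (s2 := (1, 2)) (by decide) (by decide)
      (by decide) hmem with h5 | h5
    · refine ⟨c xy, ?_, ?_⟩
      · simp
      · rw [hK0m] at h5
        have e : g * (c xy)⁻¹ = (g * g2⁻¹) * (c xy * f * (c xy)⁻¹) := by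
          rw [hf]; group
        rw [e]
        exact K.mul_mem k3 h5
    · refine ⟨c xy * swap (1, 1) (1, 2), ?_, ?_⟩
      · simp
      · rw [hK0m] at h5
        have e : g * (c xy * swap (1, 1) (1, 2))⁻¹ = (g * g2⁻¹) *
            (c xy * (f * swap (1, 1) (1, 2)) * (c xy)⁻¹) := by
          rw [hf, mul_inv_rev, swap_inv]; group
        rw [e]
        exact K.mul_mem k3 h5

theorem equalize2 {V : Type*} [Finite V] (B : V → Set (Perm Om))
    (h : ∀ v, HypW (stab (B v))) :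
    ∃ x y z : Om, x ≠ y ∧ x ≠ z ∧ y ≠ z ∧
      ∀ v, ∀ g ∈ Core, (g * c3 x y z ∈ B v ↔ g ∈ B v) := by
  classical
  -- data for each v
  have hdat : ∀ v, (∀ x y z, x ≠ y → x ≠ z → y ≠ z → Tri (stab (B v)) x y z) ∨
      ∃ p, Pointed (stab (B v)) p := by
    intro v
    rcases token_lemma2 (stab (B v)) (a := 0) (b := 1) (c := 2) (by decide) (by decide)
      (by decide) (fun g hg => (h v g hg).1) with h1 | ⟨p, h1, h2⟩
    · exact Or.inl h1
    · exact Or.inr ⟨p, h1, h2⟩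
  have hR : ∀ v, ∃ R : Finset (Perm Om),
      (∀ x y z, x ≠ y → x ≠ z → y ≠ z → Tri (stab (B v)) x y z) ∨
      ∃ p, Pointed (stab (B v)) p ∧ (∀ r ∈ R, r ∈ Core ∧ r (1, 0) = p) ∧
      ∀ g ∈ Core, g (1, 0) = p → ∃ r ∈ R, g * r⁻¹ ∈ stab (B v) := by
    intro v
    rcases hdat v with h1 | ⟨p, hp⟩
    · exact ⟨∅, Or.inl h1⟩
    · obtain ⟨R, hR1, hR2⟩ := hp.finite_cosets2 (h v)
      exact ⟨R, Or.inr ⟨p, hp, hR1, hR2⟩⟩
  choose R hR using hR
  -- colours
  let color : {w : Om // w ≠ (1, 0)} → ((Σ v, {r // r ∈ R v}) → Prop) :=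
    fun w vr => vr.2.1 * swap w.1 (1, 0) ∈ B vr.1
  have : Infinite {w : Om // w ≠ (1, 0)} := by
    apply Infinite.of_injective (fun n : ℕ => (⟨(0, n), by simp⟩ : {w : Om // w ≠ (1, 0)}))
    intro m n hmn
    simpa using hmn
  obtain ⟨col, hcol⟩ := Finite.exists_infinite_fiber color
  have := hcol
  let e := Infinite.natEmbedding (color ⁻¹' {col})
  have he : ∀ n, color (e n).1 = col := fun n => (e n).2
  have hne : ∀ m n, m ≠ n → (e m).1.1 ≠ (e n).1.1 := by
    intro m n hmn h'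
    apply hmn
    apply e.injective
    exact Subtype.ext (Subtype.ext h')
  refine ⟨(e 0).1.1, (e 1).1.1, (e 2).1.1, hne 0 1 (by decide), hne 0 2 (by decide),
    hne 1 2 (by decide), ?_⟩
  -- main equivalence for a token sent to `p`
  have key : ∀ v, ∀ p, Pointed (stab (B v)) p → (∀ r ∈ R v, r ∈ Core ∧ r (1, 0) = p) →
      (∀ g ∈ Core, g (1, 0) = p → ∃ r ∈ R v, g * r⁻¹ ∈ stab (B v)) →
      ∀ i j k : ℕ, i ≠ j → i ≠ k → j ≠ k → ∀ g ∈ Core, g (e j).1.1 = p →
      (g * c3 (e i).1.1 (e j).1.1 (e k).1.1 ∈ B v ↔ g ∈ B v) := by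
    intro v p hp hR1 hR2 i j k hij hik hjk g hg hgp
    have g' : g * swap (e j).1.1 (1, 0) ∈ Core := Core.mul_mem hg (swap_mem _ _)
    have g'p : (g * swap (e j).1.1 (1, 0)) (1, 0) = p := by
      rw [Perm.mul_apply, swap_apply_right, hgp]
    obtain ⟨r, hr, hrk⟩ := hR2 _ g' g'p
    obtain ⟨hrC, hrp⟩ := hR1 r hr
    set a := (e i).1.1 with ha
    set b := (e j).1.1 with hb
    set c := (e k).1.1 with hc
    have haw : a ≠ (1, 0) := (e i).1.2
    have hbw : b ≠ (1, 0) := (e j).1.2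
    have hcw : c ≠ (1, 0) := (e k).1.2
    have hab : a ≠ b := hne i j hij
    have hac : a ≠ c := hne i k hik
    have hbc : b ≠ c := hne j k hjk
    -- colour equality
    have hc1 : (r * swap a (1, 0) ∈ B v ↔ r * swap b (1, 0) ∈ B v) := by
      have h1 := congrFun (he i) ⟨v, ⟨r, hr⟩⟩
      have h2 := congrFun (he j) ⟨v, ⟨r, hr⟩⟩
      simp only [color] at h1 h2
      rw [h1, h2]
    -- g
    have hg1 : g ∈ B v ↔ r * swap b (1, 0) ∈ B v := by
      have := (mem_stab.mp hrk).2 (r * swap b (1, 0)) (Core.mul_mem hrC (swap_mem _ _))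
      rw [← this]
      have e1 : g * swap b (1, 0) * r⁻¹ * (r * swap b (1, 0)) = g := by
        rw [mul_assoc, inv_mul_cancel_left, mul_assoc, swap_mul_self, mul_one]
      rw [e1]
    have hg2 : g * c3 a b c ∈ B v ↔ r * swap a (1, 0) ∈ B v := by
      have inj := r.injective
      have hr3 : r * c3 a b c * r⁻¹ ∈ stab (B v) := by
        rw [conj_c3]
        apply hp.tri
        · rw [← hrp]; exact fun h' => haw (inj h')
        · rw [← hrp]; exact fun h' => hbw (inj h')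
        · rw [← hrp]; exact fun h' => hcw (inj h')
        · exact fun h' => hab (inj h')
        · exact fun h' => hac (inj h')
        · exact fun h' => hbc (inj h')
      have := (mem_stab.mp ((stab (B v)).mul_mem hrk hr3)).2 (r * swap a (1, 0))
        (Core.mul_mem hrC (swap_mem _ _))
      rw [← this]
      have e1 : g * swap b (1, 0) * r⁻¹ * (r * c3 a b c * r⁻¹) * (r * swap a (1, 0)) =
          g * c3 a b c := by
        have e2 : g * swap b (1, 0) * r⁻¹ * (r * c3 a b c * r⁻¹) * (r * swap a (1, 0)) =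
          g * (swap b (1, 0) * c3 a b c) * swap a (1, 0) := by group
        rw [e2, swap_c3_swap hab hac hbc haw hbw hcw]
        rw [mul_assoc, mul_assoc, swap_mul_self, mul_one]
      rw [e1]
    rw [hg1, hg2, hc1]
  intro v g hg
  have inj := g.injective
  set a := (e 0).1.1 with ha
  set b := (e 1).1.1 with hb
  set c := (e 2).1.1 with hc
  have hab : a ≠ b := hne 0 1 (by decide)
  have hac : a ≠ c := hne 0 2 (by decide)
  have hbc : b ≠ c := hne 1 2 (by decide)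
  have hgab : g a ≠ g b := fun h' => hab (inj h')
  have hgac : g a ≠ g c := fun h' => hac (inj h')
  have hgbc : g b ≠ g c := fun h' => hbc (inj h')
  have hconj : ∀ k : Perm Om, g * k * g⁻¹ ∈ stab (B v) → (g * k ∈ B v ↔ g ∈ B v) := by
    intro k hk
    have := (mem_stab.mp hk).2 g hg
    rw [← this, inv_mul_cancel_right]
  rcases hR v with h1 | ⟨p, hp, hR1, hR2⟩
  · apply hconj
    rw [conj_c3]
    exact h1 _ _ _ hgab hgac hgbc
  · by_cases hpa : g a = p
    · have := key v p hp hR1 hR2 2 0 1 (by decide) (by decide) (by decide) g hg hpa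
      rwa [c3_rot hac.symm hbc.symm hab] at this
    by_cases hpb : g b = p
    · exact key v p hp hR1 hR2 0 1 2 (by decide) (by decide) (by decide) g hg hpb
    by_cases hpc : g c = p
    · have := key v p hp hR1 hR2 1 2 0 (by decide) (by decide) (by decide) g hg hpc
      rwa [← c3_rot hab hac hbc] at this
    · apply hconj
      rw [conj_c3]
      exact hp.tri _ _ _ hpa hpb hpc hgab hgac hgbc

end Pool.Agent.Helper893SD
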