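import Pool.Agent.Helper893_SD.DPDA

/-!
The key lemma: configurations recognising subsets of a group.
-/

namespace Pool.Agent.Helper893SD

open DPDA

variable {α Q Γ G : Type*} [Group G]

/-- value of a word in the group -/
def val (ev : α → G) (w : List α) : G := (w.map ev).prod

theorem val_nil (ev : α → G) : val ev [] = 1 := rfl

theorem val_append (ev : α → G) (u v : List α) : val ev (u ++ v) = val ev u * val ev v := by
  simp [val]

theorem val_replicate (ev : α → G) (a : α) (n : ℕ) : val ev (List.replicate n a) = ev a ^ n := by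
  simp [val]

/-- translate of a set -/
def tr (g : G) (X : Set G) : Set G := {x | g * x ∈ X}

theorem mem_tr {g x : G} {X : Set G} : x ∈ tr g X ↔ g * x ∈ X := Iff.rfl

theorem tr_tr (g h : G) (X : Set G) : tr g (tr h X) = tr (h * g) X := by
  ext x
  simp [mem_tr, mul_assoc]

theorem tr_one (X : Set G) : tr 1 X = X := by
  ext x
  simp [mem_tr]

theorem tr_injective (g : G) : Function.Injective (tr g) := by
  intro X Y h
  have := congrArg (tr g⁻¹) h
  simpa [tr_tr, tr_one] using this

theorem tr_nonempty {g : G} {X : Set G} (h : X.Nonempty) : (tr g X).Nonempty := by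
  obtain ⟨x, hx⟩ := h
  exact ⟨g⁻¹ * x, by simpa [mem_tr] using hx⟩

/-- The configuration `c` accepts exactly the nonempty words with value in `X`. -/
def Rec (M : DPDA α Q Γ) (ev : α → G) (c : Q × List Γ) (X : Set G) : Prop :=
  ∀ w, w ≠ [] → (M.Accepts c w ↔ val ev w ∈ X)

variable {M : DPDA α Q Γ} {ev : α → G}

theorem Rec.step {c c1 : Q × List Γ} {X : Set G} {u : List α} (h : Rec M ev c X)
    (hr : M.Run c u c1) : Rec M ev c1 (tr (val ev u) X) := by
  intro w hw
  rw [← accepts_append_iff hr hw, h (u ++ w) (by simp [hw]), val_append, mem_tr]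

theorem Rec.unique (hs : ∀ g : G, ∃ w, w ≠ [] ∧ val ev w = g) {c : Q × List Γ} {X Y : Set G}
    (h : Rec M ev c X) (h' : Rec M ev c Y) : X = Y := by
  ext g
  obtain ⟨w, hw, rfl⟩ := hs g
  rw [← h w hw, h' w hw]

theorem Rec.run_exists (hs : ∀ g : G, ∃ w, w ≠ [] ∧ val ev w = g) {c : Q × List Γ} {X : Set G}
    (h : Rec M ev c X) (hX : X.Nonempty) (u : List α) : ∃ c1, M.Run c u c1 := by
  obtain ⟨x, hx⟩ := hX
  obtain ⟨w, hw, hwx⟩ := hs ((val ev u)⁻¹ * x)
  have h1 : M.Accepts c (u ++ w) := by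
    rw [h (u ++ w) (by simp [hw]), val_append, hwx]
    simpa using hx
  obtain ⟨c2, h2, _⟩ := h1
  obtain ⟨c1, h3, _⟩ := h2.exists_mid
  exact ⟨c1, h3⟩

theorem Rec.stack_ne (hs : ∀ g : G, ∃ w, w ≠ [] ∧ val ev w = g) {c : Q × List Γ} {X : Set G}
    (h : Rec M ev c X) (hX : X.Nonempty) : c.2 ≠ [] := by
  intro h0
  obtain ⟨x, hx⟩ := hX
  obtain ⟨w, hw, hwx⟩ := hs x
  have h1 : M.Accepts c w := by
    rw [h w hw, hwx]
    exact hx
  obtain ⟨c2, h2, _⟩ := h1
  obtain ⟨q, S⟩ := c
  simp only at h0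
  subst h0
  exact hw h2.nil_stack.1

/-- On powers of the letter `b`, the automaton started with the stack `[Z]` runs for ever and
never uses up its stack. -/
def Live (M : DPDA α Q Γ) (b : α) (v : Q × Γ) : Prop :=
  (∀ n, ∃ c', M.Run (v.1, [v.2]) (List.replicate n b) c') ∧
    ∀ n q', ¬ M.Run (v.1, [v.2]) (List.replicate n b) (q', [])

theorem prefix_replicate {b : α} {n : ℕ} {w1 w2 : List α} (h : List.replicate n b = w1 ++ w2) :
    w1 = List.replicate w1.length b ∧ w2 = List.replicate w2.length b ∧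
      w1.length + w2.length = n := by
  have h1 : ∀ x ∈ w1 ++ w2, x = b := by
    intro x hx
    rw [← h] at hx
    exact List.eq_of_mem_replicate hx
  refine ⟨?_, ?_, ?_⟩
  · exact List.eq_replicate_of_mem (fun x hx => h1 x (List.mem_append_left _ hx))
  · exact List.eq_replicate_of_mem (fun x hx => h1 x (List.mem_append_right _ hx))
  · have := congrArg List.length h
    simp only [List.length_replicate, List.length_append] at this
    omega

/-- In a run on powers of `b` that never uses up its stack there is a live moment after any given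
time `n0`. -/
theorem exists_live {b : α} {c : Q × List Γ} (h1 : ∀ n, ∃ c', M.Run c (List.replicate n b) c')
    (h2 : ∀ n q', ¬ M.Run c (List.replicate n b) (q', [])) (n0 : ℕ) :
    ∃ (v : Q × Γ) (W : List Γ) (n : ℕ), n0 ≤ n ∧ M.Run c (List.replicate n b) (v.1, v.2 :: W) ∧
      Live M b v := by
  classical
  have hex : ∃ l : ℕ, ∃ c' : Q × List Γ, ∃ n, n0 ≤ n ∧ M.Run c (List.replicate n b) c' ∧
      c'.2.length = l := by
    obtain ⟨c', hc'⟩ := h1 n0
    exact ⟨_, c', n0, le_refl _, hc', rfl⟩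
  obtain ⟨c', n, hn, hc', hl⟩ := Nat.find_spec hex
  have hmin : ∀ (c'' : Q × List Γ) (n' : ℕ), n0 ≤ n' → M.Run c (List.replicate n' b) c'' →
      c'.2.length ≤ c''.2.length := by
    intro c'' n' hn' hr
    rw [hl]
    exact Nat.find_min' hex ⟨c'', n', hn', hr, rfl⟩
  obtain ⟨q, S⟩ := c'
  cases S with
  | nil => exact absurd hc' (h2 n q)
  | cons Z W =>
      refine ⟨(q, Z), W, n, hn, hc', ?_, ?_⟩
      · intro m
        obtain ⟨c'', hc''⟩ := h1 (n + m)
        rw [List.replicate_add] at hc''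
        rcases hc'.det hc'' with h3 | ⟨h3, _⟩
        · have h3' : M.Run (q, [Z] ++ W) (List.replicate m b) c'' := by simpa using h3
          rcases h3'.split with ⟨T', _, h5⟩ | ⟨w1, w2, q1, h4, h5, _⟩
          · exact ⟨_, h5⟩
          · exfalso
            obtain ⟨h6, _, _⟩ := prefix_replicate h4
            have h7 := h5.append W
            simp only [List.nil_append] at h7
            have h8 := hc'.trans (by simpa using h7)
            rw [h6, ← List.replicate_add] at h8
            have := hmin _ _ (by omega) h8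
            simp at this
        · have hm : m = 0 := by simpa using congrArg List.length h3
          subst hm
          exact ⟨_, Run.refl _⟩
      · intro m q1 h5
        have h7 := h5.append W
        simp only [List.nil_append] at h7
        have h8 := hc'.trans (by simpa using h7)
        rw [← List.replicate_add] at h8
        have := hmin _ _ (by omega) h8
        simp at this

theorem Live.next {b : α} {v : Q × Γ} (h : Live M b v) :
    ∃ (v' : Q × Γ) (n : ℕ) (U : List Γ), 1 ≤ n ∧
      M.Run (v.1, [v.2]) (List.replicate n b) (v'.1, v'.2 :: U) ∧ Live M b v' := by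
  obtain ⟨v', W, n, hn, hr, hl⟩ := exists_live h.1 h.2 1
  exact ⟨v', n, W, hn, hr, hl⟩

theorem exists_loop [Finite Q] [Finite Γ] (b : α) (v : Q × Γ) (h : Live M b v) :
    ∃ (δ : ℕ) (n0 : ℕ) (v' : Q × Γ) (W U : List Γ), 1 ≤ δ ∧
      M.Run (v.1, [v.2]) (List.replicate n0 b) (v'.1, v'.2 :: W) ∧
      M.Run (v'.1, [v'.2]) (List.replicate δ b) (v'.1, v'.2 :: U) := by
  classical
  choose f n U hn hr hl using fun (x : {v : Q × Γ // Live M b v}) => x.2.next
  let F : {v : Q × Γ // Live M b v} → {v : Q × Γ // Live M b v} := fun x => ⟨f x, hl x⟩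
  have hF : ∀ (m : ℕ) (x : {v : Q × Γ // Live M b v}), ∃ (n : ℕ) (W : List Γ), m ≤ n ∧
      M.Run (x.1.1, [x.1.2]) (List.replicate n b) ((F^[m] x).1.1, (F^[m] x).1.2 :: W) := by
    intro m
    induction m with
    | zero => intro x; exact ⟨0, [], le_refl _, Run.refl _⟩
    | succ m ih =>
        intro x
        obtain ⟨n', W, hn', hr'⟩ := ih (F x)
        refine ⟨n x + n', W ++ U x, by have := hn x; omega, ?_⟩
        rw [List.replicate_add]
        have h2 := hr'.append (U x)
        simp only [List.singleton_append, List.cons_append] at h2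
        exact (hr x).trans h2
  obtain ⟨i, j, hij, he⟩ := Finite.exists_ne_map_eq_of_infinite
    (fun i : ℕ => F^[i] ⟨v, h⟩)
  have key : ∀ i j : ℕ, i < j → F^[i] ⟨v, h⟩ = F^[j] ⟨v, h⟩ →
      ∃ (δ : ℕ) (n0 : ℕ) (v' : Q × Γ) (W U : List Γ), 1 ≤ δ ∧
      M.Run (v.1, [v.2]) (List.replicate n0 b) (v'.1, v'.2 :: W) ∧
      M.Run (v'.1, [v'.2]) (List.replicate δ b) (v'.1, v'.2 :: U) := by
    intro i j hlt he
    obtain ⟨n0, W, _, hr0⟩ := hF i ⟨v, h⟩
    obtain ⟨δ, U', hδ, hr1⟩ := hF (j - i) (F^[i] ⟨v, h⟩)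
    have e2 : F^[j - i] (F^[i] ⟨v, h⟩) = F^[i] ⟨v, h⟩ := by
      rw [← Function.iterate_add_apply]
      rw [show j - i + i = j by omega]
      exact he.symm
    rw [e2] at hr1
    exact ⟨δ, n0, (F^[i] ⟨v, h⟩).1, W, U', by omega, hr0, hr1⟩
  rcases lt_or_gt_of_ne hij with h1 | h1
  · exact key i j h1 he
  · exact key j i h1 he.symm

/-- uniform loop lengths -/
theorem exists_loopLen [Finite Q] [Finite Γ] (M : DPDA α Q Γ) (b : α) :
    ∃ δ : Q × Γ → ℕ, (∀ v, 1 ≤ δ v) ∧ ∀ v, Live M b v →
      ∃ (n0 : ℕ) (v' : Q × Γ) (W U : List Γ),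
      M.Run (v.1, [v.2]) (List.replicate n0 b) (v'.1, v'.2 :: W) ∧
      M.Run (v'.1, [v'.2]) (List.replicate (δ v) b) (v'.1, v'.2 :: U) := by
  classical
  have h : ∀ v : Q × Γ, ∃ d : ℕ, 1 ≤ d ∧ (Live M b v →
      ∃ (n0 : ℕ) (v' : Q × Γ) (W U : List Γ),
      M.Run (v.1, [v.2]) (List.replicate n0 b) (v'.1, v'.2 :: W) ∧
      M.Run (v'.1, [v'.2]) (List.replicate d b) (v'.1, v'.2 :: U)) := by
    intro v
    by_cases hv : Live M b v
    · obtain ⟨d, n0, v', W, U, hd, h1, h2⟩ := exists_loop b v hv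
      exact ⟨d, hd, fun _ => ⟨n0, v', W, U, h1, h2⟩⟩
    · exact ⟨1, le_refl _, fun h => absurd h hv⟩
  choose δ h1 h2 using h
  exact ⟨δ, h1, h2⟩

theorem run_loops {b : α} {v : Q × Γ} {d : ℕ} {U : List Γ}
    (h : M.Run (v.1, [v.2]) (List.replicate d b) (v.1, v.2 :: U)) (j : ℕ) :
    M.Run (v.1, [v.2]) (List.replicate (d * j) b) (v.1, v.2 :: rep U j) := by
  induction j with
  | zero => simpa [rep] using Run.refl (M := M) (v.1, [v.2])
  | succ j ih =>
      have e : d * (j + 1) = d * j + d := by ring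
      rw [e, List.replicate_add]
      have h2 := h.append (rep U j)
      simp only [List.singleton_append, List.cons_append] at h2
      exact ih.trans h2

end Pool.Agent.Helper893SD
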