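import Pool.Agent.Helper893_SD.Blocks2
import Pool.Agent.Helper893_SD.Key

/-!
Words with prescribed finite-state information represent a copy of the core group.
-/

namespace Pool.Agent.Helper893SD

open Equiv

theorem finiteIndex_comap {G G' : Type*} [Group G] [Group G'] (f : G' →* G) (H : Subgroup G)
    [H.FiniteIndex] : (H.comap f).FiniteIndex := by
  refine ⟨?_⟩
  rw [Subgroup.index_comap]
  exact Subgroup.isFiniteRelIndex_iff_relIndex_ne_zero.mp
    (Subgroup.isFiniteRelIndex_of_finiteIndex (K := f.range))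

section

variable {α G F : Type*} [Group G] [Semigroup F] [Finite F]

/-- the values of `μ` on the words `p w q` -/
def mid (μ : List α → F) (p q : List α) : Set F := Set.range (fun w => μ (p ++ w ++ q))

theorem exists_copy_words (μ : List α → F) (hμ : ∀ u v, μ (u ++ v) = μ u * μ v)
    (ev : α → G) (hev : ∀ g : G, ∃ w, val ev w = g) (ι : Core →* G) :
    ∃ (e : F) (γ : Core →* Core), Function.Injective γ ∧ e * e = e ∧
      ∀ x, ∃ w, μ w = e ∧ val ev w = ι (γ x) := by
  classical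
  -- minimal ends
  have hex : ∃ n : ℕ, ∃ p q : List α, (mid μ p q).ncard = n := ⟨_, [], [], rfl⟩
  obtain ⟨p, q, hpq⟩ := Nat.find_spec hex
  have hmin : ∀ p' q', (mid μ p q).ncard ≤ (mid μ p' q').ncard := by
    intro p' q'
    rw [hpq]
    exact Nat.find_min' hex ⟨p', q', rfl⟩
  obtain ⟨r, hr⟩ := hev ((val ev (p ++ q))⁻¹ * (val ev (p ++ q))⁻¹)
  set z : List α := p ++ q ++ r ++ p ++ q with hz
  have hzv : val ev z = 1 := by
    have : z = (p ++ q) ++ r ++ (p ++ q) := by simp [hz, List.append_assoc]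
    rw [this, val_append, val_append, hr]
    group
  set R : Set F := mid μ z z with hR
  have hmidR : ∀ a b, mid μ (z ++ a) (b ++ z) = R := by
    have key : ∀ a b, mid μ (z ++ a) (b ++ z) = mid μ p q := by
      intro a b
      apply Set.eq_of_subset_of_ncard_le
      · rintro s ⟨w, rfl⟩
        refine ⟨q ++ r ++ p ++ q ++ a ++ w ++ b ++ p ++ q ++ r ++ p, ?_⟩
        simp [hz, List.append_assoc]
      · exact hmin _ _
      · exact Set.toFinite _
    intro a b
    have h1 := key [] []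
    rw [List.append_nil, List.nil_append] at h1
    rw [key a b, hR, h1]
  have hstep : ∀ w, ∀ s ∈ R, s * μ (w ++ z) ∈ R := by
    rintro w s ⟨w1, rfl⟩
    refine ⟨w1 ++ z ++ w, ?_⟩
    simp only [← hμ]
    congr 1
    simp [List.append_assoc]
  have hsurj : ∀ w, ∀ s ∈ R, ∃ s' ∈ R, s' * μ (w ++ z) = s := by
    intro w s hs
    rw [← hmidR [] (z ++ w)] at hs
    obtain ⟨w1, rfl⟩ := hs
    refine ⟨μ (z ++ w1 ++ z), ⟨w1, rfl⟩, ?_⟩
    rw [← hμ]
    congr 1
    simp [List.append_assoc]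
  let f : List α → R → R := fun w s => ⟨s.1 * μ (w ++ z), hstep w s.1 s.2⟩
  have hf : ∀ w, Function.Bijective (f w) := by
    intro w
    have : Function.Surjective (f w) := by
      rintro ⟨s, hs⟩
      obtain ⟨s', hs', he⟩ := hsurj w s hs
      exact ⟨⟨s', hs'⟩, Subtype.ext he⟩
    exact ⟨Finite.injective_iff_surjective.mpr this, this⟩
  let σ : List α → Perm R := fun w => (Equiv.ofBijective (f w) (hf w))⁻¹
  have hσ1 : ∀ w, (σ w)⁻¹ = Equiv.ofBijective (f w) (hf w) := fun w => inv_inv _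
  have hσapp : ∀ w (s : R), (((σ w)⁻¹) s).1 = s.1 * μ (w ++ z) := by
    intro w s
    rw [hσ1]
    rfl
  have hσmul : ∀ w w', σ w * σ w' = σ (w ++ z ++ w') := by
    intro w w'
    apply inv_injective
    rw [mul_inv_rev]
    ext1 s
    apply Subtype.ext
    rw [Perm.mul_apply, hσapp, hσapp, hσapp, mul_assoc, ← hμ]
    congr 2
    simp [List.append_assoc]
  -- the subgroup of `G × Perm R`
  have hmulT : ∀ {w w' : List α} {a b : G × Perm R}, (val ev w, σ w) = a → (val ev w', σ w') = b →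
      (val ev (w ++ z ++ w'), σ (w ++ z ++ w')) = a * b := by
    rintro w w' a b rfl rfl
    rw [Prod.mk_mul_mk, hσmul, val_append, val_append, hzv, mul_one]
  have hpowT : ∀ (a : G × Perm R), (∃ w, (val ev w, σ w) = a) → ∀ n : ℕ,
      ∃ w, (val ev w, σ w) = a ^ (n + 1) := by
    rintro a ⟨w, hw⟩ n
    induction n with
    | zero => exact ⟨w, by rw [hw, zero_add, pow_one]⟩
    | succ n ih =>
        obtain ⟨w', hw'⟩ := ih
        exact ⟨w' ++ z ++ w, by rw [hmulT hw' hw, ← pow_succ]⟩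
  have hfin : ∀ π : Perm R, (∃ w, (val ev w, σ w) = ((1 : G), π)) →
      ∃ w, (val ev w, σ w) = ((1 : G), π⁻¹) := by
    intro π hπ
    have hc : 0 < orderOf π := orderOf_pos π
    obtain ⟨w, hw⟩ := hpowT _ hπ (2 * orderOf π - 2)
    refine ⟨w, ?_⟩
    rw [hw, Prod.pow_mk, one_pow]
    congr 1
    rw [eq_inv_iff_mul_eq_one, ← pow_succ, show 2 * orderOf π - 2 + 1 + 1 = orderOf π * 2 by omega,
      pow_mul, pow_orderOf_eq_one, one_pow]
  have hinvT : ∀ (a : G × Perm R), (∃ w, (val ev w, σ w) = a) → ∃ w, (val ev w, σ w) = a⁻¹ := by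
    rintro ⟨g, π⟩ ⟨w, hw⟩
    obtain ⟨w', hw'⟩ := hev g⁻¹
    have h1 : (val ev w', σ w') = (g⁻¹, σ w') := by rw [hw']
    have h2 := hmulT hw h1
    rw [Prod.mk_mul_mk, mul_inv_cancel] at h2
    obtain ⟨w'', hw''⟩ := hfin _ ⟨_, h2⟩
    have h3 := hmulT h1 hw''
    refine ⟨_, h3.trans ?_⟩
    rw [Prod.mk_mul_mk, mul_one, mul_inv_rev, mul_inv_cancel_left]
    rfl
  let T : Subgroup (G × Perm R) :=
    { carrier := {a | ∃ w, (val ev w, σ w) = a}
      mul_mem' := by
        rintro a b ⟨w, hw⟩ ⟨w', hw'⟩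
        exact ⟨_, hmulT hw hw'⟩
      one_mem' := by
        obtain ⟨w, hw⟩ := hinvT _ ⟨[], rfl⟩
        exact ⟨_, (hmulT (w := []) (w' := w) rfl hw).trans (mul_inv_cancel _)⟩
      inv_mem' := by
        rintro a ha
        exact hinvT a ha }
  have hT : ∀ a, a ∈ T ↔ ∃ w, (val ev w, σ w) = a := fun a => Iff.rfl
  have hTfi : T.FiniteIndex := by
    have : Finite ((G × Perm R) ⧸ T) := by
      apply Finite.of_surjective (fun π : Perm R => (QuotientGroup.mk ((1 : G), π) :
        (G × Perm R) ⧸ T))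
      intro x
      obtain ⟨⟨g, π⟩, rfl⟩ := QuotientGroup.mk_surjective x
      obtain ⟨w, hw⟩ := hev g
      refine ⟨π * (σ w)⁻¹, ?_⟩
      rw [QuotientGroup.eq]
      rw [hT]
      refine ⟨w, ?_⟩
      rw [Prod.inv_mk, Prod.mk_mul_mk, inv_one, one_mul, hw]
      congr 1
      group
    exact Subgroup.finiteIndex_of_finite_quotient
  set N : Subgroup Core := T.comap (ι.prod 1) with hN
  have hNfi : N.FiniteIndex := finiteIndex_comap _ T
  obtain ⟨γ, hγ1, hγ2⟩ := exists_copy (QuotientGroup.mk' N.normalCore)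
  have hγN : ∀ x, (ι (γ x), (1 : Perm R)) ∈ T := by
    intro x
    have h1 := hγ2 x
    rw [QuotientGroup.mk'_apply, QuotientGroup.eq_one_iff] at h1
    exact N.normalCore_le h1
  -- the idempotent
  obtain ⟨we, hwe⟩ := hinvT ((1 : G), σ []) ⟨[], rfl⟩
  have hwe1 : val ev we = 1 := by
    have := congrArg Prod.fst hwe
    simpa using this
  have hwe2 : σ we = (σ [])⁻¹ := congrArg Prod.snd hwe
  have hwe3 : σ (z ++ we) = 1 := by
    have := hσmul [] we
    rw [List.nil_append] at this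
    rw [← this, hwe2, mul_inv_cancel]
  have hid : ∀ s ∈ R, s * μ (z ++ we ++ z) = s := by
    intro s hs
    have := hσapp (z ++ we) ⟨s, hs⟩
    rw [hwe3, inv_one, Perm.one_apply] at this
    exact this.symm
  have heR : μ (z ++ we ++ z) ∈ R := ⟨we, rfl⟩
  refine ⟨μ (z ++ we ++ z), γ, hγ1, hid _ heR, ?_⟩
  intro x
  obtain ⟨w, hw⟩ := (hT _).mp (hγN x)
  have hw1 : val ev w = ι (γ x) := congrArg Prod.fst hw
  have hw2 : σ w = 1 := congrArg Prod.snd hw
  refine ⟨(z ++ we ++ z) ++ (w ++ z), ?_, ?_⟩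
  · rw [hμ]
    have := hσapp w ⟨_, heR⟩
    rw [hw2, inv_one, Perm.one_apply] at this
    exact this.symm
  · rw [val_append ev (z ++ we ++ z) (w ++ z), val_append ev (z ++ we) z, val_append ev z we,
      val_append ev w z, hzv, hwe1, hw1]
    simp

end

end Pool.Agent.Helper893SD
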