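import Pool.Agent.Helper893_SD.Tokens
import Mathlib.GroupTheory.Perm.ViaEmbedding

/-!
The Houghton groups and the Higman-Thompson groups, as permutation groups.
-/

namespace Pool.Agent.Helper893SD

open Equiv

/-- The set `Ω_n`: `none` is the point `0`, and `some (i, j)` is the point `(i + 1, j)`
on the ray `j`. -/
abbrev HPoint (n : ℕ) : Type := Option (ℕ × ZMod n)

/-- The map `σ_j`: it shifts the ray `j` one step towards `0`, sends `(1, j)` to `0` and `0` to
`(1, j + 1)`, shifts the ray `j + 1` one step outward, and fixes all other rays. -/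
def sigmaFun {n : ℕ} (j : ZMod n) : HPoint n → HPoint n
  | none => some (0, j + 1)
  | some (i, k) =>
      if k = j then (if i = 0 then none else some (i - 1, k))
      else if k = j + 1 then some (i + 1, k)
      else some (i, k)

/-- The Houghton group `H_n`, generated by the `σ_j` and the finitary permutations. -/
def Houghton (n : ℕ) : Subgroup (Perm (HPoint n)) :=
  Subgroup.closure {g | (∃ j : ZMod n, ∀ x, g x = sigmaFun j x) ∨ {x | g x ≠ x}.Finite}

/-- The Cantor set `X`: a letter from `Fin r` followed by an infinite sequence over `Fin n`. -/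
abbrev CPoint (n r : ℕ) : Type := Fin r × Stream' (Fin n)

/-- Nonempty finite words: a letter from `Fin r` followed by a finite word over `Fin n`. -/
abbrev CWord (n r : ℕ) : Type := Fin r × List (Fin n)

/-- The point `u s` for a nonempty finite word `u` and a tail `s`. -/
def cat {n r : ℕ} (u : CWord n r) (s : Stream' (Fin n)) : CPoint n r :=
  (u.1, Stream'.appendStream' u.2 s)

/-- The cone of sequences beginning with `u`. -/
def cone {n r : ℕ} (u : CWord n r) : Set (CPoint n r) := {x | ∃ s, cat u s = x}

/-- The bijections given by two partitions of `X` into the same finite number of cones. -/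
def IsTable {n r : ℕ} (g : Perm (CPoint n r)) : Prop :=
  ∃ (k : ℕ) (u v : Fin k → CWord n r),
    (∀ x, ∃! i, x ∈ cone (u i)) ∧ (∀ x, ∃! i, x ∈ cone (v i)) ∧
    ∀ i s, g (cat (u i) s) = cat (v i) s

section houghton

variable {n : ℕ}

/-- the three rays inside the rays of the Houghton group -/
def hEmb (hn : 3 ≤ n) : Om ↪ HPoint n where
  toFun x := some (x.2, ((x.1 : ℕ) : ZMod n))
  inj' := by
    rintro ⟨a, i⟩ ⟨b, j⟩ h
    simp only [Option.some.injEq, Prod.mk.injEq] at h
    obtain ⟨h1, h2⟩ := h
    have h3 := (ZMod.natCast_eq_natCast_iff' _ _ _).mp h2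
    rw [Nat.mod_eq_of_lt (by omega), Nat.mod_eq_of_lt (by omega)] at h3
    rw [Prod.mk.injEq]
    exact ⟨Fin.ext h3, h1⟩

theorem hEmb_apply (hn : 3 ≤ n) (a : Fin 3) (i : ℕ) :
    hEmb hn (a, i) = some (i, ((a : ℕ) : ZMod n)) := rfl

theorem via_finite {α β : Type*} (f : α ↪ β) (g : Perm α) (h : {x | g x ≠ x}.Finite) :
    {x | Perm.viaEmbedding g f x ≠ x}.Finite := by
  refine (h.image f).subset ?_
  intro x hx
  by_cases hr : x ∈ Set.range f
  · obtain ⟨y, rfl⟩ := hr
    refine ⟨y, ?_, rfl⟩
    intro hy
    apply hx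
    rw [Perm.viaEmbedding_apply, hy]
  · exact absurd (Perm.viaEmbedding_apply_of_notMem g f x hr) hx

theorem swap_finite {α : Type*} [DecidableEq α] (a b : α) : {x | swap a b x ≠ x}.Finite := by
  refine (Set.toFinite {a, b}).subset ?_
  intro x hx
  by_contra hno
  simp only [Set.mem_insert_iff, Set.mem_singleton_iff, not_or] at hno
  exact hx (swap_apply_of_ne_of_ne hno.1 hno.2)

theorem hEmb_shift_mem (hn : 3 ≤ n) (a b : Fin 3) (hab : (b : ℕ) = a + 1) :
    Perm.viaEmbedding (shift a b (by intro h; subst h; omega)) (hEmb hn) ∈ Houghton n := by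
  have hne : a ≠ b := by intro h; subst h; omega
  set g := Perm.viaEmbedding (shift a b hne) (hEmb hn) with hg
  have hs : swap (none : HPoint n) (some (0, ((a : ℕ) : ZMod n))) ∈ Houghton n :=
    Subgroup.subset_closure (Or.inr (swap_finite _ _))
  have hcast : ((b : ℕ) : ZMod n) = ((a : ℕ) : ZMod n) + 1 := by
    rw [hab]; push_cast; rfl
  have hab' : ((a : ℕ) : ZMod n) ≠ ((b : ℕ) : ZMod n) := by
    intro h
    have h3 := (ZMod.natCast_eq_natCast_iff' _ _ _).mp h
    rw [Nat.mod_eq_of_lt (by omega), Nat.mod_eq_of_lt (by omega)] at h3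
    omega
  have hA0 : g (some (0, ((a : ℕ) : ZMod n))) = some (0, ((b : ℕ) : ZMod n)) := by
    rw [hg, ← hEmb_apply hn a 0, Perm.viaEmbedding_apply, shift_zero]
    rfl
  have hA : ∀ i, g (some (i + 1, ((a : ℕ) : ZMod n))) = some (i, ((a : ℕ) : ZMod n)) := by
    intro i
    rw [hg, ← hEmb_apply hn a (i + 1), Perm.viaEmbedding_apply, shift_succ]
    rfl
  have hB : ∀ i, g (some (i, ((b : ℕ) : ZMod n))) = some (i + 1, ((b : ℕ) : ZMod n)) := by
    intro i
    rw [hg, ← hEmb_apply hn b i, Perm.viaEmbedding_apply, shift_out]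
    rfl
  have hO : ∀ x : HPoint n, (∀ i, x ≠ some (i, ((a : ℕ) : ZMod n))) →
      (∀ i, x ≠ some (i, ((b : ℕ) : ZMod n))) → g x = x := by
    intro x hxa hxb
    by_cases hr : x ∈ Set.range (hEmb hn)
    · obtain ⟨⟨c, i⟩, rfl⟩ := hr
      rw [hg, Perm.viaEmbedding_apply]
      congr 1
      apply shift_other
      · rintro rfl
        exact hxa i rfl
      · rintro rfl
        exact hxb i rfl
    · exact Perm.viaEmbedding_apply_of_notMem _ _ _ hr
  have hsig : g * swap (none : HPoint n) (some (0, ((a : ℕ) : ZMod n))) ∈ Houghton n := by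
    refine Subgroup.subset_closure (Or.inl ⟨((a : ℕ) : ZMod n), ?_⟩)
    intro x
    rw [Perm.mul_apply]
    rcases x with _ | ⟨i, k⟩
    · rw [swap_apply_left, hA0, hcast]
      rfl
    · simp only [sigmaFun]
      by_cases hk : k = ((a : ℕ) : ZMod n)
      · subst hk
        rw [if_pos rfl]
        by_cases hi : i = 0
        · subst hi
          rw [swap_apply_right, if_pos rfl]
          refine hO none ?_ ?_ <;> intro i <;> simp
        · rw [if_neg hi, swap_apply_of_ne_of_ne (by simp) (by simp [hi])]
          obtain ⟨m, rfl⟩ := Nat.exists_eq_succ_of_ne_zero hi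
          rw [Nat.succ_eq_add_one, hA, Nat.add_sub_cancel]
      · rw [if_neg hk, swap_apply_of_ne_of_ne (by simp) (by simp [hk]), ← hcast]
        by_cases hk2 : k = ((b : ℕ) : ZMod n)
        · subst hk2
          rw [if_pos rfl, hB]
        · rw [if_neg hk2]
          refine hO _ ?_ ?_
          · intro i'
            simp [hk]
          · intro i'
            simp [hk2]
  have : g = (g * swap (none : HPoint n) (some (0, ((a : ℕ) : ZMod n)))) *
      swap (none : HPoint n) (some (0, ((a : ℕ) : ZMod n))) := by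
    rw [mul_assoc, swap_mul_self, mul_one]
  rw [this]
  exact (Houghton n).mul_mem hsig hs

theorem hEmb_core_mem (hn : 3 ≤ n) (g : Core) :
    Perm.viaEmbeddingHom (hEmb hn) g.1 ∈ Houghton n := by
  have h : Core ≤ (Houghton n).comap (Perm.viaEmbeddingHom (hEmb hn)) := by
    rw [Core, Subgroup.closure_le]
    intro x hx
    simp only [Set.mem_insert_iff, Set.mem_singleton_iff] at hx
    rcases hx with rfl | rfl | rfl
    · exact hEmb_shift_mem hn 0 1 rfl
    · exact hEmb_shift_mem hn 1 2 rfl
    · exact Subgroup.subset_closure (Or.inr (via_finite _ _ (swap_finite _ _)))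
  exact h g.2

/-- the core group inside the Houghton group -/
noncomputable def coreToHoughton (hn : 3 ≤ n) : Core →* Houghton n :=
  ((Perm.viaEmbeddingHom (hEmb hn)).comp Core.subtype).codRestrict (Houghton n)
    (fun g => hEmb_core_mem hn g)

theorem coreToHoughton_injective (hn : 3 ≤ n) : Function.Injective (coreToHoughton hn) := by
  intro g h hgh
  apply Subtype.ext
  apply Perm.viaEmbeddingHom_injective (hEmb hn)
  exact congrArg Subtype.val hgh

end houghton

end Pool.Agent.Helper893SD
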