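import Pool.Agent.Helper893_SD.Groups

/-!
The Higman-Thompson groups contain the core group.
-/

namespace Pool.Agent.Helper893SD

open Equiv Stream'

section ht

variable {n r : ℕ}

/-- prefix replacement, uniformly on all words of a fixed length -/
def Unif (g : Perm (CPoint n r)) : Prop :=
  ∃ L : ℕ, ∀ u : CWord n r, u.2.length = L → ∃ v : CWord n r, ∀ s, g (cat u s) = cat v s

theorem cat_append (i : Fin r) (l l' : List (Fin n)) (s : Stream' (Fin n)) :
    cat (i, l ++ l') s = cat (i, l) (l' ++ₛ s) := by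
  simp [cat]

theorem cat_inj {u v : CWord n r} {s t : Stream' (Fin n)} (h : cat u s = cat v t)
    (hl : u.2.length = v.2.length) : u = v ∧ s = t := by
  obtain ⟨i, l⟩ := u
  obtain ⟨j, l'⟩ := v
  simp only [cat, Prod.mk.injEq] at h
  obtain ⟨h1, h2⟩ := h
  have h3 := Stream'.append_left_injective _ _ _ _ h2 hl
  subst h3
  subst h1
  exact ⟨rfl, Stream'.append_right_injective _ _ _ h2⟩

theorem exists_cat (L : ℕ) (x : CPoint n r) : ∃ u : CWord n r, u.2.length = L ∧ ∃ s, cat u s = x := by
  obtain ⟨i, s⟩ := x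
  refine ⟨(i, s.take L), by simp, s.drop L, ?_⟩
  simp only [cat, Prod.mk.injEq, true_and]
  exact Stream'.append_take_drop _ _

theorem unif_of_long {g : Perm (CPoint n r)} {L : ℕ}
    (h : ∀ u : CWord n r, u.2.length = L → ∃ v : CWord n r, ∀ s, g (cat u s) = cat v s)
    (u : CWord n r) (hu : L ≤ u.2.length) : ∃ v : CWord n r, ∀ s, g (cat u s) = cat v s := by
  obtain ⟨i, l⟩ := u
  simp only at hu
  obtain ⟨⟨j, l'⟩, hv⟩ := h (i, l.take L) (by simp [hu])
  refine ⟨(j, l' ++ l.drop L), fun s => ?_⟩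
  rw [cat_append, ← hv, ← cat_append, List.take_append_drop]

theorem IsTable.unif [NeZero n] {g : Perm (CPoint n r)} (h : IsTable g) : Unif g := by
  obtain ⟨k, u, v, hu, _, huv⟩ := h
  refine ⟨∑ i, (u i).2.length, ?_⟩
  intro w hw
  obtain ⟨i, hi, _⟩ := hu (cat w (Stream'.const 0))
  obtain ⟨s, hs⟩ := hi
  have hle : (u i).2.length ≤ w.2.length := by
    rw [hw]
    exact Finset.single_le_sum (f := fun i => (u i).2.length) (fun _ _ => Nat.zero_le _)
      (Finset.mem_univ i)
  obtain ⟨a, l⟩ := w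
  simp only at hle
  have h1 : cat (a, l.take (u i).2.length) (l.drop (u i).2.length ++ₛ Stream'.const 0) =
      cat (u i) s := by
    rw [← cat_append, List.take_append_drop, hs]
  obtain ⟨h2, _⟩ := cat_inj h1 (by simp [hle])
  refine ⟨((v i).1, (v i).2 ++ l.drop (u i).2.length), fun t => ?_⟩
  rw [cat_append]
  rw [show (((v i).1, (v i).2) : CWord n r) = v i from rfl, ← huv, ← h2, ← cat_append]
  simp only
  rw [List.length_take, min_eq_left hle, List.take_append_drop]

theorem Unif.isTable {g : Perm (CPoint n r)} (h : Unif g) : IsTable g := by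
  classical
  obtain ⟨L, hL⟩ := h
  let W := Fin r × List.Vector (Fin n) L
  let e : Fin (Fintype.card W) ≃ W := (Fintype.equivFin W).symm
  let u : Fin (Fintype.card W) → CWord n r := fun i => ((e i).1, (e i).2.1)
  have hlen : ∀ i, (u i).2.length = L := fun i => (e i).2.2
  choose v hv using fun i => hL (u i) (hlen i)
  have hu : ∀ x, ∃! i, x ∈ cone (u i) := by
    intro x
    obtain ⟨⟨a, l⟩, hl, s, hs⟩ := exists_cat L x
    refine ⟨e.symm (a, ⟨l, hl⟩), ⟨s, ?_⟩, ?_⟩
    · simp only [u]
      rw [Equiv.apply_symm_apply, hs]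
    · rintro j ⟨t, ht⟩
      rw [Equiv.eq_symm_apply]
      obtain ⟨h1, _⟩ := cat_inj (ht.trans hs.symm) ((hlen j).trans hl.symm)
      simp only [u, Prod.mk.injEq] at h1
      exact Prod.ext h1.1 (Subtype.ext h1.2)
  refine ⟨Fintype.card W, u, v, hu, ?_, hv⟩
  intro x
  have key : ∀ i, x ∈ cone (v i) ↔ g⁻¹ x ∈ cone (u i) := by
    intro i
    constructor
    · rintro ⟨s, rfl⟩
      exact ⟨s, by rw [← hv]; simp⟩
    · rintro ⟨s, hs⟩
      exact ⟨s, by rw [← hv, hs]; simp⟩
  simp only [key]
  exact hu _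

theorem IsTable.inv {g : Perm (CPoint n r)} (h : IsTable g) : IsTable g⁻¹ := by
  obtain ⟨k, u, v, hu, hv, huv⟩ := h
  exact ⟨k, v, u, hv, hu, fun i s => by rw [← huv]; simp⟩

theorem Unif.mul {g h : Perm (CPoint n r)} (hg : Unif g) (hh : Unif h) : Unif (g * h) := by
  obtain ⟨L, hL⟩ := hg
  obtain ⟨L', hL'⟩ := hh
  refine ⟨L' + L, ?_⟩
  rintro ⟨i, l⟩ hl
  simp only at hl
  obtain ⟨⟨j, l'⟩, hv⟩ := hL' (i, l.take L') (by simp [hl])
  obtain ⟨v, hv'⟩ := unif_of_long hL (j, l' ++ l.drop L') (by simp [hl])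
  refine ⟨v, fun s => ?_⟩
  rw [Perm.mul_apply, ← hv', cat_append, ← hv, ← cat_append, List.take_append_drop]

theorem unif_one : Unif (1 : Perm (CPoint n r)) := ⟨0, fun u _ => ⟨u, fun _ => rfl⟩⟩

/-- The Higman-Thompson group `G_{n,r}`: its elements are the bijections given by two partitions of
the Cantor set into the same finite number of cones. -/
def HigmanThompson (n r : ℕ) [NeZero n] : Subgroup (Perm (CPoint n r)) where
  carrier := {g | IsTable g}
  one_mem' := unif_one.isTable
  mul_mem' := fun ha hb => (ha.unif.mul hb.unif).isTable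
  inv_mem' := fun ha => ha.inv

theorem mem_ht [NeZero n] {g : Perm (CPoint n r)} (h : Unif g) : g ∈ HigmanThompson n r :=
  h.isTable

/-- the address of a ray -/
def addr (z o : Fin n) : Fin 3 → List (Fin n)
  | 0 => [z, z]
  | 1 => [z, o]
  | 2 => [o]

/-- payloads -/
abbrev Pay (z : Fin n) : Type := {c : Fin n // c ≠ z} × Stream' (Fin n)

theorem rep_inj {z : Fin n} {i j : ℕ} {c d : Fin n} {s t : Stream' (Fin n)} (hc : c ≠ z)
    (hd : d ≠ z) (h : List.replicate i z ++ₛ (c :: s) = List.replicate j z ++ₛ (d :: t)) :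
    i = j ∧ c = d ∧ s = t := by
  induction i generalizing j with
  | zero =>
      cases j with
      | zero =>
          simp only [List.replicate_zero, Stream'.nil_append_stream] at h
          have h1 := congrArg Stream'.head h
          have h2 := congrArg Stream'.tail h
          simp only [Stream'.head_cons, Stream'.tail_cons] at h1 h2
          exact ⟨rfl, h1, h2⟩
      | succ j =>
          simp only [List.replicate_zero, Stream'.nil_append_stream, List.replicate_succ,
            Stream'.cons_append_stream] at h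
          have h1 := congrArg Stream'.head h
          simp only [Stream'.head_cons] at h1
          exact absurd h1 hc
  | succ i ih =>
      cases j with
      | zero =>
          simp only [List.replicate_zero, Stream'.nil_append_stream, List.replicate_succ,
            Stream'.cons_append_stream] at h
          have h1 := congrArg Stream'.head h
          simp only [Stream'.head_cons] at h1
          exact absurd h1.symm hd
      | succ j =>
          simp only [List.replicate_succ, Stream'.cons_append_stream] at h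
          have h2 := congrArg Stream'.tail h
          simp only [Stream'.tail_cons] at h2
          obtain ⟨h3, h4, h5⟩ := ih h2
          exact ⟨by rw [h3], h4, h5⟩

/-- the point on ray `a` with tail `s` -/
def rayPt (i0 : Fin r) (z o : Fin n) (a : Fin 3) (s : Stream' (Fin n)) : CPoint n r :=
  (i0, addr z o a ++ₛ s)

theorem rayPt_inj {i0 : Fin r} {z o : Fin n} (hzo : z ≠ o) {a b : Fin 3}
    {s t : Stream' (Fin n)} (h : rayPt i0 z o a s = rayPt i0 z o b t) : a = b ∧ s = t := by
  simp only [rayPt, Prod.mk.injEq, true_and] at h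
  have hco : ∀ (c d : Fin n) (s t : Stream' (Fin n)), c :: s = d :: t → c = d ∧ s = t := by
    intro c d s t hcd
    exact ⟨congrArg Stream'.head hcd, congrArg Stream'.tail hcd⟩
  fin_cases a <;> fin_cases b
  · exact ⟨rfl, Stream'.append_right_injective _ _ _ h⟩
  · exact absurd (hco _ _ _ _ (hco z z (z :: s) (o :: t) h).2).1 hzo
  · exact absurd (hco z o (z :: s) t h).1 hzo
  · exact absurd (hco _ _ _ _ (hco z z (o :: s) (z :: t) h).2).1.symm hzo
  · exact ⟨rfl, Stream'.append_right_injective _ _ _ h⟩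
  · exact absurd (hco z o (o :: s) t h).1 hzo
  · exact absurd (hco o z s (z :: t) h).1.symm hzo
  · exact absurd (hco o z s (o :: t) h).1.symm hzo
  · exact ⟨rfl, Stream'.append_right_injective _ _ _ h⟩

/-- tokens with payload, as points -/
def tEmb (i0 : Fin r) {z o : Fin n} (hzo : z ≠ o) : Om × Pay z ↪ CPoint n r where
  toFun x := rayPt i0 z o x.1.1 (List.replicate x.1.2 z ++ₛ (x.2.1.1 :: x.2.2))
  inj' := by
    rintro ⟨⟨a, i⟩, ⟨⟨c, hc⟩, s⟩⟩ ⟨⟨b, j⟩, ⟨⟨d, hd⟩, t⟩⟩ h
    simp only at h
    obtain ⟨h1, h2⟩ := rayPt_inj hzo h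
    obtain ⟨h3, h4, h5⟩ := rep_inj hc hd h2
    subst h1 h3 h4 h5
    rfl

/-- acting on tokens, keeping the payload -/
def payHom (z : Fin n) : Perm Om →* Perm (Om × Pay z) where
  toFun g := Equiv.prodCongr g (Equiv.refl _)
  map_one' := by ext x <;> rfl
  map_mul' g h := by ext x <;> rfl

/-- the action on the Cantor set -/
noncomputable def actHom (i0 : Fin r) {z o : Fin n} (hzo : z ≠ o) : Perm Om →* Perm (CPoint n r) :=
  (Perm.viaEmbeddingHom (tEmb i0 hzo)).comp (payHom z)

theorem actHom_injective (i0 : Fin r) {z o : Fin n} (hzo : z ≠ o) :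
    Function.Injective (actHom i0 hzo) := by
  intro g h hgh
  have h1 : payHom z g = payHom z h := Perm.viaEmbeddingHom_injective (tEmb i0 hzo) hgh
  ext x : 1
  have h2 := congrArg (fun f : Perm (Om × Pay z) =>
    (f (x, (⟨o, hzo.symm⟩, Stream'.const z))).1) h1
  exact h2

theorem actHom_tok (i0 : Fin r) {z o : Fin n} (hzo : z ≠ o) (g : Perm Om) (a : Fin 3) (i : ℕ)
    {c : Fin n} (hc : c ≠ z) (s : Stream' (Fin n)) :
    actHom i0 hzo g (rayPt i0 z o a (List.replicate i z ++ₛ (c :: s))) =
      rayPt i0 z o (g (a, i)).1 (List.replicate (g (a, i)).2 z ++ₛ (c :: s)) := by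
  have h := Perm.viaEmbedding_apply (payHom z g) (tEmb i0 hzo) ((a, i), (⟨c, hc⟩, s))
  exact h

theorem const_ne (z : Fin n) {i : ℕ} {c : Fin n} (hc : c ≠ z) (s : Stream' (Fin n)) :
    List.replicate i z ++ₛ (c :: s) ≠ Stream'.const z := by
  intro h
  have h1 : (List.replicate i z ++ₛ (c :: s)).get i = (Stream'.const z).get i :=
    congrArg (fun x => x.get i) h
  have h2 := Stream'.get_append_length (List.replicate i z) (c :: s)
  rw [List.length_replicate] at h2
  rw [h2, Stream'.get_const] at h1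
  exact hc h1

theorem actHom_const (i0 : Fin r) {z o : Fin n} (hzo : z ≠ o) (g : Perm Om) (a : Fin 3) :
    actHom i0 hzo g (rayPt i0 z o a (Stream'.const z)) = rayPt i0 z o a (Stream'.const z) := by
  refine Perm.viaEmbedding_apply_of_notMem _ _ _ ?_
  rintro ⟨⟨⟨b, i⟩, ⟨⟨c, hc⟩, s⟩⟩, h⟩
  obtain ⟨_, h2⟩ := rayPt_inj hzo h
  exact const_ne z hc s h2

theorem actHom_out (i0 : Fin r) {z o : Fin n} (hzo : z ≠ o) (g : Perm Om) (x : CPoint n r)
    (hx : ∀ a s, x ≠ rayPt i0 z o a s) : actHom i0 hzo g x = x := by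
  refine Perm.viaEmbedding_apply_of_notMem _ _ _ ?_
  rintro ⟨⟨⟨b, i⟩, ⟨⟨c, hc⟩, s⟩⟩, h⟩
  exact hx _ _ h.symm

theorem stream_cases (z : Fin n) (s : Stream' (Fin n)) :
    s = Stream'.const z ∨ ∃ i c t, c ≠ z ∧ s = List.replicate i z ++ₛ (c :: t) := by
  by_cases h : ∀ i, s.get i = z
  · left
    ext i
    rw [h i, Stream'.get_const]
  · right
    have hex : ∃ i, s.get i ≠ z := not_forall.mp h
    classical
    refine ⟨Nat.find hex, s.get (Nat.find hex), s.drop (Nat.find hex + 1), Nat.find_spec hex, ?_⟩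
    have h1 : s.take (Nat.find hex) = List.replicate (Nat.find hex) z := by
      rw [List.eq_replicate_iff]
      refine ⟨by simp, ?_⟩
      intro b hb
      obtain ⟨k, hk, rfl⟩ := List.mem_iff_getElem.mp hb
      have hk' : k < Nat.find hex := by simpa using hk
      have := Nat.find_min hex hk'
      push Not at this
      rw [Stream'.take_get]
      exact this
    have h2 := Stream'.append_take_drop (Nat.find hex) s
    rw [h1] at h2
    nth_rewrite 1 [← h2]
    congr 1
    have h3 : s.get (Nat.find hex) = (s.drop (Nat.find hex)).head := by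
      rw [Stream'.head_drop]
    have h4 : s.drop (Nat.find hex + 1) = (s.drop (Nat.find hex)).tail := by
      rw [Stream'.tail_drop']
    rw [h3, h4, Stream'.eta]

theorem unif_of_rays (i0 : Fin r) {z o : Fin n} (g : Perm (CPoint n r))
    (h1 : ∀ a c, ∃ v : CWord n r, ∀ t, g (rayPt i0 z o a (c :: t)) = cat v t)
    (h2 : ∀ x : CPoint n r, (∀ a s, x ≠ rayPt i0 z o a s) → g x = x) : Unif g := by
  refine ⟨3, ?_⟩
  rintro ⟨i, l⟩ hl
  match l, hl with
  | [x, y, w], _ =>
    have hco : ∀ (c d : Fin n) (s t : Stream' (Fin n)), c :: s = d :: t → c = d ∧ s = t := by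
      intro c d s t hcd
      exact ⟨congrArg Stream'.head hcd, congrArg Stream'.tail hcd⟩
    by_cases hA : i = i0 ∧ x = z ∧ y = z
    · obtain ⟨rfl, rfl, rfl⟩ := hA
      obtain ⟨v, hv⟩ := h1 0 w
      exact ⟨v, fun s => by rw [← hv]; rfl⟩
    by_cases hB : i = i0 ∧ x = z ∧ y = o
    · obtain ⟨rfl, rfl, rfl⟩ := hB
      obtain ⟨v, hv⟩ := h1 1 w
      exact ⟨v, fun s => by rw [← hv]; rfl⟩
    by_cases hC : i = i0 ∧ x = o
    · obtain ⟨rfl, rfl⟩ := hC
      obtain ⟨⟨j, l⟩, hv⟩ := h1 2 y
      refine ⟨(j, l ++ [w]), fun s => ?_⟩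
      rw [cat_append, Stream'.append_eq_cons, ← hv]
      rfl
    refine ⟨(i, [x, y, w]), fun s => h2 _ ?_⟩
    intro a t hat
    simp only [cat, rayPt, Prod.mk.injEq] at hat
    obtain ⟨hi, h3⟩ := hat
    fin_cases a
    · obtain ⟨h4, h5⟩ := hco x z (y :: (w :: s)) (z :: t) h3
      obtain ⟨h6, h7⟩ := hco y z (w :: s) t h5
      exact hA ⟨hi, h4, h6⟩
    · obtain ⟨h4, h5⟩ := hco x z (y :: (w :: s)) (o :: t) h3
      obtain ⟨h6, h7⟩ := hco y o (w :: s) t h5
      exact hB ⟨hi, h4, h6⟩
    · obtain ⟨h4, h5⟩ := hco x o (y :: (w :: s)) t h3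
      exact hC ⟨hi, h4⟩

theorem cons_const (z : Fin n) : z :: Stream'.const z = Stream'.const z := by
  ext i
  cases i with
  | zero => rfl
  | succ i => rfl

theorem act_shiftA (i0 : Fin r) {z o : Fin n} (hzo : z ≠ o) {a b : Fin 3} (h : a ≠ b)
    (t : Stream' (Fin n)) :
    actHom i0 hzo (shift a b h) (rayPt i0 z o a (z :: t)) = rayPt i0 z o a t := by
  rcases stream_cases z t with rfl | ⟨i, c, t, hc, rfl⟩
  · rw [cons_const, actHom_const]
  · have := actHom_tok i0 hzo (shift a b h) a (i + 1) hc t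
    rw [shift_succ, List.replicate_succ, Stream'.cons_append_stream] at this
    exact this

theorem act_shiftB (i0 : Fin r) {z o : Fin n} (hzo : z ≠ o) {a b : Fin 3} (h : a ≠ b)
    {c : Fin n} (hc : c ≠ z) (t : Stream' (Fin n)) :
    actHom i0 hzo (shift a b h) (rayPt i0 z o a (c :: t)) = rayPt i0 z o b (c :: t) := by
  have := actHom_tok i0 hzo (shift a b h) a 0 hc t
  rw [shift_zero] at this
  exact this

theorem act_shiftC (i0 : Fin r) {z o : Fin n} (hzo : z ≠ o) {a b : Fin 3} (h : a ≠ b)
    (t : Stream' (Fin n)) :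
    actHom i0 hzo (shift a b h) (rayPt i0 z o b t) = rayPt i0 z o b (z :: t) := by
  rcases stream_cases z t with rfl | ⟨i, c, t, hc, rfl⟩
  · rw [cons_const, actHom_const]
  · have := actHom_tok i0 hzo (shift a b h) b i hc t
    rw [shift_out, List.replicate_succ, Stream'.cons_append_stream] at this
    exact this

theorem act_fix (i0 : Fin r) {z o : Fin n} (hzo : z ≠ o) (g : Perm Om) {a : Fin 3}
    (hg : ∀ i, g (a, i) = (a, i)) (t : Stream' (Fin n)) :
    actHom i0 hzo g (rayPt i0 z o a t) = rayPt i0 z o a t := by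
  rcases stream_cases z t with rfl | ⟨i, c, t, hc, rfl⟩
  · rw [actHom_const]
  · have := actHom_tok i0 hzo g a i hc t
    rw [hg] at this
    exact this

theorem rayPt_cons (i0 : Fin r) (z o : Fin n) (a : Fin 3) (c : Fin n) (t : Stream' (Fin n)) :
    rayPt i0 z o a (c :: t) = cat (i0, addr z o a ++ [c]) t := by
  rw [cat_append]
  rfl

theorem unif_shift (i0 : Fin r) {z o : Fin n} (hzo : z ≠ o) {a b : Fin 3} (h : a ≠ b) :
    Unif (actHom i0 hzo (shift a b h)) := by
  refine unif_of_rays i0 (z := z) (o := o) _ ?_ (actHom_out i0 hzo _)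
  intro d c
  by_cases hda : d = a
  · subst hda
    by_cases hc : c = z
    · subst hc
      exact ⟨(i0, addr c o d), fun t => act_shiftA i0 hzo h t⟩
    · exact ⟨(i0, addr z o b ++ [c]), fun t => by rw [act_shiftB i0 hzo h hc, rayPt_cons]⟩
  · by_cases hdb : d = b
    · subst hdb
      refine ⟨(i0, addr z o d ++ [z] ++ [c]), fun t => ?_⟩
      rw [act_shiftC i0 hzo h, rayPt_cons, cat_append, cat_append, cat_append]
      rfl
    · refine ⟨(i0, addr z o d ++ [c]), fun t => ?_⟩
      rw [act_fix i0 hzo _ (fun i => shift_other h hda hdb i), rayPt_cons]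

theorem unif_swap (i0 : Fin r) {z o : Fin n} (hzo : z ≠ o) :
    Unif (actHom i0 hzo (swap ((0, 0) : Om) (1, 0))) := by
  refine unif_of_rays i0 (z := z) (o := o) _ ?_ (actHom_out i0 hzo _)
  intro d c
  by_cases hc : c = z
  · subst hc
    refine ⟨(i0, addr c o d ++ [c]), fun t => ?_⟩
    rw [← rayPt_cons]
    rcases stream_cases c t with rfl | ⟨i, e, t, he, rfl⟩
    · rw [cons_const, actHom_const]
    · have := actHom_tok i0 hzo (swap ((0, 0) : Om) (1, 0)) d (i + 1) he t
      rw [swap_apply_of_ne_of_ne (by simp) (by simp), List.replicate_succ,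
        Stream'.cons_append_stream] at this
      exact this
  · have h0 := fun d t => actHom_tok i0 hzo (swap ((0, 0) : Om) (1, 0)) d 0 hc t
    simp only [List.replicate_zero, Stream'.nil_append_stream] at h0
    refine ⟨(i0, addr z o (swap ((0, 0) : Om) (1, 0) (d, 0)).1 ++ [c]), fun t => ?_⟩
    rw [h0, ← rayPt_cons]
    fin_cases d
    · simp
    · simp
    · simp [swap_apply_of_ne_of_ne]

theorem actHom_core_mem [NeZero n] (i0 : Fin r) {z o : Fin n} (hzo : z ≠ o) (g : Core) :
    actHom i0 hzo g.1 ∈ HigmanThompson n r := by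
  have h : Core ≤ (HigmanThompson n r).comap (actHom i0 hzo) := by
    rw [Core, Subgroup.closure_le]
    intro x hx
    simp only [Set.mem_insert_iff, Set.mem_singleton_iff] at hx
    rcases hx with rfl | rfl | rfl
    · exact mem_ht (unif_shift i0 hzo _)
    · exact mem_ht (unif_shift i0 hzo _)
    · exact mem_ht (unif_swap i0 hzo)
  exact h g.2

/-- the core group inside the Higman-Thompson group -/
noncomputable def coreToHT [NeZero n] (i0 : Fin r) {z o : Fin n} (hzo : z ≠ o) :
    Core →* HigmanThompson n r :=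
  ((actHom i0 hzo).comp Core.subtype).codRestrict (HigmanThompson n r)
    (fun g => actHom_core_mem i0 hzo g)

theorem coreToHT_injective [NeZero n] (i0 : Fin r) {z o : Fin n} (hzo : z ≠ o) :
    Function.Injective (coreToHT i0 hzo) := by
  intro g h hgh
  apply Subtype.ext
  apply actHom_injective i0 hzo
  exact congrArg Subtype.val hgh

end ht

end Pool.Agent.Helper893SD
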