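import Pool.Agent.Helper893_SD.Key

/-!
The key lemma, main part.
-/

namespace Pool.Agent.Helper893SD

open DPDA

variable {α Q Γ G : Type*} [Group G] {M : DPDA α Q Γ} {ev : α → G}

theorem tr_pow_mul {A : G} {n : ℕ} {X : Set G} (h : tr (A ^ n) X = X) (m : ℕ) :
    tr (A ^ (n * m)) X = X := by
  induction m with
  | zero => simp [tr_one]
  | succ m ih =>
      have e : n * (m + 1) = n * m + n := by ring
      rw [e, pow_add, ← tr_tr, ih, h]

theorem tr_pow_dvd {A : G} {n m : ℕ} {X : Set G} (h : tr (A ^ n) X = X) (hd : n ∣ m) :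
    tr (A ^ m) X = X := by
  obtain ⟨k, rfl⟩ := hd
  exact tr_pow_mul h k

theorem key_lemma [Fintype Q] [Fintype Γ] (hs : ∀ g : G, ∃ w, w ≠ [] ∧ val ev w = g)
    (a a' : α) (haa : ev a' = (ev a)⁻¹) :
    ∃ D : ℕ, 1 ≤ D ∧ ∀ (c : Q × List Γ) (X : Set G), Rec M ev c X → X.Nonempty →
      tr (ev a ^ D) X = X ∨
      ∃ Y : Q → Set G, ∀ k : G, Commute (ev a) k → ∃ (q : Q) (e : ℤ), Y q = tr (ev a ^ e * k) X := by
  classical
  obtain ⟨δa, ha1, ha2⟩ := exists_loopLen M a
  obtain ⟨δb, hb1, hb2⟩ := exists_loopLen M a'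
  generalize hA : ev a = A at *
  set P := (Fintype.card Q).factorial with hP
  have hPpos : 1 ≤ P := Nat.factorial_pos _
  refine ⟨P * (∏ v, δa v) * (∏ v, δb v), ?_, ?_⟩
  · have h1 : 1 ≤ ∏ v, δa v := Finset.one_le_prod' (fun v _ => ha1 v)
    have h2 : 1 ≤ ∏ v, δb v := Finset.one_le_prod' (fun v _ => hb1 v)
    exact Nat.mul_pos (Nat.mul_pos hPpos h1) h2
  intro c X hc hX
  by_cases hper : tr (A ^ (P * (∏ v, δa v) * ∏ v, δb v)) X = X
  · exact Or.inl hper
  right
  have hnp : ∀ n, n ∣ P * (∏ v, δa v) * (∏ v, δb v) → tr (A ^ n) X ≠ X :=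
    fun n hn h => hper (tr_pow_dvd h hn)
  have hex : ∃ l : ℕ, ∃ (c' : Q × List Γ) (e : ℤ), Rec M ev c' (tr (A ^ e) X) ∧
      c'.2.length = l := ⟨_, c, 0, by simpa [tr_one] using hc, rfl⟩
  obtain ⟨⟨q0, S'⟩, e0, hrec, hl⟩ := Nat.find_spec hex
  have hmin : ∀ (c'' : Q × List Γ) (e : ℤ), Rec M ev c'' (tr (A ^ e) X) →
      S'.length ≤ c''.2.length := by
    intro c'' e hr
    have := Nat.find_min' hex ⟨c'', e, hr, rfl⟩
    simp only at hl
    omega
  have hX' : (tr (A ^ e0) X).Nonempty := tr_nonempty hX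
  have hpow : ∀ m : ℕ, tr (A ^ m) (tr (A ^ e0) X) = tr (A ^ (e0 + m)) X := by
    intro m
    rw [tr_tr, zpow_add, zpow_natCast]
  -- periodicity of the shifted set gives periodicity
  have hback : ∀ n : ℕ, tr (A ^ n) (tr (A ^ e0) X) = tr (A ^ e0) X → tr (A ^ n) X = X := by
    intro n hn
    apply tr_injective (A ^ e0)
    rw [← hn, tr_tr, tr_tr]
    congr 1
    rw [← zpow_natCast, ← zpow_add, ← zpow_add, add_comm]
  cases S' with
  | nil => exact absurd rfl (hrec.stack_ne hs hX')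
  | cons Z0 S =>
  have hlive : Live M a (q0, Z0) := by
    constructor
    · intro n
      obtain ⟨c1, h1⟩ := hrec.run_exists hs hX' (List.replicate n a)
      have h1' : M.Run (q0, [Z0] ++ S) (List.replicate n a) c1 := by simpa using h1
      rcases h1'.split with ⟨T', _, h5⟩ | ⟨w1, w2, q1, h4, h5, _⟩
      · exact ⟨_, h5⟩
      · exfalso
        obtain ⟨h6, _, _⟩ := prefix_replicate h4
        have h7 := h5.append S
        simp only [List.nil_append] at h7
        have h8 := hrec.step (c1 := (q1, S)) (u := w1) (by simpa using h7)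
        rw [h6, val_replicate, hA, hpow] at h8
        have := hmin _ _ h8
        simp at this
    · intro n q1 h5
      have h7 := h5.append S
      simp only [List.nil_append] at h7
      have h8 := hrec.step (c1 := (q1, S)) (u := List.replicate n a) (by simpa using h7)
      rw [val_replicate, hA, hpow] at h8
      have := hmin _ _ h8
      simp at this
  obtain ⟨n0, v, W, U, hW, hU⟩ := ha2 (q0, Z0) hlive
  generalize hδ : δa (q0, Z0) = δ at hU
  have hδ1 : 1 ≤ δ := by rw [← hδ]; exact ha1 _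
  have hδd : δ ∣ ∏ v, δa v := by
    rw [← hδ]; exact Finset.dvd_prod_of_mem _ (Finset.mem_univ _)
  set S0 := W ++ S with hS0
  have hcj : ∀ j, M.Run (q0, Z0 :: S) (List.replicate (n0 + δ * j) a)
      (v.1, v.2 :: (rep U j ++ S0)) := by
    intro j
    rw [List.replicate_add]
    have h1 := hW.append S
    have h2 := (run_loops hU j).append S0
    simp only [List.cons_append, List.nil_append] at h1 h2
    exact h1.trans h2
  refine ⟨fun q'' => {g | ∃ w, w ≠ [] ∧ val ev w = g ∧ M.Accepts (q'', S0) w}, fun k hk => ?_⟩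
  suffices hsuff : ∃ (q'' : Q) (e : ℤ), Rec M ev (q'', S0) (tr (A ^ e * k) X) by
    obtain ⟨q'', e, hr⟩ := hsuff
    refine ⟨q'', e, ?_⟩
    ext g
    constructor
    · rintro ⟨w, hw, rfl, hacc⟩
      exact (hr w hw).mp hacc
    · intro hg
      obtain ⟨w, hw, rfl⟩ := hs g
      exact ⟨w, hw, rfl, (hr w hw).mpr hg⟩
  obtain ⟨kw, hkw, hkv⟩ := hs k
  have hval : ∀ n N : ℕ, val ev (List.replicate n a ++ kw ++ List.replicate N a') =
      A ^ ((n : ℤ) - N) * k := by
    intro n N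
    rw [val_append, val_append, val_replicate, val_replicate, haa, hA, hkv, inv_pow, mul_assoc,
      ← (hk.pow_left N).inv_left.eq, ← mul_assoc, zpow_sub, zpow_natCast, zpow_natCast]
  by_cases hK1 : ∀ j, ∃ p r q'', kw = p ++ r ∧ M.Run (v.1, v.2 :: rep U j) p (q'', [])
  · exfalso
    obtain ⟨p, r, q'', hp, hr⟩ := hK1 ((kw.length + 1) * Fintype.card Q)
    have hlen : p.length ≤ kw.length := by rw [hp, List.length_append]; omega
    have hr2 := pump (s := v.1) (s' := q'') (p := p) [v.2] U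
      (j := (kw.length + 1) * Fintype.card Q) (Nat.mul_le_mul_right _ (by omega))
      (by simpa using hr)
    generalize (kw.length + 1) * Fintype.card Q = j at hr hr2
    have a1 := (hr.append S0)
    have a2 := (hr2.append S0)
    simp only [List.nil_append, List.cons_append] at a1 a2
    have b1 := hrec.step ((hcj j).trans a1)
    have b2 := hrec.step ((hcj (j + P)).trans a2)
    have e := b1.unique hs b2
    rw [val_append, val_append, val_replicate, val_replicate, hA] at e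
    have e2 : A ^ (n0 + δ * (j + P)) = A ^ (δ * P) * A ^ (n0 + δ * j) := by
      rw [← pow_add]; congr 1; ring
    rw [e2, mul_assoc, ← tr_tr (A ^ (n0 + δ * j) * val ev p)] at e
    have e3 := tr_injective _ e
    refine hnp (δ * P) ?_ (hback _ e3.symm)
    rw [mul_comm δ P]
    exact Dvd.dvd.mul_right (Nat.mul_dvd_mul_left P hδd) _
  push Not at hK1
  obtain ⟨J, hJ⟩ := hK1
  obtain ⟨c1, hc1⟩ := (hrec.step (hcj J)).run_exists hs (tr_nonempty hX') kw
  have hc1' : M.Run (v.1, (v.2 :: rep U J) ++ S0) kw c1 := by simpa using hc1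
  rcases hc1'.split with ⟨T', _, hT'⟩ | ⟨w1, w2, q1, h4, h5, _⟩
  swap
  · exact absurd h5 (hJ w1 w2 q1 h4)
  generalize hqk : c1.1 = qk at hT'
  have hkrun : ∀ m, M.Run (q0, Z0 :: S) (List.replicate (n0 + δ * (J + m)) a ++ kw)
      (qk, T' ++ (rep U m ++ S0)) := by
    intro m
    have h1 := hT'.append (rep U m ++ S0)
    simp only [List.cons_append] at h1
    rw [← List.append_assoc (rep U J), ← rep_add] at h1
    exact (hcj (J + m)).trans h1
  by_cases hα : ∃ m N q'', M.Run (qk, T' ++ rep U m) (List.replicate N a') (q'', [])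
  · obtain ⟨m, N, q'', hr⟩ := hα
    have h1 := hr.append S0
    simp only [List.nil_append] at h1
    rw [List.append_assoc] at h1
    have h2 := hrec.step ((hkrun m).trans h1)
    rw [hval, tr_tr, ← mul_assoc, ← zpow_add] at h2
    exact ⟨q'', _, h2⟩
  push Not at hα
  exfalso
  have hα0 : ∀ N q'', ¬ M.Run (qk, T') (List.replicate N a') (q'', []) := by
    intro N q'' h
    exact hα 0 N q'' (by simpa [rep] using h)
  have hrun : ∀ N, ∃ c', M.Run (qk, T') (List.replicate N a') c' := by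
    intro N
    obtain ⟨c2, hc2⟩ := (hrec.step (hkrun 0)).run_exists hs (tr_nonempty hX')
      (List.replicate N a')
    rcases hc2.split with ⟨T2, _, h5⟩ | ⟨w1, w2, q1, h4, h5, _⟩
    · exact ⟨_, h5⟩
    · exfalso
      obtain ⟨h6, _, _⟩ := prefix_replicate h4
      rw [h6] at h5
      exact hα0 _ _ h5
  obtain ⟨v1, W1, N1, _, hr1, hlive1⟩ := exists_live hrun hα0 0
  obtain ⟨n1, v2, W2, U2, hW2, hU2⟩ := hb2 v1 hlive1
  generalize hδ' : δb v1 = δ' at hU2
  have hδd' : δ' ∣ ∏ v, δb v := by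
    rw [← hδ']; exact Finset.dvd_prod_of_mem _ (Finset.mem_univ _)
  have hrunb : ∀ i, M.Run (qk, T') (List.replicate (N1 + n1 + δ' * i) a')
      (v2.1, v2.2 :: (rep U2 i ++ (W2 ++ W1))) := by
    intro i
    rw [List.replicate_add, List.replicate_add]
    have h1 := hW2.append W1
    have h2 := (run_loops hU2 i).append (W2 ++ W1)
    simp only [List.cons_append, List.nil_append] at h1 h2
    exact (hr1.trans h1).trans h2
  have hrecim : ∀ i m, Rec M ev
      (v2.1, [v2.2] ++ rep U2 i ++ ((W2 ++ W1) ++ (rep U m ++ S0)))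
      (tr (A ^ (((n0 + δ * (J + m) : ℕ) : ℤ) - ((N1 + n1 + δ' * i : ℕ) : ℤ)) * k)
        (tr (A ^ e0) X)) := by
    intro i m
    have h1 := (hrunb i).append (rep U m ++ S0)
    have h2 := hrec.step ((hkrun m).trans h1)
    rw [hval] at h2
    simpa [List.append_assoc] using h2
  have hfin : tr (A ^ (((n0 + δ * J : ℕ) : ℤ) - ((N1 + n1 : ℕ) : ℤ)) * k) (tr (A ^ e0) X) =
      tr (A ^ (((n0 + δ * J : ℕ) : ℤ) - ((N1 + n1 + δ' * P : ℕ) : ℤ)) * k) (tr (A ^ e0) X) := by
    ext g
    obtain ⟨y, hy, hyg⟩ := hs g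
    have hz : ([a, a'] : List α) ≠ [] := by simp
    have hzv : val ev [a, a'] = 1 := by simp [val, haa, hA]
    set t := (y.length + 2 + 1) * Fintype.card Q with ht
    have hj : (y.length + ([a, a'] : List α).length + 1) * Fintype.card Q ≤ δ * t := by
      calc (y.length + ([a, a'] : List α).length + 1) * Fintype.card Q = 1 * t := by simp [ht]
        _ ≤ δ * t := Nat.mul_le_mul_right _ hδ1
    obtain ⟨y', hy', hacc⟩ := accepts_pump (M := M) v2.1 [v2.2] U2 y [a, a'] hz hj
    have hy'v : val ev y' = g := by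
      rcases hy' with rfl | rfl
      · rw [val_append, hzv, mul_one, hyg]
      · rw [val_append, val_append, hzv, mul_one, mul_one, hyg]
    have hy'n : y' ≠ [] := by
      rcases hy' with rfl | rfl <;> simp
    have h1 := hrecim (δ * t) (δ' * t) y' hy'n
    have h2 := hrecim (δ * t + P) (δ' * t) y' hy'n
    rw [hy'v] at h1 h2
    rw [hacc] at h1
    have e1 : (((n0 + δ * (J + δ' * t) : ℕ) : ℤ) - ((N1 + n1 + δ' * (δ * t) : ℕ) : ℤ)) =
        (((n0 + δ * J : ℕ) : ℤ) - ((N1 + n1 : ℕ) : ℤ)) := by push_cast; ring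
    have e2 : (((n0 + δ * (J + δ' * t) : ℕ) : ℤ) - ((N1 + n1 + δ' * (δ * t + P) : ℕ) : ℤ)) =
        (((n0 + δ * J : ℕ) : ℤ) - ((N1 + n1 + δ' * P : ℕ) : ℤ)) := by push_cast; ring
    rw [e1] at h1
    rw [e2] at h2
    exact h1.symm.trans h2
  have e3 : A ^ (((n0 + δ * J : ℕ) : ℤ) - ((N1 + n1 : ℕ) : ℤ)) * k =
      A ^ (δ' * P) * (A ^ (((n0 + δ * J : ℕ) : ℤ) - ((N1 + n1 + δ' * P : ℕ) : ℤ)) * k) := by
    rw [← mul_assoc, ← zpow_natCast, ← zpow_add]
    congr 2
    push_cast
    ring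
  rw [e3, ← tr_tr (A ^ (((n0 + δ * J : ℕ) : ℤ) - ((N1 + n1 + δ' * P : ℕ) : ℤ)) * k)] at hfin
  have e4 := tr_injective _ hfin
  refine hnp (δ' * P) ?_ (hback _ e4)
  have : P * (∏ v, δa v) * (∏ v, δb v) = (P * ∏ v, δb v) * ∏ v, δa v := by ring
  rw [this, mul_comm δ' P]
  exact Dvd.dvd.mul_right (Nat.mul_dvd_mul_left P hδd') _

end Pool.Agent.Helper893SD
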