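import Pool.Agent.Helper893_SD.Approx

/-!
The key lemma for sets which are only approximately recognised.
-/

namespace Pool.Agent.Helper893SD

open DPDA

variable {α Q Γ G : Type*} [Group G]

theorem classes {A : G} {X : Set G} (n : ℕ)
    (H : ∀ F : Fin (n + 1) → G, (∀ i, Commute A (F i)) →
      ∃ i j, i ≠ j ∧ Eqv A (tr (F i) X) (tr (F j) X)) :
    ∃ (m : ℕ) (Y : Fin m → Set G), ∀ k, Commute A k →
      ∃ (q : Fin m) (e : ℤ), Y q = tr (A ^ e * k) X := by
  classical
  let r : Setoid {k : G // Commute A k} :=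
    { r := fun k l => Eqv A (tr k.1 X) (tr l.1 X)
      iseqv := ⟨fun k => ⟨0, by rw [zpow_zero, tr_one]⟩, fun h => h.symm,
        fun h h' => h.trans h'⟩ }
  have hfin : Finite (Quotient r) := by
    by_contra hinf
    rw [not_finite_iff_infinite] at hinf
    let e := Infinite.natEmbedding (Quotient r)
    obtain ⟨i, j, hij, h⟩ := H (fun i => (e i).out.1) (fun i => (e i).out.2)
    have h1 : (⟦(e i).out⟧ : Quotient r) = ⟦(e j).out⟧ := Quotient.sound h
    rw [Quotient.out_eq, Quotient.out_eq] at h1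
    apply hij
    apply Fin.ext
    exact e.injective h1
  obtain ⟨m, ⟨f⟩⟩ := Finite.exists_equiv_fin (Quotient r)
  refine ⟨m, fun i => tr (f.symm i).out.1 X, fun k hk => ⟨f ⟦⟨k, hk⟩⟧, ?_⟩⟩
  have h1 : r.r ⟨k, hk⟩ (f.symm (f ⟦⟨k, hk⟩⟧)).out := by
    rw [Equiv.symm_apply_apply]
    exact (Quotient.mk_out (s := r) ⟨k, hk⟩).symm
  obtain ⟨e, he⟩ := h1
  refine ⟨e, ?_⟩
  simp only [he, tr_tr, (hk.zpow_left e).eq]

variable {M : DPDA α Q Γ} {ev : α → G} {v : Q × Γ} {E : Set G}

theorem eqv_of_tr {A g k l : G} {E : Set G} {m n : ℤ} (hk : Commute A k) (hl : Commute A l)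
    (h : tr (g * (A ^ m * k)) E = tr (g * (A ^ n * l)) E) :
    Eqv A (tr k (tr g E)) (tr l (tr g E)) := by
  rw [← tr_tr (A ^ m * k) g, ← tr_tr (A ^ n * l) g] at h
  generalize tr g E = X at h ⊢
  refine ⟨m - n, ?_⟩
  have h1 := congrArg (tr (A ^ (-n))) h
  rw [tr_tr, tr_tr] at h1
  have e1 : A ^ n * l * A ^ (-n) = l := by
    rw [(hl.zpow_left n).eq, mul_assoc, ← zpow_add, add_neg_cancel, zpow_zero, mul_one]
  have e2 : A ^ m * k * A ^ (-n) = k * A ^ (m - n) := by
    rw [(hk.zpow_left m).eq, mul_assoc, ← zpow_add]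
    rfl
  rw [e1, e2] at h1
  rw [tr_tr (A ^ (m - n)), h1]

/-- If no configuration over a centralising element is live for `a`, then there are few classes. -/
theorem classes_of_descent [Fintype Q] [Fintype Γ] (hs : ∀ g : G, ∃ w, w ≠ [] ∧ val ev w = g)
    {C : ℕ} (hC : LinearPop M C) (a : α) (hv : Total M v) (hG : Good M ev v E)
    (hU : UnifAcc M ev v E) (g : G)
    (hno : ¬ ∃ (κ : G) (v0 : Q × Γ) (R : ℕ → List Γ), Commute (ev a) κ ∧ Live M a v0 ∧
      At M ev v E (g * κ) v0.1 [v0.2] R)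
    (F : Fin (Fintype.card Q + 1) → G) (hF : ∀ i, Commute (ev a) (F i)) :
    ∃ i j, i ≠ j ∧ Eqv (ev a) (tr (F i) (tr g E)) (tr (F j) (tr g E)) := by
  classical
  choose kw hkw hkv using fun i => hs (F i)
  set L := C * ((∑ i, (kw i).length) + 1) + 1 with hL
  obtain ⟨q, T, R, hR, hT⟩ := exists_top (fun N => hG.at hs hv g N) L
  have hAt : At M ev v E g q T R := ⟨0, fun N => hR N⟩
  -- the top part is used up
  have hmain : ∀ i, ∃ n q', M.Run (q, T) (kw i ++ List.replicate n a) (q', []) := by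
    intro i
    by_contra hcon
    push Not at hcon
    have hlen : (kw i).length ≤ ∑ i, (kw i).length :=
      Finset.single_le_sum (f := fun i => (kw i).length) (fun _ _ => Nat.zero_le _)
        (Finset.mem_univ i)
    have hpre : ∀ p r q1, kw i = p ++ r → ¬ M.Run (q, T) p (q1, []) := by
      intro p r q1 hp hr
      have h1 := hC _ _ _ _ hr
      have h2 : p.length ≤ ∑ i, (kw i).length := by
        have := congrArg List.length hp
        rw [List.length_append] at this
        omega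
      have h3 : C * (p.length + 1) ≤ C * ((∑ i, (kw i).length) + 1) :=
        Nat.mul_le_mul_left _ (by omega)
      rcases hT with hT | hT
      · omega
      · obtain ⟨⟨u, _, hu⟩, _⟩ := hR 0
        rw [hT 0, List.append_nil] at hu
        exact hv.2 _ _ (hu.trans hr)
    have hrun : ∀ n, ∃ c', M.Run (q, T) (kw i ++ List.replicate n a) c' := by
      intro n
      rcases hAt.split hv (kw i ++ List.replicate n a) with ⟨q', T', h1⟩ | ⟨w1, w2, q1, h1, h2⟩
      · exact ⟨_, h1⟩
      · exfalso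
        rcases List.append_eq_append_iff.mp h1 with ⟨as, h3, h4⟩ | ⟨bs, h3, h4⟩
        · obtain ⟨h5, _, _⟩ := prefix_replicate h4
          rw [h3, h5] at h2
          exact hcon _ _ h2
        · exact hpre w1 bs q1 h3 h2
    obtain ⟨c0, hc0⟩ := hrun 0
    rw [List.replicate_zero, List.append_nil] at hc0
    have h1 : ∀ n, ∃ c', M.Run c0 (List.replicate n a) c' := by
      intro n
      obtain ⟨c', hc'⟩ := hrun n
      rcases hc0.det hc' with h2 | ⟨h2, _⟩
      · exact ⟨_, h2⟩
      · rw [h2]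
        exact ⟨_, Run.refl _⟩
    have h2 : ∀ n q', ¬ M.Run c0 (List.replicate n a) (q', []) := fun n q' h =>
      hcon n q' (hc0.trans h)
    obtain ⟨v1, W, n, _, hr, hl⟩ := exists_live h1 h2 0
    apply hno
    refine ⟨F i * ev a ^ n, v1, fun N => W ++ R N, (hF i).mul_right ((Commute.refl _).pow_right n),
      hl, ?_⟩
    have h3 := hAt.step (hc0.trans hr)
    rw [val_append, hkv, val_replicate] at h3
    exact At.assoc (T := [v1.2]) h3
  choose n q' hn using hmain
  obtain ⟨i, j, hij, hq⟩ := Fintype.exists_ne_map_eq_of_card_lt q' (by simp)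
  refine ⟨i, j, hij, ?_⟩
  have h1 := hAt.step (hn i)
  have h2 := hAt.step (hn j)
  rw [val_append, hkv, val_replicate] at h1 h2
  rw [← hq] at h2
  have h3 := At.unique hU h1 h2
  have e1 : F i * ev a ^ n i = ev a ^ (n i : ℤ) * F i := by
    rw [zpow_natCast, ((hF i).pow_left (n i)).eq]
  have e2 : F j * ev a ^ n j = ev a ^ (n j : ℤ) * F j := by
    rw [zpow_natCast, ((hF j).pow_left (n j)).eq]
  rw [e1, e2] at h3
  exact eqv_of_tr (hF i) (hF j) h3

end Pool.Agent.Helper893SD
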