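import Pool.Agent.Helper893_SD.Key4

/-!
The key lemma for approximately recognised sets: the case of a live configuration.
-/

namespace Pool.Agent.Helper893SD

open DPDA

variable {α Q Γ G : Type*} [Group G]

theorem per_of_tr {A g k : G} {E : Set G} {m n : ℤ}
    (h : tr (g * (A ^ m * k)) E = tr (g * (A ^ n * k)) E) :
    tr (A ^ (m - n)) (tr g E) = tr g E := by
  rw [← tr_tr (A ^ m * k) g, ← tr_tr (A ^ n * k) g] at h
  generalize tr g E = X at h ⊢
  rw [← tr_tr k, ← tr_tr k] at h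
  have h1 := congrArg (tr (A ^ (-n))) (tr_injective k h)
  rw [tr_tr, tr_tr, ← zpow_add, ← zpow_add, add_neg_cancel, zpow_zero, tr_one] at h1
  exact h1

theorem rep_length {U : List Γ} (hU : U ≠ []) (j : ℕ) : j ≤ (rep U j).length := by
  induction j with
  | zero => simp
  | succ j ih =>
      rw [rep, List.length_append]
      have := List.length_pos_iff.mpr hU
      omega

theorem rep_nil (j : ℕ) : rep ([] : List Γ) j = [] := by
  induction j with
  | zero => rfl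
  | succ j ih => rw [rep, ih, List.append_nil]

variable {M : DPDA α Q Γ} {ev : α → G} {v : Q × Γ} {E : Set G}

theorem live_case [Fintype Q] [Fintype Γ] (hs : ∀ g : G, ∃ w, w ≠ [] ∧ val ev w = g)
    {C : ℕ} (hC : LinearPop M C) (a a' : α) (haa : ev a' = (ev a)⁻¹)
    {δa δb : Q × Γ → ℕ} (ha1 : ∀ v, 1 ≤ δa v) (hb1 : ∀ v, 1 ≤ δb v)
    (ha2 : ∀ v, Live M a v → ∃ (n0 : ℕ) (v' : Q × Γ) (W U : List Γ),
      M.Run (v.1, [v.2]) (List.replicate n0 a) (v'.1, v'.2 :: W) ∧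
      M.Run (v'.1, [v'.2]) (List.replicate (δa v) a) (v'.1, v'.2 :: U))
    (hb2 : ∀ v, Live M a' v → ∃ (n0 : ℕ) (v' : Q × Γ) (W U : List Γ),
      M.Run (v.1, [v.2]) (List.replicate n0 a') (v'.1, v'.2 :: W) ∧
      M.Run (v'.1, [v'.2]) (List.replicate (δb v) a') (v'.1, v'.2 :: U))
    (hv : Total M v) (hU : UnifAcc M ev v E) {g : G} {v0 : Q × Γ} {R : ℕ → List Γ}
    (hl : Live M a v0) (hAt : At M ev v E g v0.1 [v0.2] R) :
    tr (ev a ^ ((∏ v, δa v) * ∏ v, δb v)) (tr g E) = tr g E ∨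
      ∀ F : Fin (Fintype.card Q + 1) → G, (∀ i, Commute (ev a) (F i)) →
        ∃ i j, i ≠ j ∧ Eqv (ev a) (tr (F i) (tr g E)) (tr (F j) (tr g E)) := by
  classical
  generalize hA : ev a = A at *
  obtain ⟨n0, v', W, U, hW, hUl⟩ := ha2 v0 hl
  generalize hδ : δa v0 = δ at hUl
  have hδ1 : 1 ≤ δ := by rw [← hδ]; exact ha1 _
  have hδd : δ ∣ (∏ v, δa v) * ∏ v, δb v := by
    rw [← hδ]; exact Dvd.dvd.mul_right (Finset.dvd_prod_of_mem _ (Finset.mem_univ _)) _
  by_cases hUn : U = []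
  · left
    subst hUn
    have h1 := hAt.step hW
    have h2 := hAt.step (hW.trans (hUl.append W))
    simp only [List.cons_append, List.nil_append] at h2
    have h3 := At.unique hU h2 h1
    rw [val_append, val_replicate, val_replicate, hA] at h3
    have e1 : g * (A ^ n0 * A ^ δ) = g * (A ^ ((n0 + δ : ℕ) : ℤ) * 1) := by
      rw [mul_one, zpow_natCast, pow_add]
    have e2 : g * A ^ n0 = g * (A ^ (n0 : ℤ) * 1) := by rw [mul_one, zpow_natCast]
    rw [e1, e2] at h3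
    have h4 := per_of_tr h3
    have e3 : ((n0 + δ : ℕ) : ℤ) - (n0 : ℤ) = (δ : ℤ) := by push_cast; ring
    rw [e3, zpow_natCast] at h4
    exact tr_pow_dvd h4 hδd
  have hcj : ∀ j, M.Run (v0.1, [v0.2]) (List.replicate (n0 + δ * j) a)
      (v'.1, v'.2 :: (rep U j ++ W)) := by
    intro j
    rw [List.replicate_add]
    have h2 := (run_loops hUl j).append W
    simp only [List.cons_append, List.nil_append] at h2
    exact hW.trans h2
  by_cases hα : ∀ k, Commute A k → ∃ (q'' : Q) (e : ℤ), At M ev v E (g * (A ^ e * k)) q'' W R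
  · right
    intro F hF
    choose q e hqe using fun i => hα (F i) (hF i)
    obtain ⟨i, j, hij, hq⟩ := Fintype.exists_ne_map_eq_of_card_lt q (by simp)
    refine ⟨i, j, hij, ?_⟩
    have h1 := hqe i
    have h2 := hqe j
    rw [← hq] at h2
    exact eqv_of_tr (hF i) (hF j) (At.unique hU h1 h2)
  left
  push Not at hα
  obtain ⟨k, hk, hα⟩ := hα
  obtain ⟨kw, hkw, hkv⟩ := hs k
  set J := C * (kw.length + 1) + 1 with hJ
  have hAtJ : ∀ m, At M ev v E (g * A ^ (n0 + δ * (J + m))) v'.1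
      ((v'.2 :: rep U J) ++ (rep U m ++ W)) R := by
    intro m
    have h1 := hAt.step (hcj (J + m))
    rw [val_replicate, hA, rep_add, List.append_assoc] at h1
    exact h1
  obtain ⟨qk, T', hkrun⟩ : ∃ qk T', M.Run (v'.1, v'.2 :: rep U J) kw (qk, T') := by
    rcases (hAtJ 0).assoc.split hv kw with ⟨q', T', h1⟩ | ⟨w1, w2, q1, h1, h2⟩
    · exact ⟨_, _, h1⟩
    · exfalso
      have h3 := hC _ _ _ _ h2
      have h4 : w1.length ≤ kw.length := by rw [h1, List.length_append]; omega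
      have h5 := rep_length hUn J
      have h6 : C * (w1.length + 1) ≤ C * (kw.length + 1) := Nat.mul_le_mul_left _ (by omega)
      rw [List.length_cons] at h3
      omega
  have hkm : ∀ m, At M ev v E (g * (A ^ (n0 + δ * (J + m)) * k)) qk
      (T' ++ (rep U m ++ W)) R := by
    intro m
    have h1 := (hAtJ m).step (hkrun.append (rep U m ++ W))
    rwa [hkv, mul_assoc] at h1
  have hα' : ∀ m N q'', ¬ M.Run (qk, T' ++ rep U m) (List.replicate N a') (q'', []) := by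
    intro m N q'' hr
    have h1 := hkm m
    rw [← List.append_assoc] at h1
    have h2 := h1.step (hr.append W)
    simp only [List.nil_append] at h2
    apply hα q'' (((n0 + δ * (J + m) : ℕ) : ℤ) - N)
    rw [val_replicate, haa, inv_pow] at h2
    convert h2 using 1
    rw [mul_assoc, mul_assoc, ← (hk.pow_left N).inv_left.eq, zpow_sub, zpow_natCast, zpow_natCast,
      mul_assoc]
  have hα0 : ∀ N q'', ¬ M.Run (qk, T') (List.replicate N a') (q'', []) := by
    intro N q'' h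
    exact hα' 0 N q'' (by simpa [rep] using h)
  have hrun : ∀ N, ∃ c', M.Run (qk, T') (List.replicate N a') c' := by
    intro N
    rcases (hkm 0).assoc.split hv (List.replicate N a') with ⟨q', T2, h1⟩ | ⟨w1, w2, q1, h1, h2⟩
    · exact ⟨_, h1⟩
    · exfalso
      obtain ⟨h6, _, _⟩ := prefix_replicate h1
      rw [h6] at h2
      exact hα0 _ _ h2
  obtain ⟨v1, W1, N1, _, hr1, hlive1⟩ := exists_live hrun hα0 0
  obtain ⟨n1, v2, W2, U2, hW2, hU2⟩ := hb2 v1 hlive1
  generalize hδ' : δb v1 = δ' at hU2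
  have hδd' : δ' ∣ (∏ v, δa v) * ∏ v, δb v := by
    rw [← hδ']; exact Dvd.dvd.mul_left (Finset.dvd_prod_of_mem _ (Finset.mem_univ _)) _
  have hrunb : ∀ i, M.Run (qk, T') (List.replicate (N1 + n1 + δ' * i) a')
      (v2.1, v2.2 :: (rep U2 i ++ (W2 ++ W1))) := by
    intro i
    rw [List.replicate_add, List.replicate_add]
    have h1 := hW2.append W1
    have h2 := (run_loops hU2 i).append (W2 ++ W1)
    simp only [List.cons_append, List.nil_append] at h1 h2
    exact (hr1.trans h1).trans h2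
  have hAtim : ∀ i m, At M ev v E
      (g * (A ^ (((n0 + δ * (J + m) : ℕ) : ℤ) - ((N1 + n1 + δ' * i : ℕ) : ℤ)) * k))
      v2.1 ((v2.2 :: rep U2 i) ++ ((W2 ++ W1) ++ (rep U m ++ W))) R := by
    intro i m
    have h2 := (hkm m).step ((hrunb i).append (rep U m ++ W))
    rw [val_replicate, haa, inv_pow] at h2
    have e : g * (A ^ (((n0 + δ * (J + m) : ℕ) : ℤ) - ((N1 + n1 + δ' * i : ℕ) : ℤ)) * k) =
        g * (A ^ (n0 + δ * (J + m)) * k) * (A ^ (N1 + n1 + δ' * i))⁻¹ := by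
      rw [mul_assoc, mul_assoc, ← (hk.pow_left (N1 + n1 + δ' * i)).inv_left.eq, zpow_sub,
        zpow_natCast, zpow_natCast, mul_assoc]
    rw [e]
    simpa [List.append_assoc] using h2
  -- the two families
  have H1 : ∀ t : ℕ, At M ev v E
      (g * (A ^ (((n0 + δ * J : ℕ) : ℤ) - ((N1 + n1 : ℕ) : ℤ)) * k))
      v2.1 ((v2.2 :: rep U2 (δ * t)) ++ ((W2 ++ W1) ++ (rep U (δ' * t) ++ W))) R := by
    intro t
    have h := hAtim (δ * t) (δ' * t)
    have e1 : (((n0 + δ * (J + δ' * t) : ℕ) : ℤ) - ((N1 + n1 + δ' * (δ * t) : ℕ) : ℤ)) =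
        (((n0 + δ * J : ℕ) : ℤ) - ((N1 + n1 : ℕ) : ℤ)) := by push_cast; ring
    rwa [e1] at h
  have H2 : ∀ t : ℕ, At M ev v E
      (g * (A ^ (((n0 + δ * J : ℕ) : ℤ) - ((N1 + n1 + δ' : ℕ) : ℤ)) * k))
      v2.1 ((v2.2 :: rep U2 (δ * t + 1)) ++ ((W2 ++ W1) ++ (rep U (δ' * t) ++ W))) R := by
    intro t
    have h := hAtim (δ * t + 1) (δ' * t)
    have e1 : (((n0 + δ * (J + δ' * t) : ℕ) : ℤ) - ((N1 + n1 + δ' * (δ * t + 1) : ℕ) : ℤ)) =
        (((n0 + δ * J : ℕ) : ℤ) - ((N1 + n1 + δ' : ℕ) : ℤ)) := by push_cast; ring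
    rwa [e1] at h
  have hiff : ∀ n, ∃ t, ∀ w : List α, w ≠ [] → w.length ≤ n → ∀ S,
      (M.Accepts (v2.1, (v2.2 :: rep U2 (δ * t)) ++
          ((W2 ++ W1) ++ (rep U (δ' * t) ++ W)) ++ S) w ↔
        M.Accepts (v2.1, (v2.2 :: rep U2 (δ * t + 1)) ++
          ((W2 ++ W1) ++ (rep U (δ' * t) ++ W)) ++ S) w) := by
    intro n
    refine ⟨C * (n + 1) + 1, fun w _ hwl S => ?_⟩
    set t := C * (n + 1) + 1 with ht
    by_cases hU2n : U2 = []
    · subst hU2n
      rw [rep_nil, rep_nil]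
    · have hne : ¬ ∃ w1 w2 q1, w = w1 ++ w2 ∧
          M.Run (v2.1, v2.2 :: rep U2 (δ * t)) w1 (q1, []) := by
        rintro ⟨w1, w2, q1, h1, h2⟩
        have h3 := hC _ _ _ _ h2
        have h4 : w1.length ≤ n := by
          have := congrArg List.length h1
          rw [List.length_append] at this
          omega
        have h5 := rep_length hU2n (δ * t)
        have h6 : C * (w1.length + 1) ≤ C * (n + 1) := Nat.mul_le_mul_left _ (by omega)
        have h7 : t ≤ δ * t := Nat.le_mul_of_pos_left _ hδ1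
        rw [List.length_cons] at h3
        omega
      have e2 : (v2.2 :: rep U2 (δ * t + 1)) ++ ((W2 ++ W1) ++ (rep U (δ' * t) ++ W)) ++ S =
          (v2.2 :: rep U2 (δ * t)) ++
            (rep U2 1 ++ ((W2 ++ W1) ++ (rep U (δ' * t) ++ W)) ++ S) := by
        rw [rep_add]
        simp
      rw [e2, List.append_assoc, accepts_iff_of_not_empty hne, accepts_iff_of_not_empty hne]
  have hfin := Set.Subset.antisymm
    (At.subset hU H1 H2 (fun n => by
      obtain ⟨t, ht⟩ := hiff n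
      exact ⟨t, fun w h1 h2 S => (ht w h1 h2 S).mp⟩))
    (At.subset hU H2 H1 (fun n => by
      obtain ⟨t, ht⟩ := hiff n
      exact ⟨t, fun w h1 h2 S => (ht w h1 h2 S).mpr⟩))
  have h4 := per_of_tr hfin
  have e3 : (((n0 + δ * J : ℕ) : ℤ) - ((N1 + n1 : ℕ) : ℤ)) -
      (((n0 + δ * J : ℕ) : ℤ) - ((N1 + n1 + δ' : ℕ) : ℤ)) = (δ' : ℤ) := by push_cast; ring
  rw [e3, zpow_natCast] at h4
  exact tr_pow_dvd h4 hδd'

/-- The key lemma. -/
theorem key_lemma5 [Fintype Q] [Fintype Γ] (hs : ∀ g : G, ∃ w, w ≠ [] ∧ val ev w = g)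
    {C : ℕ} (hC : LinearPop M C) (a a' : α) (haa : ev a' = (ev a)⁻¹) :
    ∃ D : ℕ, 1 ≤ D ∧ ∀ (v : Q × Γ) (E : Set G), Total M v → Good M ev v E → UnifAcc M ev v E →
      ∀ g : G, tr (ev a ^ D) (tr g E) = tr g E ∨
      ∃ (m : ℕ) (Y : Fin m → Set G), ∀ k : G, Commute (ev a) k →
        ∃ (q : Fin m) (e : ℤ), Y q = tr (ev a ^ e * k) (tr g E) := by
  classical
  obtain ⟨δa, ha1, ha2⟩ := exists_loopLen M a
  obtain ⟨δb, hb1, hb2⟩ := exists_loopLen M a'
  refine ⟨(∏ v, δa v) * (∏ v, δb v), ?_, ?_⟩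
  · have h1 : 1 ≤ ∏ v, δa v := Finset.one_le_prod' (fun v _ => ha1 v)
    have h2 : 1 ≤ ∏ v, δb v := Finset.one_le_prod' (fun v _ => hb1 v)
    exact Nat.mul_pos h1 h2
  intro v E hv hG hU g
  by_cases hno : ∃ (κ : G) (v0 : Q × Γ) (R : ℕ → List Γ), Commute (ev a) κ ∧ Live M a v0 ∧
      At M ev v E (g * κ) v0.1 [v0.2] R
  · obtain ⟨κ, v0, R, hκ, hl, hAt⟩ := hno
    rcases live_case hs hC a a' haa ha1 hb1 ha2 hb2 hv hU hl hAt with h1 | h1
    · left
      apply tr_injective κ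
      rw [tr_tr κ g]
      rw [← tr_tr κ g, tr_tr] at h1
      rw [tr_tr, (hκ.pow_left _).eq, h1, tr_tr]
    · right
      obtain ⟨m, Y, hY⟩ := classes _ h1
      refine ⟨m, Y, fun k hk => ?_⟩
      obtain ⟨q, e, hq⟩ := hY (κ⁻¹ * k) (hκ.inv_right.mul_right hk)
      refine ⟨q, e, ?_⟩
      rw [hq, ← tr_tr κ g, tr_tr]
      congr 1
      rw [← mul_assoc, ← mul_assoc, ← (hκ.zpow_left e).eq, mul_inv_cancel_right]
  · right
    exact classes _ (fun F hF => classes_of_descent hs hC a hv hG hU g hno F hF)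

end Pool.Agent.Helper893SD
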