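import Pool.Agent.Helper893_SD.Key5
import Pool.Agent.Helper893_SD.Deep3

/-!
The key lemma for approximately recognised sets, for arbitrary deterministic pushdown automata.
-/

namespace Pool.Agent.Helper893SD

open DPDA

variable {α Q Γ G : Type*} [Group G]

theorem pigeon {τ : Type*} [Finite τ] (P : τ → ℕ → Prop) (h : ∀ N, ∃ N', N ≤ N' ∧ ∃ t, P t N') :
    ∃ t, ∀ N, ∃ N', N ≤ N' ∧ P t N' := by
  classical
  have := Fintype.ofFinite τ
  by_contra hcon
  push Not at hcon
  choose f hf using hcon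
  obtain ⟨N', h1, t, h2⟩ := h (∑ t, f t)
  refine hf t N' (le_trans ?_ h1) h2
  exact Finset.single_le_sum (f := f) (fun _ _ => Nat.zero_le _) (Finset.mem_univ t)

variable {M : DPDA α Q Γ} {ev : α → G} {v : Q × Γ} {E : Set G}

theorem aper {A : G} {X : Set G} (hper : ∀ m : ℕ, 1 ≤ m → tr (A ^ m) X ≠ X) {m n : ℤ}
    (hmn : m ≠ n) (h : tr (A ^ (m - n)) X = X) : False := by
  rcases lt_or_gt_of_ne hmn with h1 | h1
  · have h2 := congrArg (tr (A ^ (n - m))) h
    rw [tr_tr, ← zpow_add] at h2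
    have e : m - n + (n - m) = 0 := by ring
    rw [e, zpow_zero, tr_one] at h2
    refine hper (n - m).toNat (by omega) ?_
    rw [← zpow_natCast, Int.toNat_of_nonneg (by omega)]
    exact h2.symm
  · refine hper (m - n).toNat (by omega) ?_
    rw [← zpow_natCast, Int.toNat_of_nonneg (by omega)]
    exact h

theorem classes_of_descent6 [Finite α] [Fintype Q] [Finite Γ]
    (hs : ∀ g : G, ∃ w, w ≠ [] ∧ val ev w = g) (a : α) (hv : Total M v) (hG : Good M ev v E)
    (hU : UnifAcc M ev v E) (g : G)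
    (hper : ∀ m : ℕ, 1 ≤ m → tr (ev a ^ m) (tr g E) ≠ tr g E)
    (hno : ¬ ∃ (κ : G) (v0 : Q × Γ) (R : ℕ → List Γ), Commute (ev a) κ ∧ Live M a v0 ∧
      At M ev v E (g * κ) v0.1 [v0.2] R)
    (F : Fin (Fintype.card Q + 1) → G) (hF : ∀ i, Commute (ev a) (F i)) :
    ∃ i j, i ≠ j ∧ Eqv (ev a) (tr (F i) (tr g E)) (tr (F j) (tr g E)) := by
  classical
  obtain ⟨B, hB⟩ := exists_conflict M ev hs (le_refl _) F a hF
  choose c hc using fun N => hG.at hs hv g N
  have hfin : Finite {l : List α // l.length ≤ B} := (List.finite_length_le α B).to_subtype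
  -- no live configuration for large `N`
  have hlive : ∃ N0, ∀ N, N0 ≤ N → ∀ w : List α, w.length ≤ B →
      (∃ (i : Fin (Fintype.card Q + 1)) (m : ℕ), val ev w = ev a ^ m * F i) →
        ∀ (v0 : Q × Γ) R', M.Run (c N) w (v0.1, v0.2 :: R') → ¬ Live M a v0 := by
    by_contra hcon
    push Not at hcon
    obtain ⟨⟨w, v0⟩, hwv⟩ := pigeon (τ := {l : List α // l.length ≤ B} × (Q × Γ))
      (fun t N => (∃ (i : Fin (Fintype.card Q + 1)) (m : ℕ), val ev t.1.1 = ev a ^ m * F i) ∧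
        ∃ R', M.Run (c N) t.1.1 (t.2.1, t.2.2 :: R') ∧ Live M a t.2) (by
          intro N
          obtain ⟨N', h1, w, h2, h3, v0, R', h4, h5⟩ := hcon N
          exact ⟨N', h1, (⟨w, h2⟩, v0), h3, R', h4, h5⟩)
    choose f hf1 hf2 R hf3 hf4 using hwv
    obtain ⟨i, m, him⟩ := hf2 0
    refine hno ⟨val ev w.1, v0, R, ?_, hf4 0, w.1.length, fun N => ?_⟩
    · rw [him]
      exact ((Commute.refl _).pow_right m).mul_right (hF i)
    · have := (hc (f N)).step (hf3 N)
      exact this.mono (Nat.sub_le_sub_right (hf1 N) _)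
  obtain ⟨N0, hN0⟩ := hlive
  obtain ⟨⟨x, y, t⟩, hxy⟩ := pigeon
    (τ := {l : List α // l.length ≤ B} × {l : List α // l.length ≤ B} × Q)
    (fun t N => ∃ l, Cross M (c N).1 (c N).2 l t.1.1 t.2.2 ∧
      Cross M (c N).1 (c N).2 l t.2.1.1 t.2.2 ∧ Conf ev (ev a) F t.1.1 t.2.1.1) (by
        intro N
        refine ⟨N + N0, by omega, ?_⟩
        obtain ⟨l, x, y, t, h1, h2, h3, h4, h5⟩ := hB (c (N + N0)).1 (c (N + N0)).2
          (fun w => (hc _).run hv w)
          (fun w q' h => by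
            obtain ⟨⟨u, _, hu⟩, _⟩ := hc (N + N0)
            exact hv.2 _ _ (hu.trans h))
          (hN0 _ (by omega))
        exact ⟨(⟨x, h1⟩, ⟨y, h2⟩, t), l, h3, h4, h5⟩)
  choose f hf1 l hf2 hf3 hf4 using hxy
  let R : ℕ → List Γ := fun N => (c (f N)).2.drop ((c (f N)).2.length - l N)
  have hcross : ∀ N z, Cross M (c (f N)).1 (c (f N)).2 (l N) z t →
      M.Run (c (f N)) z (t, [] ++ R N) := by
    intro N z h
    have h1 := h.append (R N)
    simp only [R, List.take_append_drop] at h1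
    exact h1
  have hAx : At M ev v E (g * val ev x.1) t [] R := ⟨x.1.length, fun N =>
    ((hc (f N)).step (hcross N _ (hf2 N))).mono (Nat.sub_le_sub_right (hf1 N) _)⟩
  have hAy : At M ev v E (g * val ev y.1) t [] R := ⟨y.1.length, fun N =>
    ((hc (f N)).step (hcross N _ (hf3 N))).mono (Nat.sub_le_sub_right (hf1 N) _)⟩
  have heq := At.unique hU hAx hAy
  rcases hf4 0 with ⟨i, j, m, m', hij, hx, hy⟩ | ⟨z, m, m', hmm, hx, hy⟩
  · refine ⟨i, j, hij, ?_⟩
    simp only at hx hy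
    rw [hx, hy, ← zpow_natCast, ← zpow_natCast] at heq
    exact eqv_of_tr (hF i) (hF j) heq
  · exfalso
    simp only at hx hy
    rw [hx, hy, ← zpow_natCast, ← zpow_natCast] at heq
    exact aper hper (m := m) (n := m') (by exact_mod_cast hmm) (per_of_tr heq)

theorem At.subset2 (hs : ∀ g : G, ∃ w, w ≠ [] ∧ val ev w = g) (hv : Total M v)
    (hU : UnifAcc M ev v E) {h1 h2 : G} {q1 q2 : Q} {T1 T2 : ℕ → List Γ}
    {R : ℕ → List Γ} (H1 : ∀ t, At M ev v E h1 q1 (T1 t) R)
    (H2 : ∀ t, At M ev v E h2 q2 (T2 t) R)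
    (H : ∀ n, ∃ t, ∀ w : List α, w.length ≤ n → ∀ S,
      (M.Accepts (q1, T1 t ++ S) w → M.Accepts (q2, T2 t ++ S) w) ∨
      (∀ w'', w'' ≠ [] → M.Accepts (q1, T1 t ++ S) (w ++ w'') →
        M.Accepts (q2, T2 t ++ S) (w ++ w''))) :
    tr h1 E ⊆ tr h2 E := by
  intro y hy
  rw [mem_tr] at hy ⊢
  obtain ⟨w0, hw0n, hw0⟩ := hs y
  obtain ⟨N, hN⟩ := hU (h1 * y) _ hy
  obtain ⟨t, ht⟩ := H (w0.length + N)
  obtain ⟨s1, hs1⟩ := H1 t
  obtain ⟨s2, hs2⟩ := H2 t
  set Nb := w0.length + N + N + s1 + s2 with hNb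
  have hc1 := hs1 Nb
  have hc2 := hs2 Nb
  obtain ⟨c1, hr1⟩ := hc1.run hv w0
  have a1 := hc1.step hr1
  rw [hw0] at a1
  obtain ⟨w', hw'n, hw'l, hw'v, hw'a⟩ := hN _ (a1.mono (by omega))
  have hw'1 : val ev w' = 1 := by simpa using hw'v
  have hacc1 : M.Accepts (q1, T1 t ++ R Nb) (w0 ++ w') :=
    (accepts_append_iff hr1 hw'n).mpr hw'a
  have hvw : val ev (w0 ++ w') = y := by rw [val_append, hw0, hw'1, mul_one]
  rcases ht (w0 ++ w') (by rw [List.length_append]; omega) (R Nb) with h | h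
  · have := hc2.2 (w0 ++ w') (by simp [hw0n]) (by rw [List.length_append]; omega) (h hacc1)
    rwa [hvw] at this
  · obtain ⟨c2, hr2⟩ := hc1.run hv (w0 ++ w')
    have a2 := hc1.step hr2
    rw [hvw] at a2
    obtain ⟨w'', hw''n, hw''l, hw''v, hw''a⟩ := hN _ (a2.mono (by
      rw [List.length_append]; omega))
    have hw''1 : val ev w'' = 1 := by simpa using hw''v
    have hacc2 := h w'' hw''n ((accepts_append_iff hr2 hw''n).mpr hw''a)
    have := hc2.2 _ (by simp [hw0n]) (by simp only [List.length_append]; omega) hacc2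
    rwa [val_append, hvw, hw''1, mul_one] at this

/-- For short words `w`: either `w` does not notice `P` further blocks, or no proper extension of
`w` does. -/
theorem transfer [Fintype Q] (q : Q) (T U : List Γ) {n j : ℕ}
    (hj : (n + 1) * Fintype.card Q ≤ j) (w : List α) (hw : w.length ≤ n) (R : List Γ) :
    (M.Accepts (q, T ++ rep U j ++ R) w ↔
        M.Accepts (q, T ++ rep U (j + (Fintype.card Q).factorial) ++ R) w) ∨
      ∀ w'', w'' ≠ [] → (M.Accepts (q, T ++ rep U j ++ R) (w ++ w'') ↔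
        M.Accepts (q, T ++ rep U (j + (Fintype.card Q).factorial) ++ R) (w ++ w'')) := by
  by_cases h : ∃ w1 w2 q1, w = w1 ++ w2 ∧ M.Run (q, T ++ rep U j) w1 (q1, [])
  · right
    obtain ⟨w1, w2, q1, hww, h1⟩ := h
    intro w'' hw''
    have hlen : w1.length ≤ n := by
      have := congrArg List.length hww
      rw [List.length_append] at this
      omega
    have h2 := pump T U (le_trans (Nat.mul_le_mul_right _ (by omega)) hj) h1
    have a1 := h1.append R
    have a2 := h2.append R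
    simp only [List.nil_append] at a1 a2
    have hne : w2 ++ w'' ≠ [] := fun h0 => hw'' (List.append_eq_nil_iff.mp h0).2
    rw [hww, List.append_assoc w1 w2, accepts_append_iff a1 hne, accepts_append_iff a2 hne]
  · left
    rw [accepts_iff_of_not_empty h R, rep_add, ← List.append_assoc, List.append_assoc,
      accepts_iff_of_not_empty h]

end Pool.Agent.Helper893SD
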