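import Pool.Agent.Helper893_SD.Key6

/-!
The key lemma for arbitrary deterministic pushdown automata: the live case, and the conclusion.
-/

namespace Pool.Agent.Helper893SD

open DPDA

variable {α Q Γ G : Type*} [Group G] {M : DPDA α Q Γ} {ev : α → G} {v : Q × Γ} {E : Set G}

theorem live_case6 [Fintype Q] [Finite Γ] (hs : ∀ g : G, ∃ w, w ≠ [] ∧ val ev w = g)
    (a a' : α) (haa : ev a' = (ev a)⁻¹)
    (hv : Total M v) (hU : UnifAcc M ev v E) {g : G} {v0 : Q × Γ} {R : ℕ → List Γ}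
    (hl : Live M a v0) (hAt : At M ev v E g v0.1 [v0.2] R)
    (hper : ∀ m : ℕ, 1 ≤ m → tr (ev a ^ m) (tr g E) ≠ tr g E)
    (F : Fin (Fintype.card Q + 1) → G) (hF : ∀ i, Commute (ev a) (F i)) :
    ∃ i j, i ≠ j ∧ Eqv (ev a) (tr (F i) (tr g E)) (tr (F j) (tr g E)) := by
  classical
  obtain ⟨δa, ha1, ha2⟩ := exists_loopLen M a
  obtain ⟨δb, hb1, hb2⟩ := exists_loopLen M a'
  generalize hA : ev a = A at *
  set P := (Fintype.card Q).factorial with hP
  have hPpos : 1 ≤ P := Nat.factorial_pos _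
  obtain ⟨n0, v', W, U, hW, hUl⟩ := ha2 v0 hl
  generalize hδ : δa v0 = δ at hUl
  have hδ1 : 1 ≤ δ := by rw [← hδ]; exact ha1 _
  have hcj : ∀ j, M.Run (v0.1, [v0.2]) (List.replicate (n0 + δ * j) a)
      (v'.1, v'.2 :: (rep U j ++ W)) := by
    intro j
    rw [List.replicate_add]
    have h2 := (run_loops hUl j).append W
    have h1 := hW
    simp only [List.cons_append, List.nil_append] at h2
    exact h1.trans h2
  by_cases hα : ∀ k, Commute A k → ∃ (q'' : Q) (e : ℤ), At M ev v E (g * (A ^ e * k)) q'' W R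
  · choose q e hqe using fun i => hα (F i) (hF i)
    obtain ⟨i, j, hij, hq⟩ := Fintype.exists_ne_map_eq_of_card_lt q (by simp)
    refine ⟨i, j, hij, ?_⟩
    have h1 := hqe i
    have h2 := hqe j
    rw [← hq] at h2
    exact eqv_of_tr (hF i) (hF j) (At.unique hU h1 h2)
  exfalso
  push Not at hα
  obtain ⟨k, hk, hα⟩ := hα
  obtain ⟨kw, hkw, hkv⟩ := hs k
  have hK1 : ∃ J, ∀ p r q'', kw = p ++ r → ¬ M.Run (v'.1, v'.2 :: rep U J) p (q'', []) := by
    by_contra hcon
    push Not at hcon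
    obtain ⟨p, r, q'', hp, hr⟩ := hcon ((kw.length + 1) * Fintype.card Q)
    have hlen : p.length ≤ kw.length := by rw [hp, List.length_append]; omega
    have hr2 := pump (s := v'.1) (s' := q'') (p := p) [v'.2] U
      (j := (kw.length + 1) * Fintype.card Q) (Nat.mul_le_mul_right _ (by omega))
      (by simpa using hr)
    generalize (kw.length + 1) * Fintype.card Q = j at hr hr2
    have a1 := hr.append W
    have a2 := hr2.append W
    simp only [List.nil_append, List.cons_append] at a1 a2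
    have b1 := hAt.step ((hcj j).trans a1)
    have b2 := hAt.step ((hcj (j + P)).trans a2)
    have e := At.unique hU b1 b2
    rw [val_append, val_append, val_replicate, val_replicate, hA, ← zpow_natCast,
      ← zpow_natCast] at e
    refine aper hper ?_ (per_of_tr e)
    intro h
    have h' : n0 + δ * j = n0 + δ * (j + P) := by exact_mod_cast h
    have : 1 ≤ δ * P := Nat.mul_pos hδ1 hPpos
    rw [Nat.mul_add] at h'
    omega
  obtain ⟨J, hJ⟩ := hK1
  have hAtJ : ∀ m, At M ev v E (g * A ^ (n0 + δ * (J + m))) v'.1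
      ((v'.2 :: rep U J) ++ (rep U m ++ W)) R := by
    intro m
    have h1 := hAt.step (hcj (J + m))
    rw [val_replicate, hA, rep_add, List.append_assoc] at h1
    exact h1
  obtain ⟨qk, T', hkrun⟩ : ∃ qk T', M.Run (v'.1, v'.2 :: rep U J) kw (qk, T') := by
    rcases (hAtJ 0).assoc.split hv kw with ⟨q', T', h1⟩ | ⟨w1, w2, q1, h1, h2⟩
    · exact ⟨_, _, h1⟩
    · exact absurd h2 (hJ w1 w2 q1 h1)
  have hkm : ∀ m, At M ev v E (g * (A ^ (n0 + δ * (J + m)) * k)) qk
      (T' ++ (rep U m ++ W)) R := by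
    intro m
    have h1 := (hAtJ m).step (hkrun.append (rep U m ++ W))
    rwa [hkv, mul_assoc] at h1
  have hα' : ∀ m N q'', ¬ M.Run (qk, T' ++ rep U m) (List.replicate N a') (q'', []) := by
    intro m N q'' hr
    have h1 := hkm m
    rw [← List.append_assoc] at h1
    have h2 := h1.step (hr.append W)
    simp only [List.nil_append] at h2
    apply hα q'' (((n0 + δ * (J + m) : ℕ) : ℤ) - N)
    rw [val_replicate, haa, inv_pow] at h2
    convert h2 using 1
    rw [mul_assoc, mul_assoc, ← (hk.pow_left N).inv_left.eq, zpow_sub, zpow_natCast, zpow_natCast,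
      mul_assoc]
  have hα0 : ∀ N q'', ¬ M.Run (qk, T') (List.replicate N a') (q'', []) := by
    intro N q'' h
    exact hα' 0 N q'' (by simpa [rep] using h)
  have hrun : ∀ N, ∃ c', M.Run (qk, T') (List.replicate N a') c' := by
    intro N
    rcases (hkm 0).assoc.split hv (List.replicate N a') with ⟨q', T2, h1⟩ | ⟨w1, w2, q1, h1, h2⟩
    · exact ⟨_, h1⟩
    · exfalso
      obtain ⟨h6, _, _⟩ := prefix_replicate h1
      rw [h6] at h2
      exact hα0 _ _ h2
  obtain ⟨v1, W1, N1, _, hr1, hlive1⟩ := exists_live hrun hα0 0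
  obtain ⟨n1, v2, W2, U2, hW2, hU2⟩ := hb2 v1 hlive1
  generalize hδ' : δb v1 = δ' at hU2
  have hδ'1 : 1 ≤ δ' := by rw [← hδ']; exact hb1 _
  have hrunb : ∀ i, M.Run (qk, T') (List.replicate (N1 + n1 + δ' * i) a')
      (v2.1, v2.2 :: (rep U2 i ++ (W2 ++ W1))) := by
    intro i
    rw [List.replicate_add, List.replicate_add]
    have h1 := hW2.append W1
    have h2 := (run_loops hU2 i).append (W2 ++ W1)
    simp only [List.cons_append, List.nil_append] at h1 h2
    exact (hr1.trans h1).trans h2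
  have hAtim : ∀ i m, At M ev v E
      (g * (A ^ (((n0 + δ * (J + m) : ℕ) : ℤ) - ((N1 + n1 + δ' * i : ℕ) : ℤ)) * k))
      v2.1 (([v2.2] ++ rep U2 i) ++ ((W2 ++ W1) ++ (rep U m ++ W))) R := by
    intro i m
    have h2 := (hkm m).step ((hrunb i).append (rep U m ++ W))
    rw [val_replicate, haa, inv_pow] at h2
    have e : g * (A ^ (((n0 + δ * (J + m) : ℕ) : ℤ) - ((N1 + n1 + δ' * i : ℕ) : ℤ)) * k) =
        g * (A ^ (n0 + δ * (J + m)) * k) * (A ^ (N1 + n1 + δ' * i))⁻¹ := by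
      rw [mul_assoc, mul_assoc, ← (hk.pow_left (N1 + n1 + δ' * i)).inv_left.eq, zpow_sub,
        zpow_natCast, zpow_natCast, mul_assoc]
    rw [e]
    simpa [List.append_assoc] using h2
  -- the two families
  have H1 : ∀ t : ℕ, At M ev v E
      (g * (A ^ (((n0 + δ * J : ℕ) : ℤ) - ((N1 + n1 : ℕ) : ℤ)) * k))
      v2.1 (([v2.2] ++ rep U2 (δ * t)) ++ ((W2 ++ W1) ++ (rep U (δ' * t) ++ W))) R := by
    intro t
    have h := hAtim (δ * t) (δ' * t)
    have e1 : (((n0 + δ * (J + δ' * t) : ℕ) : ℤ) - ((N1 + n1 + δ' * (δ * t) : ℕ) : ℤ)) =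
        (((n0 + δ * J : ℕ) : ℤ) - ((N1 + n1 : ℕ) : ℤ)) := by push_cast; ring
    rwa [e1] at h
  have H2 : ∀ t : ℕ, At M ev v E
      (g * (A ^ (((n0 + δ * J : ℕ) : ℤ) - ((N1 + n1 + δ' * P : ℕ) : ℤ)) * k))
      v2.1 (([v2.2] ++ rep U2 (δ * t + P)) ++ ((W2 ++ W1) ++ (rep U (δ' * t) ++ W))) R := by
    intro t
    have h := hAtim (δ * t + P) (δ' * t)
    have e1 : (((n0 + δ * (J + δ' * t) : ℕ) : ℤ) - ((N1 + n1 + δ' * (δ * t + P) : ℕ) : ℤ)) =
        (((n0 + δ * J : ℕ) : ℤ) - ((N1 + n1 + δ' * P : ℕ) : ℤ)) := by push_cast; ring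
    rwa [e1] at h
  have htr : ∀ n, ∃ t, ∀ w : List α, w.length ≤ n → ∀ S,
      (M.Accepts (v2.1, (([v2.2] ++ rep U2 (δ * t)) ++
          ((W2 ++ W1) ++ (rep U (δ' * t) ++ W))) ++ S) w ↔
        M.Accepts (v2.1, (([v2.2] ++ rep U2 (δ * t + P)) ++
          ((W2 ++ W1) ++ (rep U (δ' * t) ++ W))) ++ S) w) ∨
      ∀ w'', w'' ≠ [] → (M.Accepts (v2.1, (([v2.2] ++ rep U2 (δ * t)) ++
          ((W2 ++ W1) ++ (rep U (δ' * t) ++ W))) ++ S) (w ++ w'') ↔
        M.Accepts (v2.1, (([v2.2] ++ rep U2 (δ * t + P)) ++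
          ((W2 ++ W1) ++ (rep U (δ' * t) ++ W))) ++ S) (w ++ w'')) := by
    intro n
    refine ⟨(n + 1) * Fintype.card Q, fun w hwl S => ?_⟩
    have hj : (n + 1) * Fintype.card Q ≤ δ * ((n + 1) * Fintype.card Q) :=
      Nat.le_mul_of_pos_left _ hδ1
    have h := transfer (M := M) v2.1 [v2.2] U2 hj w hwl
      (((W2 ++ W1) ++ (rep U (δ' * ((n + 1) * Fintype.card Q)) ++ W)) ++ S)
    rw [← List.append_assoc ([v2.2] ++ rep U2 (δ * ((n + 1) * Fintype.card Q))),
      ← List.append_assoc ([v2.2] ++ rep U2 (δ * ((n + 1) * Fintype.card Q) + _))] at h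
    exact h
  have hfin := Set.Subset.antisymm
    (At.subset2 hs hv hU H1 H2 (fun n => by
      obtain ⟨t, ht⟩ := htr n
      refine ⟨t, fun w h1 S => ?_⟩
      rcases ht w h1 S with h | h
      · exact Or.inl h.mp
      · exact Or.inr fun w'' hw'' => (h w'' hw'').mp))
    (At.subset2 hs hv hU H2 H1 (fun n => by
      obtain ⟨t, ht⟩ := htr n
      refine ⟨t, fun w h1 S => ?_⟩
      rcases ht w h1 S with h | h
      · exact Or.inl h.mpr
      · exact Or.inr fun w'' hw'' => (h w'' hw'').mpr))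
  refine aper hper ?_ (per_of_tr hfin)
  intro h
  have : 1 ≤ δ' * P := Nat.mul_pos hδ'1 hPpos
  push_cast at h
  have h' : ((δ' * P : ℕ) : ℤ) = 0 := by push_cast; linarith
  have h'' : δ' * P = 0 := by exact_mod_cast h'
  omega

/-- The key lemma, for arbitrary deterministic pushdown automata. -/
theorem key_lemma7 [Finite α] [Fintype Q] [Finite Γ] (hs : ∀ g : G, ∃ w, w ≠ [] ∧ val ev w = g)
    (a a' : α) (haa : ev a' = (ev a)⁻¹) (v : Q × Γ) (E : Set G) (hv : Total M v)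
    (hG : Good M ev v E) (hU : UnifAcc M ev v E) (g : G) :
    (∃ m : ℕ, 1 ≤ m ∧ tr (ev a ^ m) (tr g E) = tr g E) ∨
      ∃ (m : ℕ) (Y : Fin m → Set G), ∀ k : G, Commute (ev a) k →
        ∃ (q : Fin m) (e : ℤ), Y q = tr (ev a ^ e * k) (tr g E) := by
  classical
  by_cases hper : ∃ m : ℕ, 1 ≤ m ∧ tr (ev a ^ m) (tr g E) = tr g E
  · exact Or.inl hper
  right
  push Not at hper
  by_cases hno : ∃ (κ : G) (v0 : Q × Γ) (R : ℕ → List Γ), Commute (ev a) κ ∧ Live M a v0 ∧
      At M ev v E (g * κ) v0.1 [v0.2] R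
  · obtain ⟨κ, v0, R, hκ, hl, hAt⟩ := hno
    have hper' : ∀ m : ℕ, 1 ≤ m → tr (ev a ^ m) (tr (g * κ) E) ≠ tr (g * κ) E := by
      intro m hm h
      refine hper m hm ?_
      apply tr_injective κ
      rw [tr_tr κ g]
      rw [← tr_tr κ g, tr_tr] at h
      rw [tr_tr, (hκ.pow_left _).eq, h, tr_tr]
    obtain ⟨m, Y, hY⟩ := classes _ (live_case6 hs a a' haa hv hU hl hAt hper')
    refine ⟨m, Y, fun k hk => ?_⟩
    obtain ⟨q, e, hq⟩ := hY (κ⁻¹ * k) (hκ.inv_right.mul_right hk)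
    refine ⟨q, e, ?_⟩
    rw [hq, ← tr_tr κ g, tr_tr]
    congr 1
    rw [← mul_assoc, ← mul_assoc, ← (hκ.zpow_left e).eq, mul_inv_cancel_right]
  · exact classes _ (fun F hF => classes_of_descent6 hs a hv hG hU g hper hno F hF)

end Pool.Agent.Helper893SD
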