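import Pool.Agent.Helper893_SD.DPDA

/-!
Inverse homomorphisms: reading a letter `b` as a nonempty word `φ b`.
-/

namespace Pool.Agent.Helper893SD

namespace DPDA

variable {α β Q Γ : Type*}

/-- the pending part of a word `φ b`, as a finite piece of control -/
abbrev Buf (φ : β → List α) : Type _ := Option (Σ b : β, Fin (φ b).length)

/-- the pending word `(φ b).drop k` -/
def mkBuf (φ : β → List α) (b : β) (k : ℕ) : Buf φ :=
  if h : k < (φ b).length then some ⟨b, ⟨k, h⟩⟩ else none

/-- the pending word -/
def wd (φ : β → List α) : Buf φ → List α
  | none => []
  | some ⟨b, k⟩ => (φ b).drop k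

theorem wd_none (φ : β → List α) : wd φ none = [] := rfl

theorem wd_some (φ : β → List α) (b : β) (k : Fin (φ b).length) :
    wd φ (some ⟨b, k⟩) = (φ b).drop k := rfl

theorem wd_mkBuf (φ : β → List α) (b : β) (k : ℕ) : wd φ (mkBuf φ b k) = (φ b).drop k := by
  unfold mkBuf
  split_ifs with h
  · rfl
  · simp only [wd]
    rw [List.drop_eq_nil_of_le (by omega)]

theorem wd_eq_nil {φ : β → List α} {u : Buf φ} (h : wd φ u = []) : u = none := by
  rcases u with _ | ⟨b, k⟩
  · rfl
  · simp only [wd, List.drop_eq_nil_iff] at h
    have := k.2
    omega

/-- The automaton that reads `b` by letting `M` read the word `φ b`. -/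
def subst (M : DPDA α Q Γ) (φ : β → List α) : DPDA β (Q × Buf φ) Γ where
  move p Z :=
    match M.move p.1 Z with
    | Sum.inl r => Sum.inl ((r.1, p.2), r.2)
    | Sum.inr f =>
        match p.2 with
        | some ⟨b, k⟩ =>
            match f ((φ b).get k) with
            | some r => Sum.inl ((r.1, mkBuf φ b (k + 1)), r.2)
            | none => Sum.inr (fun _ => none)
        | none => Sum.inr (fun b =>
            match (φ b).head? with
            | none => none
            | some a => (f a).map (fun r => ((r.1, mkBuf φ b 1), r.2)))
  final := {p | p.2 = none ∧ p.1 ∈ M.final}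

variable {M : DPDA α Q Γ} {φ : β → List α}

theorem subst_fwd {c c' : (Q × Buf φ) × List Γ} {w : List β}
    (h : (M.subst φ).Run c w c') :
    ∃ v, v ++ wd φ c'.1.2 = wd φ c.1.2 ++ w.flatMap φ ∧ M.Run (c.1.1, c.2) v (c'.1.1, c'.2) := by
  induction h with
  | refl c => exact ⟨[], by simp, Run.refl _⟩
  | @silent p Z S p' T w c hm hr ih =>
      obtain ⟨v, hv, hr'⟩ := ih
      obtain ⟨q, u⟩ := p
      simp only [subst] at hm
      cases hq : M.move q Z with
      | inl r =>
          rw [hq] at hm
          simp only [Sum.inl.injEq, Prod.mk.injEq] at hm
          obtain ⟨rfl, rfl⟩ := hm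
          exact ⟨v, hv, Run.silent hq hr'⟩
      | inr f =>
          rw [hq] at hm
          rcases u with _ | ⟨b, k⟩
          · simp at hm
          · simp only at hm
            cases hf : f ((φ b).get k) with
            | none => rw [hf] at hm; simp at hm
            | some r =>
                rw [hf] at hm
                simp only [Sum.inl.injEq, Prod.mk.injEq] at hm
                obtain ⟨rfl, rfl⟩ := hm
                refine ⟨(φ b).get k :: v, ?_, Run.read hq hf hr'⟩
                simp only [wd_mkBuf] at hv
                simp only [List.cons_append, hv, wd_some]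
                rw [← List.cons_append, List.get_eq_getElem, List.getElem_cons_drop]
  | @read p Z S f b p' T w c hm hf hr ih =>
      obtain ⟨v, hv, hr'⟩ := ih
      obtain ⟨q, u⟩ := p
      simp only [subst] at hm
      cases hq : M.move q Z with
      | inl r =>
          rw [hq] at hm
          simp at hm
      | inr g =>
          rw [hq] at hm
          rcases u with _ | ⟨b', k⟩
          · simp only [Sum.inr.injEq] at hm
            subst hm
            simp only at hf
            cases hh : φ b with
            | nil => rw [hh] at hf; simp at hf
            | cons a l =>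
                rw [hh] at hf
                simp only [List.head?_cons, Option.map_eq_some_iff, Prod.mk.injEq] at hf
                obtain ⟨r, hr1, rfl, rfl⟩ := hf
                refine ⟨a :: v, ?_, Run.read hq hr1 hr'⟩
                simp only [wd_mkBuf, hh] at hv
                simp only [List.cons_append, hv, wd_none, List.flatMap_cons, hh]
                simp
          · simp only at hm
            cases hf' : g ((φ b').get k) with
            | none =>
                rw [hf'] at hm
                simp only [Sum.inr.injEq] at hm
                subst hm
                simp at hf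
            | some r => rw [hf'] at hm; simp at hm

theorem subst_bwd (hφ : ∀ b, φ b ≠ []) {c c' : Q × List Γ} {v : List α} (h : M.Run c v c') :
    ∀ (u : Buf φ) (w : List β), v = wd φ u ++ w.flatMap φ →
      (M.subst φ).Run ((c.1, u), c.2) w ((c'.1, none), c'.2) := by
  induction h with
  | refl c =>
      intro u w hv
      have hv' : wd φ u = [] ∧ w.flatMap φ = [] := by
        have := hv.symm
        simpa only [List.append_eq_nil_iff] using this
      have hu := wd_eq_nil hv'.1
      have hw : w = [] := by
        rcases w with _ | ⟨b, w⟩
        · rfl
        · exfalso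
          have := hv'.2
          simp only [List.flatMap_cons, List.append_eq_nil_iff] at this
          exact hφ b this.1
      subst hu hw
      exact Run.refl _
  | @silent q Z S q' T w0 c hm hr ih =>
      intro u w hv
      refine Run.silent ?_ (ih u w hv)
      simp [subst, hm]
  | @read q Z S f a q' T w0 c hm hf hr ih =>
      intro u w hv
      rcases u with _ | ⟨b, k⟩
      · rcases w with _ | ⟨b, w⟩
        · simp [wd] at hv
        · simp only [wd, List.flatMap_cons, List.nil_append] at hv
          cases hh : φ b with
          | nil => exact absurd hh (hφ b)
          | cons a' l =>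
              rw [hh] at hv
              simp only [List.cons_append, List.cons.injEq] at hv
              obtain ⟨rfl, hv⟩ := hv
              refine Run.read (q' := (q', mkBuf φ b 1)) (T := T)
                (f := fun b => match (φ b).head? with
                  | none => none
                  | some a => (f a).map (fun r => ((r.1, mkBuf φ b 1), r.2))) ?_ ?_
                  (ih (mkBuf φ b 1) w ?_)
              · simp [subst, hm]
              · simp [hh, hf]
              · rw [wd_mkBuf, hv, hh]
                simp
      · simp only [wd] at hv
        have e : (φ b).drop k = (φ b).get k :: (φ b).drop (k + 1) := by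
          rw [List.get_eq_getElem, List.getElem_cons_drop]
        rw [e] at hv
        simp only [List.cons_append, List.cons.injEq] at hv
        obtain ⟨rfl, hv⟩ := hv
        refine Run.silent (q' := (q', mkBuf φ b (k + 1))) (T := T) ?_
          (ih (mkBuf φ b (k + 1)) w ?_)
        · simp only [subst, hm, hf]
        · rw [wd_mkBuf, hv]

theorem subst_accepts (hφ : ∀ b, φ b ≠ []) (c : Q × List Γ) (w : List β) :
    (M.subst φ).Accepts ((c.1, none), c.2) w ↔ M.Accepts c (w.flatMap φ) := by
  constructor
  · rintro ⟨c', hr, hf1, hf2⟩
    obtain ⟨v, hv, hr'⟩ := subst_fwd hr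
    rw [hf1] at hv
    simp only [wd, List.append_nil, List.nil_append] at hv
    subst hv
    exact ⟨_, hr', hf2⟩
  · rintro ⟨c', hr, hf⟩
    exact ⟨_, subst_bwd hφ hr none w (by simp [wd]), rfl, hf⟩

end DPDA

end Pool.Agent.Helper893SD
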