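import Pool.Agent.Helper893_SD.Ray
import Pool.Agent.Helper893_SD.Equalize
import Pool.Agent.Helper893_SD.Subst

/-!
The main theorem for groups containing the core group.
-/

namespace Pool.Agent.Helper893SD

open Equiv DPDA

/-- The language accepted from the configuration `c` is a union of sets of words with a given
value in the group. -/
def Saturated {α Q Γ G : Type*} [Group G] (M : DPDA α Q Γ) (ev : α → G) (c : Q × List Γ) : Prop :=
  ∀ w w', val ev w = val ev w' → (M.Accepts c w ↔ M.Accepts c w')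

section

variable {α Q Γ G : Type*} [Group G] {M : DPDA α Q Γ} {ev : α → G}

theorem Saturated.rec' {c : Q × List Γ} (h : Saturated M ev c) :
    Rec M ev c {g | ∃ w, val ev w = g ∧ M.Accepts c w} := by
  intro w _
  constructor
  · intro hw
    exact ⟨w, rfl, hw⟩
  · rintro ⟨w', hw', hacc⟩
    exact (h w' w hw').mp hacc

/-- every recognised nonempty set has a translate recognised from a stack of height one -/
theorem Rec.toType (hs : ∀ g : G, ∃ w, w ≠ [] ∧ val ev w = g) {c : Q × List Γ} {X : Set G}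
    (h : Rec M ev c X) (hX : X.Nonempty) :
    ∃ (g : G) (v : Q × Γ), Rec M ev (v.1, [v.2]) (tr g X) := by
  classical
  have hex : ∃ l : ℕ, ∃ (c' : Q × List Γ) (g : G), Rec M ev c' (tr g X) ∧ c'.2.length = l :=
    ⟨_, c, 1, by simpa [tr_one] using h, rfl⟩
  obtain ⟨⟨q, S'⟩, g, hrec, hl⟩ := Nat.find_spec hex
  have hmin : ∀ (c'' : Q × List Γ) (g' : G), Rec M ev c'' (tr g' X) →
      S'.length ≤ c''.2.length := by
    intro c'' g' hr
    have := Nat.find_min' hex ⟨c'', g', hr, rfl⟩
    simp only at hl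
    omega
  cases S' with
  | nil => exact absurd rfl (hrec.stack_ne hs (tr_nonempty hX))
  | cons Z S =>
      refine ⟨g, (q, Z), fun w hw => ?_⟩
      rw [← hrec w hw]
      have hno : ¬ ∃ w1 w2 q1, w = w1 ++ w2 ∧ M.Run (q, [Z]) w1 (q1, []) := by
        rintro ⟨w1, w2, q1, _, hr⟩
        have h1 := hr.append S
        simp only [List.nil_append, List.cons_append] at h1
        have h2 := hrec.step h1
        rw [tr_tr] at h2
        have := hmin _ _ h2
        simp at this
      exact (accepts_iff_of_not_empty hno S).symm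

theorem tr_conj_iff {g k : G} {X : Set G} (h : tr k (tr g X) = tr g X) (y : G) :
    g * k * g⁻¹ * y ∈ X ↔ y ∈ X := by
  have h1 : g⁻¹ * y ∈ tr k (tr g X) ↔ g⁻¹ * y ∈ tr g X := by rw [h]
  rw [mem_tr, mem_tr, mem_tr] at h1
  rw [mul_inv_cancel_left] at h1
  rw [← h1]
  have e : g * (k * (g⁻¹ * y)) = g * k * g⁻¹ * y := by group
  rw [e]

end

theorem core_main {β Q Γ : Type*} [Fintype Q] [Fintype Γ] (M : DPDA β Q Γ) (ev : β → Core)
    (hs : ∀ g : Core, ∃ w, w ≠ [] ∧ val ev w = g) (a a' b b' : β)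
    (ha : ev a = ⟨shift 0 1 (by decide), shift01_mem⟩) (ha' : ev a' = (ev a)⁻¹)
    (hb : ev b = ⟨shift 1 2 (by decide), shift12_mem⟩) (hb' : ev b' = (ev b)⁻¹) :
    ∃ h : Core, h ≠ 1 ∧ ∀ c, Saturated M ev c → (∃ w, val ev w = h ∧ M.Accepts c w) →
      ∃ w, val ev w = 1 ∧ M.Accepts c w := by
  classical
  obtain ⟨D1, hD1, key1⟩ := key_lemma (M := M) hs a a' ha'
  obtain ⟨D2, hD2, key2⟩ := key_lemma (M := M) hs b b' hb'
  rw [ha] at key1
  rw [hb] at key2
  set D := D1 * D2 with hD
  -- the sets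
  let B0 : Q × Γ → Set Core := fun v => {g | ∃ w, w ≠ [] ∧ val ev w = g ∧
    M.Accepts (v.1, [v.2]) w}
  let used : Q × Γ → Prop := fun v => Rec M ev (v.1, [v.2]) (B0 v) ∧ (B0 v).Nonempty
  let B : Q × Γ → Set (Perm Om) := fun v => {g | used v ∧ ∃ hg : g ∈ Core, (⟨g, hg⟩ : Core) ∈ B0 v}
  have hyp : ∀ v, Hyp (stab (B v)) D := by
    intro v g hg
    by_cases hv : used v
    swap
    · have hall : ∀ k, k ∈ Core → k ∈ stab (B v) := by
        intro k hk
        refine ⟨hk, fun y _ => ?_⟩
        simp only [B]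
        constructor
        · rintro ⟨h1, _⟩
          exact absurd h1 hv
        · rintro ⟨h1, _⟩
          exact absurd h1 hv
      exact ⟨Or.inl (hall _ (Core.mul_mem (Core.mul_mem hg (Core.pow_mem shift01_mem _))
          (Core.inv_mem hg))),
        Or.inl (hall _ (Core.mul_mem (Core.mul_mem hg (Core.pow_mem shift12_mem _))
          (Core.inv_mem hg)))⟩
    -- membership in B for used v
    have hB : ∀ y (hy : y ∈ Core), y ∈ B v ↔ (⟨y, hy⟩ : Core) ∈ B0 v := by
      intro y hy
      simp only [B]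
      constructor
      · rintro ⟨_, _, h2⟩
        exact h2
      · intro h2
        exact ⟨hv, hy, h2⟩
    -- a recognising configuration for the translate
    obtain ⟨u, _, hu⟩ := hs ⟨g, hg⟩
    obtain ⟨c1, hc1⟩ := hv.1.run_exists hs hv.2 u
    have hrec := hv.1.step hc1
    rw [hu] at hrec
    have hne : (tr (⟨g, hg⟩ : Core) (B0 v)).Nonempty := tr_nonempty hv.2
    have toStab : ∀ k : Core, tr k (tr (⟨g, hg⟩ : Core) (B0 v)) = tr (⟨g, hg⟩ : Core) (B0 v) →
        g * k.1 * g⁻¹ ∈ stab (B v) := by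
      intro k hk
      refine ⟨Core.mul_mem (Core.mul_mem hg k.2) (Core.inv_mem hg), fun y hy => ?_⟩
      rw [hB _ hy, hB _ (Core.mul_mem (Core.mul_mem (Core.mul_mem hg k.2) (Core.inv_mem hg)) hy)]
      exact tr_conj_iff hk ⟨y, hy⟩
    constructor
    · rcases key1 c1 _ hrec hne with h1 | ⟨Y, hY⟩
      · left
        have h2 := toStab _ (tr_pow_dvd h1 (Dvd.intro _ rfl : D1 ∣ D))
        exact h2
      · right
        intro i j k hij hik hjk
        apply toStab ⟨c3 (2, i) (2, j) (2, k), c3_mem _ _ _⟩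
        exact ray_invariant (c := 2) _
          (fun i => shift_other (by decide) (by decide) (by decide) i) _ Y hY i j k hij hik hjk
    · rcases key2 c1 _ hrec hne with h1 | ⟨Y, hY⟩
      · left
        have h2 := toStab _ (tr_pow_dvd h1 (Dvd.intro_left _ rfl : D2 ∣ D))
        exact h2
      · right
        intro i j k hij hik hjk
        apply toStab ⟨c3 (0, i) (0, j) (0, k), c3_mem _ _ _⟩
        exact ray_invariant (c := 0) _
          (fun i => shift_other (by decide) (by decide) (by decide) i) _ Y hY i j k hij hik hjk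
  obtain ⟨x, y, z, hxy, hxz, hyz, heq⟩ := equalize B D (Nat.mul_pos hD1 hD2) hyp
  refine ⟨⟨c3 x y z, c3_mem _ _ _⟩, ?_, ?_⟩
  · intro h
    have h1 : c3 x y z = 1 := congrArg Subtype.val h
    have h2 : c3 x y z x = y := c3_apply_1 hxy hxz
    rw [h1, Perm.one_apply] at h2
    exact hxy h2
  · rintro c hc ⟨w, hw, hacc⟩
    have hrec := hc.rec'
    set X : Set Core := {g | ∃ w, val ev w = g ∧ M.Accepts c w} with hX
    have hXne : X.Nonempty := ⟨_, w, hw, hacc⟩
    obtain ⟨g0, v, hv⟩ := hrec.toType hs hXne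
    have hB0 : B0 v = tr g0 X := by
      ext g
      constructor
      · rintro ⟨w', hw', rfl, hacc'⟩
        exact (hv w' hw').mp hacc'
      · intro hg
        obtain ⟨w', hw', rfl⟩ := hs g
        exact ⟨w', hw', rfl, (hv w' hw').mpr hg⟩
    have hused : used v := by
      refine ⟨by rw [hB0]; exact hv, ?_⟩
      rw [hB0]
      exact tr_nonempty hXne
    have hB : ∀ y (hy : y ∈ Core), y ∈ B v ↔ (⟨y, hy⟩ : Core) ∈ tr g0 X := by
      intro y hy
      simp only [B]
      rw [← hB0]
      constructor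
      · rintro ⟨_, _, h2⟩
        exact h2
      · intro h2
        exact ⟨hused, hy, h2⟩
    have h1 := heq v (g0⁻¹).1 (g0⁻¹).2
    rw [hB _ (Core.mul_mem (g0⁻¹).2 (c3_mem _ _ _)), hB _ (g0⁻¹).2] at h1
    rw [mem_tr, mem_tr] at h1
    have e1 : g0 * (⟨(g0⁻¹).1, (g0⁻¹).2⟩ : Core) = 1 := mul_inv_cancel g0
    have e2 : g0 * (⟨(g0⁻¹).1 * c3 x y z, Core.mul_mem (g0⁻¹).2 (c3_mem _ _ _)⟩ : Core) =
        ⟨c3 x y z, c3_mem _ _ _⟩ := by
      have : (⟨(g0⁻¹).1 * c3 x y z, Core.mul_mem (g0⁻¹).2 (c3_mem _ _ _)⟩ : Core) =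
        g0⁻¹ * ⟨c3 x y z, c3_mem _ _ _⟩ := rfl
      rw [this, mul_inv_cancel_left]
    rw [e1, e2] at h1
    exact h1.mp ⟨w, hw, hacc⟩

/-- generating letters of the core group: two shifts, their inverses, one swap -/
def coreLetter : Fin 5 → Core
  | 0 => ⟨shift 0 1 (by decide), shift01_mem⟩
  | 1 => ⟨shift 0 1 (by decide), shift01_mem⟩⁻¹
  | 2 => ⟨shift 1 2 (by decide), shift12_mem⟩
  | 3 => ⟨shift 1 2 (by decide), shift12_mem⟩⁻¹
  | 4 => ⟨swap (0, 0) (1, 0), swap0_mem⟩

theorem coreLetter_words (g : Core) : ∃ w, w ≠ [] ∧ val coreLetter w = g := by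
  have h1 : ∀ g (hg : g ∈ Core), ∃ w, val coreLetter w = (⟨g, hg⟩ : Core) := by
    intro g hg
    induction hg using Subgroup.closure_induction_right with
    | one => exact ⟨[], rfl⟩
    | mul_right x hx y hy ih =>
        obtain ⟨w, hw⟩ := ih
        simp only [Set.mem_insert_iff, Set.mem_singleton_iff] at hy
        rcases hy with rfl | rfl | rfl
        · exact ⟨w ++ [0], by rw [val_append, hw]; apply Subtype.ext; simp [val, coreLetter]⟩
        · exact ⟨w ++ [2], by rw [val_append, hw]; apply Subtype.ext; simp [val, coreLetter]⟩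
        · exact ⟨w ++ [4], by rw [val_append, hw]; apply Subtype.ext; simp [val, coreLetter]⟩
    | mul_inv_cancel x hx y hy ih =>
        obtain ⟨w, hw⟩ := ih
        simp only [Set.mem_insert_iff, Set.mem_singleton_iff] at hy
        rcases hy with rfl | rfl | rfl
        · exact ⟨w ++ [1], by rw [val_append, hw]; apply Subtype.ext; simp [val, coreLetter]⟩
        · exact ⟨w ++ [3], by rw [val_append, hw]; apply Subtype.ext; simp [val, coreLetter]⟩
        · exact ⟨w ++ [4], by rw [val_append, hw]; apply Subtype.ext; simp [val, coreLetter]⟩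
  obtain ⟨w, hw⟩ := h1 (g * (coreLetter 0)⁻¹).1 (g * (coreLetter 0)⁻¹).2
  refine ⟨w ++ [0], by simp, ?_⟩
  rw [val_append, hw]
  apply Subtype.ext
  simp [val]

/-- The main theorem: a group containing the core group. -/
theorem group_main {α Q Γ G : Type*} [Finite Q] [Finite Γ] [Group G] (ι : Core →* G)
    (hι : Function.Injective ι) (ev : α → G) (hev : Submonoid.closure (Set.range ev) = ⊤)
    (M : DPDA α Q Γ) :
    ∃ h : G, h ≠ 1 ∧ ∀ c, Saturated M ev c → (∃ w, val ev w = h ∧ M.Accepts c w) →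
      ∃ w, val ev w = 1 ∧ M.Accepts c w := by
  classical
  have := Fintype.ofFinite Q
  have := Fintype.ofFinite Γ
  -- words in G
  have hw0 : ∀ g : G, ∃ w, val ev w = g := by
    intro g
    have hg : g ∈ Submonoid.closure (Set.range ev) := by rw [hev]; trivial
    induction hg using Submonoid.closure_induction with
    | mem x hx =>
        obtain ⟨a, rfl⟩ := hx
        exact ⟨[a], by simp [val]⟩
    | one => exact ⟨[], rfl⟩
    | mul x y _ _ ihx ihy =>
        obtain ⟨u, rfl⟩ := ihx
        obtain ⟨v, rfl⟩ := ihy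
        exact ⟨u ++ v, val_append _ _ _⟩
  have hne : ∃ a : α, True := by
    by_contra hno
    have hempty : ∀ w : List α, w = [] := by
      intro w
      cases w with
      | nil => rfl
      | cons a w => exact absurd ⟨a, trivial⟩ hno
    obtain ⟨w, hw⟩ := hw0 (ι (coreLetter 4))
    rw [hempty w, val_nil, ← ι.map_one] at hw
    have h1 := congrArg Subtype.val (hι hw)
    have h2 : (1 : Perm Om) = swap (0, 0) (1, 0) := h1
    have h3 := congrFun (congrArg DFunLike.coe h2) (0, 0)
    rw [swap_apply_left] at h3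
    simp at h3
  obtain ⟨a0, _⟩ := hne
  have hs : ∀ g : G, ∃ w, w ≠ [] ∧ val ev w = g := by
    intro g
    obtain ⟨w, hw⟩ := hw0 ((ev a0)⁻¹ * g)
    refine ⟨a0 :: w, by simp, ?_⟩
    have : val ev (a0 :: w) = ev a0 * val ev w := by simp [val]
    rw [this, hw, mul_inv_cancel_left]
  choose φ hφ1 hφ2 using fun b : Fin 5 => hs (ι (coreLetter b))
  have hφv : ∀ w : List (Fin 5), val ev (w.flatMap φ) = ι (val coreLetter w) := by
    intro w
    induction w with
    | nil => simp [val]
    | cons b w ih =>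
        rw [List.flatMap_cons, val_append, ih, hφ2]
        simp [val]
  obtain ⟨h, hh1, hh2⟩ := core_main (M.subst φ) coreLetter coreLetter_words 0 1 2 3
    rfl rfl rfl rfl
  refine ⟨ι h, ?_, ?_⟩
  · intro h1
    rw [← ι.map_one] at h1
    exact hh1 (hι h1)
  · rintro c hc ⟨w, hw, hacc⟩
    have hsat : Saturated (M.subst φ) coreLetter ((c.1, none), c.2) := by
      intro u u' huu
      rw [subst_accepts hφ1, subst_accepts hφ1]
      apply hc
      rw [hφv, hφv, huu]
    obtain ⟨u, _, hu⟩ := coreLetter_words h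
    obtain ⟨u', hu', hacc'⟩ := hh2 _ hsat ⟨u, hu, by
      rw [subst_accepts hφ1]
      refine (hc w _ ?_).mp hacc
      rw [hφv, hu, hw]⟩
    rw [subst_accepts hφ1] at hacc'
    exact ⟨_, by rw [hφv, hu', map_one], hacc'⟩

end Pool.Agent.Helper893SD
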