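import Pool.Agent.Helper893_SD.Main

/-!
Stronger form of the main theorem: consistency is only asked along a set of words, and no
configuration which is consistent there separates `g` from `g * h`.
-/

namespace Pool.Agent.Helper893SD

open Equiv DPDA

theorem core_main2 {β Q Γ : Type*} [Fintype Q] [Fintype Γ] (M : DPDA β Q Γ) (ev : β → Core)
    (hs : ∀ g : Core, ∃ w, w ≠ [] ∧ val ev w = g) (a a' b b' : β)
    (ha : ev a = ⟨shift 0 1 (by decide), shift01_mem⟩) (ha' : ev a' = (ev a)⁻¹)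
    (hb : ev b = ⟨shift 1 2 (by decide), shift12_mem⟩) (hb' : ev b' = (ev b)⁻¹) :
    ∃ h : Core, h ≠ 1 ∧ ∀ c X, Rec M ev c X → ∀ y, (y * h ∈ X ↔ y ∈ X) := by
  classical
  obtain ⟨D1, hD1, key1⟩ := key_lemma (M := M) hs a a' ha'
  obtain ⟨D2, hD2, key2⟩ := key_lemma (M := M) hs b b' hb'
  rw [ha] at key1
  rw [hb] at key2
  set D := D1 * D2 with hD
  -- the sets
  let B0 : Q × Γ → Set Core := fun v => {g | ∃ w, w ≠ [] ∧ val ev w = g ∧
    M.Accepts (v.1, [v.2]) w}
  let used : Q × Γ → Prop := fun v => Rec M ev (v.1, [v.2]) (B0 v) ∧ (B0 v).Nonempty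
  let B : Q × Γ → Set (Perm Om) := fun v => {g | used v ∧ ∃ hg : g ∈ Core, (⟨g, hg⟩ : Core) ∈ B0 v}
  have hyp : ∀ v, Hyp (stab (B v)) D := by
    intro v g hg
    by_cases hv : used v
    swap
    · have hall : ∀ k, k ∈ Core → k ∈ stab (B v) := by
        intro k hk
        refine ⟨hk, fun y _ => ?_⟩
        simp only [B]
        constructor
        · rintro ⟨h1, _⟩
          exact absurd h1 hv
        · rintro ⟨h1, _⟩
          exact absurd h1 hv
      exact ⟨Or.inl (hall _ (Core.mul_mem (Core.mul_mem hg (Core.pow_mem shift01_mem _))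
          (Core.inv_mem hg))),
        Or.inl (hall _ (Core.mul_mem (Core.mul_mem hg (Core.pow_mem shift12_mem _))
          (Core.inv_mem hg)))⟩
    -- membership in B for used v
    have hB : ∀ y (hy : y ∈ Core), y ∈ B v ↔ (⟨y, hy⟩ : Core) ∈ B0 v := by
      intro y hy
      simp only [B]
      constructor
      · rintro ⟨_, _, h2⟩
        exact h2
      · intro h2
        exact ⟨hv, hy, h2⟩
    -- a recognising configuration for the translate
    obtain ⟨u, _, hu⟩ := hs ⟨g, hg⟩
    obtain ⟨c1, hc1⟩ := hv.1.run_exists hs hv.2 u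
    have hrec := hv.1.step hc1
    rw [hu] at hrec
    have hne : (tr (⟨g, hg⟩ : Core) (B0 v)).Nonempty := tr_nonempty hv.2
    have toStab : ∀ k : Core, tr k (tr (⟨g, hg⟩ : Core) (B0 v)) = tr (⟨g, hg⟩ : Core) (B0 v) →
        g * k.1 * g⁻¹ ∈ stab (B v) := by
      intro k hk
      refine ⟨Core.mul_mem (Core.mul_mem hg k.2) (Core.inv_mem hg), fun y hy => ?_⟩
      rw [hB _ hy, hB _ (Core.mul_mem (Core.mul_mem (Core.mul_mem hg k.2) (Core.inv_mem hg)) hy)]
      exact tr_conj_iff hk ⟨y, hy⟩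
    constructor
    · rcases key1 c1 _ hrec hne with h1 | ⟨Y, hY⟩
      · left
        have h2 := toStab _ (tr_pow_dvd h1 (Dvd.intro _ rfl : D1 ∣ D))
        exact h2
      · right
        intro i j k hij hik hjk
        apply toStab ⟨c3 (2, i) (2, j) (2, k), c3_mem _ _ _⟩
        exact ray_invariant (c := 2) _
          (fun i => shift_other (by decide) (by decide) (by decide) i) _ Y hY i j k hij hik hjk
    · rcases key2 c1 _ hrec hne with h1 | ⟨Y, hY⟩
      · left
        have h2 := toStab _ (tr_pow_dvd h1 (Dvd.intro_left _ rfl : D2 ∣ D))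
        exact h2
      · right
        intro i j k hij hik hjk
        apply toStab ⟨c3 (0, i) (0, j) (0, k), c3_mem _ _ _⟩
        exact ray_invariant (c := 0) _
          (fun i => shift_other (by decide) (by decide) (by decide) i) _ Y hY i j k hij hik hjk
  obtain ⟨x, y, z, hxy, hxz, hyz, heq⟩ := equalize B D (Nat.mul_pos hD1 hD2) hyp
  refine ⟨⟨c3 x y z, c3_mem _ _ _⟩, ?_, ?_⟩
  · intro h
    have h1 : c3 x y z = 1 := congrArg Subtype.val h
    have h2 : c3 x y z x = y := c3_apply_1 hxy hxz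
    rw [h1, Perm.one_apply] at h2
    exact hxy h2
  · intro c X hrec s
    rcases X.eq_empty_or_nonempty with rfl | hXne
    · simp
    obtain ⟨g0, v, hv⟩ := hrec.toType hs hXne
    have hB0 : B0 v = tr g0 X := by
      ext g
      constructor
      · rintro ⟨w', hw', rfl, hacc'⟩
        exact (hv w' hw').mp hacc'
      · intro hg
        obtain ⟨w', hw', rfl⟩ := hs g
        exact ⟨w', hw', rfl, (hv w' hw').mpr hg⟩
    have hused : used v := by
      refine ⟨by rw [hB0]; exact hv, ?_⟩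
      rw [hB0]
      exact tr_nonempty hXne
    have hB : ∀ y (hy : y ∈ Core), y ∈ B v ↔ (⟨y, hy⟩ : Core) ∈ tr g0 X := by
      intro y hy
      simp only [B]
      rw [← hB0]
      constructor
      · rintro ⟨_, _, h2⟩
        exact h2
      · intro h2
        exact ⟨hused, hy, h2⟩
    have hm : (g0⁻¹).1 * s.1 ∈ Core := Core.mul_mem (g0⁻¹).2 s.2
    have h1 := heq v ((g0⁻¹).1 * s.1) hm
    rw [hB _ (Core.mul_mem hm (c3_mem _ _ _)), hB _ hm] at h1
    rw [mem_tr, mem_tr] at h1
    have e1 : g0 * (⟨(g0⁻¹).1 * s.1, hm⟩ : Core) = s := by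
      have : (⟨(g0⁻¹).1 * s.1, hm⟩ : Core) = g0⁻¹ * s := rfl
      rw [this, mul_inv_cancel_left]
    have e2 : g0 * (⟨(g0⁻¹).1 * s.1 * c3 x y z, Core.mul_mem hm (c3_mem _ _ _)⟩ : Core) =
        s * ⟨c3 x y z, c3_mem _ _ _⟩ := by
      have : (⟨(g0⁻¹).1 * s.1 * c3 x y z, Core.mul_mem hm (c3_mem _ _ _)⟩ : Core) =
        g0⁻¹ * (s * ⟨c3 x y z, c3_mem _ _ _⟩) := by
        apply Subtype.ext
        simp [mul_assoc]
      rw [this, mul_inv_cancel_left]
    rw [e1, e2] at h1
    exact h1

/-- On the words of `W`, acceptance from the configuration `c` depends only on the element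
represented. -/
def ConsistentOn {α Q Γ G : Type*} [Group G] (M : DPDA α Q Γ) (ev : α → G) (W : Set (List α))
    (c : Q × List Γ) : Prop :=
  ∀ w ∈ W, ∀ w' ∈ W, val ev w = val ev w' → (M.Accepts c w ↔ M.Accepts c w')

/-- The main theorem: words representing a copy of the core group. -/
theorem group_main2 {α Q Γ G : Type*} [Finite Q] [Finite Γ] [Group G] (ι : Core →* G)
    (hι : Function.Injective ι) (ev : α → G) (W : Set (List α))
    (hW : ∀ u ∈ W, ∀ v ∈ W, u ++ v ∈ W) (hWG : ∀ x : Core, ∃ w ∈ W, val ev w = ι x)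
    (M : DPDA α Q Γ) :
    ∃ h : Core, h ≠ 1 ∧ ∀ c, ConsistentOn M ev W c → ∀ w ∈ W, ∀ w' ∈ W,
      val ev w' = val ev w * ι h → (M.Accepts c w ↔ M.Accepts c w') := by
  classical
  have := Fintype.ofFinite Q
  have := Fintype.ofFinite Γ
  have hx : ∃ x : Core, x ≠ 1 := by
    refine ⟨coreLetter 4, fun h => ?_⟩
    have h2 : swap (0, 0) (1, 0) = (1 : Perm Om) := congrArg Subtype.val h
    have h3 := congrFun (congrArg DFunLike.coe h2) (0, 0)
    rw [swap_apply_left] at h3
    simp at h3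
  obtain ⟨x, hx⟩ := hx
  have hs : ∀ g : Core, ∃ w ∈ W, w ≠ [] ∧ val ev w = ι g := by
    intro g
    obtain ⟨w1, hw1, hv1⟩ := hWG (g * x⁻¹)
    obtain ⟨w2, hw2, hv2⟩ := hWG x
    have hne : w2 ≠ [] := by
      rintro rfl
      rw [val_nil, ← ι.map_one] at hv2
      exact hx (hι hv2).symm
    refine ⟨w1 ++ w2, hW _ hw1 _ hw2, by simp [hne], ?_⟩
    rw [val_append, hv1, hv2, ← map_mul, inv_mul_cancel_right]
  choose φ hφW hφ1 hφ2 using fun b : Fin 5 => hs (coreLetter b)
  have hφv : ∀ w : List (Fin 5), val ev (w.flatMap φ) = ι (val coreLetter w) := by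
    intro w
    induction w with
    | nil => simp [val]
    | cons b w ih =>
        rw [List.flatMap_cons, val_append, ih, hφ2]
        simp [val]
  have hφm : ∀ w : List (Fin 5), w ≠ [] → w.flatMap φ ∈ W := by
    intro w hw
    induction w with
    | nil => exact absurd rfl hw
    | cons b w ih =>
        rw [List.flatMap_cons]
        rcases eq_or_ne w [] with rfl | hne
        · simpa using hφW b
        · exact hW _ (hφW b) _ (ih hne)
  have hφn : ∀ w : List (Fin 5), w ≠ [] → w.flatMap φ ≠ [] := by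
    intro w hw
    cases w with
    | nil => exact absurd rfl hw
    | cons b w =>
        rw [List.flatMap_cons]
        intro h
        exact hφ1 b (List.append_eq_nil_iff.mp h).1
  obtain ⟨h, hh1, hh2⟩ := core_main2 (M.subst φ) coreLetter coreLetter_words 0 1 2 3
    rfl rfl rfl rfl
  refine ⟨h, hh1, ?_⟩
  intro c hc w hw w' hw' hval
  obtain ⟨u0, hu0W, _, hu0⟩ := hs 1
  set u := w ++ u0 with hudef
  have huW : u ∈ W := hW _ hw _ hu0W
  have hu : val ev u = val ev w := by rw [hudef, val_append, hu0, map_one, mul_one]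
  obtain ⟨w1, hw1n, hw1⟩ := coreLetter_words 1
  obtain ⟨wh, hwhn, hwh⟩ := coreLetter_words h
  have a1 : M.Accepts c w ↔ M.Accepts c (u ++ w1.flatMap φ) := by
    refine hc _ hw _ (hW _ huW _ (hφm _ hw1n)) ?_
    rw [val_append, hφv, hw1, hu, map_one, mul_one]
  have a2 : M.Accepts c w' ↔ M.Accepts c (u ++ wh.flatMap φ) := by
    refine hc _ hw' _ (hW _ huW _ (hφm _ hwhn)) ?_
    rw [val_append, hφv, hwh, hu, hval]
  rw [a1, a2]
  by_cases hrun : ∃ c1, M.Run c u c1
  · obtain ⟨c1, hc1⟩ := hrun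
    rw [accepts_append_iff hc1 (hφn _ hw1n), accepts_append_iff hc1 (hφn _ hwhn)]
    set X : Set Core := {g | ∃ v, v ≠ [] ∧ val coreLetter v = g ∧
      (M.subst φ).Accepts ((c1.1, none), c1.2) v} with hX
    have hrec : Rec (M.subst φ) coreLetter ((c1.1, none), c1.2) X := by
      intro v hv
      constructor
      · intro hacc
        exact ⟨v, hv, rfl, hacc⟩
      · rintro ⟨v2, hv2, hval2, hacc⟩
        rw [subst_accepts hφ1, ← accepts_append_iff hc1 (hφn _ hv2)] at hacc
        rw [subst_accepts hφ1, ← accepts_append_iff hc1 (hφn _ hv)]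
        refine (hc _ (hW _ huW _ (hφm _ hv2)) _ (hW _ huW _ (hφm _ hv)) ?_).mp hacc
        rw [val_append ev u, val_append ev u, hφv, hφv, hval2]
    have key := hh2 _ _ hrec 1
    rw [one_mul] at key
    have k1 := hrec w1 hw1n
    have k2 := hrec wh hwhn
    rw [subst_accepts hφ1, hw1] at k1
    rw [subst_accepts hφ1, hwh] at k2
    rw [k1, k2, key]
  · constructor
    · rintro ⟨c2, h2, _⟩
      obtain ⟨c1, h3, _⟩ := h2.exists_mid
      exact absurd ⟨c1, h3⟩ hrun
    · rintro ⟨c2, h2, _⟩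
      obtain ⟨c1, h3, _⟩ := h2.exists_mid
      exact absurd ⟨c1, h3⟩ hrun

end Pool.Agent.Helper893SD
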