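import Pool.Agent.Helper893_SD.Main2
import Pool.Agent.Helper893_SD.FiniteState

/-!
The main theorem modulo finite-state information.
-/

namespace Pool.Agent.Helper893SD

open Equiv DPDA

/-- Acceptance from the configuration `c` depends only on the element represented by the word and
on the information `μ` about the word. -/
def ConsistentMod {α Q Γ G F : Type*} [Group G] (M : DPDA α Q Γ) (ev : α → G) (μ : List α → F)
    (c : Q × List Γ) : Prop :=
  ∀ w w', val ev w = val ev w' → μ w = μ w' → (M.Accepts c w ↔ M.Accepts c w')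

theorem group_main3 {α Q Γ G F : Type*} [Finite Q] [Finite Γ] [Group G] [Semigroup F] [Finite F]
    (ι : Core →* G) (hι : Function.Injective ι) (ev : α → G) (μ : List α → F)
    (hev : ∀ g : G, ∃ w, val ev w = g) (hμ : ∀ u v, μ (u ++ v) = μ u * μ v)
    (M : DPDA α Q Γ) :
    ∃ (h : G) (y : List α), h ≠ 1 ∧ val ev y = 1 ∧
      ∀ (u : List α) (c : Q × List Γ), ConsistentMod M ev μ c →
        (∀ v, M.Accepts c v → val ev (u ++ v) ≠ 1) →
        ∀ v, val ev (u ++ v) = h → ¬ M.Accepts c (v ++ y) := by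
  classical
  obtain ⟨e, γ, hγ, hee, hwords⟩ := exists_copy_words μ hμ ev hev ι
  set W : Set (List α) := {w | w ≠ [] ∧ μ w = e} with hWdef
  have hW : ∀ u ∈ W, ∀ v ∈ W, u ++ v ∈ W := by
    rintro u ⟨hu1, hu2⟩ v ⟨hv1, hv2⟩
    exact ⟨by simp [hu1], by rw [hμ, hu2, hv2, hee]⟩
  have hιγ : Function.Injective (ι.comp γ) := by
    rw [MonoidHom.coe_comp]
    exact hι.comp hγ
  have hx : ∃ x : Core, x ≠ 1 := by
    refine ⟨coreLetter 4, fun h => ?_⟩
    have h2 : swap (0, 0) (1, 0) = (1 : Perm Om) := congrArg Subtype.val h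
    have h3 := congrFun (congrArg DFunLike.coe h2) (0, 0)
    rw [swap_apply_left] at h3
    simp at h3
  obtain ⟨x, hx⟩ := hx
  have hWG : ∀ g : Core, ∃ w ∈ W, val ev w = (ι.comp γ) g := by
    intro g
    obtain ⟨w1, hw1, hv1⟩ := hwords (g * x⁻¹)
    obtain ⟨w2, hw2, hv2⟩ := hwords x
    have hne : w2 ≠ [] := by
      rintro rfl
      rw [val_nil, ← MonoidHom.comp_apply, ← (ι.comp γ).map_one] at hv2
      exact hx (hιγ hv2).symm
    refine ⟨w1 ++ w2, ⟨by simp [hne], by rw [hμ, hw1, hw2, hee]⟩, ?_⟩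
    rw [val_append, hv1, hv2, MonoidHom.comp_apply, ← map_mul, ← map_mul, inv_mul_cancel_right]
  obtain ⟨h, hh1, hh2⟩ := group_main2 (ι.comp γ) hιγ ev W hW hWG M
  obtain ⟨y, hyW, hy⟩ := hWG 1
  obtain ⟨y', hy'W, hy'⟩ := hWG h⁻¹
  rw [map_one] at hy
  refine ⟨(ι.comp γ) h, y, ?_, hy, ?_⟩
  · intro h1
    rw [← (ι.comp γ).map_one] at h1
    exact hh1 (hιγ h1)
  · intro u c hc hsound v hval hacc
    -- the configuration reached after `v`
    have hacc' := hacc
    obtain ⟨c3, h3, h4⟩ := hacc'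
    obtain ⟨c2, h5, h6⟩ := h3.exists_mid
    have hcW : ConsistentOn M ev W c2 := by
      rintro w ⟨hw1, hw2⟩ w' ⟨hw1', hw2'⟩ hvw
      rw [← accepts_append_iff h5 hw1, ← accepts_append_iff h5 hw1']
      apply hc
      · rw [val_append ev v, val_append ev v, hvw]
      · rw [hμ v, hμ v, hw2, hw2']
    have h7 := hh2 c2 hcW y' hy'W y hyW (by rw [hy, hy', ← map_mul, inv_mul_cancel, map_one])
    have h8 : M.Accepts c2 y := ⟨c3, h6, h4⟩
    have h9 : M.Accepts c (v ++ y') := (accepts_append_iff h5 hy'W.1).mpr (h7.mpr h8)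
    apply hsound _ h9
    rw [← List.append_assoc, val_append, hval, hy', map_inv, mul_inv_cancel]

end Pool.Agent.Helper893SD
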