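import Pool.Agent.Helper893_SD.Main5
import Pool.Agent.Helper893_SD.FiniteState

/-!
Groups containing the core group: no configuration separates `g` from `g * h`, even on words with
prescribed finite-state information.
-/

namespace Pool.Agent.Helper893SD

open Equiv DPDA

theorem group_main6 {α Q Γ G F : Type*} [Finite Q] [Finite Γ] [Group G] [Semigroup F] [Finite F]
    (ι : Core →* G) (hι : Function.Injective ι) (ev : α → G) (μ : List α → F)
    (hev : ∀ g : G, ∃ w, val ev w = g) (hμ : ∀ u v, μ (u ++ v) = μ u * μ v)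
    (M : DPDA α Q Γ) {C : ℕ} (hC : LinearPop M C) :
    ∃ h : G, h ≠ 1 ∧ ∀ g g' : G, (g' = g * h ∨ g = g' * h) → ∃ e : F,
      (∃ w, w ≠ [] ∧ val ev w = g' ∧ μ w = e) ∧ ∀ c : Q × List Γ,
      (∀ w, val ev w = g → ¬ M.Accepts c w) →
        ∃ w, w ≠ [] ∧ val ev w = g' ∧ μ w = e ∧ ¬ M.Accepts c w := by
  classical
  have := Fintype.ofFinite Q
  have := Fintype.ofFinite Γ
  obtain ⟨e, γ, hγ, hee, hwords⟩ := exists_copy_words μ hμ ev hev ι
  have hιγ : Function.Injective (ι.comp γ) := by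
    rw [MonoidHom.coe_comp]
    exact hι.comp hγ
  have hx : ∃ x : Core, x ≠ 1 := by
    refine ⟨coreLetter 4, fun h => ?_⟩
    have h2 : swap (0, 0) (1, 0) = (1 : Perm Om) := congrArg Subtype.val h
    have h3 := congrFun (congrArg DFunLike.coe h2) (0, 0)
    rw [swap_apply_left] at h3
    simp at h3
  obtain ⟨x, hx⟩ := hx
  have hWG : ∀ g : Core, ∃ w, w ≠ [] ∧ μ w = e ∧ val ev w = (ι.comp γ) g := by
    intro g
    obtain ⟨w1, hw1, hv1⟩ := hwords (g * x⁻¹)
    obtain ⟨w2, hw2, hv2⟩ := hwords x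
    have hne : w2 ≠ [] := by
      rintro rfl
      rw [val_nil, ← MonoidHom.comp_apply, ← (ι.comp γ).map_one] at hv2
      exact hx (hιγ hv2).symm
    refine ⟨w1 ++ w2, by simp [hne], by rw [hμ, hw1, hw2, hee], ?_⟩
    rw [val_append, hv1, hv2, MonoidHom.comp_apply, ← map_mul, ← map_mul, inv_mul_cancel_right]
  choose φ hφ1 hφμ hφ2 using fun b : Fin 5 => hWG (coreLetter b)
  have hφv : ∀ w : List (Fin 5), val ev (w.flatMap φ) = (ι.comp γ) (val coreLetter w) := by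
    intro w
    induction w with
    | nil => simp [val]
    | cons b w ih =>
        rw [List.flatMap_cons, val_append, ih, hφ2]
        simp [val]
  have hφm : ∀ w : List (Fin 5), w ≠ [] → μ (w.flatMap φ) = e := by
    intro w hw
    induction w with
    | nil => exact absurd rfl hw
    | cons b w ih =>
        rw [List.flatMap_cons]
        rcases eq_or_ne w [] with rfl | hne
        · simpa using hφμ b
        · rw [hμ, hφμ, ih hne, hee]
  have hφn : ∀ w : List (Fin 5), w ≠ [] → w.flatMap φ ≠ [] := by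
    intro w hw
    cases w with
    | nil => exact absurd rfl hw
    | cons b w =>
        rw [List.flatMap_cons]
        intro h
        exact hφ1 b (List.append_eq_nil_iff.mp h).1
  obtain ⟨C', hC'⟩ := subst_linearPop hC φ
  obtain ⟨h, hh1, hh2⟩ := core_main5 (M.subst φ) hC' coreLetter coreLetter_words 0 1 2 3
    rfl rfl rfl rfl
  refine ⟨(ι.comp γ) h, ?_, ?_⟩
  · intro h1
    rw [← (ι.comp γ).map_one] at h1
    exact hh1 (hιγ h1)
  intro g g' hgg
  obtain ⟨s', hs', hg'⟩ : ∃ s' : Core, (s' = 1 * h ∨ 1 = s' * h) ∧ g' = g * (ι.comp γ) s' := by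
    rcases hgg with rfl | rfl
    · exact ⟨h, Or.inl (one_mul h).symm, rfl⟩
    · exact ⟨h⁻¹, Or.inr (inv_mul_cancel h).symm, by rw [map_inv, mul_inv_cancel_right]⟩
  obtain ⟨r, hr⟩ := hev g
  obtain ⟨ws, hwsn, hws⟩ := coreLetter_words s'
  have hne0 : r ++ ws.flatMap φ ≠ [] := fun h0 =>
    hφn ws hwsn (List.append_eq_nil_iff.mp h0).2
  refine ⟨μ r * e, ⟨r ++ ws.flatMap φ, hne0, ?_, ?_⟩, fun c hrej => ?_⟩
  · rw [val_append, hr, hφv, hws, hg']
  · rw [hμ, hφm ws hwsn]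
  by_cases hrun : ∃ c1, M.Run c r c1
  swap
  · refine ⟨r ++ ws.flatMap φ, hne0, ?_, ?_, ?_⟩
    · rw [val_append, hr, hφv, hws, hg']
    · rw [hμ, hφm ws hwsn]
    · rintro ⟨c2, h2, _⟩
      obtain ⟨c1, h3, _⟩ := h2.exists_mid
      exact hrun ⟨c1, h3⟩
  obtain ⟨c1, hc1⟩ := hrun
  obtain ⟨u, hun, huv, hu⟩ := hh2 ((c1.1, none), c1.2) 1 s' hs' (by
    intro w hw hwv hwa
    rw [subst_accepts hφ1, ← accepts_append_iff hc1 (hφn w hw)] at hwa
    refine hrej _ ?_ hwa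
    rw [val_append, hr, hφv, hwv, map_one, mul_one]) ws.length
  have h1 := hu ws hwsn (le_refl _) hws
  rw [subst_accepts hφ1, ← accepts_append_iff hc1 (hφn _ (by simp [hwsn]))] at h1
  refine ⟨r ++ (u ++ ws).flatMap φ, ?_, ?_, ?_, h1⟩
  · exact fun h0 => hφn (u ++ ws) (by simp [hwsn]) (List.append_eq_nil_iff.mp h0).2
  · rw [val_append, hr, hφv, val_append, huv, hws, one_mul, hg']
  · rw [hμ, hφm _ (by simp [hwsn])]

/-- Semi-deterministic acceptance: no guess works for all words of value `h`. -/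
theorem group_guess6 {α Q Γ G F : Type*} [Finite Q] [Finite Γ] [Group G] [Semigroup F] [Finite F]
    (ι : Core →* G) (hι : Function.Injective ι) (ev : α → G) (μ : List α → F)
    (hev : ∀ g : G, ∃ w, val ev w = g) (hμ : ∀ u v, μ (u ++ v) = μ u * μ v)
    (M : DPDA α Q Γ) {C : ℕ} (hC : LinearPop M C) :
    ∃ h : G, h ≠ 1 ∧
      (∀ g g' : G, (g' = g * h ∨ g = g' * h) → ∃ e : F, ∀ c : Q × List Γ,
        (∀ w, val ev w = g → ¬ M.Accepts c w) →
          ∃ w, val ev w = g' ∧ μ w = e ∧ ¬ M.Accepts c w) ∧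
      (∀ u : List α, ∃ e : F, ∀ c : Q × List Γ, (∀ w, M.Accepts c w → val ev w ≠ 1) →
        ∃ v, val ev (u ++ v) = h ∧ μ v = e ∧ ¬ M.Accepts c (u ++ v)) := by
  classical
  obtain ⟨h, hh1, hh2⟩ := group_main6 ι hι ev μ hev hμ M hC
  refine ⟨h, hh1, ?_, ?_⟩
  · intro g g' hgg
    obtain ⟨e, _, he⟩ := hh2 g g' hgg
    refine ⟨e, fun c hc => ?_⟩
    obtain ⟨w, _, h2, h3, h4⟩ := he c hc
    exact ⟨w, h2, h3, h4⟩
  · intro u
    obtain ⟨e, ⟨w0, _, hw0v, hw0e⟩, he⟩ := hh2 (val ev u)⁻¹ ((val ev u)⁻¹ * h) (Or.inl rfl)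
    refine ⟨e, fun c hc => ?_⟩
    by_cases hrun : ∃ c1, M.Run c u c1
    · obtain ⟨c1, hc1⟩ := hrun
      obtain ⟨w, hw, hwv, hwe, hwa⟩ := he c1 (by
        rintro w hwv ⟨c2, h2, h3⟩
        apply hc (u ++ w) ⟨c2, hc1.trans h2, h3⟩
        rw [val_append, hwv, mul_inv_cancel])
      refine ⟨w, by rw [val_append, hwv, mul_inv_cancel_left], hwe, ?_⟩
      rwa [accepts_append_iff hc1 hw]
    · refine ⟨w0, by rw [val_append, hw0v, mul_inv_cancel_left], hw0e, ?_⟩
      rintro ⟨c2, h2, _⟩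
      obtain ⟨c1, h3, _⟩ := h2.exists_mid
      exact hrun ⟨c1, h3⟩

end Pool.Agent.Helper893SD
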