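import Pool.Agent.Helper893_SD.Key7
import Pool.Agent.Helper893_SD.Equalize2
import Pool.Agent.Helper893_SD.Main2

/-!
The core group: no configuration of a deterministic pushdown automaton separates `s` from `s * h`.
-/

namespace Pool.Agent.Helper893SD

open Equiv DPDA

theorem core_equalize7 {β Q Γ : Type*} [Finite β] [Fintype Q] [Fintype Γ] (M : DPDA β Q Γ)
    (ev : β → Core)
    (hs : ∀ g : Core, ∃ w, w ≠ [] ∧ val ev w = g) (a a' b b' : β)
    (ha : ev a = ⟨shift 0 1 (by decide), shift01_mem⟩) (ha' : ev a' = (ev a)⁻¹)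
    (hb : ev b = ⟨shift 1 2 (by decide), shift12_mem⟩) (hb' : ev b' = (ev b)⁻¹) :
    ∃ (h : Core) (E : Q × Γ → Set Core), h ≠ 1 ∧ ∀ v, Total M v →
      Good M ev v (E v) ∧ UnifAcc M ev v (E v) ∧ ∀ y, (y * h ∈ E v ↔ y ∈ E v) := by
  classical
  have key1 := key_lemma7 (M := M) hs a a' ha'
  have key2 := key_lemma7 (M := M) hs b b' hb'
  rw [ha] at key1
  rw [hb] at key2
  have hE : ∀ v : Q × Γ, ∃ E : Set Core, Total M v → Good M ev v E ∧ UnifAcc M ev v E := by
    intro v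
    by_cases hv : Total M v
    · obtain ⟨E, h1, h2⟩ := exists_minE hs hv
      exact ⟨E, fun _ => ⟨h1, h2⟩⟩
    · exact ⟨∅, fun h => absurd h hv⟩
  choose E hE using hE
  let B : Q × Γ → Set (Perm Om) := fun v => {g | Total M v ∧ ∃ hg : g ∈ Core, (⟨g, hg⟩ : Core) ∈ E v}
  have hyp : ∀ v, HypW (stab (B v)) := by
    intro v g hg
    by_cases hv : Total M v
    swap
    · have hall : ∀ k, k ∈ Core → k ∈ stab (B v) := by
        intro k hk
        refine ⟨hk, fun y _ => ?_⟩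
        simp only [B]
        constructor
        · rintro ⟨h1, _⟩
          exact absurd h1 hv
        · rintro ⟨h1, _⟩
          exact absurd h1 hv
      exact ⟨Or.inl ⟨1, le_refl _, hall _ (Core.mul_mem (Core.mul_mem hg
          (Core.pow_mem shift01_mem _)) (Core.inv_mem hg))⟩,
        Or.inl ⟨1, le_refl _, hall _ (Core.mul_mem (Core.mul_mem hg
          (Core.pow_mem shift12_mem _)) (Core.inv_mem hg))⟩⟩
    obtain ⟨hG, hU⟩ := hE v hv
    have hB : ∀ y (hy : y ∈ Core), y ∈ B v ↔ (⟨y, hy⟩ : Core) ∈ E v := by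
      intro y hy
      simp only [B]
      constructor
      · rintro ⟨_, _, h2⟩
        exact h2
      · intro h2
        exact ⟨hv, hy, h2⟩
    have toStab : ∀ k : Core, tr k (tr (⟨g, hg⟩ : Core) (E v)) = tr (⟨g, hg⟩ : Core) (E v) →
        g * k.1 * g⁻¹ ∈ stab (B v) := by
      intro k hk
      refine ⟨Core.mul_mem (Core.mul_mem hg k.2) (Core.inv_mem hg), fun y hy => ?_⟩
      rw [hB _ hy, hB _ (Core.mul_mem (Core.mul_mem (Core.mul_mem hg k.2) (Core.inv_mem hg)) hy)]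
      exact tr_conj_iff hk ⟨y, hy⟩
    constructor
    · rcases key1 v (E v) hv hG hU ⟨g, hg⟩ with ⟨D, hD, h1⟩ | ⟨m, Y, hY⟩
      · left
        exact ⟨D, hD, toStab _ h1⟩
      · right
        intro i j k hij hik hjk
        apply toStab ⟨c3 (2, i) (2, j) (2, k), c3_mem _ _ _⟩
        exact ray_invariant (c := 2) _
          (fun i => shift_other (by decide) (by decide) (by decide) i) _ Y hY i j k hij hik hjk
    · rcases key2 v (E v) hv hG hU ⟨g, hg⟩ with ⟨D, hD, h1⟩ | ⟨m, Y, hY⟩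
      · left
        exact ⟨D, hD, toStab _ h1⟩
      · right
        intro i j k hij hik hjk
        apply toStab ⟨c3 (0, i) (0, j) (0, k), c3_mem _ _ _⟩
        exact ray_invariant (c := 0) _
          (fun i => shift_other (by decide) (by decide) (by decide) i) _ Y hY i j k hij hik hjk
  obtain ⟨x, y, z, hxy, hxz, hyz, heq⟩ := equalize2 B hyp
  refine ⟨⟨c3 x y z, c3_mem _ _ _⟩, E, ?_, ?_⟩
  · intro h
    have h1 : c3 x y z = 1 := congrArg Subtype.val h
    have h2 : c3 x y z x = y := c3_apply_1 hxy hxz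
    rw [h1, Perm.one_apply] at h2
    exact hxy h2
  · intro v hv
    obtain ⟨hG, hU⟩ := hE v hv
    refine ⟨hG, hU, fun s => ?_⟩
    have h1 := heq v s.1 s.2
    have hB : ∀ y (hy : y ∈ Core), y ∈ B v ↔ (⟨y, hy⟩ : Core) ∈ E v := by
      intro y hy
      simp only [B]
      constructor
      · rintro ⟨_, _, h2⟩
        exact h2
      · intro h2
        exact ⟨hv, hy, h2⟩
    rw [hB _ s.2, hB _ (Core.mul_mem s.2 (c3_mem _ _ _))] at h1
    exact h1

/-- If `c` rejects all words of value `s`, then after a suitable word of value `1` it rejects all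
short words of value `s'`, for `s' = s * h` and for `s = s' * h`. -/
theorem core_main7 {β Q Γ : Type*} [Finite β] [Fintype Q] [Fintype Γ] (M : DPDA β Q Γ)
    (ev : β → Core)
    (hs : ∀ g : Core, ∃ w, w ≠ [] ∧ val ev w = g) (a a' b b' : β)
    (ha : ev a = ⟨shift 0 1 (by decide), shift01_mem⟩) (ha' : ev a' = (ev a)⁻¹)
    (hb : ev b = ⟨shift 1 2 (by decide), shift12_mem⟩) (hb' : ev b' = (ev b)⁻¹) :
    ∃ h : Core, h ≠ 1 ∧ ∀ (c : Q × List Γ) (s s' : Core), (s' = s * h ∨ s = s' * h) →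
      (∀ w, w ≠ [] → val ev w = s → ¬ M.Accepts c w) →
      ∀ N, ∃ u, u ≠ [] ∧ val ev u = 1 ∧ ∀ w, w ≠ [] → w.length ≤ N → val ev w = s' →
        ¬ M.Accepts c (u ++ w) := by
  classical
  obtain ⟨h, E, hne, hE⟩ := core_equalize7 M ev hs a a' b b' ha ha' hb hb'
  refine ⟨h, hne, ?_⟩
  intro c s s' hss hrej N
  by_cases htot : ∀ u, ∃ c', M.Run c u c'
  swap
  · push Not at htot
    obtain ⟨u0, hu0⟩ := htot
    obtain ⟨u1, hu1n, hu1⟩ := hs (val ev u0)⁻¹
    refine ⟨u0 ++ u1, by simp [hu1n], by rw [val_append, hu1, mul_inv_cancel], ?_⟩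
    rintro w _ _ _ ⟨c2, h2, _⟩
    rw [List.append_assoc] at h2
    obtain ⟨c1, h3, _⟩ := h2.exists_mid
    exact hu0 _ h3
  -- a reachable configuration of minimal height
  have hex : ∃ l : ℕ, ∃ (u : List β) (c' : Q × List Γ), M.Run c u c' ∧ c'.2.length = l :=
    ⟨_, [], c, Run.refl _, rfl⟩
  obtain ⟨u0, ⟨q0, S'⟩, hrun0, hl⟩ := Nat.find_spec hex
  have hmin : ∀ (u : List β) (c' : Q × List Γ), M.Run c u c' → S'.length ≤ c'.2.length := by
    intro u c' hr
    have := Nat.find_min' hex ⟨u, c', hr, rfl⟩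
    simp only at hl
    omega
  have hcont : ∀ u, ∃ c', M.Run (q0, S') u c' := by
    intro u
    rcases eq_or_ne u [] with rfl | hu
    · exact ⟨_, Run.refl _⟩
    · obtain ⟨c', hc'⟩ := htot (u0 ++ u)
      rcases hrun0.det hc' with h1 | ⟨h1, _⟩
      · exact ⟨c', h1⟩
      · exact absurd h1 hu
  cases S' with
  | nil =>
      exfalso
      obtain ⟨c', hc'⟩ := hcont [a]
      have := hc'.nil_stack.1
      simp at this
  | cons Z0 S =>
  have hnoempty : ∀ u q', ¬ M.Run (q0, [Z0]) u (q', []) := by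
    intro u q' hr
    have h1 := hr.append S
    simp only [List.cons_append, List.nil_append] at h1
    have := hmin _ _ (hrun0.trans h1)
    simp at this
  have htotal : Total M (q0, Z0) := by
    refine ⟨fun u => ?_, hnoempty⟩
    obtain ⟨c', hc'⟩ := hcont u
    have hc2 : M.Run (q0, [Z0] ++ S) u c' := by simpa using hc'
    rcases hc2.split with ⟨T', _, h2⟩ | ⟨w1, w2, q1, h1, h2, _⟩
    · exact ⟨_, h2⟩
    · exact absurd h2 (hnoempty _ _)
  have hacc : ∀ w, M.Accepts (q0, Z0 :: S) w ↔ M.Accepts (q0, [Z0]) w := by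
    intro w
    have hno : ¬ ∃ w1 w2 q1, w = w1 ++ w2 ∧ M.Run (q0, [Z0]) w1 (q1, []) := by
      rintro ⟨w1, w2, q1, _, h2⟩
      exact hnoempty _ _ h2
    exact accepts_iff_of_not_empty hno S
  obtain ⟨hG, hU, hEq⟩ := hE (q0, Z0) htotal
  set g0 := val ev u0 with hg0
  have hx : g0⁻¹ * s ∉ E (q0, Z0) := by
    intro hx
    obtain ⟨N1, hN1⟩ := hU 1 _ hx
    obtain ⟨c1, hc1⟩ := hG N1
    obtain ⟨w, hw, _, hwv, hwa⟩ := hN1 c1 hc1
    obtain ⟨⟨u1, hu1v, hu1⟩, _⟩ := hc1
    apply hrej (u0 ++ (u1 ++ w)) (by simp [hw])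
    · rw [val_append, val_append, hu1v, hwv, ← hg0, mul_inv_cancel_left]
    · rw [accepts_append_iff hrun0 (by simp [hw]), hacc]
      exact (accepts_append_iff hu1 hw).mpr hwa
  have hx' : g0⁻¹ * s' ∉ E (q0, Z0) := by
    rcases hss with rfl | rfl
    · rwa [← mul_assoc, hEq]
    · rwa [← mul_assoc, hEq] at hx
  obtain ⟨u2, hu2n, hu2⟩ := hs g0⁻¹
  obtain ⟨c1, ⟨u1, hu1v, hu1⟩, hc1⟩ := hG (N + u2.length)
  refine ⟨u0 ++ (u1 ++ u2), by simp [hu2n], ?_, ?_⟩
  · rw [val_append, val_append, hu1v, hu2, one_mul, ← hg0, mul_inv_cancel]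
  · intro w hw hwl hwv hwa
    have e : u0 ++ (u1 ++ u2) ++ w = u0 ++ (u1 ++ (u2 ++ w)) := by simp
    rw [e, accepts_append_iff hrun0 (by simp [hw]), hacc,
      accepts_append_iff hu1 (by simp [hw])] at hwa
    have h1 := hc1 (u2 ++ w) (by simp [hw]) (by rw [List.length_append]; omega) hwa
    rw [val_append, hu2, hwv, one_mul] at h1
    exact hx' h1

end Pool.Agent.Helper893SD
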