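import Pool.Agent.Helper893_SD.Main7
import Pool.Agent.Helper893_SD.FiniteState
import Pool.Agent.Helper893_SD.Main3

/-!
Groups containing the core group: no configuration separates `g` from `g * h`, even on words with
prescribed finite-state information.
-/

namespace Pool.Agent.Helper893SD

open Equiv DPDA

theorem group_main8 {α Q Γ G F : Type*} [Finite Q] [Finite Γ] [Group G] [Semigroup F] [Finite F]
    (ι : Core →* G) (hι : Function.Injective ι) (ev : α → G) (μ : List α → F)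
    (hev : ∀ g : G, ∃ w, val ev w = g) (hμ : ∀ u v, μ (u ++ v) = μ u * μ v)
    (M : DPDA α Q Γ) :
    ∃ h : G, h ≠ 1 ∧ ∀ g g' : G, (g' = g * h ∨ g = g' * h) → ∃ e : F,
      (∃ w, w ≠ [] ∧ val ev w = g' ∧ μ w = e) ∧ ∀ c : Q × List Γ,
      (∀ w, val ev w = g → ¬ M.Accepts c w) →
        ∃ w, w ≠ [] ∧ val ev w = g' ∧ μ w = e ∧ ¬ M.Accepts c w := by
  classical
  have := Fintype.ofFinite Q
  have := Fintype.ofFinite Γ
  obtain ⟨e, γ, hγ, hee, hwords⟩ := exists_copy_words μ hμ ev hev ι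
  have hιγ : Function.Injective (ι.comp γ) := by
    rw [MonoidHom.coe_comp]
    exact hι.comp hγ
  have hx : ∃ x : Core, x ≠ 1 := by
    refine ⟨coreLetter 4, fun h => ?_⟩
    have h2 : swap (0, 0) (1, 0) = (1 : Perm Om) := congrArg Subtype.val h
    have h3 := congrFun (congrArg DFunLike.coe h2) (0, 0)
    rw [swap_apply_left] at h3
    simp at h3
  obtain ⟨x, hx⟩ := hx
  have hWG : ∀ g : Core, ∃ w, w ≠ [] ∧ μ w = e ∧ val ev w = (ι.comp γ) g := by
    intro g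
    obtain ⟨w1, hw1, hv1⟩ := hwords (g * x⁻¹)
    obtain ⟨w2, hw2, hv2⟩ := hwords x
    have hne : w2 ≠ [] := by
      rintro rfl
      rw [val_nil, ← MonoidHom.comp_apply, ← (ι.comp γ).map_one] at hv2
      exact hx (hιγ hv2).symm
    refine ⟨w1 ++ w2, by simp [hne], by rw [hμ, hw1, hw2, hee], ?_⟩
    rw [val_append, hv1, hv2, MonoidHom.comp_apply, ← map_mul, ← map_mul, inv_mul_cancel_right]
  choose φ hφ1 hφμ hφ2 using fun b : Fin 5 => hWG (coreLetter b)
  have hφv : ∀ w : List (Fin 5), val ev (w.flatMap φ) = (ι.comp γ) (val coreLetter w) := by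
    intro w
    induction w with
    | nil => simp [val]
    | cons b w ih =>
        rw [List.flatMap_cons, val_append, ih, hφ2]
        simp [val]
  have hφm : ∀ w : List (Fin 5), w ≠ [] → μ (w.flatMap φ) = e := by
    intro w hw
    induction w with
    | nil => exact absurd rfl hw
    | cons b w ih =>
        rw [List.flatMap_cons]
        rcases eq_or_ne w [] with rfl | hne
        · simpa using hφμ b
        · rw [hμ, hφμ, ih hne, hee]
  have hφn : ∀ w : List (Fin 5), w ≠ [] → w.flatMap φ ≠ [] := by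
    intro w hw
    cases w with
    | nil => exact absurd rfl hw
    | cons b w =>
        rw [List.flatMap_cons]
        intro h
        exact hφ1 b (List.append_eq_nil_iff.mp h).1
  obtain ⟨h, hh1, hh2⟩ := core_main7 (M.subst φ) coreLetter coreLetter_words 0 1 2 3
    rfl rfl rfl rfl
  refine ⟨(ι.comp γ) h, ?_, ?_⟩
  · intro h1
    rw [← (ι.comp γ).map_one] at h1
    exact hh1 (hιγ h1)
  intro g g' hgg
  obtain ⟨s', hs', hg'⟩ : ∃ s' : Core, (s' = 1 * h ∨ 1 = s' * h) ∧ g' = g * (ι.comp γ) s' := by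
    rcases hgg with rfl | rfl
    · exact ⟨h, Or.inl (one_mul h).symm, rfl⟩
    · exact ⟨h⁻¹, Or.inr (inv_mul_cancel h).symm, by rw [map_inv, mul_inv_cancel_right]⟩
  obtain ⟨r, hr⟩ := hev g
  obtain ⟨ws, hwsn, hws⟩ := coreLetter_words s'
  have hne0 : r ++ ws.flatMap φ ≠ [] := fun h0 =>
    hφn ws hwsn (List.append_eq_nil_iff.mp h0).2
  refine ⟨μ r * e, ⟨r ++ ws.flatMap φ, hne0, ?_, ?_⟩, fun c hrej => ?_⟩
  · rw [val_append, hr, hφv, hws, hg']
  · rw [hμ, hφm ws hwsn]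
  by_cases hrun : ∃ c1, M.Run c r c1
  swap
  · refine ⟨r ++ ws.flatMap φ, hne0, ?_, ?_, ?_⟩
    · rw [val_append, hr, hφv, hws, hg']
    · rw [hμ, hφm ws hwsn]
    · rintro ⟨c2, h2, _⟩
      obtain ⟨c1, h3, _⟩ := h2.exists_mid
      exact hrun ⟨c1, h3⟩
  obtain ⟨c1, hc1⟩ := hrun
  obtain ⟨u, hun, huv, hu⟩ := hh2 ((c1.1, none), c1.2) 1 s' hs' (by
    intro w hw hwv hwa
    rw [subst_accepts hφ1, ← accepts_append_iff hc1 (hφn w hw)] at hwa
    refine hrej _ ?_ hwa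
    rw [val_append, hr, hφv, hwv, map_one, mul_one]) ws.length
  have h1 := hu ws hwsn (le_refl _) hws
  rw [subst_accepts hφ1, ← accepts_append_iff hc1 (hφn _ (by simp [hwsn]))] at h1
  refine ⟨r ++ (u ++ ws).flatMap φ, ?_, ?_, ?_, h1⟩
  · exact fun h0 => hφn (u ++ ws) (by simp [hwsn]) (List.append_eq_nil_iff.mp h0).2
  · rw [val_append, hr, hφv, val_append, huv, hws, one_mul, hg']
  · rw [hμ, hφm _ (by simp [hwsn])]

/-- Semi-deterministic acceptance: no guess works for all words of value `h`. -/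
theorem group_guess8 {α Q Γ G F : Type*} [Group G] (ev : α → G) (μ : List α → F)
    (M : DPDA α Q Γ) {h : G}
    (key : ∀ g g' : G, (g' = g * h ∨ g = g' * h) → ∃ e : F,
      (∃ w, w ≠ [] ∧ val ev w = g' ∧ μ w = e) ∧ ∀ c : Q × List Γ,
      (∀ w, val ev w = g → ¬ M.Accepts c w) →
        ∃ w, w ≠ [] ∧ val ev w = g' ∧ μ w = e ∧ ¬ M.Accepts c w) (u : List α) :
    ∃ e : F, ∀ c : Q × List Γ, (∀ w, M.Accepts c w → val ev w ≠ 1) →
      ∃ v, val ev (u ++ v) = h ∧ μ v = e ∧ ¬ M.Accepts c (u ++ v) := by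
  classical
  obtain ⟨e, ⟨w0, _, hw0v, hw0e⟩, he⟩ := key (val ev u)⁻¹ ((val ev u)⁻¹ * h) (Or.inl rfl)
  refine ⟨e, fun c hc => ?_⟩
  by_cases hrun : ∃ c1, M.Run c u c1
  · obtain ⟨c1, hc1⟩ := hrun
    obtain ⟨w, hw, hwv, hwe, hwa⟩ := he c1 (by
      rintro w hwv ⟨c2, h2, h3⟩
      apply hc (u ++ w) ⟨c2, hc1.trans h2, h3⟩
      rw [val_append, hwv, mul_inv_cancel])
    refine ⟨w, by rw [val_append, hwv, mul_inv_cancel_left], hwe, ?_⟩
    rwa [accepts_append_iff hc1 hw]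
  · refine ⟨w0, by rw [val_append, hw0v, mul_inv_cancel_left], hw0e, ?_⟩
    rintro ⟨c2, h2, _⟩
    obtain ⟨c1, h3, _⟩ := h2.exists_mid
    exact hrun ⟨c1, h3⟩

/-- Configurations that are consistent modulo `μ`. -/
theorem group_consistent8 {α Q Γ G F : Type*} [Finite Q] [Finite Γ] [Group G] [Semigroup F]
    [Finite F] (ev : α → G) (μ : List α → F) (hev : ∀ g : G, ∃ w, val ev w = g)
    (hμ : ∀ u v, μ (u ++ v) = μ u * μ v) (M : DPDA α Q Γ) {h : G}
    (key : ∀ g g' : G, (g' = g * h ∨ g = g' * h) → ∃ e : F,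
      (∃ w, w ≠ [] ∧ val ev w = g' ∧ μ w = e) ∧ ∀ c : Q × List Γ,
      (∀ w, val ev w = g → ¬ M.Accepts c w) →
        ∃ w, w ≠ [] ∧ val ev w = g' ∧ μ w = e ∧ ¬ M.Accepts c w) :
    ∃ y : List α, val ev y = 1 ∧
      ∀ (u : List α) (c : Q × List Γ), ConsistentMod M ev μ c →
        (∀ v, M.Accepts c v → val ev (u ++ v) ≠ 1) →
        ∀ v, val ev (u ++ v) = h → ¬ M.Accepts c (v ++ y) := by
  obtain ⟨e, ⟨y, hyn, hyv, hye⟩, he⟩ := key h⁻¹ 1 (Or.inl (inv_mul_cancel h).symm)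
  refine ⟨y, hyv, ?_⟩
  intro u c hc hsound v hval hacc
  obtain ⟨c3, h3, h4⟩ := hacc
  obtain ⟨c2, h5, h6⟩ := h3.exists_mid
  obtain ⟨w, hwn, hwv, hwe, hwa⟩ := he c2 (by
    rintro w hw ⟨c4, h7, h8⟩
    refine hsound (v ++ w) ⟨c4, h5.trans h7, h8⟩ ?_
    rw [← List.append_assoc, val_append, hval, hw, mul_inv_cancel])
  apply hwa
  rw [← accepts_append_iff h5 hwn]
  refine (hc (v ++ y) (v ++ w) ?_ ?_).mp ⟨c3, h5.trans h6, h4⟩
  · rw [val_append, val_append, hyv, hwv]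
  · rw [hμ, hμ, hye, hwe]

end Pool.Agent.Helper893SD
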