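import Pool.Agent.Helper893_SD.Tokens

/-!
The token lemma.
-/

namespace Pool.Agent.Helper893SD

open Equiv

/-- prescribing finitely many values by a permutation supported in `S` -/
theorem exists_map_list (S : Set Om) : ∀ (l l' : List Om), l.Nodup → l'.Nodup →
    l.length = l'.length → (∀ x ∈ l, x ∈ S) → (∀ x ∈ l', x ∈ S) →
    ∃ g ∈ Core, l.map g = l' ∧ ∀ x, x ∉ S → g x = x := by
  intro l
  induction l with
  | nil =>
      intro l' _ _ hlen _ _
      have : l' = [] := List.length_eq_zero_iff.mp (by simpa using hlen.symm)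
      subst this
      exact ⟨1, Core.one_mem, rfl, fun _ _ => rfl⟩
  | cons a t ih =>
      intro l' hl hl' hlen hS hS'
      cases l' with
      | nil => simp at hlen
      | cons b t' =>
          rw [List.nodup_cons] at hl hl'
          obtain ⟨g, hg, hgt, hgS⟩ := ih t' hl.2 hl'.2 (by simpa using hlen)
            (fun x hx => hS x (List.mem_cons_of_mem _ hx))
            (fun x hx => hS' x (List.mem_cons_of_mem _ hx))
          have hga : g a ∈ S := by
            by_contra hn
            have h1 := hgS _ hn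
            have h2 := g.injective h1
            rw [h2] at hn
            exact hn (hS a List.mem_cons_self)
          refine ⟨swap (g a) b * g, Core.mul_mem (swap_mem _ _) hg, ?_, ?_⟩
          · rw [List.map_cons, Perm.mul_apply, swap_apply_left]
            congr 1
            rw [← hgt]
            apply List.map_congr_left
            intro x hx
            rw [Perm.mul_apply]
            apply swap_apply_of_ne_of_ne
            · intro h
              have := g.injective h
              subst this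
              exact hl.1 hx
            · intro h
              apply hl'.1
              rw [← hgt, ← h]
              exact List.mem_map_of_mem hx
          · intro x hx
            rw [Perm.mul_apply, hgS x hx]
            apply swap_apply_of_ne_of_ne
            · rintro rfl; exact hx hga
            · rintro rfl; exact hx (hS' _ List.mem_cons_self)

theorem exists_fresh (l : List Om) : ∃ x, x ∉ l := by
  obtain ⟨x, hx⟩ := Infinite.exists_notMem_finset l.toFinset
  exact ⟨x, fun h => hx (List.mem_toFinset.mpr h)⟩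

theorem token_lemma (K : Subgroup (Perm Om)) {a b c : Fin 3} (hab : a ≠ b) (hcb : c ≠ b)
    (hca : c ≠ a) (D : ℕ) (hD : 1 ≤ D)
    (h : ∀ g ∈ Core, g * (shift a b hab) ^ D * g⁻¹ ∈ K ∨
      ∀ i j k : ℕ, i ≠ j → i ≠ k → j ≠ k → g * c3 (c, i) (c, j) (c, k) * g⁻¹ ∈ K) :
    (∀ x y z, x ≠ y → x ≠ z → y ≠ z → Tri K x y z) ∨
      ∃ p, (∀ x y z, x ≠ p → y ≠ p → z ≠ p → x ≠ y → x ≠ z → y ≠ z → Tri K x y z) ∧
        ¬ (∀ x y z, x ≠ y → x ≠ z → y ≠ z → Tri K x y z) := by
  have hstar : ∀ x y z d e : Om, [x, z, y, d, e].Nodup →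
      (∀ f, f ≠ d → f ≠ e → ¬ Tri K d e f) → Tri K x y z := by
    intro x y z d e hnd hde
    have hnd0 : [((b, 0) : Om), (b, D), (c, 0), (c, 1), (c, 2)].Nodup := by
      have : (0 : ℕ) ≠ D := by omega
      simp [hcb.symm, this]
    obtain ⟨g, hg, hgm, _⟩ := exists_map_list Set.univ _ _ hnd0 hnd rfl (fun _ _ => trivial)
      (fun _ _ => trivial)
    simp only [List.map_cons, List.map_nil, List.cons.injEq, and_true] at hgm
    obtain ⟨g1, g2, g3, g4, g5⟩ := hgm
    set ρ : Perm Om := swap (b, D) (c, 0) with hρ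
    have hgρ : g * ρ ∈ Core := Core.mul_mem hg (swap_mem _ _)
    have r1 : ρ (c, 1) = (c, 1) := by
      apply swap_apply_of_ne_of_ne <;> simp [hcb]
    have r2 : ρ (c, 2) = (c, 2) := by
      apply swap_apply_of_ne_of_ne <;> simp [hcb]
    simp only [List.nodup_cons, List.mem_cons, List.not_mem_nil, or_false, not_or,
      List.nodup_nil, and_true, not_false_eq_true] at hnd
    obtain ⟨⟨n1, n2, n3, n4⟩, ⟨n5, n6, n7⟩, ⟨n8, n9⟩, n10⟩ := hnd
    rcases h g hg with hP | hQ
    swap
    · exfalso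
      have := hQ 1 2 0 (by decide) (by decide) (by decide)
      rw [conj_c3, g3, g4, g5] at this
      exact hde y n8 n9 this
    rcases h (g * ρ) hgρ with hP' | hQ
    swap
    · exfalso
      have := hQ 1 2 0 (by decide) (by decide) (by decide)
      rw [conj_c3, Perm.mul_apply, Perm.mul_apply, Perm.mul_apply, r1, r2, g4, g5,
        hρ, swap_apply_right, g2] at this
      exact hde z n6 n7 this
    have hm := K.mul_mem (K.inv_mem hP) hP'
    have e1 : (g * (shift a b hab) ^ D * g⁻¹)⁻¹ * (g * ρ * (shift a b hab) ^ D * (g * ρ)⁻¹) =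
        g * ((((shift a b hab) ^ D)⁻¹ * ρ * (((shift a b hab) ^ D)⁻¹)⁻¹) * ρ⁻¹) * g⁻¹ := by
      group
    rw [e1, hρ, ← swap_apply_apply] at hm
    have e2 : ((shift a b hab) ^ D)⁻¹ (b, D) = (b, 0) := by
      rw [Perm.inv_eq_iff_eq, shift_pow_out, zero_add]
    have e3 : ((shift a b hab) ^ D)⁻¹ (c, 0) = (c, 0) := by
      rw [Perm.inv_eq_iff_eq, shift_pow_other hab hca hcb]
    rw [e2, e3, swap_inv, swap_comm (b, D)] at hm
    have hm' : g * c3 (b, 0) (c, 0) (b, D) * g⁻¹ ∈ K := hm
    rw [conj_c3, g1, g2, g3] at hm'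
    exact hm'
  by_cases hall : ∀ d e : Om, d ≠ e → ∃ f, f ≠ d ∧ f ≠ e ∧ Tri K d e f
  · exact Or.inl (Tri.all hall)
  push Not at hall
  obtain ⟨d, e, hde, hno⟩ := hall
  right
  have hnotall : ¬ (∀ x y z, x ≠ y → x ≠ z → y ≠ z → Tri K x y z) := by
    intro hh
    obtain ⟨f, hf⟩ := exists_fresh [d, e]
    simp only [List.mem_cons, List.not_mem_nil, or_false, not_or] at hf
    exact hno f hf.1 hf.2 (hh d e f hde (Ne.symm hf.1) (Ne.symm hf.2))
  have H1 : ∀ x y z, (x ≠ d ∧ x ≠ e) → (y ≠ d ∧ y ≠ e) → (z ≠ d ∧ z ≠ e) →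
      x ≠ y → x ≠ z → y ≠ z → Tri K x y z := by
    intro x y z hx hy hz hxy hxz hyz
    refine hstar x y z d e ?_ hno
    simp only [List.nodup_cons, List.mem_cons, List.not_mem_nil, or_false, not_or,
      List.nodup_nil, and_true, not_false_eq_true]
    exact ⟨⟨hxz, hxy, hx.1, hx.2⟩, ⟨hyz.symm, hz.1, hz.2⟩, ⟨hy.1, hy.2⟩, hde⟩
  by_cases he : ∃ a', a' ≠ d ∧ a' ≠ e ∧ ∀ f, f ≠ e → f ≠ a' → ¬ Tri K e a' f
  · obtain ⟨a', ha1, ha2, ha3⟩ := he
    refine ⟨e, ?_, hnotall⟩
    obtain ⟨s, hs⟩ := exists_fresh [d, e, a']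
    obtain ⟨t, ht⟩ := exists_fresh [d, e, a', s]
    simp only [List.mem_cons, List.not_mem_nil, or_false, not_or] at hs ht
    have h1 : Tri K d s t := by
      refine hstar d s t e a' ?_ ha3
      simp only [List.nodup_cons, List.mem_cons, List.not_mem_nil, or_false, not_or,
        List.nodup_nil, and_true, not_false_eq_true]
      exact ⟨⟨Ne.symm ht.1, Ne.symm hs.1, hde, Ne.symm ha1⟩, ⟨ht.2.2.2, ht.2.1, ht.2.2.1⟩,
        ⟨hs.2.1, hs.2.2⟩, Ne.symm ha2⟩
    have h2 := Tri.extend (fun x => x ≠ d ∧ x ≠ e) (p := d) (by simp) H1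
      (a := s) (b := t) (Ne.symm ht.2.2.2) ⟨hs.1, hs.2.1⟩ ⟨ht.1, ht.2.1⟩ h1
    intro x y z hx hy hz
    apply h2
    · by_cases hh : x = d
      · exact Or.inr hh
      · exact Or.inl ⟨hh, hx⟩
    · by_cases hh : y = d
      · exact Or.inr hh
      · exact Or.inl ⟨hh, hy⟩
    · by_cases hh : z = d
      · exact Or.inr hh
      · exact Or.inl ⟨hh, hz⟩
  · push Not at he
    refine ⟨d, ?_, hnotall⟩
    obtain ⟨a', ha'⟩ := exists_fresh [d, e]
    simp only [List.mem_cons, List.not_mem_nil, or_false, not_or] at ha'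
    obtain ⟨f, hf1, hf2, hf3⟩ := he a' ha'.1 ha'.2
    have hfd : f ≠ d := by
      rintro rfl
      -- Tri K e a' d
      have := (hf3.rot (Ne.symm ha'.2) (Ne.symm hf1) ha'.1).rot ha'.1 ha'.2 hde
      exact hno a' ha'.1 ha'.2 this
    have h2 := Tri.extend (fun x => x ≠ d ∧ x ≠ e) (p := e) (by simp) H1
      (a := a') (b := f) (Ne.symm hf2) ⟨ha'.1, ha'.2⟩ ⟨hfd, hf1⟩ hf3
    intro x y z hx hy hz
    apply h2
    · by_cases hh : x = e
      · exact Or.inr hh
      · exact Or.inl ⟨hx, hh⟩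
    · by_cases hh : y = e
      · exact Or.inr hh
      · exact Or.inl ⟨hy, hh⟩
    · by_cases hh : z = e
      · exact Or.inr hh
      · exact Or.inl ⟨hz, hh⟩

end Pool.Agent.Helper893SD
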