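import Pool.Agent.Helper893_SD.Key2
import Pool.Agent.Helper893_SD.Tokens2

/-!
The second alternative of the key lemma: invariance under three-cycles on a fixed ray.
-/

namespace Pool.Agent.Helper893SD

open Equiv

section Abstract

variable {G : Type*} [Group G]

/-- equality up to a translate by a power of `A` -/
def Eqv (A : G) (S T : Set G) : Prop := ∃ e : ℤ, T = tr (A ^ e) S

theorem Eqv.symm {A : G} {S T : Set G} (h : Eqv A S T) : Eqv A T S := by
  obtain ⟨e, rfl⟩ := h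
  exact ⟨-e, by rw [tr_tr, ← zpow_add, add_neg_cancel, zpow_zero, tr_one]⟩

theorem Eqv.trans {A : G} {S T U : Set G} (h : Eqv A S T) (h' : Eqv A T U) : Eqv A S U := by
  obtain ⟨e, rfl⟩ := h
  obtain ⟨f, rfl⟩ := h'
  exact ⟨e + f, by rw [tr_tr, ← zpow_add]⟩

theorem Eqv.tr {A : G} {S T : Set G} (h : Eqv A S T) {k : G} (hk : Commute A k) :
    Eqv A (tr k S) (tr k T) := by
  obtain ⟨e, rfl⟩ := h
  exact ⟨e, by rw [tr_tr, tr_tr, (hk.zpow_left e).eq]⟩

theorem absL {Q : Type*} [Finite Q] (A : G) (X : Set G) (Y : Q → Set G)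
    (hY : ∀ k, Commute A k → ∃ (q : Q) (e : ℤ), Y q = tr (A ^ e * k) X) (l : ℕ → G)
    (hl : ∀ n, Commute A (l n)) (hl3 : ∀ n, l n * l n = (l n)⁻¹)
    (hu : ∀ m n, m ≠ n → ∃ u, Commute A u ∧ Commute u (l m) ∧ u * l n * u⁻¹ = (l n)⁻¹) :
    ∃ n, ∀ k, Commute A k → Eqv A (tr (k * l n) X) (tr k X) := by
  classical
  have hY' : ∀ k : {k : G // Commute A k}, ∃ q : Q, Eqv A (tr k.1 X) (Y q) := by
    rintro ⟨k, hk⟩
    obtain ⟨q, e, he⟩ := hY k hk
    refine ⟨q, e, ?_⟩
    rw [he, tr_tr, (hk.zpow_left e).eq]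
  choose q hq using hY'
  let F : ℕ → (Q → Q) := fun n q0 =>
    if h : ∃ k, q k = q0 then q ⟨h.choose.1 * l n, h.choose.2.mul_right (hl n)⟩ else q0
  obtain ⟨m, n, hmn, hF⟩ := Finite.exists_ne_map_eq_of_infinite F
  -- step (*)
  have hstar : ∀ k, Commute A k → Eqv A (tr (k * l m) X) (tr (k * l n) X) := by
    intro k hk
    set q0 := q ⟨k, hk⟩ with hq0
    have hex : ∃ k', q k' = q0 := ⟨⟨k, hk⟩, rfl⟩
    have h1 := congrFun hF q0
    simp only [F, dif_pos hex] at h1
    set r := hex.choose with hr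
    have hrq : q r = q0 := hex.choose_spec
    have h2 : Eqv A (tr r.1 X) (tr k X) := by
      have a1 := hq r
      rw [hrq] at a1
      exact a1.trans (hq ⟨k, hk⟩).symm
    have h3 := h2.tr (hl m)
    have h4 := h2.tr (hl n)
    rw [tr_tr, tr_tr] at h3 h4
    have h5 := hq ⟨r.1 * l m, r.2.mul_right (hl m)⟩
    have h6 := hq ⟨r.1 * l n, r.2.mul_right (hl n)⟩
    rw [h1] at h5
    exact h3.symm.trans (h5.trans (h6.symm.trans h4))
  obtain ⟨u, hu1, hu2, hu3⟩ := hu m n hmn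
  have h2 : ∀ k, Commute A k → Eqv A (tr (k * (l n)⁻¹) X) (tr (k * l n) X) := by
    intro k hk
    -- k u l_n u⁻¹
    have a1 := (hstar (k * u) (hk.mul_right hu1)).symm.tr hu1.inv_right
    rw [tr_tr, tr_tr] at a1
    have e1 : k * u * l n * u⁻¹ = k * (l n)⁻¹ := by rw [← hu3]; group
    have e2 : k * u * l m * u⁻¹ = k * l m := by
      rw [mul_assoc k, hu2.eq]; group
    rw [e1, e2] at a1
    exact a1.trans (hstar k hk)
  refine ⟨n, fun k hk => ?_⟩
  have a1 := h2 (k * l n) (hk.mul_right (hl n))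
  rw [mul_inv_cancel_right, mul_assoc, hl3] at a1
  exact (a1.trans (h2 k hk)).symm

theorem absComm {A : G} {X : Set G} {α β : G} (hα : Commute A α) (hβ : Commute A β)
    (h1 : Eqv A (tr α X) X) (h2 : Eqv A (tr β X) X) : tr (α * β * α⁻¹ * β⁻¹) X = X := by
  obtain ⟨a, ha⟩ := h1.symm
  obtain ⟨b, hb⟩ := h2.symm
  have ha' : tr α⁻¹ X = tr (A ^ (-a)) X := by
    have := congrArg (tr (α⁻¹ * A ^ (-a))) ha
    rw [tr_tr, tr_tr] at this
    have e1 : α * (α⁻¹ * A ^ (-a)) = A ^ (-a) := by group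
    have e2 : A ^ a * (α⁻¹ * A ^ (-a)) = α⁻¹ := by
      rw [← mul_assoc, (hα.zpow_left a).inv_right.eq, mul_assoc, ← zpow_add, add_neg_cancel,
        zpow_zero, mul_one]
    rw [e1, e2] at this
    exact this.symm
  have hb' : tr β⁻¹ X = tr (A ^ (-b)) X := by
    have := congrArg (tr (β⁻¹ * A ^ (-b))) hb
    rw [tr_tr, tr_tr] at this
    have e1 : β * (β⁻¹ * A ^ (-b)) = A ^ (-b) := by group
    have e2 : A ^ b * (β⁻¹ * A ^ (-b)) = β⁻¹ := by
      rw [← mul_assoc, (hβ.zpow_left b).inv_right.eq, mul_assoc, ← zpow_add, add_neg_cancel,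
        zpow_zero, mul_one]
    rw [e1, e2] at this
    exact this.symm
  have hc : ∀ (k : G), Commute A k → ∀ (e : ℤ) (S : Set G),
      tr k (tr (A ^ e) S) = tr (A ^ e) (tr k S) := by
    intro k hk e S
    rw [tr_tr, tr_tr, (hk.zpow_left e).eq]
  rw [← tr_tr, ← tr_tr, ← tr_tr, ha, hc β hβ, hb, hc _ hα.inv_right, hc _ hα.inv_right, ha',
    hc _ hβ.inv_right, hc _ hβ.inv_right, hc _ hβ.inv_right, hb', tr_tr, tr_tr, tr_tr,
    ← zpow_add, ← zpow_add, ← zpow_add]
  have e : -b + (-a + (b + a)) = 0 := by ring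
  rw [e, zpow_zero, tr_one]

end Abstract

/-- membership in the ray `c` -/
def inRay (c : Fin 3) : Set Om := {x | x.1 = c}

theorem commute_of_support {c : Fin 3} {A g : Perm Om} (hA : ∀ i, A (c, i) = (c, i))
    (hg : ∀ x, x ∉ inRay c → g x = x) : Commute A g := by
  have hA' : ∀ x ∈ inRay c, A x = x := by
    rintro ⟨j, i⟩ hx
    change j = c at hx
    subst hx
    exact hA i
  show A * g = g * A
  ext1 x
  rw [Perm.mul_apply, Perm.mul_apply]
  by_cases hx : x ∈ inRay c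
  · rw [hA' x hx]
    apply hA'
    by_contra hn
    have h1 := hg _ hn
    have h2 := g.injective h1
    rw [h2] at hn
    exact hn hx
  · rw [hg x hx]
    symm
    apply hg
    intro hn
    have h1 := hA' _ hn
    have h2 := A.injective h1
    rw [h2] at hn
    exact hx hn

theorem c3_sq {x y z : Om} (hxy : x ≠ y) (hxz : x ≠ z) (hyz : y ≠ z) :
    c3 x y z * c3 x y z = c3 x z y := by
  ext1 w
  rw [Perm.mul_apply]
  by_cases h1 : w = x
  · subst h1; rw [c3_apply_1 hxy hxz, c3_apply_2 hxz hyz, c3_apply_1 hxz hxy]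
  by_cases h2 : w = y
  · subst h2; rw [c3_apply_2 hxz hyz, c3_apply_3, c3_apply_3]
  by_cases h3 : w = z
  · subst h3; rw [c3_apply_3, c3_apply_1 hxy hxz, c3_apply_2 hxy hyz.symm]
  rw [c3_apply_4 h1 h2 h3, c3_apply_4 h1 h2 h3, c3_apply_4 h1 h3 h2]

/-- a three-cycle as a commutator -/
theorem c3_comm {x y z u v : Om} (h : [x, y, z, u, v].Nodup) :
    c3 x y z * c3 x u v * (c3 x y z)⁻¹ * (c3 x u v)⁻¹ = c3 x y u := by
  simp only [List.nodup_cons, List.mem_cons, List.not_mem_nil, or_false, not_or,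
    List.nodup_nil, and_true, not_false_eq_true] at h
  obtain ⟨⟨xy, xz, xu, xv⟩, ⟨yz, yu, yv⟩, ⟨zu, zv⟩, uv⟩ := h
  rw [conj_c3, c3_inv xu xv uv, c3_apply_1 xy xz,
    c3_apply_4 (Ne.symm xu) (Ne.symm yu) (Ne.symm zu),
    c3_apply_4 (Ne.symm xv) (Ne.symm yv) (Ne.symm zv)]
  ext1 w
  rw [Perm.mul_apply]
  by_cases h1 : w = x
  · subst h1; rw [c3_apply_1 xv xu, c3_apply_3, c3_apply_1 xy xu]
  by_cases h2 : w = y
  · subst h2
    rw [c3_apply_4 (Ne.symm xy) yv yu, c3_apply_1 yu yv, c3_apply_2 xu yu]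
  by_cases h3 : w = u
  · subst h3
    rw [c3_apply_3, c3_apply_4 xy xu xv, c3_apply_3]
  by_cases h4 : w = v
  · subst h4
    rw [c3_apply_2 xu (Ne.symm uv), c3_apply_2 yv uv,
      c3_apply_4 (Ne.symm xv) (Ne.symm yv) (Ne.symm uv)]
  rw [c3_apply_4 h1 h4 h3, c3_apply_4 h2 h3 h4, c3_apply_4 h1 h2 h3]

/-- The second alternative of the key lemma gives invariance under three-cycles on the ray. -/
theorem ray_invariant {Q : Type*} [Finite Q] {c : Fin 3} (A : Core)
    (hA : ∀ i, A.1 (c, i) = (c, i)) (X : Set Core) (Y : Q → Set Core)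
    (hY : ∀ k, Commute A k → ∃ (q : Q) (e : ℤ), Y q = tr (A ^ e * k) X)
    (i j k : ℕ) (hij : i ≠ j) (hik : i ≠ k) (hjk : j ≠ k) :
    tr (⟨c3 (c, i) (c, j) (c, k), c3_mem _ _ _⟩ : Core) X = X := by
  have hne : ∀ {a b : ℕ}, a ≠ b → ((c, a) : Om) ≠ (c, b) := by
    intro a b h h'
    simp only [Prod.mk.injEq, true_and] at h'
    exact h h'
  have hcm : ∀ g : Core, (∀ x, x ∉ inRay c → g.1 x = x) → Commute A g := by
    intro g hg
    have := commute_of_support hA hg
    exact Subtype.ext this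
  have hin : ∀ a, ((c, a) : Om) ∈ inRay c := fun a => rfl
  have hnin : ∀ {x : Om} {a : ℕ}, x ∉ inRay c → x ≠ (c, a) := by
    rintro x a hx rfl
    exact hx rfl
  have hcc : ∀ a b d : ℕ, Commute A (⟨c3 (c, a) (c, b) (c, d), c3_mem _ _ _⟩ : Core) := by
    intro a b d
    apply hcm
    intro x hx
    exact c3_apply_4 (hnin hx) (hnin hx) (hnin hx)
  obtain ⟨n, hn⟩ := absL A X Y hY
    (fun n => (⟨c3 (c, 3 * n) (c, 3 * n + 1) (c, 3 * n + 2), c3_mem _ _ _⟩ : Core))
    (fun n => hcc _ _ _)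
    (fun n => by
      apply Subtype.ext
      simp only [Subgroup.coe_mul, InvMemClass.coe_inv]
      rw [c3_sq (hne (by omega)) (hne (by omega)) (hne (by omega)),
        c3_inv (hne (by omega)) (hne (by omega)) (hne (by omega))])
    (fun m n hmn => by
      refine ⟨⟨swap (c, 3 * n) (c, 3 * n + 1), swap_mem _ _⟩, ?_, ?_, ?_⟩
      · apply hcm
        intro x hx
        exact swap_apply_of_ne_of_ne (hnin hx) (hnin hx)
      · apply Subtype.ext
        simp only [Subgroup.coe_mul]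
        rw [← mul_inv_eq_iff_eq_mul, mul_assoc]
        have e := swap_apply_apply (c3 (c, 3 * m) (c, 3 * m + 1) (c, 3 * m + 2))
          ((c, 3 * n) : Om) (c, 3 * n + 1)
        rw [c3_apply_4 (hne (by omega)) (hne (by omega)) (hne (by omega)),
          c3_apply_4 (hne (by omega)) (hne (by omega)) (hne (by omega))] at e
        rw [← mul_assoc, mul_inv_eq_iff_eq_mul]
        have e2 := congrArg (fun t => t * c3 (c, 3 * m) (c, 3 * m + 1) (c, 3 * m + 2)) e
        simp only [inv_mul_cancel_right] at e2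
        exact e2
      · apply Subtype.ext
        simp only [Subgroup.coe_mul, InvMemClass.coe_inv]
        rw [conj_c3, swap_apply_left, swap_apply_right,
          swap_apply_of_ne_of_ne (hne (by omega)) (hne (by omega)),
          c3_inv (hne (by omega)) (hne (by omega)) (hne (by omega)),
          c3_rot (hne (by omega)) (hne (by omega)) (hne (by omega))])
  -- every three-cycle on the ray
  have hall : ∀ a b d : ℕ, a ≠ b → a ≠ d → b ≠ d →
      Eqv A (tr (⟨c3 (c, a) (c, b) (c, d), c3_mem _ _ _⟩ : Core) X) X := by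
    intro a b d hab had hbd
    obtain ⟨w, hw, hwm, hwS⟩ := exists_map_list (inRay c)
      [(c, 3 * n), (c, 3 * n + 1), (c, 3 * n + 2)] [(c, a), (c, b), (c, d)]
      (by simp) (by simp [hab, had, hbd]) rfl
      (by
        intro x hx
        simp only [List.mem_cons, List.not_mem_nil, or_false] at hx
        rcases hx with rfl | rfl | rfl <;> rfl)
      (by
        intro x hx
        simp only [List.mem_cons, List.not_mem_nil, or_false] at hx
        rcases hx with rfl | rfl | rfl <;> rfl)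
    simp only [List.map_cons, List.map_nil, List.cons.injEq, and_true] at hwm
    have hwc : Commute A (⟨w, hw⟩ : Core) := hcm _ hwS
    have h1 := (hn ⟨w, hw⟩ hwc).tr hwc.inv_right
    rw [tr_tr, tr_tr, mul_inv_cancel, tr_one] at h1
    have e : (⟨w, hw⟩ : Core) *
        ⟨c3 (c, 3 * n) (c, 3 * n + 1) (c, 3 * n + 2), c3_mem _ _ _⟩ * (⟨w, hw⟩ : Core)⁻¹ =
        ⟨c3 (c, a) (c, b) (c, d), c3_mem _ _ _⟩ := by
      apply Subtype.ext
      simp only [Subgroup.coe_mul, InvMemClass.coe_inv]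
      rw [conj_c3, hwm.1, hwm.2.1, hwm.2.2]
    rw [e] at h1
    exact h1
  obtain ⟨z, hz⟩ := Infinite.exists_notMem_finset ({i, j, k} : Finset ℕ)
  obtain ⟨v, hv⟩ := Infinite.exists_notMem_finset ({i, j, k, z} : Finset ℕ)
  simp only [Finset.mem_insert, Finset.mem_singleton, not_or] at hz hv
  have h1 := absComm (hcc i j z) (hcc i k v) (hall i j z hij (Ne.symm hz.1) (Ne.symm hz.2.1))
    (hall i k v hik (Ne.symm hv.1) (Ne.symm hv.2.2.1))
  have e : (⟨c3 (c, i) (c, j) (c, z), c3_mem _ _ _⟩ : Core) *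
      ⟨c3 (c, i) (c, k) (c, v), c3_mem _ _ _⟩ *
      (⟨c3 (c, i) (c, j) (c, z), c3_mem _ _ _⟩ : Core)⁻¹ *
      (⟨c3 (c, i) (c, k) (c, v), c3_mem _ _ _⟩ : Core)⁻¹ =
      ⟨c3 (c, i) (c, j) (c, k), c3_mem _ _ _⟩ := by
    apply Subtype.ext
    simp only [Subgroup.coe_mul, InvMemClass.coe_inv]
    apply c3_comm
    simp only [List.nodup_cons, List.mem_cons, List.not_mem_nil, or_false, not_or,
      List.nodup_nil, and_true, not_false_eq_true]
    exact ⟨⟨hne hij, hne (Ne.symm hz.1), hne hik, hne (Ne.symm hv.1)⟩,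
      ⟨hne (Ne.symm hz.2.1), hne hjk, hne (Ne.symm hv.2.1)⟩,
      ⟨hne hz.2.2, hne (Ne.symm hv.2.2.2)⟩, hne (Ne.symm hv.2.2.1)⟩
  rw [e] at h1
  exact h1

end Pool.Agent.Helper893SD
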