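import Mathlib

/-!
Permutations of three rays: shifts, swaps and three-cycles.
-/

namespace Pool.Agent.Helper893SD

open Equiv

/-- three rays -/
abbrev Om : Type := Fin 3 × ℕ

/-- the underlying map of the shift from ray `a` into ray `b` -/
def shiftFun (a b : Fin 3) (x : Om) : Om :=
  if x.1 = a then (if x.2 = 0 then (b, 0) else (a, x.2 - 1))
  else if x.1 = b then (b, x.2 + 1) else x

theorem shiftFun_inv {a b : Fin 3} (h : a ≠ b) (x : Om) : shiftFun b a (shiftFun a b x) = x := by
  obtain ⟨j, i⟩ := x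
  simp only [shiftFun]
  by_cases h1 : j = a
  · subst h1
    by_cases h2 : i = 0
    · subst h2
      simp
    · simp only [if_true, h2, if_false]
      rw [if_neg h]
      simp only [Prod.mk.injEq, true_and]
      omega
  · by_cases h2 : j = b
    · subst h2
      simp [h1]
    · simp [h1, h2]

/-- the shift from ray `a` into ray `b` -/
def shift (a b : Fin 3) (h : a ≠ b) : Perm Om where
  toFun := shiftFun a b
  invFun := shiftFun b a
  left_inv := shiftFun_inv h
  right_inv := shiftFun_inv h.symm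

theorem shift_zero {a b : Fin 3} (h : a ≠ b) : shift a b h (a, 0) = (b, 0) := by
  simp [shift, shiftFun]

theorem shift_succ {a b : Fin 3} (h : a ≠ b) (i : ℕ) : shift a b h (a, i + 1) = (a, i) := by
  simp [shift, shiftFun]

theorem shift_out {a b : Fin 3} (h : a ≠ b) (i : ℕ) : shift a b h (b, i) = (b, i + 1) := by
  simp [shift, shiftFun, h.symm]

theorem shift_other {a b c : Fin 3} (h : a ≠ b) (hca : c ≠ a) (hcb : c ≠ b) (i : ℕ) :
    shift a b h (c, i) = (c, i) := by
  simp [shift, shiftFun, hca, hcb]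

theorem shift_inv {a b : Fin 3} (h : a ≠ b) : (shift a b h)⁻¹ = shift b a h.symm := rfl

theorem shift_pow_out {a b : Fin 3} (h : a ≠ b) (D i : ℕ) :
    ((shift a b h) ^ D) (b, i) = (b, i + D) := by
  induction D generalizing i with
  | zero => simp
  | succ D ih =>
      rw [pow_succ, Perm.mul_apply, shift_out, ih]
      congr 1
      omega

theorem shift_pow_other {a b c : Fin 3} (h : a ≠ b) (hca : c ≠ a) (hcb : c ≠ b) (D i : ℕ) :
    ((shift a b h) ^ D) (c, i) = (c, i) := by
  induction D with
  | zero => simp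
  | succ D ih => rw [pow_succ, Perm.mul_apply, shift_other h hca hcb, ih]

/-- the core group, generated by two shifts and one swap -/
def Core : Subgroup (Perm Om) :=
  Subgroup.closure {shift 0 1 (by decide), shift 1 2 (by decide), swap (0, 0) (1, 0)}

theorem shift01_mem : shift 0 1 (by decide) ∈ Core :=
  Subgroup.subset_closure (by simp)

theorem shift12_mem : shift 1 2 (by decide) ∈ Core :=
  Subgroup.subset_closure (by simp)

theorem swap0_mem : swap ((0, 0) : Om) (1, 0) ∈ Core :=
  Subgroup.subset_closure (by simp)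

theorem swap_map_mem {g : Perm Om} (hg : g ∈ Core) {x y : Om} (h : swap x y ∈ Core) :
    swap (g x) (g y) ∈ Core := by
  rw [swap_apply_apply]
  exact Core.mul_mem (Core.mul_mem hg h) (Core.inv_mem hg)

theorem swap_trans_mem {x y z : Om} (h1 : swap x y ∈ Core) (h2 : swap y z ∈ Core) :
    swap x z ∈ Core := by
  by_cases hxy : x = y
  · subst hxy; exact h2
  by_cases hxz : x = z
  · subst hxz; rw [swap_self]; exact Core.one_mem
  have := swap_mul_swap_mul_swap hxy hxz
  rw [swap_comm x z, ← this]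
  exact Core.mul_mem (Core.mul_mem h2 h1) h2

theorem swap_base_mem (x : Om) : swap ((1, 0) : Om) x ∈ Core := by
  have key1 : ∀ i : ℕ, swap ((1, i) : Om) (1, i + 1) ∈ Core := by
    intro i
    induction i with
    | zero =>
        have := swap_map_mem shift01_mem swap0_mem
        rw [shift_zero, shift_out] at this
        simpa using this
    | succ i ih =>
        have := swap_map_mem shift01_mem ih
        rw [shift_out, shift_out] at this
        exact this
  have key0 : ∀ i : ℕ, swap ((0, i + 1) : Om) (0, i) ∈ Core := by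
    intro i
    have hinv : shift 1 0 (by decide) ∈ Core := by
      rw [← shift_inv (a := 0) (b := 1) (by decide)]
      exact Core.inv_mem shift01_mem
    induction i with
    | zero =>
        have := swap_map_mem hinv swap0_mem
        rw [shift_zero, shift_out] at this
        simpa using this
    | succ i ih =>
        have := swap_map_mem hinv ih
        rw [shift_out, shift_out] at this
        exact this
  have h20 : swap ((2, 0) : Om) (1, 0) ∈ Core := by
    have := swap_map_mem shift12_mem (key1 0)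
    rw [shift_zero, zero_add, show ((1 : Fin 3), (1 : ℕ)) = (1, 0 + 1) from rfl, shift_succ] at this
    exact this
  have key2 : ∀ i : ℕ, swap ((2, i + 1) : Om) (2, i) ∈ Core := by
    intro i
    induction i with
    | zero =>
        have := swap_map_mem shift12_mem h20
        rw [shift_zero, shift_out] at this
        simpa using this
    | succ i ih =>
        have := swap_map_mem shift12_mem ih
        rw [shift_out, shift_out] at this
        exact this
  obtain ⟨j, i⟩ := x
  induction i with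
  | zero =>
      fin_cases j
      · simpa [swap_comm] using swap0_mem
      · show swap ((1, 0) : Om) (1, 0) ∈ Core
        rw [swap_self]; exact Core.one_mem
      · simpa [swap_comm] using h20
  | succ i ih =>
      fin_cases j
      · exact swap_trans_mem ih (by simpa [swap_comm] using key0 i)
      · exact swap_trans_mem ih (key1 i)
      · exact swap_trans_mem ih (by simpa [swap_comm] using key2 i)

theorem swap_mem (x y : Om) : swap x y ∈ Core :=
  swap_trans_mem (by rw [swap_comm]; exact swap_base_mem x) (swap_base_mem y)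

/-- the three-cycle `x → y → z → x` -/
def c3 (x y z : Om) : Perm Om := swap x y * swap y z

theorem c3_mem (x y z : Om) : c3 x y z ∈ Core := Core.mul_mem (swap_mem _ _) (swap_mem _ _)

theorem conj_c3 (g : Perm Om) (x y z : Om) : g * c3 x y z * g⁻¹ = c3 (g x) (g y) (g z) := by
  unfold c3
  rw [swap_apply_apply, swap_apply_apply]
  group

theorem c3_apply_1 {x y z : Om} (hxy : x ≠ y) (hxz : x ≠ z) : c3 x y z x = y := by
  rw [c3, Perm.mul_apply, swap_apply_of_ne_of_ne hxy hxz, swap_apply_left]

theorem c3_apply_2 {x y z : Om} (hxz : x ≠ z) (hyz : y ≠ z) : c3 x y z y = z := by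
  rw [c3, Perm.mul_apply, swap_apply_left, swap_apply_of_ne_of_ne hxz.symm hyz.symm]

theorem c3_apply_3 {x y z : Om} : c3 x y z z = x := by
  rw [c3, Perm.mul_apply, swap_apply_right, swap_apply_right]

theorem c3_apply_4 {x y z w : Om} (h1 : w ≠ x) (h2 : w ≠ y) (h3 : w ≠ z) : c3 x y z w = w := by
  rw [c3, Perm.mul_apply, swap_apply_of_ne_of_ne h2 h3, swap_apply_of_ne_of_ne h1 h2]

theorem c3_rot {x y z : Om} (hxy : x ≠ y) (hxz : x ≠ z) (hyz : y ≠ z) : c3 x y z = c3 y z x := by
  ext1 w
  by_cases h1 : w = x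
  · subst h1; rw [c3_apply_1 hxy hxz, c3_apply_3]
  by_cases h2 : w = y
  · subst h2; rw [c3_apply_2 hxz hyz, c3_apply_1 hyz hxy.symm]
  by_cases h3 : w = z
  · subst h3; rw [c3_apply_3, c3_apply_2 hxy.symm hxz.symm]
  rw [c3_apply_4 h1 h2 h3, c3_apply_4 h2 h3 h1]

theorem c3_inv {x y z : Om} (hxy : x ≠ y) (hxz : x ≠ z) (hyz : y ≠ z) :
    (c3 x y z)⁻¹ = c3 x z y := by
  rw [inv_eq_iff_mul_eq_one]
  ext1 w
  rw [Perm.mul_apply, Perm.one_apply]
  by_cases h1 : w = x
  · subst h1; rw [c3_apply_1 hxz hxy, c3_apply_3]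
  by_cases h2 : w = y
  · subst h2; rw [c3_apply_3, c3_apply_1 hxy hxz]
  by_cases h3 : w = z
  · subst h3; rw [c3_apply_2 hxy hyz.symm, c3_apply_2 hxz hyz]
  rw [c3_apply_4 h1 h3 h2, c3_apply_4 h1 h2 h3]

/-- three-cycles in a subgroup, as a relation -/
def Tri (K : Subgroup (Perm Om)) (x y z : Om) : Prop := c3 x y z ∈ K

section Tri

variable {K : Subgroup (Perm Om)} {a b c d e : Om}

theorem Tri.rot (hab : a ≠ b) (hac : a ≠ c) (hbc : b ≠ c) (h : Tri K a b c) : Tri K b c a := by
  unfold Tri at *
  rwa [← c3_rot hab hac hbc]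

theorem Tri.flip (hab : a ≠ b) (hac : a ≠ c) (hbc : b ≠ c) (h : Tri K a b c) : Tri K a c b := by
  unfold Tri at *
  rw [← c3_inv hab hac hbc]
  exact K.inv_mem h

/-- two three-cycles with two common points -/
theorem Tri.four (hab : a ≠ b) (hac : a ≠ c) (had : a ≠ d) (hbc : b ≠ c) (hbd : b ≠ d)
    (hcd : c ≠ d) (h1 : Tri K a b c) (h2 : Tri K a b d) : Tri K b c d ∧ Tri K a c d := by
  constructor
  · -- conjugate (a b c) by (a b d): (b d c)
    have h : Tri K b d c := by
      unfold Tri at *
      have := K.mul_mem (K.mul_mem h2 h1) (K.inv_mem h2)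
      rw [conj_c3, c3_apply_1 hab had, c3_apply_2 had hbd,
        c3_apply_4 hac.symm hbc.symm hcd] at this
      exact this
    exact h.flip hbd hbc hcd.symm
  · -- conjugate (a b c) by the inverse of (a b d)
    have h : Tri K d a c := by
      unfold Tri at *
      have h2' : c3 a d b ∈ K := by
        rw [← c3_inv hab had hbd]
        exact K.inv_mem h2
      have := K.mul_mem (K.mul_mem h2' h1) (K.inv_mem h2')
      rw [conj_c3, c3_apply_1 had hab, c3_apply_3,
        c3_apply_4 hac.symm hcd hbc.symm] at this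
      exact this
    exact h.rot had.symm hcd.symm hac

/-- two three-cycles with one common point -/
theorem Tri.five (hab : a ≠ b) (hac : a ≠ c) (had : a ≠ d) (hae : a ≠ e) (hbc : b ≠ c)
    (hbd : b ≠ d) (hbe : b ≠ e) (hcd : c ≠ d) (hce : c ≠ e) (_hde : d ≠ e)
    (h1 : Tri K a b c) (h2 : Tri K a d e) : Tri K a b d := by
  have h : Tri K d b c := by
    unfold Tri at *
    have := K.mul_mem (K.mul_mem h2 h1) (K.inv_mem h2)
    rw [conj_c3, c3_apply_1 had hae, c3_apply_4 hab.symm hbd hbe,
      c3_apply_4 hac.symm hcd hce] at this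
    exact this
  have h3 : Tri K b c a := h1.rot hab hac hbc
  have h4 : Tri K b c d := h.rot hbd.symm hcd.symm hbc
  have := (Tri.four hbc hab.symm hbd hac.symm hcd had h3 h4).2
  exact this.rot hab.symm hbd had |>.flip had hab hbd.symm

/-- all three-cycles on the tokens with `P`, and one moving `p` -/
theorem Tri.extend (P : Om → Prop) {p : Om} (hPp : ¬ P p)
    (hp : ∀ x y z, P x → P y → P z → x ≠ y → x ≠ z → y ≠ z → Tri K x y z)
    {a b : Om} (hab : a ≠ b) (ha : P a) (hb : P b) (h : Tri K p a b) :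
    ∀ x y z, (P x ∨ x = p) → (P y ∨ y = p) → (P z ∨ z = p) →
      x ≠ y → x ≠ z → y ≠ z → Tri K x y z := by
  have ne : ∀ {x}, P x → x ≠ p := fun hx h => hPp (h ▸ hx)
  have h1 : Tri K a b p := h.rot (ne ha).symm (ne hb).symm hab
  -- c3 p a x
  have h2 : ∀ x, P x → x ≠ a → Tri K p a x := by
    intro x hxp hxa
    by_cases hxb : x = b
    · subst hxb; exact h
    have h3 : Tri K a b x := hp a b x ha hb hxp hab (Ne.symm hxa) (Ne.symm hxb)
    have := (Tri.four hab (ne ha) (Ne.symm hxa) (ne hb) (Ne.symm hxb) (Ne.symm (ne hxp)) h1 h3).2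
    -- a p x
    have h4 := this.rot (ne ha) (Ne.symm hxa) (Ne.symm (ne hxp))
    exact (h4.flip (Ne.symm (ne hxp)) (ne ha).symm hxa)
  have h3 : ∀ x y, P x → P y → x ≠ y → Tri K p x y := by
    intro x y hxp hyp hxy
    by_cases hxa : x = a
    · subst hxa; exact h2 y hyp (Ne.symm hxy)
    by_cases hya : y = a
    · subst hya
      exact (h2 x hxp hxa).flip (ne ha).symm (Ne.symm (ne hxp)) (Ne.symm hxa)
    have h4 : Tri K a x p := (h2 x hxp hxa).rot (ne ha).symm (Ne.symm (ne hxp)) (Ne.symm hxa)
    have h5 : Tri K a x y := hp a x y ha hxp hyp (Ne.symm hxa) (Ne.symm hya) hxy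
    have := (Tri.four (Ne.symm hxa) (ne ha) (Ne.symm hya) (ne hxp) hxy (Ne.symm (ne hyp)) h4 h5).1
    exact (this.rot (ne hxp) hxy (Ne.symm (ne hyp))).flip (Ne.symm (ne hyp)) (Ne.symm (ne hxp))
      (Ne.symm hxy)
  intro x y z hx' hy' hz' hxy hxz hyz
  by_cases hx : x = p
  · subst hx
    exact h3 y z (hy'.resolve_right (Ne.symm hxy)) (hz'.resolve_right (Ne.symm hxz)) hyz
  by_cases hy : y = p
  · subst hy
    exact ((h3 z x (hz'.resolve_right (Ne.symm hyz)) (hx'.resolve_right hx) (Ne.symm hxz)).rot hyz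
      hxy.symm (Ne.symm hxz)).rot (Ne.symm hxz) (Ne.symm hyz) hxy
  by_cases hz : z = p
  · subst hz
    exact (h3 x y (hx'.resolve_right hx) (hy'.resolve_right hy) hxy).rot (Ne.symm hx)
      (Ne.symm hy) hxy
  exact hp x y z (hx'.resolve_right hx) (hy'.resolve_right hy) (hz'.resolve_right hz) hxy hxz hyz

/-- if every pair lies in a three-cycle of `K` then `K` has all three-cycles -/
theorem Tri.all (h : ∀ d e : Om, d ≠ e → ∃ f, f ≠ d ∧ f ≠ e ∧ Tri K d e f) :
    ∀ x y z, x ≠ y → x ≠ z → y ≠ z → Tri K x y z := by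
  obtain ⟨c, hca, hcb, h0⟩ := h (0, 0) (0, 1) (by decide)
  have hab : ((0, 0) : Om) ≠ (0, 1) := by decide
  generalize ((0, 0) : Om) = a at *
  generalize ((0, 1) : Om) = b at *
  have h1 : ∀ d, d ≠ a → d ≠ b → Tri K a b d := by
    intro d hda hdb
    by_cases hdc : d = c
    · subst hdc; exact h0
    obtain ⟨f, hfa, hfd, hf⟩ := h a d (Ne.symm hda)
    by_cases hfb : f = b
    · subst hfb
      exact hf.flip (Ne.symm hda) hab hdb
    by_cases hfc : f = c
    · subst hfc
      have g1 : Tri K a f b := h0.flip hab (Ne.symm hca) (Ne.symm hcb)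
      have g2 : Tri K a f d := hf.flip (Ne.symm hda) (Ne.symm hca) hdc
      exact (Tri.four (Ne.symm hca) hab (Ne.symm hda) hcb (Ne.symm hdc) (Ne.symm hdb) g1 g2).2
    exact Tri.five hab (Ne.symm hca) (Ne.symm hda) (Ne.symm hfa) (Ne.symm hcb) (Ne.symm hdb)
      (Ne.symm hfb) (Ne.symm hdc) (Ne.symm hfc) (Ne.symm hfd) h0 hf
  have h2 : ∀ d e, d ≠ a → e ≠ a → d ≠ e → Tri K a d e := by
    intro d e hda hea hde
    by_cases hdb : d = b
    · subst hdb; exact h1 e hea (Ne.symm hde)
    by_cases heb : e = b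
    · subst heb; exact (h1 d hda hdb).flip hab (Ne.symm hda) (Ne.symm hdb)
    exact (Tri.four hab (Ne.symm hda) (Ne.symm hea) (Ne.symm hdb) (Ne.symm heb) hde
      (h1 d hda hdb) (h1 e hea heb)).2
  intro x y z hxy hxz hyz
  by_cases hx : x = a
  · subst hx; exact h2 y z (Ne.symm hxy) (Ne.symm hxz) hyz
  by_cases hy : y = a
  · subst hy
    exact ((h2 z x (Ne.symm hyz) hx (Ne.symm hxz)).rot hyz hxy.symm (Ne.symm hxz)).rot
      (Ne.symm hxz) (Ne.symm hyz) hxy
  by_cases hz : z = a
  · subst hz
    exact (h2 x y hx hy hxy).rot (Ne.symm hx) (Ne.symm hy) hxy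
  exact (Tri.four (Ne.symm hx) (Ne.symm hy) (Ne.symm hz) hxy hxz hyz
    (h2 x y hx hy hxy) (h2 x z hx hz hxz)).1

end Tri

end Pool.Agent.Helper893SD
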