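import Pool.Agent.Helper893_SD.Tokens2

/-!
Eventual translations, and reduction modulo a large subgroup.
-/

namespace Pool.Agent.Helper893SD

open Equiv

/-- eventually a translation by `t j` on ray `j` -/
def ET (g : Perm Om) (t : Fin 3 → ℤ) : Prop :=
  ∃ N : ℕ, ∀ (j : Fin 3) (i : ℕ), N ≤ i → (g (j, i)).1 = j ∧ ((g (j, i)).2 : ℤ) = i + t j

theorem exists_bound (t : Fin 3 → ℤ) : ∃ M : ℕ, ∀ j, |t j| ≤ M := by
  refine ⟨(∑ j, |t j|).toNat, fun j => ?_⟩
  have h1 : |t j| ≤ ∑ j, |t j| := Finset.single_le_sum (fun i _ => abs_nonneg (t i))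
    (Finset.mem_univ j)
  have h2 : 0 ≤ ∑ j, |t j| := Finset.sum_nonneg (fun i _ => abs_nonneg (t i))
  rw [Int.toNat_of_nonneg h2]
  exact h1

theorem ET.mul {g g' : Perm Om} {t t' : Fin 3 → ℤ} (h : ET g t) (h' : ET g' t') :
    ET (g * g') (t + t') := by
  obtain ⟨N, hN⟩ := h
  obtain ⟨N', hN'⟩ := h'
  obtain ⟨M, hM⟩ := exists_bound t'
  refine ⟨N + N' + M, fun j i hi => ?_⟩
  obtain ⟨h1, h2⟩ := hN' j i (by omega)
  have hb := hM j
  rw [abs_le] at hb
  have e : g' (j, i) = (j, (g' (j, i)).2) := Prod.ext h1 rfl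
  obtain ⟨h3, h4⟩ := hN j (g' (j, i)).2 (by omega)
  rw [Perm.mul_apply, e]
  refine ⟨h3, ?_⟩
  rw [h4, h2, Pi.add_apply]
  ring

theorem ET.inv {g : Perm Om} {t : Fin 3 → ℤ} (h : ET g t) : ET g⁻¹ (-t) := by
  obtain ⟨N, hN⟩ := h
  obtain ⟨M, hM⟩ := exists_bound t
  refine ⟨N + M, fun j i hi => ?_⟩
  have hb := hM j
  rw [abs_le] at hb
  obtain ⟨i', hi'⟩ : ∃ i' : ℕ, (i' : ℤ) = i - t j := ⟨((i : ℤ) - t j).toNat, by
    rw [Int.toNat_of_nonneg]; omega⟩
  obtain ⟨h1, h2⟩ := hN j i' (by omega)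
  have e : g (j, i') = (j, i) := by
    refine Prod.ext h1 ?_
    have : ((g (j, i')).2 : ℤ) = i := by rw [h2, hi']; ring
    exact_mod_cast this
  have e2 : g⁻¹ (j, i) = (j, i') := by
    rw [Perm.inv_eq_iff_eq, e]
  rw [e2]
  refine ⟨rfl, ?_⟩
  simp only [Pi.neg_apply]
  rw [hi']
  ring

theorem ET.one : ET 1 0 := ⟨0, fun j i _ => by simp⟩

theorem ET.swap (x y : Om) : ET (Equiv.swap x y) 0 := by
  refine ⟨x.2 + y.2 + 1, fun j i hi => ?_⟩
  have h : Equiv.swap x y (j, i) = (j, i) := by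
    apply swap_apply_of_ne_of_ne
    · rintro rfl; simp only at hi; omega
    · rintro rfl; simp only at hi; omega
  rw [h]
  simp

/-- the possible translation vectors -/
def tau (x y : ℤ) : Fin 3 → ℤ := ![-y, y - x, x]

theorem tau_add (x y x' y' : ℤ) : tau x y + tau x' y' = tau (x + x') (y + y') := by
  ext j
  fin_cases j <;> simp [tau] <;> ring

theorem tau_neg (x y : ℤ) : -tau x y = tau (-x) (-y) := by
  ext j
  fin_cases j <;> simp [tau] <;> ring

theorem tau_zero : tau 0 0 = 0 := by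
  ext j
  fin_cases j <;> simp [tau]

theorem ET_shift01 : ET (shift 0 1 (by decide)) (tau 0 1) := by
  refine ⟨1, fun j i hi => ?_⟩
  obtain ⟨i, rfl⟩ : ∃ k, i = k + 1 := ⟨i - 1, by omega⟩
  fin_cases j
  · have := shift_succ (a := 0) (b := 1) (by decide) i
    simp only [Fin.zero_eta, Fin.isValue, this]
    simp [tau]
  · have := shift_out (a := 0) (b := 1) (by decide) (i + 1)
    simp only [Fin.mk_one, Fin.isValue, this]
    simp [tau]
  · have := shift_other (a := 0) (b := 1) (c := 2) (by decide) (by decide) (by decide) (i + 1)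
    simp only [Fin.reduceFinMk, Fin.isValue, this]
    simp [tau]

theorem ET_shift12 : ET (shift 1 2 (by decide)) (tau 1 0) := by
  refine ⟨1, fun j i hi => ?_⟩
  obtain ⟨i, rfl⟩ : ∃ k, i = k + 1 := ⟨i - 1, by omega⟩
  fin_cases j
  · have := shift_other (a := 1) (b := 2) (c := 0) (by decide) (by decide) (by decide) (i + 1)
    simp only [Fin.zero_eta, Fin.isValue, this]
    simp [tau]
  · have := shift_succ (a := 1) (b := 2) (by decide) i
    simp only [Fin.mk_one, Fin.isValue, this]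
    simp [tau]
  · have := shift_out (a := 1) (b := 2) (by decide) (i + 1)
    simp only [Fin.reduceFinMk, Fin.isValue, this]
    simp [tau]

theorem core_ET {g : Perm Om} (hg : g ∈ Core) : ∃ x y : ℤ, ET g (tau x y) := by
  induction hg using Subgroup.closure_induction with
  | mem g hg =>
      simp only [Set.mem_insert_iff, Set.mem_singleton_iff] at hg
      rcases hg with rfl | rfl | rfl
      · exact ⟨0, 1, ET_shift01⟩
      · exact ⟨1, 0, ET_shift12⟩
      · exact ⟨0, 0, by rw [tau_zero]; exact ET.swap _ _⟩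
  | one => exact ⟨0, 0, by rw [tau_zero]; exact ET.one⟩
  | mul g g' _ _ ih ih' =>
      obtain ⟨x, y, h⟩ := ih
      obtain ⟨x', y', h'⟩ := ih'
      exact ⟨x + x', y + y', by rw [← tau_add]; exact h.mul h'⟩
  | inv g _ ih =>
      obtain ⟨x, y, h⟩ := ih
      exact ⟨-x, -y, by rw [← tau_neg]; exact h.inv⟩

theorem ET.pow {g : Perm Om} {x y : ℤ} (h : ET g (tau x y)) (n : ℕ) :
    ET (g ^ n) (tau (n * x) (n * y)) := by
  induction n with
  | zero => simpa [tau_zero] using ET.one
  | succ n ih =>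
      rw [pow_succ]
      have := ih.mul h
      rw [tau_add] at this
      convert this using 2 <;> push_cast <;> ring

theorem ET.zpow {g : Perm Om} {x y : ℤ} (h : ET g (tau x y)) (n : ℤ) :
    ET (g ^ n) (tau (n * x) (n * y)) := by
  obtain ⟨m, rfl | rfl⟩ := n.eq_nat_or_neg
  · rw [zpow_natCast]
    exact_mod_cast h.pow m
  · rw [zpow_neg, zpow_natCast]
    have := (h.pow m).inv
    rw [tau_neg] at this
    convert this using 2 <;> ring

theorem ET.finite {g : Perm Om} (h : ET g 0) : {x | g x ≠ x}.Finite := by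
  obtain ⟨N, hN⟩ := h
  apply Set.Finite.subset (s := (Set.univ : Set (Fin 3)) ×ˢ Set.Iio N)
  · exact Set.Finite.prod Set.finite_univ (Set.finite_Iio N)
  · rintro ⟨j, i⟩ hx
    simp only [Set.mem_prod, Set.mem_univ, Set.mem_Iio, true_and]
    by_contra hi
    obtain ⟨h1, h2⟩ := hN j i (by omega)
    apply hx
    refine Prod.ext h1 ?_
    have : ((g (j, i)).2 : ℤ) = i := by simpa using h2
    exact_mod_cast this

/-- finitary permutations fixing `w` are generated by swaps avoiding `w` -/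
theorem finitary_mem_closure {g : Perm Om} (h : {x | g x ≠ x}.Finite) {w : Om} (hw : g w = w) :
    g ∈ Subgroup.closure {s : Perm Om | ∃ x y, x ≠ w ∧ y ≠ w ∧ x ≠ y ∧ s = Equiv.swap x y} := by
  have hS : ∀ f ∈ {s : Perm Om | ∃ x y, x ≠ w ∧ y ≠ w ∧ x ≠ y ∧ s = Equiv.swap x y},
      f.IsSwap := by
    rintro f ⟨x, y, _, _, hxy, rfl⟩
    exact ⟨x, y, hxy, rfl⟩
  rw [mem_closure_isSwap hS]
  constructor
  · have e : (MulAction.fixedBy Om g)ᶜ = {x | g x ≠ x} := by
      ext x
      simp [MulAction.mem_fixedBy]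
    rw [e]
    exact h
  · intro x
    by_cases hx : g x = x
    · rw [hx]
      exact MulAction.mem_orbit_self x
    · have hxw : x ≠ w := by rintro rfl; exact hx hw
      have hgw : g x ≠ w := by
        intro h1
        apply hxw
        apply g.injective
        rw [h1, hw]
      refine ⟨⟨Equiv.swap x (g x), Subgroup.subset_closure ⟨x, g x, hxw, hgw, Ne.symm hx, rfl⟩⟩, ?_⟩
      show Equiv.swap x (g x) x = g x
      exact swap_apply_left _ _

theorem two_swaps {K : Subgroup (Perm Om)} {w : Om}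
    (hK : ∀ x y z, x ≠ w → y ≠ w → z ≠ w → x ≠ y → x ≠ z → y ≠ z → c3 x y z ∈ K)
    {x y u v : Om} (hx : x ≠ w) (hy : y ≠ w) (hu : u ≠ w) (hv : v ≠ w) (hxy : x ≠ y)
    (huv : u ≠ v) : Equiv.swap x y * Equiv.swap u v ∈ K := by
  have key : ∀ x u v : Om, x ≠ w → u ≠ w → v ≠ w → x ≠ u → u ≠ v →
      Equiv.swap x u * Equiv.swap u v ∈ K := by
    intro x u v hx hu hv hxu huv
    by_cases hxv : x = v
    · subst hxv
      rw [swap_comm u x, swap_mul_self]
      exact K.one_mem
    · exact hK x u v hx hu hv hxu hxv huv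
  by_cases hyu : y = u
  · subst hyu
    exact key x y v hx hy hv hxy huv
  · have e : Equiv.swap x y * Equiv.swap u v =
        (Equiv.swap x y * Equiv.swap y u) * (Equiv.swap y u * Equiv.swap u v) := by
      rw [mul_assoc, ← mul_assoc (Equiv.swap y u), swap_mul_self, one_mul]
    rw [e]
    exact K.mul_mem (key x y u hx hy hu hxy hyu) (key y u v hy hu hv hyu huv)

theorem closure_swaps_cases {K : Subgroup (Perm Om)} {w : Om}
    (hK : ∀ x y z, x ≠ w → y ≠ w → z ≠ w → x ≠ y → x ≠ z → y ≠ z → c3 x y z ∈ K)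
    {s1 s2 : Om} (h1 : s1 ≠ w) (h2 : s2 ≠ w) (h12 : s1 ≠ s2) {g : Perm Om}
    (hg : g ∈ Subgroup.closure {s : Perm Om | ∃ x y, x ≠ w ∧ y ≠ w ∧ x ≠ y ∧
      s = Equiv.swap x y}) :
    g ∈ K ∨ g * Equiv.swap s1 s2 ∈ K := by
  induction hg using Subgroup.closure_induction_right with
  | one => exact Or.inl K.one_mem
  | mul_right x hx y hy ih =>
      obtain ⟨u, v, hu, hv, huv, rfl⟩ := hy
      rcases ih with ih | ih
      · right
        rw [mul_assoc]
        exact K.mul_mem ih (two_swaps hK hu hv h1 h2 huv h12)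
      · left
        have e : x * Equiv.swap u v = (x * Equiv.swap s1 s2) *
            (Equiv.swap s1 s2 * Equiv.swap u v) := by
          rw [mul_assoc, ← mul_assoc (Equiv.swap s1 s2), swap_mul_self, one_mul]
        rw [e]
        exact K.mul_mem ih (two_swaps hK h1 h2 hu hv h12 huv)
  | mul_inv_cancel x hx y hy ih =>
      obtain ⟨u, v, hu, hv, huv, rfl⟩ := hy
      rw [swap_inv]
      rcases ih with ih | ih
      · right
        rw [mul_assoc]
        exact K.mul_mem ih (two_swaps hK hu hv h1 h2 huv h12)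
      · left
        have e : x * Equiv.swap u v = (x * Equiv.swap s1 s2) *
            (Equiv.swap s1 s2 * Equiv.swap u v) := by
          rw [mul_assoc, ← mul_assoc (Equiv.swap s1 s2), swap_mul_self, one_mul]
        rw [e]
        exact K.mul_mem ih (two_swaps hK h1 h2 hu hv h12 huv)

end Pool.Agent.Helper893SD
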